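import Pool.Agent.Helper82.Bnd

set_option autoImplicit false

namespace Pool.Agent.Helper82

theorem e_sq_lo (u : ℝ) (h0 : 0 ≤ u) (h4 : u ≤ 4) :
    (4 - 2 * u) ^ 2 ≤ ((u ^ 2 + 8) / (u + 2)) ^ 2 := by
  have h2 : 0 < u + 2 := by linarith
  apply sq_le_sq'
  · rw [← neg_div, div_le_iff₀ h2]; nlinarith
  · rw [le_div_iff₀ h2]; nlinarith

theorem e_hi (u : ℝ) (h0 : 0 ≤ u) (h4 : u ≤ 4) : (u ^ 2 + 8) / (u + 2) ≤ 4 := by
  have h2 : 0 < u + 2 := by linarith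
  rw [div_le_iff₀ h2]; nlinarith

theorem e_pos (u : ℝ) (h0 : 0 ≤ u) : 0 < (u ^ 2 + 8) / (u + 2) := by positivity

/-- lower bound for the radicand -/
theorem rad_lo1 (u : ℝ) (h0 : 0 ≤ u) (h4 : u ≤ 4) :
    16 + 32 * u ^ 2 ≤ 32 * (1 + u ^ 2) - ((u ^ 2 + 8) / (u + 2)) ^ 2 := by
  have h1 := e_hi u h0 h4
  have h2 := e_pos u h0
  nlinarith

theorem rad_lo2 (u : ℝ) (h0 : 0 ≤ u) :
    (4 + 2 * u) ^ 2 ≤ 32 * (1 + u ^ 2) - ((u ^ 2 + 8) / (u + 2)) ^ 2 := by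
  have h2 : 0 < u + 2 := by linarith
  have h3 : ((u ^ 2 + 8) / (u + 2)) ^ 2 ≤ 16 - 16 * u + 28 * u ^ 2 := by
    rw [div_pow, div_le_iff₀ (by positivity)]
    have : 0 ≤ u * (27 * u ^ 3 + 96 * u ^ 2 + 48 * u) := by positivity
    nlinarith
  linarith

theorem S1_eq (u : ℝ) (h0 : 0 ≤ u) : S 1 u = u := by
  have h2 : u + 2 ≠ 0 := by positivity
  rw [S_succ, S_zero, D_zero]; field_simp; ring

theorem D1_sq (u : ℝ) (h0 : 0 ≤ u) (h4 : u ≤ 4) :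
    0 < D 1 u ∧ D 1 u ^ 2 = 32 * (1 + u ^ 2) - ((u ^ 2 + 8) / (u + 2)) ^ 2 := by
  have h := rad_lo1 u h0 h4
  have e : D 1 u = Real.sqrt (32 * (1 + u ^ 2) - ((u ^ 2 + 8) / (u + 2)) ^ 2) := by
    rw [D_succ, S1_eq u h0, D_zero]
  rw [e]
  have hp : 0 < 32 * (1 + u ^ 2) - ((u ^ 2 + 8) / (u + 2)) ^ 2 := by nlinarith [sq_nonneg u]
  exact ⟨Real.sqrt_pos.mpr hp, Real.sq_sqrt hp.le⟩

theorem D1_lo (u : ℝ) (h0 : 0 ≤ u) (h4 : u ≤ 4) : 4 + 2 * u ≤ D 1 u := by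
  obtain ⟨h1, h2⟩ := D1_sq u h0 h4
  apply le_of_sq_le_sq _ h1.le
  rw [h2]; exact rad_lo2 u h0

theorem D1_lo' (u : ℝ) (h0 : 0 ≤ u) (h4 : u ≤ 4) : 16 + 32 * u ^ 2 ≤ D 1 u ^ 2 := by
  rw [(D1_sq u h0 h4).2]; exact rad_lo1 u h0 h4

theorem D1_hi (u : ℝ) (h0 : 0 ≤ u) (h4 : u ≤ 4) : D 1 u ^ 2 ≤ 16 + 16 * u + 28 * u ^ 2 := by
  rw [(D1_sq u h0 h4).2]
  have := e_sq_lo u h0 h4
  linarith

/-- first order quantity at level one -/
noncomputable def eta1 (u : ℝ) : ℝ := (1 + u ^ 2) * P 1 u - (1 + (u + D 1 u) * u)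

theorem eta1_eq (u : ℝ) (h0 : 0 ≤ u) (h4 : u ≤ 4) :
    eta1 u * (D 1 u * (u + 2) ^ 3) =
      (u ^ 2 + 8) * (-2 * u ^ 3 + 15 * u ^ 2 + 12 * u + 8) := by
  obtain ⟨h1, h2⟩ := D1_sq u h0 h4
  have h3 : u + 2 ≠ 0 := by positivity
  have hP : (P 1 u - 1) * D 1 u = 32 * u - (u ^ 2 + 8) / (u + 2) * (1 - 12 / (u + 2) ^ 2) := by
    rw [P_succ, S1_eq u h0, P_zero, D_zero]
    field_simp
    ring
  have e : eta1 u * (D 1 u * (u + 2) ^ 3) =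
      ((1 + u ^ 2) * ((P 1 u - 1) * D 1 u) - u * D 1 u ^ 2) * (u + 2) ^ 3 := by
    unfold eta1; ring
  rw [e, hP, h2]
  field_simp
  ring

theorem eta1_nonneg (u : ℝ) (h0 : 0 ≤ u) (h4 : u ≤ 4) : 0 ≤ eta1 u := by
  obtain ⟨h1, h2⟩ := D1_sq u h0 h4
  have h := eta1_eq u h0 h4
  have h3 : 0 ≤ (u ^ 2 + 8) * (-2 * u ^ 3 + 15 * u ^ 2 + 12 * u + 8) := by
    apply mul_nonneg (by positivity)
    nlinarith [mul_nonneg (sq_nonneg u) (show 0 ≤ 4 - u by linarith)]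
  rw [← h] at h3
  exact nonneg_of_mul_nonneg_left h3 (by positivity)

theorem eta1_le (u : ℝ) (h0 : 0 ≤ u) (h4 : u ≤ 4) : eta1 u ≤ 2 := by
  obtain ⟨h1, h2⟩ := D1_sq u h0 h4
  have h := eta1_eq u h0 h4
  have h5 := D1_lo u h0 h4
  have h6 : (u ^ 2 + 8) * (-2 * u ^ 3 + 15 * u ^ 2 + 12 * u + 8) ≤
      2 * ((4 + 2 * u) * (u + 2) ^ 3) := by
    have : 0 ≤ u * (2 * u ^ 4 - 11 * u ^ 3 + 36 * u ^ 2 - 32 * u + 32) := by
      apply mul_nonneg h0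
      nlinarith [sq_nonneg (u ^ 2 * 2 - 11 / 2 * u), sq_nonneg (u - 1), sq_nonneg u,
        sq_nonneg (u ^ 2 - 11 / 4 * u)]
    nlinarith
  have h7 : 2 * ((4 + 2 * u) * (u + 2) ^ 3) ≤ 2 * (D 1 u * (u + 2) ^ 3) := by
    have := mul_le_mul_of_nonneg_right h5 (show 0 ≤ (u + 2) ^ 3 by positivity)
    linarith
  have h8 : eta1 u * (D 1 u * (u + 2) ^ 3) ≤ 2 * (D 1 u * (u + 2) ^ 3) := by
    rw [h]; linarith
  exact le_of_mul_le_mul_right h8 (by positivity)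

theorem D1_hi2 (u : ℝ) (h0 : 0 ≤ u) (h4 : u ≤ 4) : D 1 u ≤ 4 + 2 * u + 3 * u ^ 2 := by
  apply le_of_sq_le_sq _ (by positivity)
  have := D1_hi u h0 h4
  have h3 : 0 ≤ u ^ 3 := by positivity
  have h5 : 0 ≤ u ^ 4 := by positivity
  nlinarith

theorem eta1_ge (u : ℝ) (h0 : 0 ≤ u) (h4 : u ≤ 4) : 2 - u ≤ eta1 u := by
  rcases le_total u 2 with h | h
  · obtain ⟨h1, h2⟩ := D1_sq u h0 h4
    have hE := eta1_eq u h0 h4
    have h5 := D1_hi2 u h0 h4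
    have h6 : (2 - u) * ((4 + 2 * u + 3 * u ^ 2) * (u + 2) ^ 3) ≤
        (u ^ 2 + 8) * (-2 * u ^ 3 + 15 * u ^ 2 + 12 * u + 8) := by
      have : (u ^ 2 + 8) * (-2 * u ^ 3 + 15 * u ^ 2 + 12 * u + 8) -
        (2 - u) * ((4 + 2 * u + 3 * u ^ 2) * (u + 2) ^ 3)
        = u ^ 2 * (48 - 36 * u + 27 * u ^ 2 + 12 * u ^ 3 + 3 * u ^ 4)  := by ring
      have h7 : 0 ≤ u ^ 2 * (48 - 36 * u + 27 * u ^ 2 + 12 * u ^ 3 + 3 * u ^ 4) := by
        apply mul_nonneg (by positivity)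
        have : 0 ≤ u ^ 4 := by positivity
        have : 0 ≤ u ^ 3 := by positivity
        nlinarith [sq_nonneg (u - 1)]
      linarith
    have h7 : (2 - u) * (D 1 u * (u + 2) ^ 3) ≤ (2 - u) * ((4 + 2 * u + 3 * u ^ 2) * (u + 2) ^ 3) := by
      apply mul_le_mul_of_nonneg_left _ (by linarith)
      exact mul_le_mul_of_nonneg_right h5 (by positivity)
    have h8 : (2 - u) * (D 1 u * (u + 2) ^ 3) ≤ eta1 u * (D 1 u * (u + 2) ^ 3) := by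
      rw [hE]; linarith
    exact le_of_mul_le_mul_right h8 (by positivity)
  · linarith [eta1_nonneg u h0 h4]


theorem P0_pos (u : ℝ) (h0 : 0 ≤ u) : 1 / 3 ≤ P 0 u := by
  rw [P_zero]; nlinarith

theorem P1_mul (u : ℝ) : (1 + u ^ 2) * P 1 u = 1 + (u + D 1 u) * u + eta1 u := by
  unfold eta1; ring

theorem P1_pos (u : ℝ) (h0 : 0 ≤ u) (h4 : u ≤ 4) : 0 < P 1 u := by
  have h1 := (D1_sq u h0 h4).1
  have h2 := eta1_nonneg u h0 h4
  have h3 : 0 < (1 + u ^ 2) * P 1 u := by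
    rw [P1_mul]; positivity
  exact (mul_pos_iff_of_pos_left (by positivity)).mp h3

theorem G1_identity (u : ℝ) (h0 : 0 ≤ u) (h4 : u ≤ 4) :
    G 1 u * D 1 u ^ 2 * (u + 2) ^ 6 =
      24 * (5 * u ^ 6 + 432 * u ^ 5 + 2184 * u ^ 4 + 4352 * u ^ 3 + 5184 * u ^ 2 +
        3072 * u + 512) := by
  obtain ⟨h1, h2⟩ := D1_sq u h0 h4
  have h3 : u + 2 ≠ 0 := by positivity
  have hG : G 1 u * D 1 u ^ 2 = (32 - (1 - 1 / P 0 u) ^ 2 - G 0 u / P 0 u ^ 3) * D 1 u ^ 2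
      - (32 * u - D 0 u * (1 - 1 / P 0 u)) ^ 2 := by
    rw [G_succ', S1_eq u h0]
    field_simp
    ring
  rw [hG, h2, P_zero, G_zero, D_zero]
  field_simp
  ring

theorem G1_nonneg (u : ℝ) (h0 : 0 ≤ u) (h4 : u ≤ 4) : 0 ≤ G 1 u := by
  obtain ⟨h1, h2⟩ := D1_sq u h0 h4
  have h := G1_identity u h0 h4
  have h3 : 0 ≤ G 1 u * (D 1 u ^ 2 * (u + 2) ^ 6) := by
    rw [← mul_assoc, h]; positivity
  exact nonneg_of_mul_nonneg_left h3 (by positivity)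

theorem D0_pos (u : ℝ) (h0 : 0 ≤ u) : 0 < D 0 u := by rw [D_zero]; positivity

theorem G0_nonneg (u : ℝ) : 0 ≤ G 0 u := by rw [G_zero]; positivity

theorem G1_le (u : ℝ) (h0 : 0 ≤ u) (h4 : u ≤ 4) : G 1 u * (1 + u ^ 2) ≤ 32 := by
  obtain ⟨h1, h2⟩ := D1_sq u h0 h4
  have hs : S 0 u + D 0 u = u := by rw [← S_succ, S1_eq u h0]
  have hG := step_g (S 0 u) (D 0 u) (P 0 u) (D 1 u) (P 1 u) h1.ne'
    (by rw [hs, h2, D_zero]) (by rw [P_succ, S_succ])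
  rw [hs] at hG
  have hG2 := G_succ 0 u
  have e : 32 - (P 1 u - 1) ^ 2 - (1 - 1 / P 0 u) ^ 2 = G 1 u + G 0 u / P 0 u ^ 3 := by
    rw [hG2]; ring
  rw [e] at hG
  have hP : 0 < P 0 u := by linarith [P0_pos u h0]
  have hg0 : 0 ≤ G 0 u / P 0 u ^ 3 := div_nonneg (G0_nonneg u) (by positivity)
  have hD := D0_pos u h0
  have hD2 : 0 < D 0 u ^ 2 := by positivity
  have h3 : (G 1 u * (1 + u ^ 2)) * D 0 u ^ 2 ≤ 32 * D 0 u ^ 2 := by
    have h5 : 0 ≤ (1 + u ^ 2) * (G 0 u / P 0 u ^ 3) * D 0 u ^ 2 := by positivity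
    nlinarith [sq_nonneg ((1 + u ^ 2) * P 1 u - (1 + (u + D 1 u) * u))]
  exact le_of_mul_le_mul_right h3 hD2


theorem D2_sq (u : ℝ) (h0 : 0 ≤ u) (h4 : u ≤ 4) :
    0 < D 2 u ∧ D 2 u ^ 2 = 32 * (1 + (u + D 1 u) ^ 2) - D 1 u ^ 2 := by
  have h1 := (D1_sq u h0 h4).1
  have e : D 2 u = Real.sqrt (32 * (1 + (u + D 1 u) ^ 2) - D 1 u ^ 2) := by
    rw [D_succ, S_succ, S1_eq u h0]
  rw [e]
  have hp : 0 < 32 * (1 + (u + D 1 u) ^ 2) - D 1 u ^ 2 := by nlinarith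
  exact ⟨Real.sqrt_pos.mpr hp, Real.sq_sqrt hp.le⟩

/-- auxiliary inequality for level two, near part -/
theorem near_ineq (u d η s B : ℝ) (h0 : 0 ≤ u) (h1 : u ≤ 1) (hs : s = u + d)
    (hd : 4 + 2 * u ≤ d) (hd2 : d ≤ 4 + 2 * u + 3 * u ^ 2)
    (hd3 : d ^ 2 ≤ 16 + 16 * u + 28 * u ^ 2) (hη : 2 - u ≤ η) (hB : B = 1 + s * u + η) :
    (1 + s ^ 2) * (1 + u ^ 2) ^ 2 ≤ B * (B ^ 2 - d ^ 2 / 31) := by
  have hs1 : 4 + 3 * u ≤ s := by linarith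
  have hs2 : s ≤ 4 + 3 * u + 3 * u ^ 2 := by linarith
  have hB1 : 3 + 3 * u + 3 * u ^ 2 ≤ B := by
    have := mul_le_mul_of_nonneg_right hs1 h0
    nlinarith
  have e1 : (1 + s ^ 2) * (1 + u ^ 2) ^ 2 ≤ (1 + (4 + 3 * u + 3 * u ^ 2) ^ 2) * (1 + u ^ 2) ^ 2 := by
    apply mul_le_mul_of_nonneg_right _ (by positivity)
    have : s ^ 2 ≤ (4 + 3 * u + 3 * u ^ 2) ^ 2 := pow_le_pow_left₀ (by linarith) hs2 2
    linarith
  have e2 : (3 + 3 * u + 3 * u ^ 2) * ((3 + 3 * u + 3 * u ^ 2) ^ 2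
      - (16 + 16 * u + 28 * u ^ 2) / 31) ≤ B * (B ^ 2 - d ^ 2 / 31) := by
    apply mul_le_mul hB1 _ _ (by nlinarith)
    · have : (3 + 3 * u + 3 * u ^ 2) ^ 2 ≤ B ^ 2 := pow_le_pow_left₀ (by positivity) hB1 2
      linarith
    · nlinarith [mul_nonneg h0 h0]
  have e3 : (1 + (4 + 3 * u + 3 * u ^ 2) ^ 2) * (1 + u ^ 2) ^ 2 ≤
      (3 + 3 * u + 3 * u ^ 2) * ((3 + 3 * u + 3 * u ^ 2) ^ 2
      - (16 + 16 * u + 28 * u ^ 2) / 31) := by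
    have b1 : 0 ≤ u * (1 - u) := mul_nonneg h0 (by linarith)
    have b2 : 0 ≤ u ^ 2 * (1 - u) := mul_nonneg (by positivity) (by linarith)
    have b3 : 0 ≤ u ^ 3 * (1 - u) := mul_nonneg (by positivity) (by linarith)
    have b4 : 0 ≤ u ^ 4 * (1 - u) := mul_nonneg (by positivity) (by linarith)
    have b5 : 0 ≤ u ^ 5 * (1 - u) := mul_nonneg (by positivity) (by linarith)
    have b6 : 0 ≤ u ^ 6 * (1 - u) := mul_nonneg (by positivity) (by linarith)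
    have b7 : 0 ≤ u ^ 7 * (1 - u) := mul_nonneg (by positivity) (by linarith)
    have b8 : 0 ≤ u ^ 8 := by positivity
    nlinarith
  linarith


/-- auxiliary inequality for level two, far part -/
theorem far_ineq (u d s A : ℝ) (h1 : 1 ≤ u) (hs : s = u + d) (hd0 : 0 < d)
    (hd : 16 + 32 * u ^ 2 ≤ d ^ 2) (hA : A = 1 + s * u) :
    (1 + s ^ 2) * (1 + u ^ 2) ^ 2 ≤ A * (A ^ 2 - d ^ 2 / 31) := by
  have hd1 : 11 / 2 * u ≤ d := by
    apply le_of_sq_le_sq _ hd0.le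
    nlinarith
  have hsu : 13 / 2 * u ^ 2 ≤ s * u := by
    have := mul_le_mul_of_nonneg_right hd1 (show 0 ≤ u by linarith)
    nlinarith
  have hA1 : 7 / 2 * (1 + u ^ 2) ≤ A := by nlinarith
  have hA2 : d ≤ A := by
    have := mul_le_mul_of_nonneg_left h1 hd0.le
    nlinarith
  have hAp : 0 < A := by linarith
  have e0 : (1 + s ^ 2) * (1 + u ^ 2) = A ^ 2 + d ^ 2 := by rw [hA, hs]; ring
  have e1 : (1 + s ^ 2) * (1 + u ^ 2) ^ 2 ≤ (A ^ 2 + d ^ 2) * (2 / 7 * A) := by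
    have : (1 + s ^ 2) * (1 + u ^ 2) ^ 2 = ((1 + s ^ 2) * (1 + u ^ 2)) * (1 + u ^ 2) := by ring
    rw [this, e0]
    apply mul_le_mul_of_nonneg_left _ (by positivity)
    linarith
  have e2 : d ^ 2 ≤ A ^ 2 := pow_le_pow_left₀ hd0.le hA2 2
  have e3 : (A ^ 2 + d ^ 2) * (2 / 7 * A) ≤ A * (A ^ 2 - d ^ 2 / 31) := by
    have : A * (A ^ 2 - d ^ 2 / 31) - (A ^ 2 + d ^ 2) * (2 / 7 * A) =
      A * (5 / 7 * A ^ 2 - (1 / 31 + 2 / 7) * d ^ 2) := by ring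
    have h6 : 0 ≤ A * (5 / 7 * A ^ 2 - (1 / 31 + 2 / 7) * d ^ 2) := by
      apply mul_nonneg hAp.le
      nlinarith [sq_nonneg A]
    linarith
  linarith

theorem level2_ineq (u : ℝ) (h0 : 0 ≤ u) (h4 : u ≤ 4) :
    (1 + (u + D 1 u) ^ 2) * (1 + u ^ 2) ^ 2 ≤
      ((1 + u ^ 2) * P 1 u) * (((1 + u ^ 2) * P 1 u) ^ 2 - D 1 u ^ 2 / 31) := by
  have hd0 := (D1_sq u h0 h4).1
  rw [P1_mul]
  rcases le_total u 1 with h | h
  · exact near_ineq u (D 1 u) (eta1 u) (u + D 1 u) _ h0 h rfl (D1_lo u h0 h4) (D1_hi2 u h0 h4)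
      (D1_hi u h0 h4) (eta1_ge u h0 h4) rfl
  · have h1 := far_ineq u (D 1 u) (u + D 1 u) _ h rfl hd0 (D1_lo' u h0 h4) rfl
    have h2 := eta1_nonneg u h0 h4
    have hsu : 0 ≤ (u + D 1 u) * u := by positivity
    have hAd : D 1 u ≤ 1 + (u + D 1 u) * u := by nlinarith
    have h3 : 0 ≤ (1 + (u + D 1 u) * u) ^ 2 - D 1 u ^ 2 / 31 := by
      have := pow_le_pow_left₀ hd0.le hAd 2
      nlinarith [sq_nonneg (D 1 u)]
    refine le_trans h1 ?_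
    apply mul_le_mul (by linarith) _ h3 (by linarith)
    have : (1 + (u + D 1 u) * u) ^ 2 ≤ (1 + (u + D 1 u) * u + eta1 u) ^ 2 :=
      pow_le_pow_left₀ (by linarith) (by linarith) 2
    linarith

theorem aux_hi (s d : ℝ) (h : 4 ≤ s) : 32 * (1 + s ^ 2) - d ^ 2 ≤ 34 * s ^ 2 := by
  have : 4 * 4 ≤ s * s := mul_le_mul h h (by norm_num) (by linarith)
  nlinarith [sq_nonneg d]

theorem aux_lo (s x : ℝ) (hx : 0 < x) (h : 31 * s ^ 2 ≤ x ^ 2) : 139 / 25 * s ≤ x := by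
  apply le_of_sq_le_sq _ hx.le
  nlinarith [sq_nonneg s]

theorem aux_c1 (u s d : ℝ) (h0 : 0 ≤ u) (hs : 4 + 3 * u ≤ s)
    (dhi : d ^ 2 ≤ 16 + 16 * u + 28 * u ^ 2) : d ^ 2 ≤ 417 / 25 * (1 + s * u) := by
  have : (4 + 3 * u) * u ≤ s * u := mul_le_mul_of_nonneg_right hs h0
  nlinarith [sq_nonneg u]

theorem aux_f5 (u s d : ℝ) (h0 : 0 ≤ u) (hs : s = u + d)
    (dhi : d ^ 2 ≤ 16 + 16 * u + 28 * u ^ 2) (dlo : 16 + 32 * u ^ 2 ≤ d ^ 2) :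
    1 + s * u ≤ d ^ 2 := by
  have f6 : d ≤ 4 + 6 * u := by
    apply le_of_sq_le_sq _ (by positivity)
    nlinarith
  have f7 : s * u ≤ (4 + 7 * u) * u := mul_le_mul_of_nonneg_right (by linarith) h0
  nlinarith

/-- level two satisfies the invariant -/
theorem inv2 (u : ℝ) (h0 : 0 ≤ u) (h4 : u ≤ 4) : Inv (S 2 u) (D 2 u) (P 2 u) (G 2 u) := by
  obtain ⟨d0, dsq⟩ := D1_sq u h0 h4
  obtain ⟨d20, d2sq⟩ := D2_sq u h0 h4
  have dlo := D1_lo u h0 h4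
  have dhi := D1_hi u h0 h4
  have hP := P1_pos u h0 h4
  have hS2 : S 2 u = u + D 1 u := by rw [S_succ, S1_eq u h0]
  have hp' : P 2 u = 1 + (32 * (u + D 1 u) - D 1 u * (1 - 1 / P 1 u)) / D 2 u := by
    rw [P_succ, S_succ, S1_eq u h0]
  have hE := step_eta u (D 1 u) (P 1 u) (D 2 u) (P 2 u) hP.ne' d20.ne' d2sq hp'
  have hG := step_g u (D 1 u) (P 1 u) (D 2 u) (P 2 u) d20.ne' d2sq hp'
  have hL := level2_ineq u h0 h4
  have e1 := eta1_nonneg u h0 h4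
  have e2 := eta1_le u h0 h4
  have g0 := G1_nonneg u h0 h4
  have g1 := G1_le u h0 h4
  have hPm := P1_mul u
  rw [hS2]
  have hη : (1 + u ^ 2) * P 1 u - (1 + (u + D 1 u) * u) = eta1 u := rfl
  rw [hη] at hE
  set s := u + D 1 u with hs
  set d := D 1 u with hd
  set B := (1 + u ^ 2) * P 1 u with hB
  set η := eta1 u with hη1
  set η' := (1 + s ^ 2) * P 2 u - (1 + (s + D 2 u) * s) with hη'
  have s4 : 4 ≤ s := by linarith
  have ds : d ≤ s := by linarith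
  have ds2 : d ^ 2 ≤ s ^ 2 := pow_le_pow_left₀ d0.le ds 2
  have hlo : 31 * s ^ 2 ≤ D 2 u ^ 2 := by rw [d2sq]; linarith
  have hhi : D 2 u ^ 2 ≤ 34 * s ^ 2 := by
    rw [d2sq]; exact aux_hi s d s4
  have d2lo : 139 / 25 * s ≤ D 2 u := aux_lo s _ d20 hlo
  have hsu : 0 ≤ s * u := by positivity
  have hBpos : 0 < B := by rw [hPm]; positivity
  have hAB : 1 + s * u ≤ B := by rw [hPm]; linarith
  have hpos : 0 < D 2 u * B := by positivity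
  -- eta bound
  have het : |η'| ≤ 3 := by
    have hle : |η'| * (D 2 u * B) ≤ 3 * (D 2 u * B) := by
      have e0 := congrArg abs hE
      rw [abs_mul η', abs_mul d, abs_of_pos hpos, abs_of_pos d0] at e0
      rw [e0]
      have hup : d * (d ^ 2 - (1 + s * u) * η) ≤ 3 * (D 2 u * B) := by
        have c1 : d ^ 2 ≤ 417 / 25 * (1 + s * u) := aux_c1 u s d h0 (by linarith) dhi
        have c2 : d * (d ^ 2 - (1 + s * u) * η) ≤ d * d ^ 2 := by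
          apply mul_le_mul_of_nonneg_left _ d0.le
          have : 0 ≤ (1 + s * u) * η := by positivity
          linarith
        have c3 : d * d ^ 2 ≤ s * (417 / 25 * (1 + s * u)) := by
          apply mul_le_mul ds c1 (by positivity) (by linarith)
        have c4 : 139 / 25 * s * (1 + s * u) ≤ D 2 u * B :=
          mul_le_mul d2lo hAB (by positivity) d20.le
        linarith
      have hdn : -(3 * (D 2 u * B)) ≤ d * (d ^ 2 - (1 + s * u) * η) := by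
        have c1 : (1 + s * u) * η ≤ B * 2 := mul_le_mul hAB e2 e1 hBpos.le
        have c2 : d ≤ D 2 u := by linarith
        have c3 : d * ((1 + s * u) * η) ≤ D 2 u * (B * 2) :=
          mul_le_mul c2 c1 (by positivity) d20.le
        have c4 : 0 ≤ d * d ^ 2 := by positivity
        linarith
      rcases abs_cases (d ^ 2 - (1 + s * u) * η) with hc | hc
      · rw [hc.1]; exact hup
      · rw [hc.1]; linarith
    exact le_of_mul_le_mul_right hle hpos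
  have hGe : (1 + s ^ 2) * (G 2 u + G 1 u / P 1 u ^ 3) * d ^ 2 = 32 * d ^ 2 - 32 * η' ^ 2 := by
    rw [← hG, G_succ 1 u]; ring
  have hd2p : 0 < d ^ 2 := by positivity
  have hgp0 : 0 ≤ G 1 u / P 1 u ^ 3 := by positivity
  refine ⟨s4, d20, hlo, hhi, het, ?_, ?_⟩
  · -- main second order inequality
    -- eta'^2 * 31 * B^2 ≤ d^4 * d^2 / d^2 ...
    have hη2 : η' ^ 2 * (31 * B ^ 2) ≤ d ^ 4 := by
      have f1 : η' ^ 2 * (D 2 u * B) ^ 2 = d ^ 2 * (d ^ 2 - (1 + s * u) * η) ^ 2 := by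
        have := congrArg (fun x => x ^ 2) hE
        simp only [mul_pow] at this
        rw [← mul_pow] at this
        linarith
      have f2 : (d ^ 2 - (1 + s * u) * η) ^ 2 ≤ (d ^ 2) ^ 2 := by
        apply sq_le_sq'
        · -- (1+su) η ≤ 2 d^2
          have f3 : (1 + s * u) * η ≤ 2 * d ^ 2 := by
            have f4 : (1 + s * u) * η ≤ (1 + s * u) * 2 :=
              mul_le_mul_of_nonneg_left e2 (by positivity)
            have f5 : 1 + s * u ≤ d ^ 2 := aux_f5 u s d h0 hs dhi (D1_lo' u h0 h4)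
            linarith
          linarith
        · have : 0 ≤ (1 + s * u) * η := by positivity
          linarith
      have f8 : 31 * d ^ 2 ≤ D 2 u ^ 2 := by linarith
      have f9 : (η' ^ 2 * (31 * B ^ 2)) * d ^ 2 ≤ d ^ 4 * d ^ 2 := by
        calc (η' ^ 2 * (31 * B ^ 2)) * d ^ 2 = (η' ^ 2 * B ^ 2) * (31 * d ^ 2) := by ring
          _ ≤ (η' ^ 2 * B ^ 2) * D 2 u ^ 2 := mul_le_mul_of_nonneg_left f8 (by positivity)
          _ = η' ^ 2 * (D 2 u * B) ^ 2 := by ring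
          _ = d ^ 2 * (d ^ 2 - (1 + s * u) * η) ^ 2 := f1
          _ ≤ d ^ 2 * (d ^ 2) ^ 2 := mul_le_mul_of_nonneg_left f2 hd2p.le
          _ = d ^ 4 * d ^ 2 := by ring
      exact le_of_mul_le_mul_right f9 hd2p
    have hg3 : (G 1 u / P 1 u ^ 3) * B ^ 3 ≤ 32 * (1 + u ^ 2) ^ 2 := by
      have : (G 1 u / P 1 u ^ 3) * B ^ 3 = (G 1 u * (1 + u ^ 2)) * (1 + u ^ 2) ^ 2 := by
        rw [hB]; field_simp
      rw [this]
      exact mul_le_mul_of_nonneg_right g1 (by positivity)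
    have hmain : 0 ≤ ((1 + s ^ 2) * d ^ 2 * B ^ 3) * G 2 u := by
      have t1 : ((1 + s ^ 2) * d ^ 2 * B ^ 3) * G 2 u =
          (32 * d ^ 2 - 32 * η' ^ 2) * B ^ 3 - (1 + s ^ 2) * d ^ 2 * ((G 1 u / P 1 u ^ 3) * B ^ 3) := by
        rw [← hGe]; ring
      rw [t1]
      have t2 : (1 + s ^ 2) * d ^ 2 * ((G 1 u / P 1 u ^ 3) * B ^ 3) ≤
          (1 + s ^ 2) * d ^ 2 * (32 * (1 + u ^ 2) ^ 2) :=
        mul_le_mul_of_nonneg_left hg3 (by positivity)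
      have t3 : (1 + s ^ 2) * (1 + u ^ 2) ^ 2 * (32 * d ^ 2) ≤
          (B * (B ^ 2 - d ^ 2 / 31)) * (32 * d ^ 2) :=
        mul_le_mul_of_nonneg_right hL (by positivity)
      have t4 : η' ^ 2 * (31 * B ^ 2) * (32 / 31 * B) ≤ d ^ 4 * (32 / 31 * B) :=
        mul_le_mul_of_nonneg_right hη2 (by positivity)
      have t5 : (1 + s ^ 2) * d ^ 2 * (32 * (1 + u ^ 2) ^ 2) =
          (1 + s ^ 2) * (1 + u ^ 2) ^ 2 * (32 * d ^ 2) := by ring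
      have t6 : (B * (B ^ 2 - d ^ 2 / 31)) * (32 * d ^ 2) =
          32 * d ^ 2 * B ^ 3 - d ^ 4 * (32 / 31 * B) := by ring
      have t7 : η' ^ 2 * (31 * B ^ 2) * (32 / 31 * B) = 32 * η' ^ 2 * B ^ 3 := by ring
      have t8 : (32 * d ^ 2 - 32 * η' ^ 2) * B ^ 3 = 32 * d ^ 2 * B ^ 3 - 32 * η' ^ 2 * B ^ 3 := by
        ring
      rw [t8]
      linarith
    exact nonneg_of_mul_nonneg_right hmain (by positivity)
  · have h2 : 0 ≤ (1 + s ^ 2) * (G 1 u / P 1 u ^ 3) * d ^ 2 := by positivity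
    have h3 : (G 2 u * (1 + s ^ 2)) * d ^ 2 ≤ 32 * d ^ 2 := by linarith [sq_nonneg η']
    exact le_of_mul_le_mul_right h3 hd2p

end Pool.Agent.Helper82
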