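import Pool.Agent.Helper82.Step

set_option autoImplicit false

namespace Pool.Agent.Helper82

/-- algebra of one step, first order quantity -/
theorem step_eta (w d p d' p' : ℝ) (hp : p ≠ 0) (hd' : d' ≠ 0)
    (hsq : d' ^ 2 = 32 * (1 + (w + d) ^ 2) - d ^ 2)
    (hp' : p' = 1 + (32 * (w + d) - d * (1 - 1 / p)) / d') :
    ((1 + (w + d) ^ 2) * p' - (1 + (w + d + d') * (w + d))) * (d' * ((1 + w ^ 2) * p)) =
      d * (d ^ 2 - (1 + (w + d) * w) * ((1 + w ^ 2) * p - (1 + (w + d) * w))) := by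
  have h1 : (p' - 1) * d' = 32 * (w + d) - d * (1 - 1 / p) := by
    rw [hp']; field_simp; ring
  have h2 : (1 / p) * p = 1 := by field_simp
  have key : ((1 + (w + d) ^ 2) * p' - (1 + (w + d + d') * (w + d))) * (d' * ((1 + w ^ 2) * p))
      = (1 + w ^ 2) * ((1 + (w + d) ^ 2) * ((p' - 1) * d') * p - (w + d) * d' ^ 2 * p) := by ring
  rw [key, h1, hsq]
  linear_combination (1 + w ^ 2) * (1 + (w + d) ^ 2) * d * h2

theorem step_g (w d p d' p' : ℝ) (hd' : d' ≠ 0)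
    (hsq : d' ^ 2 = 32 * (1 + (w + d) ^ 2) - d ^ 2)
    (hp' : p' = 1 + (32 * (w + d) - d * (1 - 1 / p)) / d') :
    (1 + (w + d) ^ 2) * (32 - (p' - 1) ^ 2 - (1 - 1 / p) ^ 2) * d ^ 2 =
      32 * d ^ 2 - 32 * ((1 + (w + d) ^ 2) * p' - (1 + (w + d + d') * (w + d))) ^ 2 := by
  have h1 : (p' - 1) * d' = 32 * (w + d) - d * (1 - 1 / p) := by
    rw [hp']; field_simp; ring
  have h3 : d * (1 - 1 / p) = 32 * (w + d) - (p' - 1) * d' := by linarith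
  have e1 : (1 + (w + d) ^ 2) * (32 - (p' - 1) ^ 2 - (1 - 1 / p) ^ 2) * d ^ 2 =
     (1 + (w + d) ^ 2) * (32 * d ^ 2 - (p' - 1) ^ 2 * d ^ 2 - (d * (1 - 1 / p)) ^ 2) := by ring
  rw [e1, h3]
  linear_combination (-(1 + (w + d) ^ 2) * (p' - 1) ^ 2 + 32 * (w + d) ^ 2) * hsq

structure Inv (w d p g : ℝ) : Prop where
  hw : 4 ≤ w
  hd : 0 < d
  lo : 31 * w ^ 2 ≤ d ^ 2
  hi : d ^ 2 ≤ 34 * w ^ 2
  et : |(1 + w ^ 2) * p - (1 + (w + d) * w)| ≤ 3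
  g0 : 0 ≤ g
  g1 : g * (1 + w ^ 2) ≤ 32

theorem sqlo (w d : ℝ) (hd : 0 < d) (h : 31 * w ^ 2 ≤ d ^ 2) : 11 / 2 * w ≤ d := by
  apply le_of_sq_le_sq _ hd.le
  nlinarith

theorem sqhi (w d : ℝ) (hw : 0 ≤ w) (h : d ^ 2 ≤ 34 * w ^ 2) : d ≤ 59 / 10 * w := by
  apply le_of_sq_le_sq _ (by positivity)
  nlinarith

theorem Inv.dlo {w d p g : ℝ} (h : Inv w d p g) : 11 / 2 * w ≤ d := sqlo w d h.hd h.lo

theorem Inv.dhi {w d p g : ℝ} (h : Inv w d p g) : d ≤ 59 / 10 * w :=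
  sqhi w d (by linarith [h.hw]) h.hi

theorem plo_aux (w d p : ℝ) (hw : 4 ≤ w) (h : 11 / 2 * w ≤ d)
    (h3 : -3 ≤ (1 + w ^ 2) * p - (1 + (w + d) * w)) : 5 ≤ p := by
  have h1 : 11 / 2 * w * w ≤ d * w := mul_le_mul_of_nonneg_right h (by linarith)
  have h2 : 4 * w ≤ w * w := mul_le_mul_of_nonneg_right hw (by linarith)
  have h4 : (1 + w ^ 2) * 5 ≤ (1 + w ^ 2) * p := by nlinarith
  exact le_of_mul_le_mul_left h4 (by positivity)

theorem phi_aux (w d p : ℝ) (hw : 4 ≤ w) (h : d ≤ 59 / 10 * w)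
    (h3 : (1 + w ^ 2) * p - (1 + (w + d) * w) ≤ 3) : p ≤ 7 := by
  have h1 : d * w ≤ 59 / 10 * w * w := mul_le_mul_of_nonneg_right h (by linarith)
  have h4 : (1 + w ^ 2) * p ≤ (1 + w ^ 2) * 7 := by nlinarith
  exact le_of_mul_le_mul_left h4 (by positivity)

theorem Inv.plo {w d p g : ℝ} (h : Inv w d p g) : 5 ≤ p :=
  plo_aux w d p h.hw h.dlo (abs_le.mp h.et).1

theorem Inv.phi {w d p g : ℝ} (h : Inv w d p g) : p ≤ 7 :=
  phi_aux w d p h.hw h.dhi (abs_le.mp h.et).2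

/-- the tangent intercept is nonnegative -/
theorem Inv.k0 {w d p g : ℝ} (h : Inv w d p g) : 0 ≤ (w + d) - p * w := by
  have h1 := h.dlo; have h2 := h.hw
  have h3 := (abs_le.mp h.et).2
  have h4 : w * ((1 + w ^ 2) * p - (1 + (w + d) * w)) ≤ w * 3 :=
    mul_le_mul_of_nonneg_left h3 (by linarith)
  have : 0 ≤ (1 + w ^ 2) * ((w + d) - p * w) := by nlinarith
  exact nonneg_of_mul_nonneg_right this (by positivity)

theorem keyb (w s d d' : ℝ) (hw : 4 ≤ w) (s65 : 13 / 2 * w ≤ s) (a4 : 0 < d)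
    (a2 : d ≤ 59 / 10 * w) (hd2 : d ^ 2 ≤ 34 * w ^ 2) (d'lo : 11 / 2 * s ≤ d') :
    d * (d ^ 2 + 3 * (1 + s * w)) ≤ 3 * (d' * (s * w - 2)) := by
  have s4 : 26 ≤ s := by linarith
  have hsw : 13 / 2 * w * w ≤ s * w := mul_le_mul_of_nonneg_right s65 (by linarith)
  have hsw2 : 100 ≤ s * w := by nlinarith
  have hswp : 0 < s * w := by linarith
  have e1 : d * (d ^ 2 + 3 * (1 + s * w)) ≤ 59 / 10 * w * (34 * w ^ 2 + 3 * (1 + s * w)) := by
    apply mul_le_mul a2 (by linarith) (by positivity) (by linarith)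
  have e2 : 3 * (11 / 2 * s * (s * w - 2)) ≤ 3 * (d' * (s * w - 2)) := by
    have := mul_le_mul_of_nonneg_right d'lo (show 0 ≤ s * w - 2 by linarith)
    linarith
  have f2 : 34 * w ^ 2 + 3 * (1 + s * w) ≤ 9 * (s * w) := by nlinarith
  have f3 : 59 / 10 * w * (34 * w ^ 2 + 3 * (1 + s * w)) ≤ 59 / 10 * w * (9 * (s * w)) :=
    mul_le_mul_of_nonneg_left f2 (by linarith)
  have f4 : 9 / 10 * (s * w) ≤ s * w - 2 := by linarith
  have f5 : 11 / 2 * s * (9 / 10 * (s * w)) ≤ 11 / 2 * s * (s * w - 2) :=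
    mul_le_mul_of_nonneg_left f4 (by linarith)
  have f6 : 13 / 2 * w * (s * w) ≤ s * (s * w) :=
    mul_le_mul_of_nonneg_right s65 (by linarith)
  have f7 : 0 ≤ s * (s * w) := by positivity
  linarith

theorem etab (w s d p d' η η' : ℝ) (hw : 4 ≤ w) (s65 : 13 / 2 * w ≤ s) (a4 : 0 < d)
    (a2 : d ≤ 59 / 10 * w) (hd2 : d ^ 2 ≤ 34 * w ^ 2) (d'lo : 11 / 2 * s ≤ d')
    (hη : (1 + w ^ 2) * p = 1 + s * w + η) (b1 : -3 ≤ η) (b2 : η ≤ 3)
    (hE : η' * (d' * ((1 + w ^ 2) * p)) = d * (d ^ 2 - (1 + s * w) * η)) : |η'| ≤ 3 := by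
  have hkey := keyb w s d d' hw s65 a4 a2 hd2 d'lo
  have hd' : 0 < d' := by linarith
  have hsw : 13 / 2 * w * w ≤ s * w := mul_le_mul_of_nonneg_right s65 (by linarith)
  have hsw2 : 100 ≤ s * w := by nlinarith
  have hB : s * w - 2 ≤ (1 + w ^ 2) * p := by linarith
  have hden : 0 < d' * (s * w - 2) := mul_pos hd' (by linarith)
  have hden2 : d' * (s * w - 2) ≤ d' * ((1 + w ^ 2) * p) := mul_le_mul_of_nonneg_left hB hd'.le
  have hpos : 0 < d' * ((1 + w ^ 2) * p) := lt_of_lt_of_le hden hden2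
  have hab : |d ^ 2 - (1 + s * w) * η| ≤ d ^ 2 + 3 * (1 + s * w) := by
    have c1 : (1 + s * w) * η ≤ (1 + s * w) * 3 := mul_le_mul_of_nonneg_left b2 (by linarith)
    have c2 : (1 + s * w) * (-3) ≤ (1 + s * w) * η := mul_le_mul_of_nonneg_left b1 (by linarith)
    have c3 : 0 ≤ d ^ 2 := sq_nonneg d
    rw [abs_le]
    constructor <;> linarith
  have hle : |η'| * (d' * ((1 + w ^ 2) * p)) ≤ 3 * (d' * ((1 + w ^ 2) * p)) := by
    have e : |η'| * (d' * ((1 + w ^ 2) * p)) = d * |d ^ 2 - (1 + s * w) * η| := by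
      have e0 := congrArg abs hE
      rw [abs_mul η', abs_mul d, abs_of_pos hpos, abs_of_pos a4] at e0
      exact e0
    rw [e]
    calc d * |d ^ 2 - (1 + s * w) * η| ≤ d * (d ^ 2 + 3 * (1 + s * w)) :=
          mul_le_mul_of_nonneg_left hab a4.le
      _ ≤ 3 * (d' * (s * w - 2)) := hkey
      _ ≤ 3 * (d' * ((1 + w ^ 2) * p)) := by linarith
  exact le_of_mul_le_mul_right hle hpos

theorem gbound (w s d p g g' η' : ℝ) (hw : 4 ≤ w) (s4 : 4 ≤ s) (s69 : s ≤ 69 / 10 * w)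
    (a5 : 5 ≤ p) (hd : 496 ≤ d ^ 2) (g0 : 0 ≤ g) (g1 : g * (1 + w ^ 2) ≤ 32)
    (hη : |η'| ≤ 3)
    (hGe : (1 + s ^ 2) * (g' + g / p ^ 3) * d ^ 2 = 32 * d ^ 2 - 32 * η' ^ 2) :
    0 ≤ g' ∧ g' * (1 + s ^ 2) ≤ 32 := by
  have hη2 : η' ^ 2 ≤ 9 := by
    have h1 := abs_le.mp hη
    nlinarith
  have hd2p : 0 < d ^ 2 := by linarith
  have hp3 : 125 ≤ p ^ 3 := by
    have := pow_le_pow_left₀ (by norm_num) a5 3
    linarith
  have hs2 : 1 + s ^ 2 ≤ 48 * (1 + w ^ 2) := by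
    have := mul_le_mul s69 s69 (by linarith) (by linarith)
    nlinarith
  have hgp : g / p ^ 3 ≤ 32 / (125 * (1 + w ^ 2)) := by
    rw [div_le_div_iff₀ (by positivity) (by positivity)]
    nlinarith
  have hgp0 : 0 ≤ g / p ^ 3 := by positivity
  constructor
  · have h1 : (1 + s ^ 2) * (g / p ^ 3) ≤ 48 * 32 / 125 := by
      calc (1 + s ^ 2) * (g / p ^ 3) ≤ (48 * (1 + w ^ 2)) * (32 / (125 * (1 + w ^ 2))) :=
            mul_le_mul hs2 hgp hgp0 (by positivity)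
        _ = 48 * 32 / 125 := by
            have : (1 + w ^ 2) ≠ 0 := by positivity
            field_simp
    have h2 : (1 + s ^ 2) * (g / p ^ 3) * d ^ 2 ≤ 48 * 32 / 125 * d ^ 2 :=
      mul_le_mul_of_nonneg_right h1 hd2p.le
    have h3 : 0 ≤ ((1 + s ^ 2) * d ^ 2) * g' := by linarith
    exact nonneg_of_mul_nonneg_right h3 (by positivity)
  · have h2 : 0 ≤ (1 + s ^ 2) * (g / p ^ 3) * d ^ 2 := by positivity
    have h3 : (g' * (1 + s ^ 2)) * d ^ 2 ≤ 32 * d ^ 2 := by linarith [sq_nonneg η']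
    exact le_of_mul_le_mul_right h3 hd2p

theorem Inv.step {w d p g d' p' g' : ℝ} (h : Inv w d p g) (hd' : 0 < d')
    (hsq : d' ^ 2 = 32 * (1 + (w + d) ^ 2) - d ^ 2)
    (hp' : p' = 1 + (32 * (w + d) - d * (1 - 1 / p)) / d')
    (hg' : g' = 32 - (p' - 1) ^ 2 - (1 - 1 / p) ^ 2 - g / p ^ 3) :
    Inv (w + d) d' p' g' := by
  have a1 := h.dlo
  have a2 := h.dhi
  have a3 := h.hw
  have a4 := h.hd
  have a5 := h.plo
  have b1 := (abs_le.mp h.et).1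
  have b2 := (abs_le.mp h.et).2
  have s4 : 4 ≤ w + d := by linarith
  have hlo : 31 * (w + d) ^ 2 ≤ d' ^ 2 := by
    rw [hsq]
    have : d ^ 2 ≤ (w + d) ^ 2 := by nlinarith
    linarith
  have hhi : d' ^ 2 ≤ 34 * (w + d) ^ 2 := by
    rw [hsq]
    have : 16 ≤ (w + d) ^ 2 := by nlinarith
    linarith [sq_nonneg d]
  have d'lo : 11 / 2 * (w + d) ≤ d' := sqlo _ _ hd' hlo
  have hE := step_eta w d p d' p' (by positivity) hd'.ne' hsq hp'
  have hG := step_g w d p d' p' hd'.ne' hsq hp'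
  have s65 : 13 / 2 * w ≤ w + d := by linarith
  have s69 : w + d ≤ 69 / 10 * w := by linarith
  have het := etab w (w + d) d p d' ((1 + w ^ 2) * p - (1 + (w + d) * w)) _ a3 s65 a4 a2 h.hi
    d'lo (by ring) b1 b2 hE
  have hd500 : 496 ≤ d ^ 2 := by nlinarith [h.lo]
  have hGe : (1 + (w + d) ^ 2) * (g' + g / p ^ 3) * d ^ 2 =
      32 * d ^ 2 - 32 * ((1 + (w + d) ^ 2) * p' - (1 + (w + d + d') * (w + d))) ^ 2 := by
    rw [← hG, hg']; ring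
  obtain ⟨q1, q2⟩ := gbound w (w + d) d p g g' _ a3 s4 s69 a5 hd500 h.g0 h.g1 het hGe
  exact ⟨s4, hd', hlo, hhi, het, q1, q2⟩

end Pool.Agent.Helper82
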