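import Mathlib

set_option autoImplicit false

namespace Pool.Agent.Helper82.Eq

open Real

/-- standing parameters: exponent `i < 1`, `i ≠ 0`, size `B` -/
structure Par (i B : ℝ) : Prop where
  hi : i < 1
  hi0 : i ≠ 0
  hB : 8 ≤ B
  hB2 : 0 < i → 8 ≤ B * (1 - i)

noncomputable def Q (i B R : ℝ) : ℝ := (2 * B ^ i - R ^ i) ^ (1 / i)

variable {i B : ℝ}

theorem rad_pos (h : Par i B) {R : ℝ} (h1 : B ≤ R) (h2 : R ≤ B + 1) : 0 < 2 * B ^ i - R ^ i := by
  have hB : 0 < B := by linarith [h.hB]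
  have hBi : 0 < B ^ i := rpow_pos_of_pos hB i
  rcases lt_or_gt_of_ne h.hi0 with hn | hp
  · have : R ^ i ≤ B ^ i := rpow_le_rpow_of_nonpos hB h1 hn.le
    linarith
  · have h3 : R ^ i ≤ (B + 1) ^ i := rpow_le_rpow (by linarith) h2 hp.le
    have h4 : (B + 1) ^ i = B ^ i * (1 + 1 / B) ^ i := by
      rw [← mul_rpow hB.le (by positivity)]; congr 1; field_simp
    have h5 : (1 + 1 / B) ^ i ≤ 1 + i * (1 / B) := by
      apply rpow_one_add_le_one_add_mul_self _ hp.le h.hi.le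
      have : 0 < 1 / B := by positivity
      linarith
    have h6 : i * (1 / B) ≤ 1 / 8 := by
      have : 1 / B ≤ 1 / 8 := one_div_le_one_div_of_le (by norm_num) h.hB
      have h7 : 0 < 1 / B := by positivity
      nlinarith [h.hi]
    have h8 : B ^ i * (1 + 1 / B) ^ i ≤ B ^ i * (1 + 1 / 8) :=
      mul_le_mul_of_nonneg_left (by linarith) hBi.le
    rw [h4] at h3
    linarith

theorem Q_pos (h : Par i B) {R : ℝ} (h1 : B ≤ R) (h2 : R ≤ B + 1) : 0 < Q i B R :=
  rpow_pos_of_pos (rad_pos h h1 h2) _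

theorem Q_pow (h : Par i B) {R : ℝ} (h1 : B ≤ R) (h2 : R ≤ B + 1) :
    Q i B R ^ i = 2 * B ^ i - R ^ i := by
  unfold Q
  rw [← rpow_mul (rad_pos h h1 h2).le, one_div, inv_mul_cancel₀ h.hi0, rpow_one]

theorem Q_B (h : Par i B) : Q i B B = B := by
  have hB : 0 < B := by linarith [h.hB]
  unfold Q
  rw [show 2 * B ^ i - B ^ i = B ^ i by ring, ← rpow_mul hB.le, mul_one_div, div_self h.hi0,
    rpow_one]

theorem Q_le (h : Par i B) {R : ℝ} (h1 : B ≤ R) (h2 : R ≤ B + 1) : Q i B R ≤ B := by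
  have hB : 0 < B := by linarith [h.hB]
  have hQ := Q_pow h h1 h2
  have hQ0 := Q_pos h h1 h2
  rcases lt_or_gt_of_ne h.hi0 with hn | hp
  · have h3 : R ^ i ≤ B ^ i := rpow_le_rpow_of_nonpos hB h1 hn.le
    have h4 : B ^ i ≤ Q i B R ^ i := by rw [hQ]; linarith
    exact (rpow_le_rpow_iff_of_neg hB hQ0 hn).mp h4
  · have h3 : B ^ i ≤ R ^ i := rpow_le_rpow hB.le h1 hp.le
    have h4 : Q i B R ^ i ≤ B ^ i := by rw [hQ]; linarith
    exact (rpow_le_rpow_iff hQ0.le hB.le hp).mp h4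

/-- Bernoulli on both sides -/
theorem bern_neg {x i : ℝ} (hx : 0 < x) (hi : i < 0) : 1 + i * (x - 1) ≤ x ^ i := by
  rw [rpow_def_of_pos hx]
  have h1 := add_one_le_exp (log x * i)
  have h2 := log_le_sub_one_of_pos hx
  nlinarith

theorem bern_pos {x i : ℝ} (hx : 0 < x) (h0 : 0 < i) (hi : i < 1) : x ^ i ≤ 1 + i * (x - 1) := by
  have := rpow_one_add_le_one_add_mul_self (s := x - 1) (by linarith) h0.le hi.le
  rwa [show 1 + (x - 1) = x by ring] at this

theorem Q_ge (h : Par i B) {R : ℝ} (h1 : B ≤ R) (h2 : R ≤ B + 1) : 2 * B - R ≤ Q i B R := by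
  have hB : 0 < B := by linarith [h.hB]
  have hQ := Q_pow h h1 h2
  have hQ0 := Q_pos h h1 h2
  have hBi : 0 < B ^ i := rpow_pos_of_pos hB i
  have hR : 0 < R := by linarith
  have e1 : (Q i B R / B) ^ i + (R / B) ^ i = 2 := by
    rw [div_rpow hQ0.le hB.le, div_rpow hR.le hB.le, ← add_div, hQ]
    field_simp; ring
  have key : 2 ≤ Q i B R / B + R / B := by
    rcases lt_or_gt_of_ne h.hi0 with hn | hp
    · have a1 := bern_neg (x := Q i B R / B) (by positivity) hn
      have a2 := bern_neg (x := R / B) (by positivity) hn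
      nlinarith
    · have a1 := bern_pos (x := Q i B R / B) (by positivity) hp h.hi
      have a2 := bern_pos (x := R / B) (by positivity) hp h.hi
      nlinarith
  rw [← add_div, le_div_iff₀ hB] at key
  linarith

theorem Q_deriv (h : Par i B) {R : ℝ} (h1 : B ≤ R) (h2 : R ≤ B + 1) :
    HasDerivAt (Q i B) (-(Q i B R / R) ^ (1 - i)) R := by
  have hB : 0 < B := by linarith [h.hB]
  have hR : 0 < R := by linarith
  have hrad := rad_pos h h1 h2
  have a1 : HasDerivAt (fun x : ℝ => 2 * B ^ i - x ^ i) (-(i * R ^ (i - 1))) R :=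
    (hasDerivAt_rpow_const (Or.inl hR.ne')).const_sub _
  have a2 := a1.rpow_const (p := 1 / i) (Or.inl hrad.ne')
  refine HasDerivAt.congr_deriv a2 ?_
  have hQ0 := Q_pos h h1 h2
  rw [div_rpow hQ0.le hR.le]
  have e1 : Q i B R ^ (1 - i) = (2 * B ^ i - R ^ i) ^ (1 / i - 1) := by
    unfold Q
    rw [← rpow_mul hrad.le]; congr 1; have := h.hi0; field_simp
  have e2 : R ^ (1 - i) = (R ^ (i - 1))⁻¹ := by
    rw [← rpow_neg hR.le]; congr 1; ring
  rw [e1, e2]
  have := h.hi0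
  field_simp

theorem Q_contOn (h : Par i B) : ContinuousOn (Q i B) (Set.Icc B (B + 1)) := fun _ hR =>
  (Q_deriv h hR.1 hR.2).continuousAt.continuousWithinAt

/-- strict contraction -/
theorem Q_contr (h : Par i B) {x y : ℝ} (hx : B ≤ x) (hxy : x < y) (hy : y ≤ B + 1) :
    |Q i B y - Q i B x| < y - x := by
  have hB : 0 < B := by linarith [h.hB]
  obtain ⟨c, hc, hc2⟩ := exists_hasDerivAt_eq_slope (Q i B) (fun R => -(Q i B R / R) ^ (1 - i))
    hxy (fun z hz => (Q_deriv h (hx.trans hz.1) (hz.2.trans hy)).continuousAt.continuousWithinAt)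
    (fun z hz => Q_deriv h (hx.trans hz.1.le) (hz.2.le.trans hy))
  have hc1 : B ≤ c := hx.trans hc.1.le
  have hc3 : c ≤ B + 1 := hc.2.le.trans hy
  have hQ0 := Q_pos h hc1 hc3
  have hQ1 := Q_le h hc1 hc3
  have hcB : B < c := lt_of_le_of_lt hx hc.1
  have hr : Q i B c / c < 1 := by rw [div_lt_one (by linarith)]; linarith
  have hr0 : 0 < Q i B c / c := by have : 0 < c := by linarith
                                   positivity
  have h1 : (Q i B c / c) ^ (1 - i) < 1 := rpow_lt_one hr0.le hr (by linarith [h.hi])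
  have h2 : 0 < (Q i B c / c) ^ (1 - i) := rpow_pos_of_pos hr0 _
  have hyx : 0 < y - x := by linarith
  have e : Q i B y - Q i B x = -(Q i B c / c) ^ (1 - i) * (y - x) := by
    rw [hc2]; field_simp
  rw [e, abs_mul, abs_neg, abs_of_pos h2, abs_of_pos hyx]
  nlinarith

end Pool.Agent.Helper82.Eq
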