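import Pool.Agent.Helper82.Eq1

set_option autoImplicit false

namespace Pool.Agent.Helper82.Eq

open Real

/-- one step on pairs (position, increment) -/
noncomputable def nxt (i B : ℝ) (x : ℝ × ℝ) : ℝ × ℝ :=
  (x.1 + x.2, √(1 + (x.1 + x.2) ^ 2) / Q i B (√(1 + (x.1 + x.2) ^ 2) / x.2))

noncomputable def Z (i B : ℝ) : ℕ → ℝ → ℝ × ℝ
  | 0, v => ((v - 1) / B, 1 / B)
  | n + 1, v => nxt i B (Z i B n v)

noncomputable def S (i B : ℝ) (n : ℕ) (v : ℝ) : ℝ := (Z i B n v).1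
noncomputable def D (i B : ℝ) (n : ℕ) (v : ℝ) : ℝ := (Z i B n v).2
noncomputable def rho (i B : ℝ) (n : ℕ) (v : ℝ) : ℝ := √(1 + S i B n v ^ 2)
noncomputable def RR (i B : ℝ) (n : ℕ) (v : ℝ) : ℝ := rho i B (n + 1) v / D i B n v
noncomputable def XX (i B : ℝ) (n : ℕ) (v : ℝ) : ℝ := Q i B (RR i B n v)
noncomputable def cc (i B : ℝ) (n : ℕ) (v : ℝ) : ℝ := S i B n v / rho i B n v

variable {i B : ℝ}

theorem S_zero (v : ℝ) : S i B 0 v = (v - 1) / B := rfl
theorem D_zero (v : ℝ) : D i B 0 v = 1 / B := rfl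
theorem S_succ (n : ℕ) (v : ℝ) : S i B (n + 1) v = S i B n v + D i B n v := rfl
theorem D_succ (n : ℕ) (v : ℝ) : D i B (n + 1) v = rho i B (n + 1) v / XX i B n v := rfl

theorem rho_pos (n : ℕ) (v : ℝ) : 0 < rho i B n v := by unfold rho; positivity
theorem rho_sq (n : ℕ) (v : ℝ) : rho i B n v ^ 2 = 1 + S i B n v ^ 2 := by
  unfold rho; rw [Real.sq_sqrt (by positivity)]

theorem cc_rho (n : ℕ) (v : ℝ) : cc i B n v * rho i B n v = S i B n v := by
  unfold cc; have := rho_pos (i := i) (B := B) n v; field_simp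

theorem cc_sq (n : ℕ) (v : ℝ) : cc i B n v ^ 2 ≤ 1 := by
  have h1 := rho_pos (i := i) (B := B) n v
  have h2 := rho_sq (i := i) (B := B) n v
  unfold cc
  rw [div_pow, div_le_one (by positivity), h2]; linarith

theorem cc_le (n : ℕ) (v : ℝ) : cc i B n v ≤ 1 := by nlinarith [cc_sq (i := i) (B := B) n v]

/-- zero order invariant -/
structure Z0 (i B : ℝ) (n : ℕ) (v : ℝ) : Prop where
  s0 : 0 ≤ S i B (n + 1) v
  d0 : 0 < D i B n v
  r1 : B ≤ RR i B n v
  r2 : RR i B n v ≤ B + 1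
  nx : B ^ 2 ≤ XX i B n v ^ 2 + 2 * cc i B (n + 1) v * XX i B n v + 1

theorem Z0.x0 (h : Par i B) {n : ℕ} {v : ℝ} (z : Z0 i B n v) : 0 < XX i B n v :=
  Q_pos h z.r1 z.r2
theorem Z0.x1 (h : Par i B) {n : ℕ} {v : ℝ} (z : Z0 i B n v) : B - 1 ≤ XX i B n v := by
  have := Q_ge h z.r1 z.r2
  have := z.r2
  unfold XX; linarith
theorem Z0.x2 (h : Par i B) {n : ℕ} {v : ℝ} (z : Z0 i B n v) : XX i B n v ≤ B :=
  Q_le h z.r1 z.r2
theorem Z0.c0 {n : ℕ} {v : ℝ} (z : Z0 i B n v) : 0 ≤ cc i B (n + 1) v :=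
  div_nonneg z.s0 (rho_pos _ _).le
theorem Z0.d1 (h : Par i B) {n : ℕ} {v : ℝ} (z : Z0 i B n v) : 0 < D i B (n + 1) v := by
  rw [D_succ]; exact div_pos (rho_pos _ _) (z.x0 h)

/-- geometric relation for the next distance -/
theorem RR_sq (n : ℕ) (v : ℝ) (hX : 0 < XX i B n v) :
    RR i B (n + 1) v ^ 2 = XX i B n v ^ 2 + 2 * cc i B (n + 1) v * XX i B n v + 1 := by
  have h1 := rho_pos (i := i) (B := B) (n + 1) v
  have h2 := rho_sq (i := i) (B := B) (n + 1) v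
  have h3 := rho_sq (i := i) (B := B) (n + 2) v
  unfold RR
  rw [div_pow, h3, S_succ (n + 1), D_succ n, div_eq_iff (by positivity)]
  have h4 := cc_rho (i := i) (B := B) (n + 1) v
  set X := XX i B n v
  set r := rho i B (n + 1) v
  set c := cc i B (n + 1) v
  rw [← h4] at h2 ⊢
  field_simp
  nlinarith

theorem RR_pos (h : Par i B) {n : ℕ} {v : ℝ} (z : Z0 i B n v) : 0 < RR i B (n + 1) v := by
  unfold RR; exact div_pos (rho_pos _ _) (z.d1 h)

/-- the next cosine -/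
theorem cc_next (h : Par i B) {n : ℕ} {v : ℝ} (z : Z0 i B n v) :
    cc i B (n + 2) v * RR i B (n + 1) v = cc i B (n + 1) v * XX i B n v + 1 := by
  have h1 := rho_pos (i := i) (B := B) (n + 1) v
  have h2 := rho_pos (i := i) (B := B) (n + 2) v
  have hX := z.x0 h
  have h4 := cc_rho (i := i) (B := B) (n + 1) v
  have h5 := cc_rho (i := i) (B := B) (n + 2) v
  have hd := z.d1 h
  unfold RR
  rw [mul_div_assoc', h5, S_succ (n + 1), div_eq_iff hd.ne', ← h4, D_succ]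
  field_simp

theorem nx_of_disc (h : Par i B) {R c : ℝ} (hR1 : B ≤ R) (hR2 : R ≤ B + 1) (hc : c ^ 2 ≤ 1)
    (hd : R ^ 2 - 2 * c * R + 1 ≤ B ^ 2) :
    B ^ 2 ≤ Q i B R ^ 2 + 2 * c * Q i B R + 1 := by
  have hX := Q_ge h hR1 hR2
  have hX0 := Q_pos h hR1 hR2
  have hB : 0 < B := by linarith [h.hB]
  by_contra hcon
  push Not at hcon
  set X := Q i B R
  -- (X + c)^2 < B^2 - 1 + c^2 and (R - c)^2 ≤ B^2 - 1 + c^2
  have e1 : (X + c) ^ 2 < B ^ 2 - 1 + c ^ 2 := by nlinarith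
  have e2 : (R - c) ^ 2 ≤ B ^ 2 - 1 + c ^ 2 := by nlinarith
  have e3 : X + c < B := by nlinarith
  have e4 : R - c ≤ B := by nlinarith
  linarith

/-- zero order invariant for the first level -/
theorem Z0_zero (h : Par i B) {v : ℝ} (h0 : 0 ≤ v) (h1 : v ≤ 1) : Z0 i B 0 v := by
  have hB8 := h.hB
  have hB : 0 < B := by linarith
  have hS : S i B 1 v = v / B := by rw [S_succ, S_zero, D_zero]; ring
  have hs0 : 0 ≤ S i B 1 v := by rw [hS]; positivity
  have hRR : RR i B 0 v = B * rho i B 1 v := by unfold RR; rw [D_zero]; field_simp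
  have hr := rho_pos (i := i) (B := B) 1 v
  have hr2 := rho_sq (i := i) (B := B) 1 v
  have hr1 : 1 ≤ rho i B 1 v := by nlinarith [sq_nonneg (S i B 1 v)]
  have hBs : B * S i B 1 v = v := by rw [hS]; field_simp
  have hrle : rho i B 1 v ≤ 1 + S i B 1 v ^ 2 / 2 := by
    apply le_of_sq_le_sq _ (by positivity)
    rw [hr2]; nlinarith [sq_nonneg (S i B 1 v ^ 2)]
  have hBs2 : B ^ 2 * S i B 1 v ^ 2 ≤ 1 := by
    have : (B * S i B 1 v) ^ 2 ≤ 1 := by rw [hBs]; nlinarith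
    nlinarith
  have hR1 : B ≤ RR i B 0 v := by rw [hRR]; nlinarith
  have hs2 : S i B 1 v ^ 2 ≤ 1 := by
    have : 1 ≤ B ^ 2 := by nlinarith
    nlinarith [sq_nonneg (S i B 1 v)]
  have hR2 : RR i B 0 v ≤ B + 1 := by
    rw [hRR]
    have : B * rho i B 1 v ≤ B * (1 + S i B 1 v ^ 2 / 2) := mul_le_mul_of_nonneg_left hrle hB.le
    have h5 : B * (S i B 1 v) ^ 2 ≤ 1 := by
      have : B * (S i B 1 v) ^ 2 = (B * S i B 1 v) * S i B 1 v := by ring
      rw [this, hBs]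
      have : S i B 1 v ≤ 1 := by nlinarith
      nlinarith
    linarith
  refine ⟨hs0, by rw [D_zero]; positivity, hR1, hR2, ?_⟩
  have hX := Q_ge h hR1 hR2
  have hX0 := Q_pos h hR1 hR2
  have hc : 0 ≤ cc i B 1 v := div_nonneg hs0 hr.le
  change B ^ 2 ≤ Q i B (RR i B 0 v) ^ 2 + 2 * cc i B 1 v * Q i B (RR i B 0 v) + 1
  set X := Q i B (RR i B 0 v)
  have hlow : B - B * (S i B 1 v ^ 2 / 2) ≤ X := by
    rw [hRR] at hX
    have : B * rho i B 1 v ≤ B * (1 + S i B 1 v ^ 2 / 2) := mul_le_mul_of_nonneg_left hrle hB.le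
    linarith
  have hlow0 : 0 ≤ B - B * (S i B 1 v ^ 2 / 2) := by nlinarith
  have hsq : (B - B * (S i B 1 v ^ 2 / 2)) ^ 2 ≤ X ^ 2 := pow_le_pow_left₀ hlow0 hlow 2
  have hcX : 0 ≤ cc i B 1 v * X := mul_nonneg hc hX0.le
  have : B ^ 2 - B ^ 2 * S i B 1 v ^ 2 ≤ (B - B * (S i B 1 v ^ 2 / 2)) ^ 2 := by
    have : 0 ≤ B ^ 2 * (S i B 1 v ^ 2) ^ 2 := by positivity
    nlinarith
  linarith

theorem Z0_all (h : Par i B) {v : ℝ} (h0 : 0 ≤ v) (h1 : v ≤ 1) (n : ℕ) : Z0 i B n v := by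
  induction n with
  | zero => exact Z0_zero h h0 h1
  | succ n ih =>
    have hB : 0 < B := by linarith [h.hB]
    have hX := ih.x0 h
    have hX2 := ih.x2 h
    have hd := ih.d1 h
    have hRR := RR_sq (i := i) (B := B) n v hX
    have hRp := RR_pos h ih
    have hc1 := cc_le (i := i) (B := B) (n + 1) v
    have hr1 : B ≤ RR i B (n + 1) v := by
      apply le_of_sq_le_sq _ hRp.le
      rw [hRR]; exact ih.nx
    have hr2 : RR i B (n + 1) v ≤ B + 1 := by
      apply le_of_sq_le_sq _ (by linarith)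
      rw [hRR]
      nlinarith [mul_le_mul_of_nonneg_right hc1 hX.le]
    have hs : 0 ≤ S i B (n + 1 + 1) v := by
      rw [S_succ (n + 1)]; linarith [ih.s0]
    refine ⟨hs, hd, hr1, hr2, ?_⟩
    apply nx_of_disc h hr1 hr2 (cc_sq _ _)
    have hn := cc_next h ih
    have e : RR i B (n + 1) v ^ 2 - 2 * cc i B (n + 1 + 1) v * RR i B (n + 1) v + 1 =
        XX i B n v ^ 2 := by
      have : 2 * cc i B (n + 1 + 1) v * RR i B (n + 1) v =
        2 * (cc i B (n + 2) v * RR i B (n + 1) v) := by ring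
      rw [this, hn, hRR]; ring
    rw [e]
    exact pow_le_pow_left₀ hX.le hX2 2

/-- the slopes along orbits -/
noncomputable def pp (i B : ℝ) : ℕ → ℝ → ℝ
  | 0, _ => 1
  | n + 1, v => 1 + (cc i B (n + 1) v + (RR i B n v / XX i B n v) ^ i *
      (cc i B (n + 1) v - RR i B n v * (1 - 1 / pp i B n v))) / XX i B n v

noncomputable def sg (i B : ℝ) : ℕ → ℝ → ℝ
  | 0, _ => 1 / B
  | n + 1, v => pp i B n v * sg i B n v

theorem starstar (h : Par i B) {X c : ℝ} (hX1 : B - 1 ≤ X) (hX2 : X ≤ B) (hc0 : 0 ≤ c)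
    (hc1 : c ≤ 1) (hT : X ^ i ≤ 2 * B ^ i) :
    c * (1 + 2 * c * (1 / X) + (1 / X) ^ 2) ^ ((2 + i) / 2) ≤
      (c + 1 / X) * (1 + 2 * c * (1 / X) * (B / X) ^ i) := by
  have hB8 := h.hB
  have hB : 0 < B := by linarith
  have hX : 0 < X := by linarith
  set δ := 1 / X with hδ
  have hδ0 : 0 < δ := by positivity
  set N := 1 + 2 * c * δ + δ ^ 2 with hN
  have hN1 : 1 ≤ N := by nlinarith [mul_nonneg hc0 hδ0.le, sq_nonneg δ]
  rcases lt_or_gt_of_ne h.hi0 with hn | hp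
  · have h1 : N ^ ((2 + i) / 2) ≤ N := by
      calc N ^ ((2 + i) / 2) ≤ N ^ (1:ℝ) := rpow_le_rpow_of_exponent_le hN1 (by linarith)
        _ = N := rpow_one N
    have h2 : 1 / 2 ≤ (B / X) ^ i := by
      rw [div_rpow hB.le hX.le, le_div_iff₀ (rpow_pos_of_pos hX i)]
      linarith
    have h3 : (c + δ) * (1 + 2 * c * δ * (1 / 2)) ≤ (c + δ) * (1 + 2 * c * δ * (B / X) ^ i) := by
      apply mul_le_mul_of_nonneg_left _ (by positivity)
      have := mul_le_mul_of_nonneg_left h2 (show 0 ≤ 2 * c * δ by positivity)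
      linarith
    have h4 : c * N ≤ (c + δ) * (1 + 2 * c * δ * (1 / 2)) := by
      rw [hN]
      have : 0 ≤ δ * (1 - c ^ 2) := mul_nonneg hδ0.le (by nlinarith)
      nlinarith
    have h5 : c * N ^ ((2 + i) / 2) ≤ c * N := mul_le_mul_of_nonneg_left h1 hc0
    linarith
  · have hi := h.hi
    have hδ7 : 7 * δ ≤ 1 - i := by
      rw [hδ, mul_one_div, div_le_iff₀ hX]
      have := h.hB2 hp
      nlinarith
    have h2 : 1 ≤ (B / X) ^ i := by
      apply one_le_rpow _ hp.le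
      rw [le_div_iff₀ hX]; linarith
    have h1 : N ^ ((2 + i) / 2) ≤ N * (1 + i / 2 * (N - 1)) := by
      have e : N ^ ((2 + i) / 2) = N * N ^ (i / 2) := by
        rw [show (2 + i) / 2 = 1 + i / 2 by ring, rpow_add (by linarith), rpow_one]
      rw [e]
      apply mul_le_mul_of_nonneg_left _ (by linarith)
      exact bern_pos (by linarith) (by linarith) (by linarith)
    have h3 : (c + δ) * (1 + 2 * c * δ) ≤ (c + δ) * (1 + 2 * c * δ * (B / X) ^ i) := by
      apply mul_le_mul_of_nonneg_left _ (by positivity)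
      have := mul_le_mul_of_nonneg_left h2 (show 0 ≤ 2 * c * δ by positivity)
      linarith
    have h5 : c * N ^ ((2 + i) / 2) ≤ c * (N * (1 + i / 2 * (N - 1))) :=
      mul_le_mul_of_nonneg_left h1 hc0
    -- polynomial inequality
    have h6 : c * (N * (1 + i / 2 * (N - 1))) ≤ (c + δ) * (1 + 2 * c * δ) := by
      have hδ1 : δ ≤ 1 / 7 := by linarith
      have q1 : c * (N - 1) ≤ 2 * δ + c * δ ^ 2 := by
        have : c * (N - 1) = 2 * δ * c ^ 2 + c * δ ^ 2 := by rw [hN]; ring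
        rw [this]
        have : 2 * δ * c ^ 2 ≤ 2 * δ * 1 := mul_le_mul_of_nonneg_left (by nlinarith) (by positivity)
        linarith
      have q2 : N ≤ 1 + 3 * δ := by
        rw [hN]
        have : c * δ ≤ 1 * δ := mul_le_mul_of_nonneg_right hc1 hδ0.le
        nlinarith
      have q3 : i * N ≤ 1 := by
        have : i * N ≤ (1 - 7 * δ) * (1 + 3 * δ) :=
          mul_le_mul (by linarith) q2 (by linarith) (by linarith)
        nlinarith
      have q4 : c * (N - 1) * (i * N) ≤ (2 * δ + c * δ ^ 2) * 1 :=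
        mul_le_mul q1 q3 (by positivity) (by positivity)
      have e1 : c * (N * (1 + i / 2 * (N - 1))) = c * N + 1 / 2 * (c * (N - 1) * (i * N)) := by ring
      have e2 : c * N = c + 2 * δ * c ^ 2 + c * δ ^ 2 := by rw [hN]; ring
      rw [e1, e2]
      have e3 : 0 ≤ c * δ ^ 2 := by positivity
      nlinarith
    linarith

end Pool.Agent.Helper82.Eq
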