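import Pool.Agent.Helper82.Eq2

set_option autoImplicit false

namespace Pool.Agent.Helper82.Eq

open Real

variable {i B : ℝ}

theorem XX_pow (h : Par i B) {n : ℕ} {v : ℝ} (z : Z0 i B n v) :
    XX i B n v ^ i = 2 * B ^ i - RR i B n v ^ i := Q_pow h z.r1 z.r2

theorem RRn_pos (h : Par i B) {n : ℕ} {v : ℝ} (z : Z0 i B n v) : 0 < RR i B n v := by
  have := h.hB; have := z.r1; linarith

theorem one_add_T (h : Par i B) {n : ℕ} {v : ℝ} (z : Z0 i B n v) :
    1 + (RR i B n v / XX i B n v) ^ i = 2 * (B / XX i B n v) ^ i := by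
  have hB : 0 < B := by linarith [h.hB]
  have hX := z.x0 h
  have hR := RRn_pos h z
  have hXi : 0 < XX i B n v ^ i := rpow_pos_of_pos hX i
  rw [div_rpow hR.le hX.le, div_rpow hB.le hX.le]
  have := XX_pow h z
  field_simp
  linarith

theorem pp_ub (h : Par i B) {n : ℕ} {v : ℝ} (z : Z0 i B n v) (hp : 1 ≤ pp i B n v) :
    pp i B (n + 1) v - 1 ≤ 2 * cc i B (n + 1) v * (1 / XX i B n v) * (B / XX i B n v) ^ i := by
  have hX := z.x0 h
  have hR := RRn_pos h z
  have hT := one_add_T h z
  have hT0 : 0 < (RR i B n v / XX i B n v) ^ i := rpow_pos_of_pos (by positivity) i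
  have e : pp i B (n + 1) v - 1 = (cc i B (n + 1) v + (RR i B n v / XX i B n v) ^ i *
      (cc i B (n + 1) v - RR i B n v * (1 - 1 / pp i B n v))) / XX i B n v := by
    simp only [pp]; ring
  have h1 : 0 ≤ RR i B n v * (1 - 1 / pp i B n v) := by
    apply mul_nonneg hR.le
    have : 1 / pp i B n v ≤ 1 := by rw [div_le_one (by linarith)]; exact hp
    linarith
  have h2 : cc i B (n + 1) v + (RR i B n v / XX i B n v) ^ i *
      (cc i B (n + 1) v - RR i B n v * (1 - 1 / pp i B n v)) ≤
      cc i B (n + 1) v * (1 + (RR i B n v / XX i B n v) ^ i) := by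
    have := mul_nonneg hT0.le h1
    linarith
  rw [e, div_le_iff₀ hX]
  rw [hT] at h2
  calc _ ≤ _ := h2
    _ = _ := by field_simp

theorem pp_one (h : Par i B) {v : ℝ} (z : Z0 i B 0 v) : 1 ≤ pp i B 1 v := by
  have hX := z.x0 h
  have hR := RRn_pos h z
  have hT0 : 0 < (RR i B 0 v / XX i B 0 v) ^ i := rpow_pos_of_pos (by positivity) i
  have hc := z.c0
  simp only [pp]
  have : 0 ≤ (cc i B (0 + 1) v + (RR i B 0 v / XX i B 0 v) ^ i *
      (cc i B (0 + 1) v - RR i B 0 v * (1 - 1 / 1))) / XX i B 0 v := by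
    apply div_nonneg _ hX.le
    have := mul_nonneg hT0.le hc
    norm_num at this ⊢
    linarith
  linarith

theorem pp_step (h : Par i B) {n : ℕ} {v : ℝ} (z : Z0 i B n v) (z' : Z0 i B (n + 1) v)
    (hp : 1 ≤ pp i B n v) (hp' : 1 ≤ pp i B (n + 1) v) : 1 ≤ pp i B (n + 2) v := by
  have hB : 0 < B := by linarith [h.hB]
  have hub := pp_ub h z hp
  have hX := z.x0 h
  have hX1 := z.x1 h
  have hX2 := z.x2 h
  have hR := RRn_pos h z
  have hX' := z'.x0 h
  have hR' := RRn_pos h z'
  have hc0 := z.c0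
  have hc1 := cc_le (i := i) (B := B) (n + 1) v
  have hXi := XX_pow h z
  have hT : XX i B n v ^ i ≤ 2 * B ^ i := by
    rw [hXi]; linarith [rpow_pos_of_pos hR i]
  have hss := starstar h hX1 hX2 hc0 hc1 hT
  have hRsq := RR_sq (i := i) (B := B) n v hX
  have hcn := cc_next h z
  have hXi' := XX_pow h z'
  set X := XX i B n v
  set c := cc i B (n + 1) v
  set R' := RR i B (n + 1) v
  set X' := XX i B (n + 1) v
  set c' := cc i B (n + 2) v
  set Y := 2 * c * (1 / X) * (B / X) ^ i with hY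
  set N := 1 + 2 * c * (1 / X) + (1 / X) ^ 2 with hN
  set p := pp i B (n + 1) v
  have hBX : 0 < (B / X) ^ i := rpow_pos_of_pos (by positivity) i
  have hY0 : 0 ≤ Y := by positivity
  have hNpos : 0 < N := by positivity
  have hRN : R' ^ 2 = X ^ 2 * N := by
    rw [hRsq, hN]; field_simp
  have hRi : (R' / X) ^ i = N ^ (i / 2) := by
    have : R' / X = N ^ ((1:ℝ) / 2) := by
      rw [← sqrt_eq_rpow]
      symm
      rw [sqrt_eq_iff_mul_self_eq hNpos.le (by positivity)]
      field_simp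
      linarith
    rw [this, ← rpow_mul hNpos.le]; congr 1; ring
  -- key inequality
  have hkey : R' ^ i * R' * Y ≤ 2 * B ^ i * c' * (1 + Y) := by
    have e1 : N ^ ((2 + i) / 2) = N * N ^ (i / 2) := by
      rw [show (2 + i) / 2 = 1 + i / 2 by ring, rpow_add hNpos, rpow_one]
    rw [e1, ← hRi] at hss
    -- hss : c * (N * (R'/X)^i) ≤ (c + 1/X) * (1 + Y)
    have hRX : (R' / X) ^ i = R' ^ i / X ^ i := div_rpow hR'.le hX.le i
    have hBXe : (B / X) ^ i = B ^ i / X ^ i := div_rpow hB.le hX.le i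
    have hXip : 0 < X ^ i := rpow_pos_of_pos hX i
    have hBip : 0 < B ^ i := rpow_pos_of_pos hB i
    have hRip : 0 < R' ^ i := rpow_pos_of_pos hR' i
    have hc' : c' = (c * X + 1) / R' := by rw [← hcn]; field_simp
    have m1 : (2 * B ^ i * X / R') * (c * (N * (R' / X) ^ i)) ≤
        (2 * B ^ i * X / R') * ((c + 1 / X) * (1 + Y)) :=
      mul_le_mul_of_nonneg_left hss (by positivity)
    have m2 : (2 * B ^ i * X / R') * (c * (N * (R' / X) ^ i)) = R' ^ i * R' * Y := by
      rw [hY, hBXe, hRX]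
      have hN2 : N = R' ^ 2 / X ^ 2 := by rw [hRN]; field_simp
      rw [hN2]
      field_simp
    have m3 : (2 * B ^ i * X / R') * ((c + 1 / X) * (1 + Y)) = 2 * B ^ i * c' * (1 + Y) := by
      rw [hc']; field_simp
    rw [m2, m3] at m1
    exact m1
  have hp0 : 0 < p := by linarith
  have he : (1 - 1 / p) * (1 + Y) ≤ Y := by
    have h1 : p ≤ 1 + Y := by linarith
    have h2 : 1 ≤ (1 / p) * (1 + Y) := by
      rw [one_div_mul_eq_div, le_div_iff₀ hp0]; linarith
    linarith
  have he0 : 0 ≤ 1 - 1 / p := by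
    have : 1 / p ≤ 1 := by rw [div_le_one hp0]; exact hp'
    linarith
  have hRip : 0 < R' ^ i := rpow_pos_of_pos hR' i
  have hfin : R' ^ i * R' * (1 - 1 / p) ≤ 2 * B ^ i * c' := by
    have h1 : R' ^ i * R' * (1 - 1 / p) * (1 + Y) ≤ 2 * B ^ i * c' * (1 + Y) := by
      calc R' ^ i * R' * (1 - 1 / p) * (1 + Y) = R' ^ i * R' * ((1 - 1 / p) * (1 + Y)) := by ring
        _ ≤ R' ^ i * R' * Y := mul_le_mul_of_nonneg_left he (by positivity)
        _ ≤ _ := hkey
    exact le_of_mul_le_mul_right h1 (by positivity)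
  have hXip : 0 < X' ^ i := rpow_pos_of_pos hX' i
  have hgoal : 0 ≤ c' + (R' / X') ^ i * (c' - R' * (1 - 1 / p)) := by
    rw [div_rpow hR'.le hX'.le]
    have : c' + R' ^ i / X' ^ i * (c' - R' * (1 - 1 / p)) =
        (c' * X' ^ i + R' ^ i * c' - R' ^ i * R' * (1 - 1 / p)) / X' ^ i := by
      field_simp
      ring
    rw [this]
    apply div_nonneg _ hXip.le
    rw [hXi']
    linarith
  have e : pp i B (n + 2) v = 1 + (c' + (R' / X') ^ i * (c' - R' * (1 - 1 / p))) / X' := rfl
  rw [e]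
  have := div_nonneg hgoal hX'.le
  linarith

theorem pp_ge (h : Par i B) {v : ℝ} (h0 : 0 ≤ v) (h1 : v ≤ 1) (n : ℕ) : 1 ≤ pp i B n v := by
  have key : ∀ n : ℕ, 1 ≤ pp i B n v ∧ 1 ≤ pp i B (n + 1) v := by
    intro n
    induction n with
    | zero => exact ⟨by simp [pp], pp_one h (Z0_all h h0 h1 0)⟩
    | succ n ih =>
      exact ⟨ih.2, pp_step h (Z0_all h h0 h1 n) (Z0_all h h0 h1 (n + 1)) ih.1 ih.2⟩
  exact (key n).1

theorem sg_pos (h : Par i B) {v : ℝ} (h0 : 0 ≤ v) (h1 : v ≤ 1) (n : ℕ) : 0 < sg i B n v := by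
  have hB : 0 < B := by linarith [h.hB]
  induction n with
  | zero => simp only [sg]; positivity
  | succ n ih => simp only [sg]; exact mul_pos (by linarith [pp_ge h h0 h1 n]) ih

theorem deriv_rho {n : ℕ} {v σ : ℝ} (hS : HasDerivAt (S i B n) σ v) :
    HasDerivAt (rho i B n) (cc i B n v * σ) v := by
  have h1 : HasDerivAt (fun x => 1 + S i B n x ^ 2) (2 * S i B n v * σ) v := by
    have := (hS.pow 2).const_add (1:ℝ)
    refine HasDerivAt.congr_deriv this ?_
    simp
  have h2 := h1.sqrt (by positivity)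
  refine HasDerivAt.congr_deriv h2 ?_
  unfold cc rho
  field_simp

theorem derivs (h : Par i B) {v : ℝ} (h0 : 0 ≤ v) (h1 : v ≤ 1) (n : ℕ) :
    HasDerivAt (S i B n) (sg i B n v) v ∧
      HasDerivAt (D i B n) ((pp i B n v - 1) * sg i B n v) v := by
  induction n with
  | zero =>
    constructor
    · have : HasDerivAt (fun x : ℝ => (x - 1) / B) (1 / B) v :=
        ((hasDerivAt_id v).sub_const 1).div_const B
      exact this
    · have : HasDerivAt (fun _ : ℝ => 1 / B) 0 v := hasDerivAt_const v (1 / B)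
      have e : (pp i B 0 v - 1) * sg i B 0 v = 0 := by simp [pp]
      rw [e]; exact this
  | succ n ih =>
    obtain ⟨iS, iD⟩ := ih
    have z := Z0_all h h0 h1 n
    have hX := z.x0 h
    have hR := RRn_pos h z
    have hd := z.d0
    have hp : 0 < pp i B n v := by linarith [pp_ge h h0 h1 n]
    have jS : HasDerivAt (S i B (n + 1)) (sg i B (n + 1) v) v := by
      have h1 := iS.add iD
      have e : sg i B (n + 1) v = sg i B n v + (pp i B n v - 1) * sg i B n v := by
        simp only [sg]; ring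
      rw [e]; exact h1
    refine ⟨jS, ?_⟩
    have jr := deriv_rho jS
    have jR : HasDerivAt (RR i B n) ((cc i B (n + 1) v * sg i B (n + 1) v * D i B n v -
        rho i B (n + 1) v * ((pp i B n v - 1) * sg i B n v)) / D i B n v ^ 2) v :=
      jr.div iD hd.ne'
    have jQ := (Q_deriv h z.r1 z.r2)
    have jX : HasDerivAt (XX i B n) (-(Q i B (RR i B n v) / RR i B n v) ^ (1 - i) *
        ((cc i B (n + 1) v * sg i B (n + 1) v * D i B n v -
        rho i B (n + 1) v * ((pp i B n v - 1) * sg i B n v)) / D i B n v ^ 2)) v :=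
      jQ.comp v jR
    have jD := jr.div jX hX.ne'
    refine HasDerivAt.congr_deriv jD ?_
    have hr := rho_pos (i := i) (B := B) (n + 1) v
    have eD : D i B n v = rho i B (n + 1) v / RR i B n v := by
      unfold RR; field_simp
    have e1 : (Q i B (RR i B n v) / RR i B n v) ^ (1 - i) =
        (XX i B n v / RR i B n v) * (RR i B n v / XX i B n v) ^ i := by
      change (XX i B n v / RR i B n v) ^ (1 - i) = _
      rw [sub_eq_add_neg, rpow_add (by positivity), rpow_one, rpow_neg (by positivity),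
        ← inv_rpow (by positivity), inv_div]
    rw [e1, eD]
    simp only [pp, sg]
    set T := (RR i B n v / XX i B n v) ^ i
    set X := XX i B n v
    set R := RR i B n v
    set c := cc i B (n + 1) v
    set r := rho i B (n + 1) v
    set p := pp i B n v
    set σ := sg i B n v
    field_simp
    ring

end Pool.Agent.Helper82.Eq
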