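import Pool.Agent.Helper82.Eq3

set_option autoImplicit false

namespace Pool.Agent.Helper82.Eq

open Real Set

variable {i B : ℝ}

theorem S_strict (h : Par i B) (n : ℕ) : StrictMonoOn (S i B n) (Icc 0 1) := by
  apply strictMonoOn_of_deriv_pos (convex_Icc 0 1)
  · intro x hx
    exact (derivs h hx.1 hx.2 n).1.continuousAt.continuousWithinAt
  · intro x hx
    rw [interior_Icc] at hx
    rw [(derivs h hx.1.le hx.2.le n).1.deriv]
    exact sg_pos h hx.1.le hx.2.le n

theorem Z_junction (h : Par i B) (n : ℕ) : Z i B (n + 1) 0 = Z i B n 1 := by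
  induction n with
  | zero =>
    have hB : 0 < B := by linarith [h.hB]
    have e1 : Z i B 0 1 = (0, 1 / B) := by simp [Z]
    have e2 : Z i B (0 + 1) 0 = nxt i B ((0 - 1) / B, 1 / B) := rfl
    rw [e1, e2]
    unfold nxt
    have e3 : ((0:ℝ) - 1) / B + 1 / B = 0 := by ring
    simp only [e3]
    norm_num
    exact Q_B h
  | succ n ih =>
    have : Z i B (n + 1 + 1) 0 = nxt i B (Z i B (n + 1) 0) := rfl
    rw [this, ih]; rfl

theorem S_junction (h : Par i B) (n : ℕ) : S i B (n + 1) 0 = S i B n 1 := by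
  unfold S; rw [Z_junction h]

theorem S_one (v : ℝ) : S i B 1 v = v / B := by rw [S_succ, S_zero, D_zero]; ring

theorem D_ge (h : Par i B) {v : ℝ} (h0 : 0 ≤ v) (h1 : v ≤ 1) (n : ℕ) : 1 / B ≤ D i B n v := by
  have hB : 0 < B := by linarith [h.hB]
  cases n with
  | zero => rw [D_zero]
  | succ n =>
    have z := Z0_all h h0 h1 n
    have hX := z.x0 h
    have hX2 := z.x2 h
    rw [D_succ, div_le_div_iff₀ hB hX]
    have hr : 1 ≤ rho i B (n + 1) v := by
      have := rho_sq (i := i) (B := B) (n + 1) v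
      have h3 := rho_pos (i := i) (B := B) (n + 1) v
      nlinarith [sq_nonneg (S i B (n + 1) v)]
    nlinarith

theorem S_grow (h : Par i B) {v : ℝ} (h0 : 0 ≤ v) (h1 : v ≤ 1) (n : ℕ) :
    n / B ≤ S i B (n + 1) v := by
  have hB : 0 < B := by linarith [h.hB]
  induction n with
  | zero => rw [S_one]; simp; positivity
  | succ n ih =>
    rw [S_succ (n + 1)]
    have := D_ge h h0 h1 (n + 1)
    push_cast
    rw [add_div]
    linarith

theorem m0 : (0:ℝ) ∈ Icc (0:ℝ) 1 := by constructor <;> norm_num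
theorem m1 : (1:ℝ) ∈ Icc (0:ℝ) 1 := by constructor <;> norm_num

theorem S_chain (h : Par i B) (n j : ℕ) : S i B (n + 1) 1 ≤ S i B (n + 1 + j + 1) 0 := by
  induction j with
  | zero => rw [Nat.add_zero, S_junction h]
  | succ j ih =>
    rw [show n + 1 + (j + 1) + 1 = (n + 1 + j + 1) + 1 by ring, S_junction h]
    exact ih.trans (S_strict h _ m0 m1 (by norm_num)).le

/-- the orbit parametrisation on the nonnegative reals -/
noncomputable def Gp (i B x : ℝ) : ℝ := S i B (⌊x⌋₊ + 1) (x - ⌊x⌋₊)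

theorem fr_mem {x : ℝ} (hx : 0 ≤ x) : x - ⌊x⌋₊ ∈ Icc (0:ℝ) 1 := by
  constructor
  · linarith [Nat.floor_le hx]
  · linarith [Nat.lt_floor_add_one x]

theorem Gp_strict (h : Par i B) {x y : ℝ} (hx : 0 ≤ x) (hxy : x < y) : Gp i B x < Gp i B y := by
  have hy : 0 ≤ y := hx.trans hxy.le
  have hfl : ⌊x⌋₊ ≤ ⌊y⌋₊ := Nat.floor_mono hxy.le
  unfold Gp
  rcases hfl.eq_or_lt with he | hl
  · rw [← he]
    apply S_strict h _ (fr_mem hx) (by have := fr_mem hy; rw [← he] at this; exact this)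
    linarith
  · obtain ⟨j, hj⟩ := Nat.exists_eq_add_of_lt hl
    have hx1 : x - ⌊x⌋₊ < 1 := by linarith [Nat.lt_floor_add_one x]
    have a1 : S i B (⌊x⌋₊ + 1) (x - ⌊x⌋₊) < S i B (⌊x⌋₊ + 1) 1 :=
      S_strict h _ (fr_mem hx) m1 hx1
    have a2 := S_chain h ⌊x⌋₊ j
    have e : ⌊x⌋₊ + 1 + j + 1 = ⌊y⌋₊ + 1 := by omega
    rw [e] at a2
    have a3 : S i B (⌊y⌋₊ + 1) 0 ≤ S i B (⌊y⌋₊ + 1) (y - ⌊y⌋₊) :=
      (S_strict h _).monotoneOn m0 (fr_mem hy) (fr_mem hy).1
    linarith

theorem Gp_zero : Gp i B 0 = 0 := by unfold Gp; simp [S_one]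

theorem Gp_surj (h : Par i B) {y : ℝ} (hy : 0 ≤ y) : ∃ x, 0 ≤ x ∧ Gp i B x = y := by
  have hB : 0 < B := by linarith [h.hB]
  obtain ⟨N, hN⟩ := exists_nat_gt (y * B)
  have hN' : y < S i B (N + 1) 1 := by
    have := S_grow h (v := 1) (by norm_num) le_rfl N
    have h2 : y < N / B := by rw [lt_div_iff₀ hB]; exact hN
    linarith
  have hex : ∃ n : ℕ, y < S i B (n + 1) 1 := ⟨N, hN'⟩
  classical
  set n := Nat.find hex with hn
  have hspec : y < S i B (n + 1) 1 := Nat.find_spec hex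
  have hlow : S i B (n + 1) 0 ≤ y := by
    rcases Nat.eq_zero_or_pos n with h0 | h0
    · rw [h0, zero_add, S_one]; simpa using hy
    · obtain ⟨j, hj⟩ := Nat.exists_eq_add_of_le' h0
      have hlt : j < Nat.find hex := by omega
      have := Nat.find_min hex hlt
      push Not at this
      rw [hj, S_junction h]
      exact this
  have hcont : ContinuousOn (S i B (n + 1)) (Icc 0 1) := fun x hx =>
    (derivs h hx.1 hx.2 (n + 1)).1.continuousAt.continuousWithinAt
  obtain ⟨v, hv, hv2⟩ := intermediate_value_Icc (show (0:ℝ) ≤ 1 by norm_num) hcont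
    ⟨hlow, hspec.le⟩
  have hv1 : v < 1 := by
    rcases hv.2.eq_or_lt with he | hl
    · rw [he] at hv2; rw [hv2] at hspec; exact absurd hspec (lt_irrefl _)
    · exact hl
  refine ⟨n + v, by have := hv.1; positivity, ?_⟩
  have hfl : ⌊(n:ℝ) + v⌋₊ = n := by
    rw [Nat.floor_eq_iff (by have := hv.1; positivity)]
    constructor <;> linarith [hv.1]
  unfold Gp
  rw [hfl, add_sub_cancel_left]
  exact hv2

noncomputable def GG (i B x : ℝ) : ℝ := if 0 ≤ x then Gp i B x else -Gp i B (-x)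

theorem GG_nonneg {x : ℝ} (hx : 0 ≤ x) : GG i B x = Gp i B x := if_pos hx

theorem GG_odd (x : ℝ) : GG i B (-x) = - GG i B x := by
  unfold GG
  rcases lt_trichotomy x 0 with hx | hx | hx
  · rw [if_pos (by linarith), if_neg (by linarith), neg_neg]
  · subst hx; simp [Gp_zero]
  · rw [if_neg (by linarith), if_pos hx.le, neg_neg]

theorem GG_strict (h : Par i B) : StrictMono (GG i B) := by
  intro x y hxy
  rcases le_or_gt 0 x with hx | hx
  · rw [GG_nonneg hx, GG_nonneg (hx.trans hxy.le)]; exact Gp_strict h hx hxy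
  · rcases le_or_gt 0 y with hy | hy
    · have e1 : GG i B x < 0 := by
        have : GG i B x = -GG i B (-x) := by rw [GG_odd]; ring
        rw [this, GG_nonneg (by linarith)]
        have := Gp_strict h le_rfl (show (0:ℝ) < -x by linarith)
        rw [Gp_zero] at this
        linarith
      have e2 : 0 ≤ GG i B y := by
        rw [GG_nonneg hy]
        rcases hy.eq_or_lt with he | hl
        · rw [← he, Gp_zero]
        · have := Gp_strict h le_rfl hl
          rw [Gp_zero] at this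
          exact this.le
      linarith
    · have e1 : GG i B x = -GG i B (-x) := by rw [GG_odd]; ring
      have e2 : GG i B y = -GG i B (-y) := by rw [GG_odd]; ring
      rw [e1, e2, GG_nonneg (by linarith), GG_nonneg (by linarith)]
      have := Gp_strict h (show 0 ≤ -y by linarith) (show -y < -x by linarith)
      linarith

theorem GG_surj (h : Par i B) : Function.Surjective (GG i B) := by
  intro y
  rcases le_total 0 y with hy | hy
  · obtain ⟨x, hx, hx2⟩ := Gp_surj h hy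
    exact ⟨x, by rw [GG_nonneg hx]; exact hx2⟩
  · obtain ⟨x, hx, hx2⟩ := Gp_surj h (show 0 ≤ -y by linarith)
    refine ⟨-x, ?_⟩
    rw [GG_odd, GG_nonneg hx, hx2, neg_neg]

/-- the relations between values of `GG` at shifted arguments -/
theorem GG_rel (h : Par i B) {x : ℝ} (hx : 0 ≤ x) :
    ∃ n : ℕ, ∃ v ∈ Icc (0:ℝ) 1, GG i B x = S i B (n + 1) v ∧ GG i B (x + 1) = S i B (n + 2) v ∧
      GG i B (x - 1) = S i B n v := by
  refine ⟨⌊x⌋₊, x - ⌊x⌋₊, fr_mem hx, ?_, ?_, ?_⟩
  · rw [GG_nonneg hx]; rfl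
  · rw [GG_nonneg (by linarith)]
    unfold Gp
    rw [Nat.floor_add_one hx]
    push_cast
    congr 1; ring
  · rcases le_or_gt 1 x with h1 | h1
    · rw [GG_nonneg (by linarith)]
      unfold Gp
      have hf : 1 ≤ ⌊x⌋₊ := by rw [Nat.one_le_floor_iff]; exact h1
      rw [Nat.floor_sub_one, Nat.sub_add_cancel hf, Nat.cast_sub hf]
      push_cast
      congr 1; ring
    · have hf : ⌊x⌋₊ = 0 := Nat.floor_eq_zero.mpr h1
      have e : GG i B (x - 1) = -GG i B (1 - x) := by
        rw [← GG_odd]; congr 1; ring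
      rw [e, hf, GG_nonneg (by linarith)]
      unfold Gp
      rcases hx.eq_or_lt with he | hl
      · rw [← he]
        simp
        rw [S_zero]
        have : S i B (1 + 1) 0 = S i B 1 1 := S_junction h 1
        rw [this, S_one]; ring
      · have hf2 : ⌊1 - x⌋₊ = 0 := Nat.floor_eq_zero.mpr (by linarith)
        rw [hf2]
        simp
        rw [S_one, S_zero]; ring

noncomputable def Gi (h : Par i B) : ℝ ≃o ℝ :=
  StrictMono.orderIsoOfSurjective (GG i B) (GG_strict h) (GG_surj h)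

theorem Gi_apply (h : Par i B) (x : ℝ) : Gi h x = GG i B x := rfl

/-- the increasing homeomorphism -/
noncomputable def ff (h : Par i B) : ℝ ≃o ℝ :=
  ((Gi h).symm.trans (OrderIso.addRight (1:ℝ))).trans (Gi h)

theorem ff_G (h : Par i B) (x : ℝ) : ff h (GG i B x) = GG i B (x + 1) := by
  have e : (Gi h).symm (GG i B x) = x := by rw [← Gi_apply h]; exact (Gi h).symm_apply_apply x
  unfold ff
  simp only [OrderIso.trans_apply, e, OrderIso.addRight_apply]
  rfl

theorem ff_gt (h : Par i B) (s : ℝ) : s < ff h s := by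
  obtain ⟨x, rfl⟩ := GG_surj h s
  rw [ff_G]
  exact GG_strict h (by linarith)

theorem ff_inv (h : Par i B) (s : ℝ) : ff h (-(ff h s)) = -s := by
  obtain ⟨x, rfl⟩ := GG_surj h s
  rw [ff_G, ← GG_odd, ff_G, ← GG_odd]
  congr 1; ring

noncomputable def Dl (h : Par i B) (s : ℝ) : ℝ := ff h s - s

theorem Dl_pos (h : Par i B) (s : ℝ) : 0 < Dl h s := by
  unfold Dl; linarith [ff_gt h s]

theorem Dl_inv (h : Par i B) (s : ℝ) : Dl h (-(ff h s)) = Dl h s := by
  unfold Dl; rw [ff_inv]; ring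

theorem Dl_cont (h : Par i B) : Continuous (Dl h) :=
  (ff h).continuous.sub continuous_id

/-- radial function as a function of the cotangent -/
noncomputable def Xf (h : Par i B) (s : ℝ) : ℝ := √(1 + s ^ 2) / Dl h s

theorem Xf_pos (h : Par i B) (s : ℝ) : 0 < Xf h s := div_pos (by positivity) (Dl_pos h s)

theorem Xf_cont (h : Par i B) : Continuous (Xf h) := by
  unfold Xf
  exact (by fun_prop : Continuous fun s : ℝ => √(1 + s ^ 2)).div (Dl_cont h)
    (fun s => (Dl_pos h s).ne')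

theorem Xf_rel (h : Par i B) {s : ℝ} (hs : 0 ≤ s) :
    ∃ n : ℕ, ∃ v ∈ Icc (0:ℝ) 1, Xf h s = XX i B n v ∧ Xf h (-s) = RR i B n v := by
  obtain ⟨x, rfl⟩ := GG_surj h s
  have hx : 0 ≤ x := by
    by_contra hc
    push Not at hc
    have := GG_strict h hc
    have e : GG i B 0 = 0 := by rw [GG_nonneg le_rfl, Gp_zero]
    linarith
  obtain ⟨n, v, hv, e1, e2, e3⟩ := GG_rel h hx
  have z := Z0_all h hv.1 hv.2 n
  have hX := z.x0 h
  have hr := rho_pos (i := i) (B := B) (n + 1) v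
  refine ⟨n, v, hv, ?_, ?_⟩
  · have eD : Dl h (GG i B x) = D i B (n + 1) v := by
      unfold Dl; rw [ff_G, e1, e2, S_succ (n + 1)]; ring
    unfold Xf
    rw [eD, D_succ, e1]
    change rho i B (n + 1) v / _ = _
    field_simp
  · have eD : Dl h (-(GG i B x)) = D i B n v := by
      unfold Dl
      rw [← GG_odd, ff_G, show -x + 1 = -(x - 1) by ring, GG_odd, GG_odd, e1, e3, S_succ n]; ring
    unfold Xf
    rw [eD, neg_sq, e1]
    rfl

theorem Xf_bounds (h : Par i B) {s : ℝ} (hs : 0 ≤ s) :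
    B - 1 ≤ Xf h s ∧ Xf h s ≤ B ∧ B ≤ Xf h (-s) ∧ Xf h (-s) ≤ B + 1 ∧
      Xf h s = Q i B (Xf h (-s)) := by
  obtain ⟨n, v, hv, e1, e2⟩ := Xf_rel h hs
  have z := Z0_all h hv.1 hv.2 n
  rw [e1, e2]
  exact ⟨z.x1 h, z.x2 h, z.r1, z.r2, rfl⟩

theorem Xf_sum (h : Par i B) (s : ℝ) : Xf h s ^ i + Xf h (-s) ^ i = 2 * B ^ i := by
  rcases le_total 0 s with hs | hs
  · obtain ⟨h1, h2, h3, h4, h5⟩ := Xf_bounds h hs
    have := Q_pow h h3 h4
    rw [← h5] at this
    linarith
  · obtain ⟨h1, h2, h3, h4, h5⟩ := Xf_bounds h (show 0 ≤ -s by linarith)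
    rw [neg_neg] at h3 h4 h5
    have := Q_pow h h3 h4
    rw [← h5] at this
    linarith

theorem Xf_next (h : Par i B) (t : ℝ) :
    Xf h (-(ff h t)) = √(Xf h t ^ 2 + 2 * (t / √(1 + t ^ 2)) * Xf h t + 1) := by
  have hD := Dl_pos h t
  have hr : 0 < √(1 + t ^ 2) := by positivity
  have hr2 : √(1 + t ^ 2) ^ 2 = 1 + t ^ 2 := Real.sq_sqrt (by positivity)
  have e1 : Xf h (-(ff h t)) = √(1 + (ff h t) ^ 2) / Dl h t := by
    unfold Xf; rw [Dl_inv, neg_sq]
  rw [e1]
  symm
  rw [Real.sqrt_eq_iff_mul_self_eq (by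
    have h1 : 0 ≤ (Xf h t + t / √(1 + t ^ 2)) ^ 2 := sq_nonneg _
    have h2 : (t / √(1 + t ^ 2)) ^ 2 ≤ 1 := by
      rw [div_pow, hr2, div_le_one (by positivity)]; linarith
    nlinarith) (by positivity)]
  have e2 : ff h t = t + Dl h t := by unfold Dl; ring
  rw [e2]
  have e3 : √(1 + (t + Dl h t) ^ 2) / Dl h t * (√(1 + (t + Dl h t) ^ 2) / Dl h t) =
      (1 + (t + Dl h t) ^ 2) / Dl h t ^ 2 := by
    rw [div_mul_div_comm, Real.mul_self_sqrt (by positivity), sq (Dl h t)]
  rw [e3]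
  unfold Xf
  field_simp
  rw [hr2]; ring

end Pool.Agent.Helper82.Eq
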