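import Pool.Agent.Helper82.Eq4

set_option autoImplicit false

namespace Pool.Agent.Helper82.Eq

open Real Set Filter Topology

variable {i B : ℝ}

theorem cos_lim : Tendsto (fun t : ℝ => t / √(1 + t ^ 2)) atTop (𝓝 1) := by
  have h1 : Tendsto (fun t : ℝ => 1 - 1 / (t + 1)) atTop (𝓝 (1 - 0)) := by
    apply Tendsto.sub tendsto_const_nhds
    have := tendsto_inv_atTop_zero.comp (tendsto_atTop_add_const_right atTop (1:ℝ) tendsto_id)
    refine this.congr fun t => ?_
    simp
  rw [sub_zero] at h1
  refine tendsto_of_tendsto_of_tendsto_of_le_of_le' h1 tendsto_const_nhds ?_ ?_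
  · filter_upwards [eventually_ge_atTop (0:ℝ)] with t ht
    have e : 1 - 1 / (t + 1) = t / (t + 1) := by field_simp; ring
    rw [e]
    apply div_le_div_of_nonneg_left ht (by positivity)
    rw [Real.sqrt_le_left (by positivity)]
    nlinarith
  · filter_upwards [eventually_ge_atTop (0:ℝ)] with t ht
    rw [div_le_one (by positivity)]
    apply Real.le_sqrt_of_sq_le
    linarith

theorem ff_symm_top (h : Par i B) : Tendsto (ff h).symm atTop atTop :=
  (ff h).symm.tendsto_atTop

theorem ff_top (h : Par i B) : Tendsto (ff h) atTop atTop := (ff h).tendsto_atTop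

/-- limit of the backward radial function along a filter -/
theorem back_lim (h : Par i B) {V : Filter ℝ} (hV : V ≤ atTop) {x : ℝ} (hx : 0 ≤ x)
    (hl : Tendsto (Xf h) V (𝓝 x)) : Tendsto (fun t => Xf h (-(ff h t))) V (𝓝 (x + 1)) := by
  have h1 : Tendsto (fun t => √(Xf h t ^ 2 + 2 * (t / √(1 + t ^ 2)) * Xf h t + 1)) V
      (𝓝 (√(x ^ 2 + 2 * 1 * x + 1))) := by
    apply Tendsto.sqrt
    apply Tendsto.add_const
    apply (hl.pow 2).add
    exact ((cos_lim.mono_left hV).const_mul 2).mul hl
  have e : √(x ^ 2 + 2 * 1 * x + 1) = x + 1 := by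
    rw [show x ^ 2 + 2 * 1 * x + 1 = (x + 1) ^ 2 by ring]
    exact Real.sqrt_sq (by linarith)
  rw [e] at h1
  refine h1.congr fun t => ?_
  rw [Xf_next]

theorem lim_exists (h : Par i B) :
    ∃ l : ℝ, B - 1 ≤ l ∧ l ≤ B ∧ Tendsto (Xf h) atTop (𝓝 l) := by
  have hB8 := h.hB
  have hK : ∀ᶠ s in atTop, Xf h s ∈ Icc (B - 1) B := by
    filter_upwards [eventually_ge_atTop (0:ℝ)] with s hs
    obtain ⟨h1, h2, -⟩ := Xf_bounds h hs
    exact ⟨h1, h2⟩
  set A : Set ℝ := {x | MapClusterPt x atTop (Xf h)} with hA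
  have hAK : A ⊆ Icc (B - 1) B := by
    intro x hx
    have : IsClosed (Icc (B - 1) B) := isClosed_Icc
    exact this.mem_of_mapClusterPt hx hK
  have hAcl : IsClosed A := isClosed_setOfPred_clusterPt
  have hAne : A.Nonempty := by
    obtain ⟨x, -, hx⟩ := isCompact_Icc.exists_mapClusterPt_of_frequently (l := atTop) (f := Xf h) hK.frequently
    exact ⟨x, hx⟩
  have hAc : IsCompact A := isCompact_Icc.of_isClosed_subset hAcl hAK
  have hpre : ∀ x' ∈ A, ∃ x ∈ A, Q i B (x + 1) = x' := by
    intro x' hx'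
    obtain ⟨U, hU, hUx⟩ := mapClusterPt_iff_ultrafilter.mp hx'
    set V : Ultrafilter ℝ := U.map (ff h).symm with hV
    have hVtop : (V : Filter ℝ) ≤ atTop := by
      rw [hV, Ultrafilter.coe_map]
      exact (map_mono hU).trans (ff_symm_top h)
    obtain ⟨x, hxK, hxV⟩ := isCompact_Icc.ultrafilter_le_nhds (V.map (Xf h)) (by
      rw [le_principal_iff, Ultrafilter.coe_map]
      exact hVtop hK)
    have hlim : Tendsto (Xf h) V (𝓝 x) := by
      rw [Ultrafilter.coe_map] at hxV
      exact hxV
    refine ⟨x, mapClusterPt_iff_ultrafilter.mpr ⟨V, hVtop, hlim⟩, ?_⟩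
    have hx0 : 0 ≤ x := by linarith [hxK.1]
    have hb := back_lim h hVtop hx0 hlim
    have hx1 : x + 1 ∈ Icc B (B + 1) := ⟨by linarith [hxK.1], by linarith [hxK.2]⟩
    have hbK : ∀ᶠ t in (V : Filter ℝ), Xf h (-(ff h t)) ∈ Icc B (B + 1) := by
      apply hVtop
      filter_upwards [(ff_top h).eventually (eventually_ge_atTop (0:ℝ))] with t ht
      obtain ⟨-, -, h3, h4, -⟩ := Xf_bounds h ht
      exact ⟨h3, h4⟩
    have hQ : Tendsto (fun t => Q i B (Xf h (-(ff h t)))) V (𝓝 (Q i B (x + 1))) :=
      ((Q_contOn h) _ hx1).tendsto.comp (tendsto_nhdsWithin_iff.mpr ⟨hb, hbK⟩)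
    have hQ2 : Tendsto (fun t => Xf h (ff h t)) V (𝓝 (Q i B (x + 1))) := by
      refine hQ.congr' ?_
      apply hVtop
      filter_upwards [(ff_top h).eventually (eventually_ge_atTop (0:ℝ))] with t ht
      obtain ⟨-, -, -, -, h5⟩ := Xf_bounds h ht
      exact h5.symm
    have hQ3 : Tendsto (fun t => Xf h (ff h t)) V (𝓝 x') := by
      rw [hV, Ultrafilter.coe_map, tendsto_map'_iff]
      refine hUx.congr fun t => ?_
      simp
    exact tendsto_nhds_unique hQ2 hQ3
  obtain ⟨M, hM, hMmax⟩ := hAc.exists_isMaxOn hAne continuousOn_id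
  obtain ⟨L, hL, hLmin⟩ := hAc.exists_isMinOn hAne continuousOn_id
  have hML : M = L := by
    have hLM : L ≤ M := hMmax hL
    rcases hLM.eq_or_lt with he | hlt
    · exact he.symm
    exfalso
    obtain ⟨x, hx, hxM⟩ := hpre M hM
    obtain ⟨y, hy, hyL⟩ := hpre L hL
    have hx1 := hAK hx
    have hy1 := hAK hy
    have bx1 : x ≤ M := hMmax hx
    have bx2 : L ≤ x := hLmin hx
    have by1 : y ≤ M := hMmax hy
    have by2 : L ≤ y := hLmin hy
    rcases lt_trichotomy x y with hxy | hxy | hxy
    · have := Q_contr h (x := x + 1) (y := y + 1) (by linarith [hx1.1]) (by linarith)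
        (by linarith [hy1.2])
      rw [hxM, hyL] at this
      have h2 := neg_abs_le (L - M)
      linarith
    · rw [hxy, hyL] at hxM; linarith
    · have := Q_contr h (x := y + 1) (y := x + 1) (by linarith [hy1.1]) (by linarith)
        (by linarith [hx1.2])
      rw [hxM, hyL] at this
      have h2 := le_abs_self (M - L)
      linarith
  refine ⟨M, (hAK hM).1, (hAK hM).2, ?_⟩
  apply isCompact_Icc.tendsto_nhds_of_unique_mapClusterPt hK
  intro x _ hx
  have h1 : x ≤ M := hMmax hx
  have h2 : L ≤ x := hLmin hx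
  linarith

noncomputable def ell (h : Par i B) : ℝ := (lim_exists h).choose
theorem ell_lo (h : Par i B) : B - 1 ≤ ell h := (lim_exists h).choose_spec.1
theorem ell_hi (h : Par i B) : ell h ≤ B := (lim_exists h).choose_spec.2.1
theorem ell_lim (h : Par i B) : Tendsto (Xf h) atTop (𝓝 (ell h)) :=
  (lim_exists h).choose_spec.2.2

theorem ell_lim' (h : Par i B) : Tendsto (fun s => Xf h (-s)) atTop (𝓝 (ell h + 1)) := by
  have h0 : 0 ≤ ell h := by linarith [ell_lo h, h.hB]
  have h1 := back_lim h le_rfl h0 (ell_lim h)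
  have h2 := h1.comp (ff_symm_top h)
  refine h2.congr fun s => ?_
  simp

theorem ell_sum (h : Par i B) : ell h ^ i + (ell h + 1) ^ i = 2 * B ^ i := by
  have h0 : 0 < ell h := by linarith [ell_lo h, h.hB]
  have h1 : Tendsto (fun s => Xf h s ^ i + Xf h (-s) ^ i) atTop
      (𝓝 (ell h ^ i + (ell h + 1) ^ i)) :=
    ((ell_lim h).rpow_const (Or.inl h0.ne')).add
      ((ell_lim' h).rpow_const (Or.inl (by linarith)))
  have h2 : Tendsto (fun s => Xf h s ^ i + Xf h (-s) ^ i) atTop (𝓝 (2 * B ^ i)) := by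
    refine tendsto_const_nhds.congr fun s => ?_
    rw [Xf_sum]
  exact tendsto_nhds_unique h1 h2

/-- radial function as a function of the cosine -/
noncomputable def Xb (h : Par i B) (c : ℝ) : ℝ :=
  if 1 ≤ c then ell h else if c ≤ -1 then ell h + 1 else Xf h (c / √(1 - c ^ 2))

theorem Xb_one (h : Par i B) : Xb h 1 = ell h := by unfold Xb; simp
theorem Xb_neg_one (h : Par i B) : Xb h (-1) = ell h + 1 := by
  unfold Xb; rw [if_neg (by norm_num), if_pos le_rfl]
theorem Xb_mid (h : Par i B) {c : ℝ} (h1 : -1 < c) (h2 : c < 1) :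
    Xb h c = Xf h (c / √(1 - c ^ 2)) := by
  unfold Xb; rw [if_neg (by linarith), if_neg (by linarith)]

theorem Xb_pos (h : Par i B) (c : ℝ) : 0 < Xb h c := by
  have h0 : 0 < ell h := by linarith [ell_lo h, h.hB]
  unfold Xb
  split_ifs
  · exact h0
  · linarith
  · exact Xf_pos h _

theorem Xb_sum (h : Par i B) {c : ℝ} (h1 : -1 ≤ c) (h2 : c ≤ 1) :
    Xb h c ^ i + Xb h (-c) ^ i = 2 * B ^ i := by
  rcases h1.eq_or_lt with he | hl
  · rw [← he, neg_neg, Xb_one, Xb_neg_one]; linarith [ell_sum h]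
  rcases h2.eq_or_lt with he | hl2
  · rw [he, Xb_one, Xb_neg_one]; exact ell_sum h
  rw [Xb_mid h hl hl2, Xb_mid h (by linarith) (by linarith), neg_sq, neg_div]
  exact Xf_sum h _

theorem tan_top : Tendsto (fun c : ℝ => c / √(1 - c ^ 2)) (𝓝[<] 1) atTop := by
  have h1 : Tendsto (fun c : ℝ => √(1 - c ^ 2)) (𝓝[<] 1) (𝓝[>] 0) := by
    rw [tendsto_nhdsWithin_iff]
    constructor
    · have : Continuous (fun c : ℝ => √(1 - c ^ 2)) := by fun_prop
      have h2 := this.tendsto 1
      simp at h2
      exact h2.mono_left nhdsWithin_le_nhds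
    · have : Ioo (0:ℝ) 1 ∈ 𝓝[<] (1:ℝ) := Ioo_mem_nhdsLT (by norm_num)
      filter_upwards [this] with c hc
      apply Real.sqrt_pos.mpr
      have := hc.1; have := hc.2
      nlinarith
  have h2 : Tendsto (fun c : ℝ => (√(1 - c ^ 2))⁻¹) (𝓝[<] 1) atTop :=
    tendsto_inv_nhdsGT_zero.comp h1
  have h3 : Tendsto (fun c : ℝ => c) (𝓝[<] 1) (𝓝 1) := tendsto_id.mono_left nhdsWithin_le_nhds
  have := h3.pos_mul_atTop (by norm_num) h2
  exact this.congr fun c => by rw [div_eq_mul_inv]

theorem Xb_cont (h : Par i B) : Continuous (Xb h) := by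
  rw [continuous_iff_continuousAt]
  intro c
  rcases lt_trichotomy c 1 with h1 | h1 | h1
  · rcases lt_trichotomy c (-1) with h2 | h2 | h2
    · have : Xb h =ᶠ[𝓝 c] fun _ => ell h + 1 := by
        filter_upwards [Iio_mem_nhds h2] with x hx
        have hx' : x < -1 := hx
        unfold Xb
        rw [if_neg (by linarith), if_pos (by linarith)]
      exact continuousAt_const.congr this.symm
    · rw [continuousAt_iff_continuous_left'_right']
      constructor
      · have : Xb h =ᶠ[𝓝[<] c] fun _ => ell h + 1 := by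
          filter_upwards [self_mem_nhdsWithin] with x hx
          have hx' : x < c := hx
          unfold Xb
          rw [if_neg (by linarith), if_pos (by linarith)]
        unfold ContinuousWithinAt
        rw [h2, Xb_neg_one]
        rw [h2] at this
        exact tendsto_const_nhds.congr' this.symm
      · unfold ContinuousWithinAt
        rw [h2, Xb_neg_one]
        have hm : Tendsto (fun c : ℝ => -c) (𝓝[>] (-1)) (𝓝[<] 1) := by
          have := tendsto_neg_nhdsGT (a := (-1:ℝ))
          rwa [neg_neg] at this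
        have h3 := (ell_lim' h).comp (tan_top.comp hm)
        refine h3.congr' ?_
        have : Ioo (-1:ℝ) 1 ∈ 𝓝[>] (-1:ℝ) := Ioo_mem_nhdsGT (by norm_num)
        filter_upwards [this] with x hx
        rw [Xb_mid h hx.1 hx.2]
        simp only [Function.comp]
        rw [neg_sq, neg_div, neg_neg]
    · have : Xb h =ᶠ[𝓝 c] fun c => Xf h (c / √(1 - c ^ 2)) := by
        filter_upwards [Ioo_mem_nhds h2 h1] with x hx
        exact Xb_mid h hx.1 hx.2
      refine ContinuousAt.congr ?_ this.symm
      apply (Xf_cont h).continuousAt.comp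
      apply ContinuousAt.div continuousAt_id
      · exact (by fun_prop : Continuous fun c : ℝ => √(1 - c ^ 2)).continuousAt
      · apply ne_of_gt
        apply Real.sqrt_pos.mpr
        nlinarith
  · rw [continuousAt_iff_continuous_left'_right']
    constructor
    · unfold ContinuousWithinAt
      rw [h1, Xb_one]
      have h3 := (ell_lim h).comp tan_top
      refine h3.congr' ?_
      have : Ioo (-1:ℝ) 1 ∈ 𝓝[<] (1:ℝ) := Ioo_mem_nhdsLT (by norm_num)
      filter_upwards [this] with x hx
      rw [Xb_mid h hx.1 hx.2]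
      rfl
    · have : Xb h =ᶠ[𝓝[>] c] fun _ => ell h := by
        filter_upwards [self_mem_nhdsWithin] with x hx
        have hx' : c < x := hx
        unfold Xb
        rw [if_pos (by linarith)]
      unfold ContinuousWithinAt
      rw [h1, Xb_one]
      rw [h1] at this
      exact tendsto_const_nhds.congr' this.symm
  · have : Xb h =ᶠ[𝓝 c] fun _ => ell h := by
      filter_upwards [Ioi_mem_nhds h1] with x hx
      have hx' : 1 < x := hx
      unfold Xb
      rw [if_pos (by linarith)]
    exact continuousAt_const.congr this.symm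

end Pool.Agent.Helper82.Eq
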