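import Pool.Agent.Helper82.Eq5

set_option autoImplicit false

namespace Pool.Agent.Helper82.Eq

open Real Set Filter Topology

variable {V : Type*} [NormedAddCommGroup V] [InnerProductSpace ℝ V]

/-- rotationally symmetric set with radial function `u ↦ g ⟪e, u⟫` about `q` -/
def Lset (g : ℝ → ℝ) (e q : V) : Set V := {z | ‖z - q‖ ≤ g (inner ℝ e (z - q) / ‖z - q‖)}

def Uset (g : ℝ → ℝ) (e q : V) : Set V := {z | ‖z - q‖ < g (inner ℝ e (z - q) / ‖z - q‖)}

theorem mem_ray {g : ℝ → ℝ} (hg : ∀ x, 0 < g x) {e q u : V} (hu : ‖u‖ = 1) {c : ℝ} (hc : 0 ≤ c) :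
    q + c • u ∈ Lset g e q ↔ c ≤ g (inner ℝ e u) := by
  unfold Lset
  rw [mem_ofPred_eq, add_sub_cancel_left, norm_smul, hu, mul_one, Real.norm_of_nonneg hc,
    inner_smul_right]
  rcases hc.eq_or_lt with h0 | h0
  · subst h0
    constructor
    · intro _; exact (hg _).le
    · intro _; exact (hg _).le
  · rw [mul_div_cancel_left₀ _ h0.ne']

theorem mem_ray' {g : ℝ → ℝ} (hg : ∀ x, 0 < g x) {e q u : V} (hu : ‖u‖ = 1) {c : ℝ} (hc : 0 ≤ c) :
    q + c • u ∈ Uset g e q ↔ c < g (inner ℝ e u) := by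
  unfold Uset
  rw [mem_ofPred_eq, add_sub_cancel_left, norm_smul, hu, mul_one, Real.norm_of_nonneg hc,
    inner_smul_right]
  rcases hc.eq_or_lt with h0 | h0
  · subst h0
    constructor
    · intro _; exact (hg _)
    · intro _; exact (hg _)
  · rw [mul_div_cancel_left₀ _ h0.ne']

theorem exists_polar (q z : V) (e : V) (he : ‖e‖ = 1) : ∃ (u : V) (c : ℝ), ‖u‖ = 1 ∧ 0 ≤ c ∧ c = ‖z - q‖ ∧
    z = q + c • u := by
  by_cases h : z = q
  · exact ⟨e, 0, he, le_rfl, by rw [h, sub_self, norm_zero], by rw [h]; simp⟩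
  · have h1 : z - q ≠ 0 := sub_ne_zero.mpr h
    have h2 : ‖z - q‖ ≠ 0 := norm_ne_zero_iff.mpr h1
    refine ⟨‖z - q‖⁻¹ • (z - q), ‖z - q‖, ?_, norm_nonneg _, rfl, ?_⟩
    · rw [norm_smul, norm_inv, norm_norm, inv_mul_cancel₀ h2]
    · rw [smul_smul, mul_inv_cancel₀ h2, one_smul]; abel

theorem cos_mem {e u : V} (he : ‖e‖ = 1) (hu : ‖u‖ = 1) : inner ℝ e u ∈ Icc (-1:ℝ) 1 := by
  have := abs_real_inner_le_norm e u
  rw [he, hu, mul_one] at this
  exact abs_le.mp this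

theorem cos_mem' {e w : V} (he : ‖e‖ = 1) : inner ℝ e w / ‖w‖ ∈ Icc (-1:ℝ) 1 := by
  by_cases h : w = 0
  · rw [h]; simp
  have h1 : 0 < ‖w‖ := norm_pos_iff.mpr h
  have := abs_real_inner_le_norm e w
  rw [he, one_mul] at this
  have h2 := abs_le.mp this
  constructor
  · rw [le_div_iff₀ h1]; linarith [h2.1]
  · rw [div_le_iff₀ h1]; linarith [h2.2]

theorem cts_at {g : ℝ → ℝ} (hc : Continuous g) {e q z : V} (hz : z ≠ q) :
    ContinuousAt (fun z : V => g (inner ℝ e (z - q) / ‖z - q‖)) z := by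
  apply hc.continuousAt.comp
  apply ContinuousAt.div
  · exact (by fun_prop : Continuous fun z : V => inner ℝ e (z - q)).continuousAt
  · exact (by fun_prop : Continuous fun z : V => ‖z - q‖).continuousAt
  · exact norm_ne_zero_iff.mpr (sub_ne_zero.mpr hz)

theorem Lset_closed {g : ℝ → ℝ} (hg : ∀ x, 0 < g x) (hc : Continuous g) (e q : V) :
    IsClosed (Lset g e q) := by
  rw [← isOpen_compl_iff, isOpen_iff_mem_nhds]
  intro z hz
  have hz' : g (inner ℝ e (z - q) / ‖z - q‖) < ‖z - q‖ := not_le.mp hz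
  have hne : z ≠ q := by
    intro h
    rw [h, sub_self, norm_zero] at hz'
    exact absurd hz' (not_lt.mpr (hg _).le)
  have h2 : ContinuousAt (fun z : V => ‖z - q‖) z :=
    (by fun_prop : Continuous fun z : V => ‖z - q‖).continuousAt
  filter_upwards [(cts_at hc (e := e) hne).eventually_lt h2 hz'] with w hw
  exact not_le.mpr hw

theorem Uset_open {g : ℝ → ℝ} (hg : ∀ x, 0 < g x) (hc : Continuous g) {e : V} (he : ‖e‖ = 1) (q : V) :
    IsOpen (Uset g e q) := by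
  rw [isOpen_iff_mem_nhds]
  intro z hz
  have hz' : ‖z - q‖ < g (inner ℝ e (z - q) / ‖z - q‖) := hz
  by_cases hne : z = q
  · obtain ⟨m, hm, hmin⟩ := (isCompact_Icc (a := (-1:ℝ)) (b := 1)).exists_isMinOn
      ⟨0, by norm_num, by norm_num⟩ hc.continuousOn
    rw [hne]
    filter_upwards [Metric.ball_mem_nhds q (hg m)] with w hw
    rw [Metric.mem_ball, dist_eq_norm] at hw
    exact hw.trans_le (hmin (cos_mem' he))
  · have h2 : ContinuousAt (fun z : V => ‖z - q‖) z :=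
      (by fun_prop : Continuous fun z : V => ‖z - q‖).continuousAt
    filter_upwards [h2.eventually_lt (cts_at hc (e := e) hne) hz'] with w hw
    exact hw

theorem Uset_sub (g : ℝ → ℝ) (e q : V) : Uset g e q ⊆ Lset g e q := by
  intro z hz
  have h : ‖z - q‖ < g (inner ℝ e (z - q) / ‖z - q‖) := hz
  exact h.le

theorem Lset_center {g : ℝ → ℝ} (hg : ∀ x, 0 < g x) (hc : Continuous g) {e : V} (he : ‖e‖ = 1) (q : V) :
    q ∈ interior (Lset g e q) := by
  refine interior_mono (Uset_sub g e q) ?_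
  rw [(Uset_open hg hc he q).interior_eq]
  unfold Uset
  rw [mem_ofPred_eq, sub_self, norm_zero]
  exact hg _

theorem Lset_bdd {g : ℝ → ℝ} (hc : Continuous g) {e : V} (he : ‖e‖ = 1) (q : V) :
    ∃ M, Lset g e q ⊆ Metric.closedBall q M := by
  obtain ⟨m, hm, hmax⟩ := (isCompact_Icc (a := (-1:ℝ)) (b := 1)).exists_isMaxOn
      ⟨0, by norm_num, by norm_num⟩ hc.continuousOn
  refine ⟨g m, fun z hz => ?_⟩
  rw [Metric.mem_closedBall, dist_eq_norm]
  exact le_trans hz (hmax (cos_mem' he))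

theorem Lset_compact [FiniteDimensional ℝ V] {g : ℝ → ℝ} (hg : ∀ x, 0 < g x) (hc : Continuous g)
    {e : V} (he : ‖e‖ = 1) (q : V) : IsCompact (Lset g e q) := by
  obtain ⟨M, hM⟩ := Lset_bdd hc he q
  exact (isCompact_closedBall q M).of_isClosed_subset (Lset_closed hg hc e q) hM

theorem Lset_star {g : ℝ → ℝ} (hg : ∀ x, 0 < g x) {e : V} (he : ‖e‖ = 1) (q : V)
    {z : V} (hz : z ∈ Lset g e q) {t : ℝ} (ht : 0 ≤ t) (ht1 : t ≤ 1) :
    q + t • (z - q) ∈ Lset g e q := by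
  obtain ⟨u, c, hu, hc, -, hzc⟩ := exists_polar q z e he
  rw [hzc] at hz ⊢
  rw [add_sub_cancel_left, smul_smul]
  rw [mem_ray hg hu hc] at hz
  rw [mem_ray hg hu (mul_nonneg ht hc)]
  exact (mul_le_of_le_one_left hc ht1).trans hz

theorem Lset_body {g : ℝ → ℝ} (hg : ∀ x, 0 < g x) (hc : Continuous g)
    {e : V} (he : ‖e‖ = 1) (q : V) : closure (interior (Lset g e q)) = Lset g e q := by
  apply Subset.antisymm
  · exact closure_minimal interior_subset (Lset_closed hg hc e q)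
  · intro z hz
    have hU : Uset g e q ⊆ interior (Lset g e q) :=
      interior_maximal (Uset_sub g e q) (Uset_open hg hc he q)
    refine closure_mono hU ?_
    obtain ⟨u, c, hu, hc0, -, hzc⟩ := exists_polar q z e he
    rw [hzc] at hz ⊢
    rw [mem_ray hg hu hc0] at hz
    have hlim : Tendsto (fun t : ℝ => q + (t * c) • u) (𝓝[<] 1) (𝓝 (q + c • u)) := by
      have : Continuous (fun t : ℝ => q + (t * c) • u) := by fun_prop
      have := this.tendsto 1
      rw [one_mul] at this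
      exact this.mono_left nhdsWithin_le_nhds
    refine mem_closure_of_tendsto hlim ?_
    have : Ioo (0:ℝ) 1 ∈ 𝓝[<] (1:ℝ) := Ioo_mem_nhdsLT (by norm_num)
    filter_upwards [this] with t ht
    rw [mem_ray' hg hu (mul_nonneg ht.1.le hc0)]
    rcases hc0.eq_or_lt with h0 | h0
    · rw [← h0, mul_zero]; exact hg _
    · have := ht.2
      nlinarith

theorem radial_eq {g : ℝ → ℝ} (hg : ∀ x, 0 < g x) {e : V} (q : V) {u : V} (hu : ‖u‖ = 1) :
    sSup {c : ℝ | 0 ≤ c ∧ q + c • u ∈ Lset g e q} = g (inner ℝ e u) := by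
  have : {c : ℝ | 0 ≤ c ∧ q + c • u ∈ Lset g e q} = Icc 0 (g (inner ℝ e u)) := by
    ext c
    simp only [mem_ofPred_eq, mem_Icc]
    constructor
    · rintro ⟨h1, h2⟩; exact ⟨h1, (mem_ray hg hu h1).mp h2⟩
    · rintro ⟨h1, h2⟩; exact ⟨h1, (mem_ray hg hu h1).mpr h2⟩
  rw [this, csSup_Icc (hg _).le]

variable {i B : ℝ}

theorem tan_eq {t : ℝ} : (t / √(1 + t ^ 2)) / √(1 - (t / √(1 + t ^ 2)) ^ 2) = t := by
  have h1 : 0 < √(1 + t ^ 2) := Real.sqrt_pos.mpr (by positivity)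
  have h2 : √(1 + t ^ 2) ^ 2 = 1 + t ^ 2 := Real.sq_sqrt (by positivity)
  have h3 : 1 - (t / √(1 + t ^ 2)) ^ 2 = (1 / √(1 + t ^ 2)) ^ 2 := by
    rw [div_pow, div_pow, h2]; field_simp; ring
  rw [h3, Real.sqrt_sq (by positivity)]
  field_simp

theorem Xb_tan (h : Par i B) (t : ℝ) : Xb h (t / √(1 + t ^ 2)) = Xf h t := by
  have h1 : 0 < √(1 + t ^ 2) := Real.sqrt_pos.mpr (by positivity)
  have ha : |t| < √(1 + t ^ 2) := by
    rw [← Real.sqrt_sq_eq_abs]
    apply Real.sqrt_lt_sqrt (sq_nonneg t); linarith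
  have hb := abs_lt.mp ha
  rw [Xb_mid h, tan_eq]
  · rw [lt_div_iff₀ h1]; linarith [hb.1]
  · rw [div_lt_iff₀ h1]; linarith [hb.2]

/-- membership in the planar coordinates, off the axis -/
theorem mem_off (h : Par i B) {x r : ℝ} (hr : 0 < r) :
    √(r ^ 2 + x ^ 2) ≤ Xb h (x / √(r ^ 2 + x ^ 2)) ↔ ff h (x / r) ≤ x / r + 1 / r := by
  set t := x / r with ht
  have hx : x = t * r := by rw [ht]; field_simp
  have h1 : 0 < √(1 + t ^ 2) := Real.sqrt_pos.mpr (by positivity)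
  have h2 : √(r ^ 2 + x ^ 2) = r * √(1 + t ^ 2) := by
    rw [hx, show r ^ 2 + (t * r) ^ 2 = r ^ 2 * (1 + t ^ 2) by ring,
      Real.sqrt_mul (by positivity), Real.sqrt_sq hr.le]
  have h3 : x / √(r ^ 2 + x ^ 2) = t / √(1 + t ^ 2) := by
    rw [h2, hx]; field_simp
  rw [h3, Xb_tan, h2]
  have hD := Dl_pos h t
  have e : Xf h t = √(1 + t ^ 2) / Dl h t := rfl
  rw [e, le_div_iff₀ hD]
  have : ff h t = t + Dl h t := by unfold Dl; ring
  rw [this, add_le_add_iff_left, le_div_iff₀ hr]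
  constructor
  · intro hh
    have : √(1 + t ^ 2) * (Dl h t * r) ≤ √(1 + t ^ 2) * 1 := by nlinarith
    exact le_of_mul_le_mul_left this h1
  · intro hh
    have : √(1 + t ^ 2) * (Dl h t * r) ≤ √(1 + t ^ 2) * 1 := by
      exact mul_le_mul_of_nonneg_left hh h1.le
    nlinarith

/-- membership on the axis -/
theorem mem_on (h : Par i B) (x : ℝ) :
    |x| ≤ Xb h (x / |x|) ↔ -(ell h + 1) ≤ x ∧ x ≤ ell h := by
  have h0 : 0 < ell h := by linarith [ell_lo h, h.hB]
  rcases lt_trichotomy x 0 with hx | hx | hx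
  · rw [abs_of_neg hx, div_neg, div_self hx.ne, Xb_neg_one]
    constructor
    · intro; constructor <;> linarith
    · rintro ⟨h1, h2⟩; linarith
  · rw [hx, abs_zero]
    constructor
    · intro; constructor <;> linarith
    · intro; exact (Xb_pos h _).le
  · rw [abs_of_pos hx, div_self hx.ne', Xb_one]
    constructor
    · intro; constructor <;> linarith
    · rintro ⟨h1, h2⟩; linarith

theorem key_coord (h : Par i B) {x r : ℝ} (hr : 0 ≤ r) :
    √(r ^ 2 + (x - 1/2) ^ 2) ≤ Xb h ((x - 1/2) / √(r ^ 2 + (x - 1/2) ^ 2)) ↔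
    √(r ^ 2 + (x + 1/2) ^ 2) ≤ Xb h (-((x + 1/2) / √(r ^ 2 + (x + 1/2) ^ 2))) := by
  rcases hr.eq_or_lt with h0 | h0
  · rw [← h0]
    have e : ∀ y : ℝ, √((0:ℝ) ^ 2 + y ^ 2) = |y| := by
      intro y
      rw [show (0:ℝ) ^ 2 + y ^ 2 = y ^ 2 by ring, Real.sqrt_sq_eq_abs]
    rw [e, e, mem_on]
    have e2 : |x + 1/2| = |(-(x + 1/2))| := (abs_neg _).symm
    rw [← neg_div, e2, mem_on]
    constructor
    · rintro ⟨h1, h2⟩; constructor <;> linarith
    · rintro ⟨h1, h2⟩; constructor <;> linarith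
  · rw [mem_off h h0]
    have e : (x + 1/2) ^ 2 = (-(x + 1/2)) ^ 2 := by ring
    rw [← neg_div, e, mem_off h h0]
    have e1 : (x - 1/2) / r + 1 / r = (x + 1/2) / r := by ring
    have e2 : -(x + 1/2) / r + 1 / r = -((x - 1/2) / r) := by ring
    have e3 : -(x + 1/2) / r = -((x + 1/2) / r) := by ring
    rw [e1, e2, e3]
    set t := (x - 1/2) / r
    set s := (x + 1/2) / r
    have h3 := ff_inv h t
    constructor
    · intro hh
      have : ff h (-s) ≤ ff h (-(ff h t)) := (ff h).monotone (by linarith)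
      linarith
    · intro hh
      rw [← h3] at hh
      have := (ff h).le_iff_le.mp hh
      linarith

theorem key (h : Par i B) {e : V} (he : ‖e‖ = 1) :
    Lset (Xb h) e ((1/2 : ℝ) • e) = Lset (fun c => Xb h (-c)) e (-((1/2 : ℝ) • e)) := by
  ext z
  unfold Lset
  rw [mem_ofPred_eq, mem_ofPred_eq]
  set x := inner ℝ e z with hx
  have hcs : x ^ 2 ≤ ‖z‖ ^ 2 := by
    have := abs_real_inner_le_norm e z
    rw [he, one_mul] at this
    rw [← sq_abs x]
    exact pow_le_pow_left₀ (abs_nonneg _) this 2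
  set r := √(‖z‖ ^ 2 - x ^ 2) with hr
  have hr2 : r ^ 2 = ‖z‖ ^ 2 - x ^ 2 := Real.sq_sqrt (by linarith)
  have hin : inner ℝ e e = (1:ℝ) := by rw [real_inner_self_eq_norm_sq, he]; norm_num
  have e1 : inner ℝ e (z - (1/2:ℝ) • e) = x - 1/2 := by
    rw [inner_sub_right, inner_smul_right, hin]; ring
  have e2 : inner ℝ e (z - -((1/2:ℝ) • e)) = x + 1/2 := by
    rw [inner_sub_right, inner_neg_right, inner_smul_right, hin]; ring
  have e3 : ‖z - (1/2:ℝ) • e‖ = √(r ^ 2 + (x - 1/2) ^ 2) := by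
    rw [← Real.sqrt_sq (norm_nonneg _)]
    congr 1
    rw [norm_sub_sq_real, inner_smul_right, norm_smul, he, real_inner_comm, ← hx, hr2]
    norm_num
    ring
  have e4 : ‖z - -((1/2:ℝ) • e)‖ = √(r ^ 2 + (x + 1/2) ^ 2) := by
    rw [← Real.sqrt_sq (norm_nonneg _)]
    congr 1
    rw [norm_sub_sq_real, inner_neg_right, inner_smul_right, norm_neg, norm_smul, he,
      real_inner_comm, ← hx, hr2]
    norm_num
    ring
  rw [e1, e2, e3, e4]
  exact key_coord h (Real.sqrt_nonneg _)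

end Pool.Agent.Helper82.Eq
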