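import Pool.Agent.Helper82.Rig7

set_option autoImplicit false
set_option linter.unusedSectionVars false
set_option linter.unusedVariables false
set_option linter.unusedSimpArgs false

namespace Pool.Agent.Helper82.Rig

open MeasureTheory Set Filter Topology Metric

variable {E F : Type} [NormedAddCommGroup E] [InnerProductSpace ℝ E] [FiniteDimensional ℝ E]
  [MeasurableSpace E] [BorelSpace E]
  [NormedAddCommGroup F] [InnerProductSpace ℝ F] [FiniteDimensional ℝ F]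

variable {Z : E → F}

/-- Gaussian area of a plane -/
theorem lin_int (D : E →L[ℝ] F) (hD : Function.Injective D) :
    ∫⁻ w : E, ENNReal.ofReal (Real.exp (-‖D w‖ ^ 2)) * ENNReal.ofReal (D : E →ₗ[ℝ] F).normDet =
      ∫⁻ w : E, ENNReal.ofReal (Real.exp (-‖w‖ ^ 2)) := by
  obtain ⟨U, S, hUS, hS, hSb⟩ := exists_decomp D hD
  have h1 := lintegral_image_eq_lintegral_abs_det_fderiv_mul (volume : Measure E) (s := univ) MeasurableSet.univ
    (f := S) (f' := fun _ => S) (fun x _ => S.hasFDerivWithinAt) hSb.1.injOn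
    (fun w => ENNReal.ofReal (Real.exp (-‖w‖ ^ 2)))
  rw [image_univ, hSb.2.range_eq] at h1
  simp only [Measure.restrict_univ] at h1
  rw [h1]
  refine lintegral_congr fun w => ?_
  rw [hS, mul_comm]
  congr 3
  rw [hUS]
  show -‖U (S w)‖ ^ 2 = _
  rw [U.norm_map]

/-- density of the cone at a point of it -/
theorem fatou (hZ : HM Z) [Nontrivial E] {y₀ : E} (hy₀ : y₀ ≠ 0) (hinj : Function.Injective (fderiv ℝ Z y₀)) :
    ENNReal.ofReal (gk (Module.finrank ℝ E - 1) 0 * (volume : Measure E).toSphere.real univ) ≤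
      liminf (fun n : ℕ => ENNReal.ofReal (GA Z (Module.finrank ℝ E - 1) (Z y₀) n)) atTop := by
  let _ : MeasurableSpace F := borel F
  have _ : BorelSpace F := ⟨rfl⟩
  set D := fderiv ℝ Z y₀ with hD
  set b := Z y₀ with hb
  have hm : ∀ n : ℕ, Measurable fun w : E =>
      ENNReal.ofReal (Real.exp (-‖Z ((n : ℝ) • y₀ + w) - (n : ℝ) • b‖ ^ 2)) * ENNReal.ofReal (Ja Z ((n : ℝ) • y₀ + w)) := by
    intro n
    have h0 : Measurable fun w : E => (n : ℝ) • y₀ + w := measurable_const_add _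
    have h1 : Measurable fun w : E => Real.exp (-‖Z ((n : ℝ) • y₀ + w) - (n : ℝ) • b‖ ^ 2) :=
      Real.measurable_exp.comp ((((hZ.meas.comp h0).sub_const _).norm.pow_const 2).neg)
    exact h1.ennreal_ofReal.mul ((Ja_meas Z).comp h0).ennreal_ofReal
  have e1 : ∀ n : ℕ, ENNReal.ofReal (GA Z (Module.finrank ℝ E - 1) b n) = ∫⁻ w : E,
      ENNReal.ofReal (Real.exp (-‖Z ((n : ℝ) • y₀ + w) - (n : ℝ) • b‖ ^ 2)) * ENNReal.ofReal (Ja Z ((n : ℝ) • y₀ + w)) := by
    intro n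
    unfold GA
    rw [← hZ.gauss' ((n : ℝ) • b)]
    exact (lintegral_add_left_eq_self (fun y => ENNReal.ofReal (Real.exp (-‖Z y - (n : ℝ) • b‖ ^ 2)) *
      ENNReal.ofReal (Ja Z y)) ((n : ℝ) • y₀)).symm
  simp_rw [e1]
  rw [← gauss_id, ← lin_int D hinj]
  refine le_trans (le_of_eq ?_) (lintegral_liminf_le hm)
  refine lintegral_congr fun w => ?_
  symm
  apply Tendsto.liminf_eq
  have hn : Tendsto (fun n : ℕ => (n : ℝ)) atTop atTop := tendsto_natCast_atTop_atTop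
  have hy : Tendsto (fun n : ℕ => y₀ + (n : ℝ)⁻¹ • w) atTop (𝓝 y₀) := by
    have h1 : Tendsto (fun n : ℕ => (n : ℝ)⁻¹ • w) atTop (𝓝 ((0 : ℝ) • w)) :=
      (tendsto_inv_atTop_zero.comp hn).smul_const w
    rw [zero_smul] at h1
    simpa using h1.const_add y₀
  have hne : ∀ᶠ n : ℕ in atTop, y₀ + (n : ℝ)⁻¹ • w ≠ 0 := hy.eventually_ne hy₀
  have hlim1 : Tendsto (fun n : ℕ => (n : ℝ) • (Z (y₀ + (n : ℝ)⁻¹ • w) - Z y₀)) atTop (𝓝 (D w)) := by
    refine HasFDerivAt.lim (hZ.hd hy₀) w ?_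
    have : (fun n : ℕ => ‖(n : ℝ)‖) = fun n : ℕ => (n : ℝ) := by
      funext n; simp
    rw [this]
    exact hn
  have hlim2 : Tendsto (fun n : ℕ => Ja Z (y₀ + (n : ℝ)⁻¹ • w)) atTop (𝓝 (Ja Z y₀)) :=
    (hZ.Ja_cont hy₀).tendsto.comp hy
  have hlim3 : Tendsto (fun n : ℕ => ENNReal.ofReal (Real.exp (-‖(n : ℝ) • (Z (y₀ + (n : ℝ)⁻¹ • w) - Z y₀)‖ ^ 2)) *
      ENNReal.ofReal (Ja Z (y₀ + (n : ℝ)⁻¹ • w))) atTop
      (𝓝 (ENNReal.ofReal (Real.exp (-‖D w‖ ^ 2)) * ENNReal.ofReal (D : E →ₗ[ℝ] F).normDet)) := by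
    apply ENNReal.Tendsto.mul
    · refine ENNReal.tendsto_ofReal ?_
      exact (Real.continuous_exp.tendsto _).comp ((hlim1.norm.pow 2).neg)
    · right; exact ENNReal.ofReal_ne_top
    · exact ENNReal.tendsto_ofReal hlim2
    · right; exact ENNReal.ofReal_ne_top
  refine hlim3.congr' ?_
  filter_upwards [hne, eventually_gt_atTop 0] with n hn1 hn2
  have hnp : (0 : ℝ) < n := by exact_mod_cast hn2
  have h1 : (n : ℝ) • y₀ + w = (n : ℝ) • (y₀ + (n : ℝ)⁻¹ • w) := by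
    rw [smul_add, smul_smul, mul_inv_cancel₀ hnp.ne', one_smul]
  rw [h1, hZ.hom _ hnp, hZ.Ja_smul hn1 hnp, smul_sub]

theorem iter_isom (h : F ≃ₗᵢ[ℝ] F) (n : ℕ) (c : F) : (h ^ (n + 1)) c = h ((h ^ n) c) := by
  rw [pow_succ']; rfl

/-- **Rigidity.** An equivariant cone of least area is flat. -/
theorem rigid {g : E ≃ₗᵢ[ℝ] E} {h : F ≃ₗᵢ[ℝ] F} (hA : AreaBound g h) (hdim : 2 ≤ Module.finrank ℝ E)
    (hZ : HM Z) (he : ∀ x, Z (g x) = h (Z x)) (hinj : ∀ x, x ≠ 0 → Function.Injective (fderiv ℝ Z x))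
    (heq : ∫ x : sphere (0 : E) 1, wt Z x ∂(volume : Measure E).toSphere ≤ (volume : Measure E).toSphere.real univ)
    {p : ℕ} (hp : 0 < p) (hhp : h ^ p = 1) {x₀ x : E} (hx₀ : x₀ ≠ 0) (hx : x ≠ 0) :
    ∃ v, fderiv ℝ Z x v = Z x₀ := by
  have hnt : Nontrivial E := Module.nontrivial_of_finrank_pos (R := ℝ) (by omega)
  obtain ⟨k, hk⟩ : ∃ k, Module.finrank ℝ E = k + 2 := ⟨Module.finrank ℝ E - 2, by omega⟩
  by_contra hcon
  -- normalise `x`
  set x₁ : E := ‖x‖⁻¹ • x with hx₁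
  have hx₁n : ‖x₁‖ = 1 := nrm hx
  have hder : fderiv ℝ Z x₁ = fderiv ℝ Z x := hZ.deriv_smul hx (inv_pos.mpr (norm_pos_iff.mpr hx))
  have hlt : ‖Pr (fderiv ℝ Z x₁) (Z x₀)‖ < ‖Z x₀‖ := by
    rw [hder]
    by_contra hge
    push Not at hge
    exact hcon (Pr_mem _ hge)
  set b : ℕ → F := fun j => (h ^ j) (Z x₀) with hb
  have hbZ : ∀ j, b j = Z ((g ^ j) x₀) := by
    intro j
    induction j with
    | zero => rfl
    | succ j ih =>
      rw [iter_isom g j x₀, he, ← ih]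
      exact iter_isom h j (Z x₀)
  have hgj : ∀ j, (g ^ j) x₀ ≠ 0 := by
    intro j hh
    apply hx₀
    have : ‖(g ^ j) x₀‖ = ‖x₀‖ := (g ^ j).norm_map x₀
    rw [hh, norm_zero] at this
    exact norm_eq_zero.mp this.symm
  have hβ : ∀ j ∈ Finset.range p, ‖b j‖ = ‖Z x₀‖ := fun j _ => (h ^ j).norm_map _
  have hequi : ∀ t : ℝ, 0 < t → ∀ z, ∑ j ∈ Finset.range p, ph k (t • b j) (h z) • (t • b j) =
      h (∑ j ∈ Finset.range p, ph k (t • b j) z • (t • b j)) := by
    intro t ht z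
    set a : ℕ → F := fun j => ph k (t • b j) (h z) • (t • b j) with ha
    have h1 : ∀ j, a (j + 1) = h (ph k (t • b j) z • (t • b j)) := by
      intro j
      have h2 : t • b (j + 1) = h (t • b j) := by
        rw [map_smul]
        congr 1
        exact iter_isom h j (Z x₀)
      simp only [ha]
      rw [h2, ph_isom, ← map_smul]
    have h3 : a p = a 0 := by
      simp only [ha, hb, hhp]
      rfl
    have h4 := Finset.sum_range_succ a p
    have h5 := Finset.sum_range_succ' a p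
    rw [h4, h3] at h5
    have h6 := add_right_cancel h5
    rw [map_sum]
    rw [h6]
    exact Finset.sum_congr rfl fun j _ => h1 j
  have hstrict := strict hA hZ he hinj heq hk (Finset.range p) b hβ hequi hx₁n
    (Finset.mem_range.mpr hp) (by
      have : b 0 = Z x₀ := rfl
      rw [this]; exact hlt)
  -- values
  have hd1 : Module.finrank ℝ E - 1 = k + 1 := by omega
  set σ := (volume : Measure E).toSphere.real univ with hσ
  set L := gk (k + 1) 0 * σ with hL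
  have hσ0 : 0 < σ := by
    rw [hσ, measureReal_def]
    apply ENNReal.toReal_pos
    · exact (IsOpen.measure_pos _ isOpen_univ ⟨⟨x₁, by simpa using hx₁n⟩, mem_univ _⟩).ne'
    · exact measure_ne_top _ _
  have hL0 : 0 < L := mul_pos (gk_pos _ _) hσ0
  have hF0 : ∑ j ∈ Finset.range p, GA Z (k + 1) (b j) 0 ≤ p * L := by
    have h1 : ∀ j ∈ Finset.range p, GA Z (k + 1) (b j) 0 ≤ L := by
      intro j _
      unfold GA
      simp only [zero_smul, norm_zero, cs_zero]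
      rw [integral_mul_const]
      have : Real.exp (-(0:ℝ) ^ 2) = 1 := by simp
      rw [this, one_mul, hL, mul_comm]
      exact mul_le_mul_of_nonneg_left heq (gk_pos _ _).le
    calc ∑ j ∈ Finset.range p, GA Z (k + 1) (b j) 0 ≤ ∑ j ∈ Finset.range p, L := Finset.sum_le_sum h1
      _ = p * L := by simp
  set S1 := ∑ j ∈ Finset.range p, GA Z (k + 1) (b j) 1 with hS1
  have hS1lt : S1 < p * L := by
    have := hstrict (self_mem_Ici) (show (1 : ℝ) ∈ Ici 0 by simp) one_pos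
    exact lt_of_lt_of_le this hF0
  -- small epsilon
  have hp' : (0 : ℝ) < p := by exact_mod_cast hp
  set L' := max (S1 / p) (L / 2) with hL'
  have hL'L : L' < L := by
    apply max_lt
    · rw [div_lt_iff₀ hp']; linarith
    · linarith
  have hL'0 : 0 < L' := lt_of_lt_of_le (half_pos hL0) (le_max_right _ _)
  have hev : ∀ j, ∀ᶠ n : ℕ in atTop, L' < GA Z (k + 1) (b j) n := by
    intro j
    have h1 := fatou hZ (hgj j) (hinj _ (hgj j))
    rw [← hbZ j, hd1] at h1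
    have h2 : ENNReal.ofReal L' < liminf (fun n : ℕ => ENNReal.ofReal (GA Z (k + 1) (b j) n)) atTop :=
      lt_of_lt_of_le ((ENNReal.ofReal_lt_ofReal_iff hL0).mpr hL'L) h1
    filter_upwards [eventually_lt_of_lt_liminf h2] with n hn
    rw [ENNReal.ofReal_lt_ofReal_iff_of_nonneg hL'0.le] at hn
    exact hn
  have hall : ∀ᶠ n : ℕ in atTop, ∀ j ∈ Finset.range p, L' < GA Z (k + 1) (b j) n := by
    rw [Filter.eventually_all_finset]
    exact fun j _ => hev j
  obtain ⟨n, hn, hn1⟩ := (hall.and (eventually_ge_atTop 1)).exists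
  have hge : (p : ℝ) * L' ≤ ∑ j ∈ Finset.range p, GA Z (k + 1) (b j) n := by
    calc (p : ℝ) * L' = ∑ j ∈ Finset.range p, L' := by simp
      _ ≤ _ := Finset.sum_le_sum fun j hj => (hn j hj).le
  have hn1' : (1 : ℝ) ≤ n := by exact_mod_cast hn1
  have hle : ∑ j ∈ Finset.range p, GA Z (k + 1) (b j) n ≤ S1 :=
    hstrict.antitoneOn (show (1 : ℝ) ∈ Ici 0 by simp) (show (n : ℝ) ∈ Ici 0 by simp) hn1'
  have hlt' : ∑ j ∈ Finset.range p, GA Z (k + 1) (b j) n > p * L' := by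
    calc (p : ℝ) * L' = ∑ j ∈ Finset.range p, L' := by simp
      _ < _ := Finset.sum_lt_sum_of_nonempty ⟨0, Finset.mem_range.mpr hp⟩ fun j hj => hn j hj
  have h9 : S1 ≤ p * L' := by
    have h10 : S1 / p ≤ L' := le_max_left _ _
    rw [div_le_iff₀ hp'] at h10
    linarith
  linarith

end Pool.Agent.Helper82.Rig
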