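import Pool.Agent.Helper82.Hf10
import Pool.Agent.Helper82.Rig8

set_option autoImplicit false
set_option linter.unusedSectionVars false
set_option linter.deprecated false
set_option linter.unusedVariables false
set_option linter.unusedSimpArgs false

namespace Pool.Agent.Helper82.Fld

open MeasureTheory Set Filter Topology Metric

open Pool.Agent.Helper82.Hf (E gr gr_apply gr_inner gr_adj gr_hasFDerivAt gr_fderiv gr_contDiffAt
  det_nonneg' det_compare Vt Zt La dn nrm Vt_zero Vt_unit Vt_hom star_apply La_x x_La dn_nonneg dn_cont dn_int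
  sqrt_pow Lin skew isom normDet_eq_sqrt)

variable {d : ℕ}

/-- field of constant length on the unit sphere, equivariant under `g` -/
structure UG (g : E d ≃ₗᵢ[ℝ] E d) (V : E d → E d) (r : ℝ) : Prop where
  r0 : 0 ≤ r
  smooth : ∀ x, ‖x‖ = 1 → ContDiffAt ℝ 1 V x
  tan : ∀ x, ‖x‖ = 1 → (inner ℝ x (V x) : ℝ) = 0
  len : ∀ x, ‖x‖ = 1 → ‖V x‖ = r
  equi : ∀ x, ‖x‖ = 1 → V (g x) = g (V x)

variable {g : E d ≃ₗᵢ[ℝ] E d} {V : E d → E d} {r : ℝ}

theorem Vt_norm (h : UG g V r) (y : E d) : ‖Vt V y‖ = r * ‖y‖ := by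
  by_cases hy : y = 0
  · rw [hy, Vt_zero]; simp
  · unfold Vt
    rw [norm_smul, norm_norm, h.len _ (nrm hy), mul_comm]

theorem Vt_tan (h : UG g V r) (y : E d) : (inner ℝ y (Vt V y) : ℝ) = 0 := by
  by_cases hy : y = 0
  · rw [hy]; simp
  · have h1 := h.tan _ (nrm hy)
    unfold Vt
    rw [inner_smul_left] at h1
    rw [inner_smul_right]
    have h2 : ‖y‖ ≠ 0 := norm_ne_zero_iff.mpr hy
    have h3 : (‖y‖⁻¹ : ℝ) ≠ 0 := inv_ne_zero h2
    simp only [conj_trivial, mul_eq_zero, h3, false_or] at h1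
    rw [h1, mul_zero]

theorem Vt_equi (h : UG g V r) (y : E d) : Vt V (g y) = g (Vt V y) := by
  by_cases hy : y = 0
  · rw [hy, map_zero, Vt_zero, map_zero]
  · unfold Vt
    rw [g.norm_map, ← map_smul, h.equi _ (nrm hy), ← map_smul]

theorem Vt_smooth (h : UG g V r) {y : E d} (hy : y ≠ 0) : ContDiffAt ℝ 1 (Vt V) y := by
  unfold Vt
  have h1 : ContDiffAt ℝ 1 (fun y : E d => ‖y‖) y := contDiffAt_norm ℝ hy
  have h2 : ContDiffAt ℝ 1 (fun y : E d => ‖y‖⁻¹ • y) y :=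
    (h1.inv (norm_ne_zero_iff.mpr hy)).smul contDiffAt_id
  exact h1.smul (ContDiffAt.comp y (h.smooth _ (nrm hy)) h2)

theorem Zt_fderiv (h : UG g V r) {y : E d} (hy : y ≠ 0) : fderiv ℝ (Zt V) y = gr (fderiv ℝ (Vt V) y) := by
  have h1 : HasFDerivAt (Vt V) (fderiv ℝ (Vt V) y) y :=
    ((Vt_smooth h hy).differentiableAt (by norm_num)).hasFDerivAt
  exact gr_fderiv h1

theorem Vt_deriv (h : UG g V r) {x : E d} (hx : ‖x‖ = 1) (u : E d) :
    fderiv ℝ (Vt V) x u = La V x u + (inner ℝ x u : ℝ) • V x - (inner ℝ (V x) u : ℝ) • x := by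
  have hx0 : x ≠ 0 := by
    intro hh; rw [hh, norm_zero] at hx; norm_num at hx
  have hxx : (inner ℝ x x : ℝ) = 1 := by rw [real_inner_self_eq_norm_sq, hx]; norm_num
  have hVd : HasFDerivAt V (fderiv ℝ V x) x := ((h.smooth x hx).differentiableAt (by norm_num)).hasFDerivAt
  have hVtd : HasFDerivAt (Vt V) (fderiv ℝ (Vt V) x) x :=
    ((Vt_smooth h hx0).differentiableAt (by norm_num)).hasFDerivAt
  -- derivative of the norm
  have hN : HasFDerivAt (fun y : E d => ‖y‖) (innerSL ℝ x) x := by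
    have h1 : HasFDerivAt (fun y : E d => ‖y‖ ^ 2) (2 • innerSL ℝ x) x := by
      exact (hasStrictFDerivAt_norm_sq x).hasFDerivAt
    have h2 : HasFDerivAt (fun y : E d => Real.sqrt (‖y‖ ^ 2)) ((1 / (2 * Real.sqrt (‖x‖ ^ 2))) • (2 • innerSL ℝ x)) x :=
      h1.sqrt (by rw [hx]; norm_num)
    have h3 : (fun y : E d => Real.sqrt (‖y‖ ^ 2)) = fun y : E d => ‖y‖ := by
      funext y; exact Real.sqrt_sq (norm_nonneg _)
    rw [h3] at h2
    refine h2.congr_fderiv ?_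
    rw [hx]
    ext v
    simp
  have hI : HasFDerivAt (fun y : E d => ‖y‖⁻¹) (-(innerSL ℝ x)) x := by
    have h1 := (hasDerivAt_inv (x := ‖x‖) (by rw [hx]; norm_num)).comp_hasFDerivAt x hN
    refine h1.congr_fderiv ?_
    rw [hx]; ext v; simp
  have hU : HasFDerivAt (fun y : E d => ‖y‖⁻¹ • y) (ContinuousLinearMap.id ℝ (E d) - (innerSL ℝ x).smulRight x) x := by
    have h1 := hI.smul (hasFDerivAt_id x)
    refine h1.congr_fderiv ?_
    ext v
    simp [hx]
    ring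
  have hVU : HasFDerivAt (fun y : E d => V (‖y‖⁻¹ • y))
      ((fderiv ℝ V x).comp (ContinuousLinearMap.id ℝ (E d) - (innerSL ℝ x).smulRight x)) x := by
    have h1 : HasFDerivAt V (fderiv ℝ V x) (‖x‖⁻¹ • x) := by rw [hx]; simpa using hVd
    exact HasFDerivAt.comp (g := V) x h1 hU
  have hall := hN.smul hVU
  have e1 := hVtd.unique hall
  have e2 : fderiv ℝ (Vt V) x u = (fderiv ℝ V x) (u - (inner ℝ x u : ℝ) • x) + (inner ℝ x u : ℝ) • V x := by
    rw [e1]
    simp [hx]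
  -- tangency
  have t1 : HasFDerivAt (fun y : E d => (inner ℝ y (Vt V y) : ℝ))
      ((fderivInnerCLM ℝ (x, Vt V x)).comp ((ContinuousLinearMap.id ℝ (E d)).prod (fderiv ℝ (Vt V) x))) x :=
    (hasFDerivAt_id x).inner ℝ hVtd
  have t2 : (fun y : E d => (inner ℝ y (Vt V y) : ℝ)) = fun _ => 0 := funext (Vt_tan h)
  rw [t2] at t1
  have t3 := t1.unique (hasFDerivAt_const (0:ℝ) x)
  have t4 : (inner ℝ x (fderiv ℝ (Vt V) x u) : ℝ) + inner ℝ u (V x) = 0 := by
    have := congrArg (fun L => L u) t3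
    simpa [fderivInnerCLM_apply, Vt_unit hx] using this
  have e3 : La V x u = fderiv ℝ V x (u - (inner ℝ x u : ℝ) • x) -
      (inner ℝ x (fderiv ℝ V x (u - (inner ℝ x u : ℝ) • x)) : ℝ) • x := by
    unfold La
    rw [ContinuousLinearMap.comp_apply, ContinuousLinearMap.comp_apply, star_apply hx, star_apply hx]
  rw [e2, inner_add_right, inner_smul_right, h.tan x hx, mul_zero, add_zero] at t4
  have t5 : (inner ℝ x (fderiv ℝ V x (u - (inner ℝ x u : ℝ) • x)) : ℝ) = - inner ℝ (V x) u := by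
    rw [real_inner_comm (V x) u] at t4
    linarith
  rw [e2, e3, t5]
  module

theorem V_La (h : UG g V r) {x : E d} (hx : ‖x‖ = 1) (u : E d) : (inner ℝ (V x) (La V x u) : ℝ) = 0 := by
  have hx0 : x ≠ 0 := by
    intro hh; rw [hh, norm_zero] at hx; norm_num at hx
  have hVtd : HasFDerivAt (Vt V) (fderiv ℝ (Vt V) x) x :=
    ((Vt_smooth h hx0).differentiableAt (by norm_num)).hasFDerivAt
  have t1 : HasFDerivAt (fun y : E d => (inner ℝ (Vt V y) (Vt V y) : ℝ))
      ((fderivInnerCLM ℝ (Vt V x, Vt V x)).comp ((fderiv ℝ (Vt V) x).prod (fderiv ℝ (Vt V) x))) x :=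
    hVtd.inner ℝ hVtd
  have t2 : HasFDerivAt (fun y : E d => r ^ 2 * (inner ℝ y y : ℝ))
      (r ^ 2 • (fderivInnerCLM ℝ (x, x)).comp ((ContinuousLinearMap.id ℝ (E d)).prod (ContinuousLinearMap.id ℝ (E d)))) x :=
    ((hasFDerivAt_id x).inner ℝ (hasFDerivAt_id x)).const_mul (r ^ 2)
  have t3 : (fun y : E d => (inner ℝ (Vt V y) (Vt V y) : ℝ)) = fun y : E d => r ^ 2 * (inner ℝ y y : ℝ) := by
    funext y
    rw [real_inner_self_eq_norm_sq, real_inner_self_eq_norm_sq, Vt_norm h]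
    ring
  rw [t3] at t1
  have t4 := congrArg (fun L => L u) (t1.unique t2)
  simp only [ContinuousLinearMap.comp_apply, ContinuousLinearMap.prod_apply, fderivInnerCLM_apply,
    ContinuousLinearMap.smul_apply, ContinuousLinearMap.id_apply, smul_eq_mul, Vt_unit hx] at t4
  have hxV : (inner ℝ (V x) x : ℝ) = 0 := by rw [real_inner_comm]; exact h.tan x hx
  rw [Vt_deriv h hx] at t4
  simp only [inner_add_right, inner_sub_right, inner_smul_right, inner_add_left, inner_sub_left, inner_smul_left,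
    conj_trivial, real_inner_self_eq_norm_sq, h.len x hx, hxV, h.tan x hx] at t4
  rw [real_inner_comm (V x) (La V x u), real_inner_comm x u] at t4
  linarith

theorem dn_hopf (h : UG g V r) {x : E d} (hx : ‖x‖ = 1)
    (hA : ∀ u v, (inner ℝ (fderiv ℝ (Vt V) x u) (fderiv ℝ (Vt V) x v) : ℝ) = r ^ 2 * inner ℝ u v)
    (hV : La V x (V x) = 0) : (1 + r ^ 2) ^ 2 * dn V x ^ 2 = (1 + r ^ 2) ^ d := by
  have h1 := (det_compare (A := fderiv ℝ (Vt V) x) (L := La V x) hx (h.tan x hx) (Vt_deriv h hx)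
    (La_x hx) (x_La hx) (V_La h hx)).2 hV
  rw [h.len x hx] at h1
  unfold dn
  rw [Real.sq_sqrt (det_nonneg' _), ← h1]
  have h2 : ContinuousLinearMap.id ℝ (E d) + (fderiv ℝ (Vt V) x).adjoint ∘L (fderiv ℝ (Vt V) x) =
      (1 + r ^ 2) • ContinuousLinearMap.id ℝ (E d) := by
    refine ContinuousLinearMap.ext fun u => ?_
    refine ext_inner_right ℝ fun v => ?_
    rw [ContinuousLinearMap.add_apply, inner_add_left, ContinuousLinearMap.id_apply,
      ContinuousLinearMap.comp_apply, ContinuousLinearMap.adjoint_inner_left, hA,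
      ContinuousLinearMap.smul_apply, inner_smul_left, ContinuousLinearMap.id_apply]
    simp only [conj_trivial]
    ring
  rw [h2]
  show LinearMap.det ((1 + r ^ 2) • (LinearMap.id : E d →ₗ[ℝ] E d)) = _
  rw [LinearMap.det_smul, LinearMap.det_id, finrank_euclideanSpace_fin, mul_one]

theorem lin_of {k : ℕ} {g : E (k + 1) ≃ₗᵢ[ℝ] E (k + 1)} {V : E (k + 1) → E (k + 1)} {r : ℝ} (h : UG g V r)
    (hl : ∀ a y : E (k + 1), a ≠ 0 → y ≠ 0 → fderiv ℝ (Vt V) y a = Vt V a) : Lin V r := by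
  set e : E (k + 1) := EuclideanSpace.single 0 1 with he
  have he0 : e ≠ 0 := by
    intro hh
    have := congrArg norm hh
    rw [he] at this
    simp at this
  have h1 : ∀ x, fderiv ℝ (Vt V) e x = Vt V x := by
    intro x
    by_cases hx : x = 0
    · rw [hx, map_zero, Vt_zero]
    · exact hl x e hx he0
  refine ⟨fderiv ℝ (Vt V) e, fun x => ?_, fun x => ?_, fun x hx => ?_⟩
  · rw [h1]; exact Vt_tan h x
  · rw [h1]; exact Vt_norm h x
  · rw [h1, Vt_unit hx]

theorem lin_dn {k : ℕ} {g : E (k + 1) ≃ₗᵢ[ℝ] E (k + 1)} {V : E (k + 1) → E (k + 1)} {r : ℝ} (h : UG g V r) (hl : Lin V r) {x : E (k + 1)}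
    (hx : ‖x‖ = 1) : (1 + r ^ 2) ^ 2 * dn V x ^ 2 = (1 + r ^ 2) ^ (k + 1) := by
  obtain ⟨J, hJs, hJn, hJ⟩ := hl
  have hVt : Vt V = fun y => J y := by
    funext y
    by_cases hy : y = 0
    · rw [hy, Vt_zero, map_zero]
    · unfold Vt
      rw [hJ _ (nrm hy), map_smul, smul_smul, mul_inv_cancel₀ (norm_ne_zero_iff.mpr hy), one_smul]
  have hder : fderiv ℝ (Vt V) x = J := by
    rw [hVt]; exact J.fderiv
  refine dn_hopf h hx ?_ ?_
  · intro u v
    rw [hder]; exact isom hJn u v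
  · have h1 := Vt_deriv h hx (V x)
    rw [hder, h.tan x hx, real_inner_self_eq_norm_sq, h.len x hx, hJ x hx] at h1
    have h2 : J (J x) = - (r ^ 2 • x) := by
      refine ext_inner_right ℝ fun v => ?_
      have h3 := skew hJs v (J x)
      rw [real_inner_comm v (J (J x)), h3, isom hJn, inner_neg_left, inner_smul_left,
        real_inner_comm v x]
      simp
    rw [h2] at h1
    rw [hJ x hx]
    have h3 : La V x (J x) = -(r ^ 2 • x) - (0:ℝ) • J x + r ^ 2 • x := by rw [h1]; module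
    rw [h3]; module


/-- the diagonal action on `W × W` -/
noncomputable def gg {W : Type} [NormedAddCommGroup W] [InnerProductSpace ℝ W] (g : W ≃ₗᵢ[ℝ] W) :
    WithLp 2 (W × W) ≃ₗᵢ[ℝ] WithLp 2 (W × W) where
  toLinearEquiv := ((WithLp.linearEquiv 2 ℝ (W × W)).trans (g.toLinearEquiv.prodCongr g.toLinearEquiv)).trans
    (WithLp.linearEquiv 2 ℝ (W × W)).symm
  norm_map' x := by
    show ‖WithLp.toLp 2 (g x.fst, g x.snd)‖ = ‖x‖
    rw [WithLp.prod_norm_eq_of_L2, WithLp.prod_norm_eq_of_L2]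
    show Real.sqrt (‖g x.fst‖ ^ 2 + ‖g x.snd‖ ^ 2) = _
    rw [g.norm_map, g.norm_map]

theorem gg_apply {W : Type} [NormedAddCommGroup W] [InnerProductSpace ℝ W] (g : W ≃ₗᵢ[ℝ] W)
    (x : WithLp 2 (W × W)) : gg g x = WithLp.toLp 2 (g x.fst, g x.snd) := rfl

theorem gg_mul {W : Type} [NormedAddCommGroup W] [InnerProductSpace ℝ W] (g h : W ≃ₗᵢ[ℝ] W) :
    gg (g * h) = gg g * gg h := by
  ext x; rfl

theorem gg_one {W : Type} [NormedAddCommGroup W] [InnerProductSpace ℝ W] :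
    gg (1 : W ≃ₗᵢ[ℝ] W) = 1 := by
  ext x; rfl

theorem gg_pow {W : Type} [NormedAddCommGroup W] [InnerProductSpace ℝ W] (g : W ≃ₗᵢ[ℝ] W) (n : ℕ) :
    gg (g ^ n) = gg g ^ n := by
  induction n with
  | zero => rw [pow_zero, pow_zero, gg_one]
  | succ n ih => rw [pow_succ, pow_succ, gg_mul, ih]

theorem gg_free {W : Type} [NormedAddCommGroup W] [InnerProductSpace ℝ W] (g : W ≃ₗᵢ[ℝ] W)
    (hg : ∀ x, g x = x → x = 0) (x : WithLp 2 (W × W)) (hx : gg g x = x) : x = 0 := by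
  rw [gg_apply] at hx
  have h1 : g x.fst = x.fst := congrArg (fun z : WithLp 2 (W × W) => z.fst) hx
  have h2 : g x.snd = x.snd := congrArg (fun z : WithLp 2 (W × W) => z.snd) hx
  have h3 := hg _ h1
  have h4 := hg _ h2
  have h5 : x = WithLp.toLp 2 (x.fst, x.snd) := rfl
  rw [h5, h3, h4]; rfl

theorem Zt_equi (h : UG g V r) (y : E d) : Zt V (g y) = gg g (Zt V y) := by
  rw [gg_apply]
  unfold Zt
  rw [Vt_equi h]
  rfl

theorem Zt_HM (h : UG g V r) : Rig.HM (Zt V) where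
  hom := by
    intro t ht y
    unfold Zt
    rw [Vt_hom ht]; rfl
  ne := by
    intro y hy h0
    exact hy (congrArg (fun z : WithLp 2 (E d × E d) => z.fst) h0)
  diff := by
    intro y hy
    exact gr_contDiffAt (Vt_smooth h hy)

theorem Zt_norm (h : UG g V r) (y : E d) : ‖Zt V y‖ = Real.sqrt (1 + r ^ 2) * ‖y‖ := by
  unfold Zt
  rw [WithLp.prod_norm_eq_of_L2]
  show Real.sqrt (‖y‖ ^ 2 + ‖Vt V y‖ ^ 2) = _
  rw [Vt_norm h, show ‖y‖ ^ 2 + (r * ‖y‖) ^ 2 = (1 + r ^ 2) * ‖y‖ ^ 2 by ring,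
    Real.sqrt_mul (by positivity), Real.sqrt_sq (norm_nonneg _)]

theorem Ja_le (h : UG g V r) {x : E d} (hx : ‖x‖ = 1) : Rig.Ja (Zt V) x ≤ (1 + r ^ 2) * dn V x := by
  have hx0 : x ≠ 0 := by
    intro hh; rw [hh, norm_zero] at hx; norm_num at hx
  unfold Rig.Ja
  rw [Rig.normDet_eq_sqrt, Zt_fderiv h hx0, gr_adj]
  have h1 := (det_compare (A := fderiv ℝ (Vt V) x) (L := La V x) hx (h.tan x hx) (Vt_deriv h hx)
    (La_x hx) (x_La hx) (V_La h hx)).1
  rw [h.len x hx] at h1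
  calc Real.sqrt _ ≤ Real.sqrt ((1 + r ^ 2) ^ 2 * (ContinuousLinearMap.id ℝ (E d) + (La V x).adjoint ∘L La V x).det) :=
        Real.sqrt_le_sqrt h1
    _ = _ := by
        rw [Real.sqrt_mul (by positivity), Real.sqrt_sq (by positivity)]
        rfl

theorem real_main {k : ℕ} (hk : 1 ≤ k) {g : E (k + 1) ≃ₗᵢ[ℝ] E (k + 1)} {V : E (k + 1) → E (k + 1)} {r : ℝ}
    (h : UG g V r) (hA : Rig.AreaBound g (gg g)) {p : ℕ} (hp : 0 < p) (hgp : g ^ p = 1) :
    Real.sqrt (1 + r ^ 2) ^ (k + 1) * (volume : Measure (E (k + 1))).toSphere.real univ ≤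
      (1 + r ^ 2) * ∫ x : sphere (0 : E (k + 1)) 1, dn V x ∂(volume : Measure (E (k + 1))).toSphere ∧
    ((1 + r ^ 2) * ∫ x : sphere (0 : E (k + 1)) 1, dn V x ∂(volume : Measure (E (k + 1))).toSphere ≤
      Real.sqrt (1 + r ^ 2) ^ (k + 1) * (volume : Measure (E (k + 1))).toSphere.real univ →
      ∀ a y : E (k + 1), a ≠ 0 → y ≠ 0 → fderiv ℝ (Vt V) y a = Vt V a) := by
  set σ := (volume : Measure (E (k + 1))).toSphere with hσ
  have hnt : Nontrivial (E (k + 1)) := Module.nontrivial_of_finrank_pos (R := ℝ) (by simp)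
  have hHM := Zt_HM h
  have hR : 0 < Real.sqrt (1 + r ^ 2) := Real.sqrt_pos.mpr (by positivity)
  set R := Real.sqrt (1 + r ^ 2) with hRdef
  have hs := hA.sphere hHM (Zt_equi h)
  have hw : ∀ x : sphere (0 : E (k + 1)) 1, Rig.wt (Zt V) x ≤ (R ^ (k + 1))⁻¹ * ((1 + r ^ 2) * dn V x) := by
    intro x
    have hx : ‖(x : E (k + 1))‖ = 1 := by simp
    unfold Rig.wt
    rw [Zt_norm h, hx, mul_one, finrank_euclideanSpace_fin, div_eq_inv_mul]
    exact mul_le_mul_of_nonneg_left (Ja_le h hx) (by positivity)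
  have hint : Integrable (fun x : sphere (0 : E (k + 1)) 1 => (R ^ (k + 1))⁻¹ * ((1 + r ^ 2) * dn V x)) σ :=
    ((dn_int h.smooth).const_mul _).const_mul _
  have h1 : ∫ x : sphere (0 : E (k + 1)) 1, Rig.wt (Zt V) x ∂σ ≤
      (R ^ (k + 1))⁻¹ * ((1 + r ^ 2) * ∫ x : sphere (0 : E (k + 1)) 1, dn V x ∂σ) := by
    rw [← integral_const_mul, ← integral_const_mul]
    exact integral_mono (Rig.int_sphere fun x hx => hHM.wt_cont hx) hint hw
  have hRp : 0 < R ^ (k + 1) := pow_pos hR _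
  refine ⟨?_, fun hle => ?_⟩
  · have h2 := hs.trans h1
    rw [inv_mul_eq_div, le_div_iff₀ hRp] at h2
    rw [mul_comm]
    exact h2
  · have heq : ∫ x : sphere (0 : E (k + 1)) 1, Rig.wt (Zt V) x ∂σ ≤ σ.real univ := by
      refine h1.trans ?_
      rw [inv_mul_le_iff₀ hRp]
      exact hle
    intro a y ha hy
    have hinj : ∀ x, x ≠ 0 → Function.Injective (fderiv ℝ (Zt V) x) := by
      intro x hx
      rw [Zt_fderiv h hx]
      intro u v huv
      rw [gr_apply, gr_apply] at huv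
      exact congrArg (fun z : WithLp 2 (E (k + 1) × E (k + 1)) => z.fst) huv
    obtain ⟨v, hv⟩ := Rig.rigid hA (by rw [finrank_euclideanSpace_fin]; omega) hHM (Zt_equi h) hinj heq hp
      (by rw [← gg_pow, hgp, gg_one]) ha hy
    rw [Zt_fderiv h hy, gr_apply] at hv
    have e1 : v = a := congrArg (fun z : WithLp 2 (E (k + 1) × E (k + 1)) => z.fst) hv
    have e2 : fderiv ℝ (Vt V) y v = Vt V a :=
      congrArg (fun z : WithLp 2 (E (k + 1) × E (k + 1)) => z.snd) hv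
    rwa [e1] at e2

/-- summary on the unit sphere -/
theorem unit_final (m : ℕ) {g : E (2 * m + 1 + 1) ≃ₗᵢ[ℝ] E (2 * m + 1 + 1)}
    {V : E (2 * m + 1 + 1) → E (2 * m + 1 + 1)} {r : ℝ} (h : UG g V r) (hA : Rig.AreaBound g (gg g))
    {p : ℕ} (hp : 0 < p) (hgp : g ^ p = 1) :
    (1 + r ^ 2) ^ m * (volume : Measure (E (2 * m + 1 + 1))).toSphere.real univ ≤
      ∫ x : sphere (0 : E (2 * m + 1 + 1)) 1, dn V x ∂(volume : Measure (E (2 * m + 1 + 1))).toSphere ∧
    ((∫ x : sphere (0 : E (2 * m + 1 + 1)) 1, dn V x ∂(volume : Measure (E (2 * m + 1 + 1))).toSphere) =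
      (1 + r ^ 2) ^ m * (volume : Measure (E (2 * m + 1 + 1))).toSphere.real univ ↔ Lin V r) := by
  obtain ⟨m1, m2⟩ := real_main (by omega) h hA hp hgp
  rw [sqrt_pow, mul_assoc] at m1 m2
  have hp : 0 < 1 + r ^ 2 := by positivity
  refine ⟨le_of_mul_le_mul_left m1 hp, fun he => ?_, fun hl => ?_⟩
  · apply lin_of h
    apply m2
    rw [he]
  · have h1 : ∀ x : sphere (0 : E (2 * m + 1 + 1)) 1, dn V x = (1 + r ^ 2) ^ m := by
      intro x
      have h2 := lin_dn h hl (x := (x : E (2 * m + 1 + 1))) (by simp)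
      have h3 : (1 + r ^ 2) ^ (2 * m + 1 + 1) = (1 + r ^ 2) ^ 2 * ((1 + r ^ 2) ^ m) ^ 2 := by
        rw [← pow_mul, ← pow_add]; congr 1; ring
      rw [h3] at h2
      have h4 := mul_left_cancel₀ (by positivity) h2
      have h5 : 0 ≤ (1 + r ^ 2) ^ m := by positivity
      rw [← Real.sqrt_sq (dn_nonneg (V := V) (x : E (2 * m + 1 + 1))), h4, Real.sqrt_sq h5]
    rw [integral_congr_ae (Filter.Eventually.of_forall h1), integral_const, smul_eq_mul, mul_comm]

end Pool.Agent.Helper82.Fld
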