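import Pool.Agent.Helper82.Glob

set_option autoImplicit false

namespace Pool.Agent.Helper82

open Set Topology Pointwise

abbrev E2 := EuclideanSpace ℝ (Fin 2)

theorem P_ge (u : ℝ) (h0 : 0 ≤ u) (h4 : u ≤ 4) (n : ℕ) : 1 / 3 ≤ P n u := by
  match n with
  | 0 => exact P0_pos u h0
  | 1 =>
    have h1 := P1_mul u
    have h2 := (D1_sq u h0 h4).1
    have h3 := eta1_nonneg u h0 h4
    have h6 : (1 + u ^ 2) * 1 ≤ (1 + u ^ 2) * P 1 u := by
      rw [h1]
      have := mul_nonneg h2.le h0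
      nlinarith
    linarith [le_of_mul_le_mul_left h6 (by positivity)]
  | n + 2 => linarith [(inv_all u h0 h4 (n + 2) (by omega)).plo]

noncomputable def kk (n : ℕ) (u : ℝ) : ℝ := S (n + 1) u - P n u * S n u

theorem kk_nonneg (n : ℕ) (u : ℝ) (h0 : 0 ≤ u) (h4 : u ≤ 4) : 0 ≤ kk n u := k0_nonneg u h0 h4 n

theorem S04 : S 0 4 = 0 := by rw [S_zero]; norm_num
theorem S14 : S 1 4 = 4 := S1_eq 4 (by norm_num)
theorem S00 : S 0 0 = -4 := by rw [S_zero]; norm_num
theorem S10 : S 1 0 = 0 := S1_eq 0 (by norm_num)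
theorem P04 : P 0 4 = 3 := by rw [P_zero]; norm_num
theorem P00 : P 0 0 = 1 / 3 := by rw [P_zero]; norm_num

theorem m04 : (4:ℝ) ∈ Set.Icc (0:ℝ) 4 := by constructor <;> norm_num
theorem m00 : (0:ℝ) ∈ Set.Icc (0:ℝ) 4 := by constructor <;> norm_num

theorem kk_le (n : ℕ) (u : ℝ) (hu : u ∈ Icc (0:ℝ) 4) : kk n u ≤ 4 := by
  have := supp n 0 u 4 hu m04
  rw [S04, S14] at this
  unfold kk; linarith

/-- mirrored support inequality -/
theorem supp_mirror (n m : ℕ) (u v : ℝ) (hu : u ∈ Icc (0:ℝ) 4) (hv : v ∈ Icc (0:ℝ) 4) :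
    kk n u ≤ P n u * S (m + 1) v - S m v := by
  rcases Nat.eq_zero_or_pos m with h | h
  · subst h
    -- mirrored level zero point is a level zero point
    have hv2 : 0 < v + 2 := by linarith [hv.1]
    set v' := (8 - 2 * v) / (v + 2) with hv'
    have hm : v' ∈ Icc (0:ℝ) 4 := by
      constructor
      · apply div_nonneg _ hv2.le; linarith [hv.2]
      · rw [div_le_iff₀ hv2]; linarith [hv.1]
    have h1 := supp n 0 u v' hu hm
    have e1 : S (0 + 1) v' = - S 0 v := by
      rw [zero_add, S1_eq v' hm.1, S_zero, hv']; field_simp; ring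
    have e2 : S 0 v' = - S (0 + 1) v := by
      have : v' + 2 ≠ 0 := by linarith [hm.1]
      rw [zero_add, S1_eq v hv.1, S_zero]
      have e3 : v' + 2 = 12 / (v + 2) := by rw [hv']; field_simp; ring
      have e4 : 2 * v' - 8 = -12 * v / (v + 2) := by rw [hv']; field_simp; ring
      rw [e3, e4]; field_simp
    rw [e1, e2] at h1
    unfold kk; linarith
  · obtain ⟨j, rfl⟩ := Nat.exists_eq_add_of_le' h
    have h1 := supp 0 (j + 1) 4 v m04 hv
    rw [S04, S14, P04] at h1
    have h2 := kk_le n u hu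
    have h3 := supp n 0 u 0 hu m00
    rw [S00, S10] at h3
    have h5 := P_ge u hu.1 hu.2 n
    have hSnn : 0 ≤ S (j + 1) v := by
      have a1 := S_mono (j + 1) m00 hv hv.1
      have a2 : 0 ≤ S (j + 1) 0 := by
        clear h1 a1
        induction j with
        | zero => rw [S10]
        | succ j ih =>
          rw [S_junction (j + 1)]
          have := S_mono (j + 1) m00 m04 (by norm_num)
          have := ih (by omega)
          linarith
      linarith
    have h6 : P n u * (4 + 3 * S (j + 1) v) ≤ P n u * S (j + 1 + 1) v :=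
      mul_le_mul_of_nonneg_left (by linarith) (by linarith)
    have h7 : 0 ≤ (3 * P n u - 1) * S (j + 1) v := mul_nonneg (by linarith) hSnn
    unfold kk
    nlinarith

/-- the convex body -/
def KK : Set E2 := {z | ∀ n : ℕ, ∀ u ∈ Icc (0:ℝ) 4,
  kk n u * |z 1| + (P n u - 1) * z 0 ≤ P n u + 1 ∧
  kk n u * |z 1| - (P n u - 1) * z 0 ≤ P n u + 1}

theorem KK_convex : Convex ℝ KK := by
  intro x hx y hy a b ha hb hab n u hu
  obtain ⟨x1, x2⟩ := hx n u hu
  obtain ⟨y1, y2⟩ := hy n u hu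
  have hk := kk_nonneg n u hu.1 hu.2
  have habs : |(a • x + b • y) 1| ≤ a * |x 1| + b * |y 1| := by
    have : (a • x + b • y) 1 = a * x 1 + b * y 1 := by simp
    rw [this]
    calc |a * x 1 + b * y 1| ≤ |a * x 1| + |b * y 1| := abs_add_le _ _
      _ = a * |x 1| + b * |y 1| := by rw [abs_mul, abs_mul, abs_of_nonneg ha, abs_of_nonneg hb]
  have h0 : (a • x + b • y) 0 = a * x 0 + b * y 0 := by simp
  have hk2 := mul_le_mul_of_nonneg_left habs hk
  rw [h0]
  have hb' : b = 1 - a := by linarith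
  constructor
  · have i1 := mul_le_mul_of_nonneg_left x1 ha
    have i2 := mul_le_mul_of_nonneg_left y1 hb
    have i3 : a * (P n u + 1) + b * (P n u + 1) = P n u + 1 := by rw [hb']; ring
    linarith
  · have i1 := mul_le_mul_of_nonneg_left x2 ha
    have i2 := mul_le_mul_of_nonneg_left y2 hb
    have i3 : a * (P n u + 1) + b * (P n u + 1) = P n u + 1 := by rw [hb']; ring
    linarith

theorem cont_coord (i : Fin 2) : Continuous (fun z : E2 => z i) := by fun_prop

theorem KK_closed : IsClosed KK := by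
  have : KK = ⋂ n : ℕ, ⋂ u ∈ Icc (0:ℝ) 4, ({z : E2 | kk n u * |z 1| + (P n u - 1) * z 0 ≤ P n u + 1}
      ∩ {z : E2 | kk n u * |z 1| - (P n u - 1) * z 0 ≤ P n u + 1}) := by
    ext z; simp only [KK, mem_ofPred_eq, mem_iInter, mem_inter_iff]
  rw [this]
  refine isClosed_iInter fun n => isClosed_iInter fun u => isClosed_iInter fun _ => ?_
  apply IsClosed.inter
  · exact isClosed_le (by fun_prop) continuous_const
  · exact isClosed_le (by fun_prop) continuous_const

theorem kk00 : kk 0 0 = 4 / 3 := by unfold kk; rw [S10, P00, S00]; norm_num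

theorem KK_bdd : KK ⊆ Metric.closedBall 0 3 := by
  intro z hz
  obtain ⟨h1, h2⟩ := hz 0 0 m00
  rw [kk00, P00] at h1 h2
  have hy : 0 ≤ |z 1| := abs_nonneg _
  have hx1 : z 0 ≤ 2 := by linarith
  have hx2 : -2 ≤ z 0 := by linarith
  have hy1 : |z 1| ≤ 1 := by linarith
  rw [mem_closedBall_zero_iff, EuclideanSpace.norm_eq]
  apply Real.sqrt_le_iff.mpr
  refine ⟨by norm_num, ?_⟩
  rw [Fin.sum_univ_two]
  simp only [Real.norm_eq_abs, sq_abs]
  have := abs_le.mp hy1
  nlinarith

theorem KK_compact : IsCompact KK :=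
  Metric.isCompact_of_isClosed_isBounded KK_closed (Metric.isBounded_closedBall.subset KK_bdd)

noncomputable def p0 : E2 := !₂[-1, 0]
noncomputable def q0 : E2 := !₂[1, 0]

theorem near_mem (z : E2) (h1 : |z 0 + 1| < 1 / 10) (h2 : |z 1| < 1 / 10) : z ∈ KK := by
  intro n u hu
  have a1 := kk_nonneg n u hu.1 hu.2
  have a2 := kk_le n u hu
  have a3 := P_ge u hu.1 hu.2 n
  have a4 := P_le u hu.1 hu.2 n
  have a5 := abs_lt.mp h1
  have a6 : kk n u * |z 1| ≤ 4 * (1 / 10) := mul_le_mul a2 h2.le (abs_nonneg _) (by norm_num)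
  constructor
  · rcases le_total (P n u) 1 with h | h
    · have : (P n u - 1) * z 0 ≤ (P n u - 1) * (-11 / 10) :=
        mul_le_mul_of_nonpos_left (by linarith) (by linarith)
      linarith
    · have : (P n u - 1) * z 0 ≤ (P n u - 1) * (-9 / 10) :=
        mul_le_mul_of_nonneg_left (by linarith) (by linarith)
      linarith
  · rcases le_total (P n u) 1 with h | h
    · have : (P n u - 1) * (-9 / 10) ≤ (P n u - 1) * z 0 :=
        mul_le_mul_of_nonpos_left (by linarith) (by linarith)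
      linarith
    · have : (P n u - 1) * (-11 / 10) ≤ (P n u - 1) * z 0 :=
        mul_le_mul_of_nonneg_left (by linarith) (by linarith)
      linarith

theorem p0_int : p0 ∈ interior KK := by
  rw [mem_interior]
  refine ⟨{z : E2 | |z 0 + 1| < 1 / 10} ∩ {z : E2 | |z 1| < 1 / 10}, ?_, ?_, ?_⟩
  · intro z hz; exact near_mem z hz.1 hz.2
  · apply IsOpen.inter
    · exact isOpen_lt (by fun_prop) continuous_const
    · exact isOpen_lt (by fun_prop) continuous_const
  · constructor
    · simp [p0]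
    · simp [p0]

theorem KK_neg (z : E2) (hz : z ∈ KK) : -z ∈ KK := by
  intro n u hu
  obtain ⟨h1, h2⟩ := hz n u hu
  have e0 : (-z) 0 = - z 0 := by simp
  have e1 : (-z) 1 = - z 1 := by simp
  rw [e0, e1, abs_neg]
  constructor <;> linarith

theorem KK_refl (x y : ℝ) (hz : (!₂[x, y] : E2) ∈ KK) : (!₂[x, -y] : E2) ∈ KK := by
  intro n u hu
  obtain ⟨h1, h2⟩ := hz n u hu
  simp at h1 h2 ⊢
  exact ⟨h1, h2⟩

theorem KK_mirror (x y : ℝ) (hz : (!₂[x, y] : E2) ∈ KK) : (!₂[-x, y] : E2) ∈ KK := by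
  intro n u hu
  obtain ⟨h1, h2⟩ := hz n u hu
  simp at h1 h2 ⊢
  constructor <;> linarith

/-- points of the upper boundary curve -/
theorem C_mem (m : ℕ) (v : ℝ) (hv : v ∈ Icc (0:ℝ) 4) :
    (!₂[1 + 2 * S m v / D m v, 2 / D m v] : E2) ∈ KK := by
  intro n u hu
  have hD := D_pos v hv.1 hv.2 m
  have h1 := supp n m u v hu hv
  have h2 := supp_mirror n m u v hu hv
  have hs : S (m + 1) v = S m v + D m v := S_succ m v
  have e1 : (!₂[1 + 2 * S m v / D m v, 2 / D m v] : E2) 1 = 2 / D m v := by simp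
  have e0 : (!₂[1 + 2 * S m v / D m v, 2 / D m v] : E2) 0 = 1 + 2 * S m v / D m v := by simp
  rw [e0, e1, abs_of_pos (by positivity)]
  constructor
  · have : kk n u * (2 / D m v) + (P n u - 1) * (1 + 2 * S m v / D m v) =
      P n u + 1 - (2 / D m v) * ((S (m + 1) v - P n u * S m v) - kk n u) := by
      rw [hs]; field_simp; ring
    rw [this]
    have : 0 ≤ (2 / D m v) * ((S (m + 1) v - P n u * S m v) - kk n u) := by
      apply mul_nonneg (by positivity)
      unfold kk; linarith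
    linarith
  · have : kk n u * (2 / D m v) - (P n u - 1) * (1 + 2 * S m v / D m v) =
      P n u + 1 - (2 / D m v) * ((P n u * S (m + 1) v - S m v) - kk n u) := by
      rw [hs]; field_simp; ring
    rw [this]
    have : 0 ≤ (2 / D m v) * ((P n u * S (m + 1) v - S m v) - kk n u) := by
      apply mul_nonneg (by positivity)
      linarith
    linarith

theorem C_sat (m : ℕ) (v : ℝ) (hv : v ∈ Icc (0:ℝ) 4) :
    kk m v * |2 / D m v| + (P m v - 1) * (1 + 2 * S m v / D m v) = P m v + 1 := by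
  have hD := D_pos v hv.1 hv.2 m
  have hs : S (m + 1) v = S m v + D m v := S_succ m v
  rw [abs_of_pos (by positivity)]
  unfold kk; rw [hs]; field_simp; ring

/-- a point of `KK` at which a constraint is sharp is a frontier point -/
theorem sat_frontier (z : E2) (hz : z ∈ KK) (n : ℕ) (u : ℝ) (hu : u ∈ Icc (0:ℝ) 4)
    (h : kk n u * |z 1| + (P n u - 1) * z 0 = P n u + 1 ∨
      kk n u * |z 1| - (P n u - 1) * z 0 = P n u + 1) : z ∈ frontier KK := by
  rw [frontier, mem_sdiff]
  refine ⟨subset_closure hz, fun hint => ?_⟩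
  have hcont : Filter.Tendsto (fun t : ℝ => t • z) (𝓝 1) (𝓝 ((1:ℝ) • z)) :=
    (continuous_id.smul continuous_const).tendsto 1
  rw [one_smul] at hcont
  have hev := hcont (isOpen_interior.mem_nhds hint)
  have hev' : ∀ᶠ t in 𝓝 (1:ℝ), t • z ∈ interior KK := hev
  obtain ⟨ε, hε, hball⟩ := Metric.eventually_nhds_iff.mp hev'
  have hmem : (1 + ε / 2) • z ∈ KK := by
    apply interior_subset
    apply hball
    rw [Real.dist_eq]
    rw [show 1 + ε / 2 - 1 = ε / 2 by ring, abs_of_pos (by positivity)]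
    linarith
  obtain ⟨c1, c2⟩ := hmem n u hu
  have e0 : ((1 + ε / 2) • z) 0 = (1 + ε / 2) * z 0 := by simp
  have e1 : ((1 + ε / 2) • z) 1 = (1 + ε / 2) * z 1 := by simp
  rw [e0, e1, abs_mul, abs_of_pos (show 0 < 1 + ε / 2 by positivity)] at c1 c2
  have hP := P_ge u hu.1 hu.2 n
  have hpos : 0 < ε / 2 * (P n u + 1) := by
    apply mul_pos (by positivity); linarith
  rcases h with h | h
  · have : (1 + ε / 2) * (kk n u * |z 1| + (P n u - 1) * z 0) ≤ P n u + 1 := by linarith
    rw [h] at this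
    linarith
  · have : (1 + ε / 2) * (kk n u * |z 1| - (P n u - 1) * z 0) ≤ P n u + 1 := by linarith
    rw [h] at this
    linarith

theorem C_frontier (m : ℕ) (v : ℝ) (hv : v ∈ Icc (0:ℝ) 4) :
    (!₂[1 + 2 * S m v / D m v, 2 / D m v] : E2) ∈ frontier KK := by
  apply sat_frontier _ (C_mem m v hv) m v hv
  left
  have := C_sat m v hv
  simpa using this

theorem C_frontier' (m : ℕ) (v : ℝ) (hv : v ∈ Icc (0:ℝ) 4) :
    (!₂[-(1 + 2 * S m v / D m v), 2 / D m v] : E2) ∈ frontier KK := by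
  apply sat_frontier _ (KK_mirror _ _ (C_mem m v hv)) m v hv
  right
  have h := C_sat m v hv
  have e1 : (!₂[-(1 + 2 * S m v / D m v), 2 / D m v] : E2) 1 = 2 / D m v := by simp
  have e0 : (!₂[-(1 + 2 * S m v / D m v), 2 / D m v] : E2) 0 = -(1 + 2 * S m v / D m v) := by simp
  rw [e0, e1]
  linarith

/-- the body seen from `p0` -/
def AA : Set E2 := {v | p0 + v ∈ KK}

theorem AA_eq : AA = (Homeomorph.addLeft p0) ⁻¹' KK := rfl

theorem AA_convex : Convex ℝ AA := by
  intro x hx y hy a b ha hb hab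
  have := KK_convex hx hy ha hb hab
  have e : a • (p0 + x) + b • (p0 + y) = p0 + (a • x + b • y) := by
    rw [smul_add, smul_add]
    have : a • p0 + b • p0 = p0 := by rw [← add_smul, hab, one_smul]
    calc a • p0 + a • x + (b • p0 + b • y) = (a • p0 + b • p0) + (a • x + b • y) := by abel
      _ = _ := by rw [this]
  rw [e] at this
  exact this

theorem AA_nhds : AA ∈ 𝓝 (0 : E2) := by
  have h : KK ∈ 𝓝 (p0 + 0) := by rw [add_zero]; exact mem_interior_iff_mem_nhds.mp p0_int
  exact (Homeomorph.addLeft p0).continuous.continuousAt.preimage_mem_nhds h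

theorem AA_frontier (v : E2) : v ∈ frontier AA ↔ p0 + v ∈ frontier KK := by
  rw [AA_eq, ← Homeomorph.preimage_frontier]
  rfl

noncomputable def H (v : E2) : ℝ := gauge AA v

theorem H_frontier (z : E2) (hz : z ∈ frontier KK) : H (z - p0) = 1 := by
  rw [H, gauge_eq_one_iff_mem_frontier AA_convex AA_nhds, AA_frontier]
  simpa using hz

theorem H_smul (c : ℝ) (hc : 0 ≤ c) (v : E2) : H (c • v) = c * H v := by
  rw [H, H, gauge_smul_of_nonneg hc]; rfl

theorem H_cont : Continuous H := continuous_gauge AA_convex AA_nhds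

theorem H_of (v z : E2) (c : ℝ) (hc : 0 < c) (hz : z ∈ frontier KK) (h : z = p0 + c • v) :
    H v = 1 / c := by
  have h1 := H_frontier z hz
  rw [h, add_sub_cancel_left, H_smul c hc.le] at h1
  field_simp; linarith

theorem H_s (n : ℕ) (u : ℝ) (hu : u ∈ Icc (0:ℝ) 4) : H !₂[S (n + 1) u, 1] = D n u / 2 := by
  have hD := D_pos u hu.1 hu.2 n
  have hs : S (n + 1) u = S n u + D n u := S_succ n u
  rw [H_of _ _ (2 / D n u) (by positivity) (C_frontier n u hu)]
  · field_simp
  · ext i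
    fin_cases i
    · simp [p0]; rw [hs]; field_simp; ring
    · simp [p0]

theorem H_s' (n : ℕ) (u : ℝ) (hu : u ∈ Icc (0:ℝ) 4) :
    H !₂[-S n u, 1] = D n u / 2 := by
  have hD := D_pos u hu.1 hu.2 n
  rw [H_of _ _ (2 / D n u) (by positivity) (C_frontier' n u hu)]
  · field_simp
  · ext i
    fin_cases i
    · simp [p0]; ring
    · simp [p0]

theorem H_refl (x y : ℝ) : H !₂[x, -y] = H !₂[x, y] := by
  have key : ∀ x y r : ℝ, (!₂[x, y] : E2) ∈ r • AA → (!₂[x, -y] : E2) ∈ r • AA := by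
    intro x y r h
    rw [mem_smul_set] at h ⊢
    obtain ⟨w, hw, hrw⟩ := h
    have e0 : r * w 0 = x := by
      have := congrArg (fun z : E2 => z 0) hrw; simpa using this
    have e1 : r * w 1 = y := by
      have := congrArg (fun z : E2 => z 1) hrw; simpa using this
    refine ⟨!₂[w 0, -w 1], ?_, ?_⟩
    · have hw2 : p0 + w ∈ KK := hw
      have e2 : p0 + w = !₂[-1 + w 0, w 1] := by
        ext i; fin_cases i <;> simp [p0]
      rw [e2] at hw2
      have h3 := KK_refl _ _ hw2
      have e3 : p0 + !₂[w 0, -w 1] = !₂[-1 + w 0, -w 1] := by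
        ext i; fin_cases i <;> simp [p0]
      show p0 + !₂[w 0, -w 1] ∈ KK
      rw [e3]; exact h3
    · ext i; fin_cases i
      · simpa using e0
      · simp; linarith
  unfold H gauge
  congr 1
  ext r
  simp only [mem_ofPred_eq]
  constructor
  · rintro ⟨h1, h2⟩
    have := key _ _ _ h2
    rw [neg_neg] at this
    exact ⟨h1, this⟩
  · rintro ⟨h1, h2⟩
    exact ⟨h1, key _ _ _ h2⟩


/-- every nonnegative real is a value of some `S (n+1)` -/
theorem cover (s : ℝ) (hs : 0 ≤ s) : ∃ n : ℕ, ∃ u ∈ Icc (0:ℝ) 4, S (n + 1) u = s := by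
  have hunb : ∀ n : ℕ, (n : ℝ) ≤ S (n + 1) 4 := by
    intro n
    induction n with
    | zero => rw [zero_add, S14]; norm_num
    | succ n ih =>
      have h2 := (inv_all 4 (by norm_num) le_rfl (n + 2) (by omega))
      have h3 := h2.hw
      rcases Nat.eq_zero_or_pos n with h | h
      · subst h; push_cast; simp; linarith
      · have h4 := (inv_all 4 (by norm_num) le_rfl (n + 1) (by omega))
        have h5 := h4.dlo
        have h6 := h4.hw
        have : S (n + 1 + 1) 4 = S (n + 1) 4 + D (n + 1) 4 := S_succ _ _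
        rw [this]; push_cast; linarith
  obtain ⟨N, hN⟩ := exists_nat_ge s
  have hex : ∃ n : ℕ, s ≤ S (n + 1) 4 := ⟨N, hN.trans (hunb N)⟩
  classical
  set n := Nat.find hex with hn
  have hspec : s ≤ S (n + 1) 4 := Nat.find_spec hex
  have hlow : S (n + 1) 0 ≤ s := by
    rcases Nat.eq_zero_or_pos n with h | h
    · rw [h, zero_add, S10]; exact hs
    · obtain ⟨j, hj⟩ := Nat.exists_eq_add_of_le' h
      have hlt : j < Nat.find hex := by omega
      have := Nat.find_min hex hlt
      push Not at this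
      rw [hj, S_junction]
      exact this.le
  have hcont : ContinuousOn (S (n + 1)) (Icc 0 4) := by
    intro x hx
    exact (derivs x hx.1 hx.2 (n + 1)).1.continuousAt.continuousWithinAt
  have := intermediate_value_Icc (show (0:ℝ) ≤ 4 by norm_num) hcont ⟨hlow, hspec⟩
  obtain ⟨u, hu, hu2⟩ := this
  exact ⟨n, u, hu, hu2⟩

theorem H_id_nonneg (s : ℝ) (hs : 0 ≤ s) :
    H !₂[s, 1] ^ 2 + H !₂[-s, 1] ^ 2 = 8 * (s ^ 2 + 1) := by
  obtain ⟨n, u, hu, rfl⟩ := cover s hs
  rw [H_s n u hu, H_s' (n + 1) u hu]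
  have := D_sq u hu.1 hu.2 n
  nlinarith

theorem H_id_one (s : ℝ) : H !₂[s, 1] ^ 2 + H !₂[-s, 1] ^ 2 = 8 * (s ^ 2 + 1) := by
  rcases le_total 0 s with h | h
  · exact H_id_nonneg s h
  · have := H_id_nonneg (-s) (by linarith)
    rw [neg_neg] at this
    nlinarith

theorem H_id_pos (x y : ℝ) (hy : 0 < y) :
    H !₂[x, y] ^ 2 + H !₂[-x, y] ^ 2 = 8 * (x ^ 2 + y ^ 2) := by
  have e1 : (!₂[x, y] : E2) = y • !₂[x / y, 1] := by
    ext i; fin_cases i
    · simp; field_simp
    · simp
  have e2 : (!₂[-x, y] : E2) = y • !₂[-(x / y), 1] := by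
    ext i; fin_cases i
    · simp; field_simp
    · simp
  rw [e1, e2, H_smul y hy.le, H_smul y hy.le]
  have h := H_id_one (x / y)
  have e3 : (y * H !₂[x / y, 1]) ^ 2 + (y * H !₂[-(x / y), 1]) ^ 2 =
      y ^ 2 * (H !₂[x / y, 1] ^ 2 + H !₂[-(x / y), 1] ^ 2) := by ring
  rw [e3, h]
  field_simp

theorem H_id_ne (x y : ℝ) (hy : y ≠ 0) :
    H !₂[x, y] ^ 2 + H !₂[-x, y] ^ 2 = 8 * (x ^ 2 + y ^ 2) := by
  rcases lt_or_gt_of_ne hy with h | h
  · have := H_id_pos x (-y) (by linarith)
    rw [H_refl, H_refl] at this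
    rw [this]; ring
  · exact H_id_pos x y h

theorem H_id (x y : ℝ) :
    H !₂[x, y] ^ 2 + H !₂[-x, y] ^ 2 = 8 * (x ^ 2 + y ^ 2) := by
  have hc : ∀ a : ℝ, Continuous (fun y : ℝ => H !₂[a, y]) := by
    intro a
    apply H_cont.comp
    have : (fun y : ℝ => (!₂[a, y] : E2)) = fun y => (WithLp.toLp 2 ![a, y]) := rfl
    rw [this]
    apply (PiLp.continuous_toLp 2 _).comp
    apply continuous_pi
    intro i; fin_cases i
    · exact continuous_const
    · exact continuous_id
  have h1 : Continuous (fun y : ℝ => H !₂[x, y] ^ 2 + H !₂[-x, y] ^ 2) :=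
    ((hc x).pow 2).add ((hc (-x)).pow 2)
  have h2 : Continuous (fun y : ℝ => 8 * (x ^ 2 + y ^ 2)) := by fun_prop
  have hd : Dense ({0}ᶜ : Set ℝ) := dense_compl_singleton 0
  have := h1.ext_on hd h2 (fun y hy => H_id_ne x y hy)
  exact congrFun this y

theorem H_main (v : E2) : H v ^ 2 + H (-v) ^ 2 = 8 * ‖v‖ ^ 2 := by
  have e1 : v = !₂[v 0, v 1] := by ext i; fin_cases i <;> simp
  have e2 : -v = !₂[-v 0, -v 1] := by ext i; fin_cases i <;> simp
  have h := H_id (v 0) (v 1)
  rw [e2, H_refl, ← e1] at *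
  rw [EuclideanSpace.norm_eq, Real.sq_sqrt (by positivity), Fin.sum_univ_two]
  simp only [Real.norm_eq_abs, sq_abs]
  exact h

theorem chord_p0 (x y : E2) (hx : x ∈ frontier KK) (hy : y ∈ frontier KK)
    (h : p0 ∈ segment ℝ x y) : dist x p0 ^ (-2 : ℝ) + dist y p0 ^ (-2 : ℝ) = 8 := by
  obtain ⟨a, b, ha, hb, hab, hc⟩ := h
  set ξ := x - p0 with hξ
  set ζ := y - p0 with hζ
  have hH1 : H ξ = 1 := H_frontier x hx
  have hH2 : H ζ = 1 := H_frontier y hy
  have hH0 : H 0 = 0 := by unfold H; exact gauge_zero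
  have hrel : a • ξ + b • ζ = 0 := by
    have : a • ξ + b • ζ = (a • x + b • y) - (a + b) • p0 := by
      rw [hξ, hζ, smul_sub, smul_sub, add_smul]; abel
    rw [this, hc, hab, one_smul, sub_self]
  have ha' : 0 < a := by
    rcases ha.eq_or_lt with h | h
    · exfalso
      have hb1 : b = 1 := by linarith
      rw [← h, hb1, zero_smul, one_smul, zero_add] at hrel
      rw [hrel, hH0] at hH2
      exact zero_ne_one hH2
    · exact h
  have hb' : 0 < b := by
    rcases hb.eq_or_lt with h | h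
    · exfalso
      have ha1 : a = 1 := by linarith
      rw [← h, ha1, zero_smul, one_smul, add_zero] at hrel
      rw [hrel, hH0] at hH1
      exact zero_ne_one hH1
    · exact h
  have hζ2 : ζ = (a / b) • (-ξ) := by
    have h1 : b • ζ = a • (-ξ) := by
      rw [smul_neg]; exact eq_neg_of_add_eq_zero_right hrel
    have h2 : ζ = b⁻¹ • (b • ζ) := by rw [smul_smul, inv_mul_cancel₀ hb'.ne', one_smul]
    rw [h2, h1, smul_smul]; congr 1; field_simp
  have hHn : (a / b) * H (-ξ) = 1 := by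
    rw [← H_smul _ (by positivity), ← hζ2]; exact hH2
  have hmain := H_main ξ
  rw [hH1] at hmain
  have hξ0 : 0 < ‖ξ‖ := by
    rw [norm_pos_iff]; intro h0; rw [h0, hH0] at hH1; exact zero_ne_one hH1
  have hn : ‖ζ‖ = (a / b) * ‖ξ‖ := by
    rw [hζ2, norm_smul, norm_neg, Real.norm_eq_abs, abs_of_pos (by positivity)]
  have hr : ∀ t : ℝ, t ^ (-2 : ℝ) = (t ^ 2)⁻¹ := by
    intro t
    rw [show (-2:ℝ) = ((-2 : ℤ) : ℝ) by norm_num, Real.rpow_intCast, zpow_neg]
    norm_cast
  rw [dist_eq_norm, dist_eq_norm, hr, hr, ← hξ, ← hζ, hn]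
  have hHv : H (-ξ) = b / a := by field_simp at hHn ⊢; linarith
  rw [hHv] at hmain
  field_simp at hmain ⊢
  nlinarith

theorem frontier_neg (x : E2) (hx : x ∈ frontier KK) : -x ∈ frontier KK := by
  have hK : (Homeomorph.neg E2) ⁻¹' KK = KK := by
    ext z
    constructor
    · intro h
      have h' : -z ∈ KK := h
      have := KK_neg _ h'
      rwa [neg_neg] at this
    · intro h; exact KK_neg _ h
  rw [← hK, ← Homeomorph.preimage_frontier] at hx
  exact hx

theorem chord_q0 (x y : E2) (hx : x ∈ frontier KK) (hy : y ∈ frontier KK)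
    (h : q0 ∈ segment ℝ x y) : dist x q0 ^ (-2 : ℝ) + dist y q0 ^ (-2 : ℝ) = 8 := by
  have hpq : p0 = -q0 := by ext i; fin_cases i <;> simp [p0, q0]
  have h1 := chord_p0 (-x) (-y) (frontier_neg x hx) (frontier_neg y hy) (by
    obtain ⟨a, b, ha, hb, hab, hc⟩ := h
    refine ⟨a, b, ha, hb, hab, ?_⟩
    rw [hpq, ← hc, smul_neg, smul_neg]; abel)
  rw [hpq, dist_neg_neg, dist_neg_neg] at h1
  exact h1

theorem q0_int : q0 ∈ interior KK := by
  have hpq : q0 = -p0 := by ext i; fin_cases i <;> simp [p0, q0]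
  rw [hpq]
  have hK : (Homeomorph.neg E2) ⁻¹' KK = KK := by
    ext z
    constructor
    · intro h
      have h' : -z ∈ KK := h
      have := KK_neg _ h'
      rwa [neg_neg] at this
    · intro h; exact KK_neg _ h
  have h1 := p0_int
  rw [← hK, ← Homeomorph.preimage_interior] at h1
  exact h1

end Pool.Agent.Helper82
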