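import Pool.Agent.Helper82.Base

set_option autoImplicit false

namespace Pool.Agent.Helper82

theorem inv_all (u : ℝ) (h0 : 0 ≤ u) (h4 : u ≤ 4) (n : ℕ) (hn : 2 ≤ n) :
    Inv (S n u) (D n u) (P n u) (G n u) := by
  induction n, hn using Nat.le_induction with
  | base => exact inv2 u h0 h4
  | succ n _ ih =>
    have h1 := ih.hd
    have h2 := ih.hw
    have hrad : 0 < 32 * (1 + (S n u + D n u) ^ 2) - D n u ^ 2 := by
      have : D n u ^ 2 ≤ (S n u + D n u) ^ 2 := pow_le_pow_left₀ h1.le (by linarith) 2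
      nlinarith [sq_nonneg (S n u + D n u)]
    have e : D (n + 1) u = Real.sqrt (32 * (1 + (S n u + D n u) ^ 2) - D n u ^ 2) := by
      rw [D_succ, S_succ]
    have hd' : 0 < D (n + 1) u := by rw [e]; exact Real.sqrt_pos.mpr hrad
    have hsq : D (n + 1) u ^ 2 = 32 * (1 + (S n u + D n u) ^ 2) - D n u ^ 2 := by
      rw [e]; exact Real.sq_sqrt hrad.le
    rw [S_succ]
    exact ih.step hd' hsq (by rw [P_succ, S_succ]) (G_succ n u)

theorem D_pos (u : ℝ) (h0 : 0 ≤ u) (h4 : u ≤ 4) (n : ℕ) : 0 < D n u := by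
  match n with
  | 0 => exact D0_pos u h0
  | 1 => exact (D1_sq u h0 h4).1
  | n + 2 => exact (inv_all u h0 h4 (n + 2) (by omega)).hd

theorem D_sq (u : ℝ) (h0 : 0 ≤ u) (h4 : u ≤ 4) (n : ℕ) :
    D (n + 1) u ^ 2 = 32 * (1 + S (n + 1) u ^ 2) - D n u ^ 2 := by
  have h := D_pos u h0 h4 (n + 1)
  rw [D_succ] at h ⊢
  rw [Real.sq_sqrt (Real.sqrt_pos.mp h).le]

theorem P_pos (u : ℝ) (h0 : 0 ≤ u) (h4 : u ≤ 4) (n : ℕ) : 0 < P n u := by
  match n with
  | 0 => linarith [P0_pos u h0]
  | 1 => exact P1_pos u h0 h4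
  | n + 2 => linarith [(inv_all u h0 h4 (n + 2) (by omega)).plo]

theorem G_nonneg (u : ℝ) (h0 : 0 ≤ u) (h4 : u ≤ 4) (n : ℕ) : 0 ≤ G n u := by
  match n with
  | 0 => exact G0_nonneg u
  | 1 => exact G1_nonneg u h0 h4
  | n + 2 => exact (inv_all u h0 h4 (n + 2) (by omega)).g0

theorem k0_nonneg (u : ℝ) (h0 : 0 ≤ u) (h4 : u ≤ 4) (n : ℕ) : 0 ≤ S (n + 1) u - P n u * S n u := by
  match n with
  | 0 =>
    rw [S1_eq u h0, P_zero, S_zero]
    have h2 : u + 2 ≠ 0 := by positivity
    have : u - (u + 2) ^ 2 / 12 * ((2 * u - 8) / (u + 2)) = (-u ^ 2 + 8 * u + 8) / 6 := by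
      field_simp; ring
    rw [this]; nlinarith
  | 1 =>
    have h1 := P1_mul u
    have h2 := D1_lo u h0 h4
    have h3 := eta1_le u h0 h4
    rw [S_succ, S1_eq u h0]
    have h5 : 0 ≤ (1 + u ^ 2) * (u + D 1 u - P 1 u * u) := by
      have : (1 + u ^ 2) * (u + D 1 u - P 1 u * u) = D 1 u - u * eta1 u := by
        have : (1 + u ^ 2) * (u + D 1 u - P 1 u * u) =
          (1 + u ^ 2) * (u + D 1 u) - ((1 + u ^ 2) * P 1 u) * u := by ring
        rw [this, h1]; ring
      rw [this]
      have := mul_le_mul_of_nonneg_left h3 h0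
      linarith
    exact nonneg_of_mul_nonneg_right h5 (by positivity)
  | n + 2 =>
    rw [S_succ]; exact (inv_all u h0 h4 (n + 2) (by omega)).k0

theorem P_le (u : ℝ) (h0 : 0 ≤ u) (h4 : u ≤ 4) (n : ℕ) : P n u ≤ 9 := by
  match n with
  | 0 => rw [P_zero]; nlinarith
  | 1 =>
    have h1 := P1_mul u
    have h2 := D1_hi u h0 h4
    have h3 := eta1_le u h0 h4
    have h5 : D 1 u ≤ 4 + 6 * u := by
      apply le_of_sq_le_sq _ (by positivity)
      nlinarith
    have h6 : (1 + u ^ 2) * P 1 u ≤ (1 + u ^ 2) * 9 := by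
      rw [h1]
      have := mul_le_mul_of_nonneg_right h5 h0
      nlinarith [sq_nonneg (u - 1)]
    exact le_of_mul_le_mul_left h6 (by positivity)
  | n + 2 => linarith [(inv_all u h0 h4 (n + 2) (by omega)).phi]

theorem X_junction (n : ℕ) : X (n + 1) 0 = X n 4 := by
  induction n with
  | zero =>
    simp only [X, stp]
    norm_num
  | succ n ih => 
    have : X (n + 1 + 1) 0 = stp (X (n + 1) 0) := rfl
    rw [this, ih]; rfl

theorem S_junction (n : ℕ) : S (n + 1) 0 = S n 4 := by unfold S; rw [X_junction]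
theorem P_junction (n : ℕ) : P (n + 1) 0 = P n 4 := by unfold P; rw [X_junction]

theorem sg_pos (u : ℝ) (h0 : 0 ≤ u) (h4 : u ≤ 4) (n : ℕ) : 0 < sg n u := by
  induction n with
  | zero => simp only [sg]; positivity
  | succ n ih => simp only [sg]; exact mul_pos (P_pos u h0 h4 n) ih

theorem derivs (u : ℝ) (h0 : 0 ≤ u) (h4 : u ≤ 4) (n : ℕ) :
    HasDerivAt (S n) (sg n u) u ∧ HasDerivAt (D n) ((P n u - 1) * sg n u) u ∧
      HasDerivAt (P n) (G n u / D n u * sg n u) u :=
  hasDeriv u h0 n (fun j _ => D_pos u h0 h4 j) (fun j _ => P_pos u h0 h4 j)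

theorem S_mono (n : ℕ) : MonotoneOn (S n) (Set.Icc 0 4) := by
  apply monotoneOn_of_deriv_nonneg (convex_Icc 0 4)
  · intro x hx
    exact (derivs x hx.1 hx.2 n).1.continuousAt.continuousWithinAt
  · intro x hx
    rw [interior_Icc] at hx
    exact (derivs x hx.1.le hx.2.le n).1.differentiableAt.differentiableWithinAt
  · intro x hx
    rw [interior_Icc] at hx
    rw [(derivs x hx.1.le hx.2.le n).1.deriv]
    exact (sg_pos x hx.1.le hx.2.le n).le

theorem P_mono (n : ℕ) : MonotoneOn (P n) (Set.Icc 0 4) := by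
  apply monotoneOn_of_deriv_nonneg (convex_Icc 0 4)
  · intro x hx
    exact (derivs x hx.1 hx.2 n).2.2.continuousAt.continuousWithinAt
  · intro x hx
    rw [interior_Icc] at hx
    exact (derivs x hx.1.le hx.2.le n).2.2.differentiableAt.differentiableWithinAt
  · intro x hx
    rw [interior_Icc] at hx
    rw [(derivs x hx.1.le hx.2.le n).2.2.deriv]
    have h1 := G_nonneg x hx.1.le hx.2.le n
    have h2 := D_pos x hx.1.le hx.2.le n
    have h3 := sg_pos x hx.1.le hx.2.le n
    positivity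

/-- support inequality inside one level -/
theorem supp_same (n : ℕ) (u v : ℝ) (hu : u ∈ Set.Icc (0:ℝ) 4) (hv : v ∈ Set.Icc (0:ℝ) 4) :
    S (n + 1) u - P n u * S n u ≤ S (n + 1) v - P n u * S n v := by
  set c := P n u with hc
  have hder : ∀ x ∈ Set.Icc (0:ℝ) 4, HasDerivAt (fun y => S (n + 1) y - c * S n y)
      ((P n x - c) * sg n x) x := by
    intro x hx
    have h1 := (derivs x hx.1 hx.2 (n + 1)).1
    have h2 := (derivs x hx.1 hx.2 n).1
    have h3 := h1.sub (h2.const_mul c)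
    have e : (P n x - c) * sg n x = sg (n + 1) x - c * sg n x := by simp only [sg]; ring
    rw [e]; exact h3
  rcases le_total u v with h | h
  · have hm : MonotoneOn (fun y => S (n + 1) y - c * S n y) (Set.Icc u 4) := by
      apply monotoneOn_of_deriv_nonneg (convex_Icc u 4)
      · intro x hx
        exact (hder x ⟨hu.1.trans hx.1, hx.2⟩).continuousAt.continuousWithinAt
      · intro x hx
        rw [interior_Icc] at hx
        exact (hder x ⟨hu.1.trans hx.1.le, hx.2.le⟩).differentiableAt.differentiableWithinAt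
      · intro x hx
        rw [interior_Icc] at hx
        have hx' : x ∈ Set.Icc (0:ℝ) 4 := ⟨hu.1.trans hx.1.le, hx.2.le⟩
        rw [(hder x hx').deriv]
        apply mul_nonneg _ (sg_pos x hx'.1 hx'.2 n).le
        have := P_mono n hu hx' hx.1.le
        linarith
    exact hm ⟨le_rfl, hu.2⟩ ⟨h, hv.2⟩ h
  · have hm : AntitoneOn (fun y => S (n + 1) y - c * S n y) (Set.Icc 0 u) := by
      apply antitoneOn_of_deriv_nonpos (convex_Icc 0 u)
      · intro x hx
        exact (hder x ⟨hx.1, hx.2.trans hu.2⟩).continuousAt.continuousWithinAt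
      · intro x hx
        rw [interior_Icc] at hx
        exact (hder x ⟨hx.1.le, hx.2.le.trans hu.2⟩).differentiableAt.differentiableWithinAt
      · intro x hx
        rw [interior_Icc] at hx
        have hx' : x ∈ Set.Icc (0:ℝ) 4 := ⟨hx.1.le, hx.2.le.trans hu.2⟩
        rw [(hder x hx').deriv]
        apply mul_nonpos_of_nonpos_of_nonneg _ (sg_pos x hx'.1 hx'.2 n).le
        have := P_mono n hx' hu hx.2.le
        linarith
    exact hm ⟨hv.1, h⟩ ⟨hu.1, le_rfl⟩ h

theorem P_chain (n j : ℕ) (u : ℝ) (hu : u ∈ Set.Icc (0:ℝ) 4) : P n u ≤ P (n + 1 + j) 0 := by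
  have h0 : (0:ℝ) ∈ Set.Icc (0:ℝ) 4 := by constructor <;> norm_num
  have h4 : (4:ℝ) ∈ Set.Icc (0:ℝ) 4 := by constructor <;> norm_num
  induction j with
  | zero => rw [Nat.add_zero, P_junction]; exact P_mono n hu h4 hu.2
  | succ j ih =>
    rw [show n + 1 + (j + 1) = (n + 1 + j) + 1 by ring, P_junction]
    exact ih.trans (P_mono _ h0 h4 (by norm_num))

/-- support inequality, all levels -/
theorem supp (n m : ℕ) (u v : ℝ) (hu : u ∈ Set.Icc (0:ℝ) 4) (hv : v ∈ Set.Icc (0:ℝ) 4) :
    S (n + 1) u - P n u * S n u ≤ S (m + 1) v - P n u * S m v := by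
  have h0 : (0:ℝ) ∈ Set.Icc (0:ℝ) 4 := by constructor <;> norm_num
  have h4 : (4:ℝ) ∈ Set.Icc (0:ℝ) 4 := by constructor <;> norm_num
  rcases le_or_gt n m with h | h
  · obtain ⟨j, rfl⟩ := Nat.exists_eq_add_of_le h
    clear h
    induction j generalizing v with
    | zero => exact supp_same n u v hu hv
    | succ j ih =>
      have h1 := ih 4 h4
      have h2 := supp_same (n + (j + 1)) 0 v h0 hv
      have h3 : P n u ≤ P (n + (j + 1)) 0 := by
        have := P_chain n j u hu
        rwa [show n + 1 + j = n + (j + 1) by ring] at this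
      have h5 := S_mono (n + (j + 1)) h0 hv hv.1
      have h6 := mul_le_mul_of_nonneg_right h3 (sub_nonneg.mpr h5)
      have e1 : S (n + (j + 1) + 1) 0 = S (n + j + 1) 4 := S_junction (n + j + 1)
      have e2 : S (n + (j + 1)) 0 = S (n + j) 4 := S_junction (n + j)
      rw [e1, e2] at h2
      rw [e2] at h6
      linarith
  · obtain ⟨j, rfl⟩ := Nat.exists_eq_add_of_lt h
    clear h
    induction j generalizing m v with
    | zero =>
      have h1 := supp_same (m + 0 + 1) u 0 hu h0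
      have h2 := supp_same m 4 v h4 hv
      have h3 : P m 4 ≤ P (m + 0 + 1) u := by
        rw [← P_junction]; exact P_mono _ h0 hu hu.1
      have h5 := S_mono m hv h4 hv.2
      have h6 := mul_le_mul_of_nonneg_right h3 (sub_nonneg.mpr h5)
      have e1 : S (m + 0 + 1 + 1) 0 = S (m + 1) 4 := S_junction (m + 1)
      have e2 : S (m + 0 + 1) 0 = S m 4 := S_junction m
      rw [e1, e2] at h1
      linarith
    | succ j ih =>
      have h1 : S (m + 1 + j + 1 + 1) u - P (m + 1 + j + 1) u * S (m + 1 + j + 1) u ≤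
          S (m + 1 + 1) 0 - P (m + 1 + j + 1) u * S (m + 1) 0 := ih (m + 1) 0 h0
      rw [show m + 1 + j + 1 = m + (j + 1) + 1 by ring] at h1
      have h2 := supp_same m 4 v h4 hv
      have h3 : P m 4 ≤ P (m + (j + 1) + 1) u := by
        have g1 := P_chain m (j + 1) 4 h4
        rw [show m + 1 + (j + 1) = m + (j + 1) + 1 by ring] at g1
        exact g1.trans (P_mono _ h0 hu hu.1)
      have h5 := S_mono m hv h4 hv.2
      have h6 := mul_le_mul_of_nonneg_right h3 (sub_nonneg.mpr h5)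
      have e1 : S (m + 1 + 1) 0 = S (m + 1) 4 := S_junction (m + 1)
      have e2 : S (m + 1) 0 = S m 4 := S_junction m
      rw [e1, e2] at h1
      linarith

end Pool.Agent.Helper82
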