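import Pool.Agent.Helper82.BorsukUlam

set_option autoImplicit false

namespace Pool.Agent.Helper82.Hf

open MeasureTheory Set Filter Topology Metric

/-- Euclidean space -/
abbrev E (d : ℕ) := EuclideanSpace ℝ (Fin d)

/-- an odd positively homogeneous continuous self map of `ℝ^(k+1)` without nonzero zeros is onto -/
theorem onto {k : ℕ} (Φ : E (k + 1) → E (k + 1)) (hc : Continuous Φ) (hodd : ∀ x, Φ (-x) = -Φ x)
    (hom : ∀ t : ℝ, 0 < t → ∀ x, Φ (t • x) = t • Φ x) (nz : ∀ x, x ≠ 0 → Φ x ≠ 0) (w : E (k + 1)) :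
    ∃ x, Φ x = w := by
  by_cases hw : w = 0
  · refine ⟨0, ?_⟩
    have h := hodd 0
    rw [neg_zero] at h
    rw [hw]
    have h2 : (2 : ℝ) • Φ 0 = 0 := by
      rw [two_smul]
      nth_rewrite 1 [h]
      exact neg_add_cancel _
    simpa using h2
  have hfr : Module.finrank ℝ (ℝ ∙ w)ᗮ = k := by
    have h1 := Submodule.finrank_add_finrank_orthogonal (ℝ ∙ w)
    rw [finrank_span_singleton hw, finrank_euclideanSpace_fin] at h1
    omega
  let b := (stdOrthonormalBasis ℝ (ℝ ∙ w)ᗮ).reindex (finCongr hfr)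
  let f : (Fin (k + 1) → ℝ) → (Fin k → ℝ) := fun x i => inner ℝ ((b i : E (k + 1))) (Φ (WithLp.toLp 2 x))
  have hf : Continuous f := by
    refine continuous_pi fun i => ?_
    exact continuous_const.inner (hc.comp (PiLp.continuous_toLp 2 _))
  have hfo : ∀ x, f (-x) = -f x := by
    intro x
    funext i
    simp only [f, Pi.neg_apply]
    rw [WithLp.toLp_neg, hodd, inner_neg_right]
  obtain ⟨x, hxK, hx⟩ := BorsukUlam.borsuk_ulam k f hf hfo
  have hx0 : WithLp.toLp 2 x ≠ (0 : E (k + 1)) := by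
    intro h
    have : x = 0 := by
      have := congrArg (WithLp.ofLp) h
      simpa using this
    rw [this] at hxK
    simp [BorsukUlam.K] at hxK
  set y : E (k + 1) := WithLp.toLp 2 x with hy
  have hmem : Φ y ∈ (ℝ ∙ w) := by
    rw [← Submodule.orthogonal_orthogonal (ℝ ∙ w), Submodule.mem_orthogonal]
    intro u hu
    have h1 : ∀ i, inner ℝ ((b i : E (k + 1))) (Φ y) = (0 : ℝ) := fun i => congrFun hx i
    have h2 := b.sum_repr ⟨u, hu⟩
    have h3 : u = ∑ i, b.repr ⟨u, hu⟩ i • (b i : E (k + 1)) := by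
      have := congrArg (Subtype.val) h2
      rw [Submodule.coe_sum] at this
      simpa using this.symm
    rw [h3, sum_inner]
    refine Finset.sum_eq_zero fun i _ => ?_
    rw [inner_smul_left, h1]; simp
  obtain ⟨s, hs⟩ := Submodule.mem_span_singleton.mp hmem
  have hs0 : s ≠ 0 := by
    intro h
    rw [h, zero_smul] at hs
    exact nz y hx0 hs.symm
  rcases lt_or_gt_of_ne hs0 with h | h
  · refine ⟨(-s)⁻¹ • (-y), ?_⟩
    rw [hom _ (inv_pos.mpr (by linarith)), hodd, ← hs, ← smul_neg, smul_smul]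
    have h2 : (-s)⁻¹ * s = -1 := by
      rw [inv_neg, neg_mul, inv_mul_cancel₀ hs0]
    rw [h2]; simp
  · refine ⟨s⁻¹ • y, ?_⟩
    rw [hom _ (inv_pos.mpr h), ← hs, smul_smul, inv_mul_cancel₀ hs0, one_smul]

end Pool.Agent.Helper82.Hf
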