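import Pool.Agent.Helper82.Hf9

set_option autoImplicit false
set_option linter.unusedSectionVars false
set_option linter.deprecated false
set_option linter.unusedVariables false
set_option linter.unusedSimpArgs false

namespace Pool.Agent.Helper82.Hf

open MeasureTheory Set Filter Topology Metric

variable {d : ℕ} {V : E d → E d} {r : ℝ}

theorem La_cont (hV : ∀ x, ‖x‖ = 1 → ContDiffAt ℝ 1 V x) :
    Continuous fun x : sphere (0 : E d) 1 => La V x := by
  have h1 : (fun x : sphere (0 : E d) 1 => La V x) = fun x : sphere (0 : E d) 1 =>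
      (ContinuousLinearMap.id ℝ (E d) - (innerSL ℝ (x : E d)).smulRight (x : E d)) ∘L (fderiv ℝ V x) ∘L
        (ContinuousLinearMap.id ℝ (E d) - (innerSL ℝ (x : E d)).smulRight (x : E d)) := by
    funext x
    have hx : ‖(x : E d)‖ = 1 := by simp
    have h2 : (ℝ ∙ (x : E d))ᗮ.starProjection =
        ContinuousLinearMap.id ℝ (E d) - (innerSL ℝ (x : E d)).smulRight (x : E d) := by
      refine ContinuousLinearMap.ext fun u => ?_
      rw [star_apply hx]
      simp
    unfold La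
    rw [h2]
  rw [h1]
  have h3 : Continuous fun x : sphere (0 : E d) 1 => fderiv ℝ V x := by
    rw [continuous_iff_continuousAt]
    intro x
    have hx : ‖(x : E d)‖ = 1 := by simp
    exact ((hV x hx).continuousAt_fderiv (by norm_num)).comp continuousAt_subtype_val
  have h4 : Continuous fun x : sphere (0 : E d) 1 =>
      (ContinuousLinearMap.id ℝ (E d) - (innerSL ℝ (x : E d)).smulRight (x : E d)) := by
    refine continuous_const.sub ?_
    have h5 : Continuous fun p : E d × E d => (innerSL ℝ p.1).smulRight p.2 := by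
      have := (ContinuousLinearMap.smulRightL ℝ (E d) (E d)).isBoundedBilinearMap.continuous
      exact this.comp (((innerSL ℝ (E := E d)).continuous.comp continuous_fst).prodMk continuous_snd)
    exact h5.comp (continuous_subtype_val.prodMk continuous_subtype_val)
  exact h4.clm_comp (h3.clm_comp h4)

theorem dn_cont (hV : ∀ x, ‖x‖ = 1 → ContDiffAt ℝ 1 V x) :
    Continuous fun x : sphere (0 : E d) 1 => dn V x := by
  unfold dn
  apply Real.continuous_sqrt.comp
  apply ContinuousLinearMap.continuous_det.comp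
  refine continuous_const.add ?_
  exact (ContinuousLinearMap.adjoint.continuous.comp (La_cont hV)).clm_comp (La_cont hV)

theorem dn_int (hV : ∀ x, ‖x‖ = 1 → ContDiffAt ℝ 1 V x) :
    Integrable (fun x : sphere (0 : E d) 1 => dn V x) (volume : Measure (E d)).toSphere :=
  (dn_cont hV).integrable_of_hasCompactSupport (HasCompactSupport.of_compactSpace _)

theorem real_main {k : ℕ} {V : E (k + 1) → E (k + 1)} {r : ℝ} (h : UF V r) :
    Real.sqrt (1 + r ^ 2) ^ (k + 1) * (volume : Measure (E (k + 1))).toSphere.real univ ≤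
      (1 + r ^ 2) * ∫ x : sphere (0 : E (k + 1)) 1, dn V x ∂(volume : Measure (E (k + 1))).toSphere ∧
    ((1 + r ^ 2) * ∫ x : sphere (0 : E (k + 1)) 1, dn V x ∂(volume : Measure (E (k + 1))).toSphere ≤
      Real.sqrt (1 + r ^ 2) ^ (k + 1) * (volume : Measure (E (k + 1))).toSphere.real univ →
      ∀ a y : E (k + 1), a ≠ 0 → y ≠ 0 → fderiv ℝ (Vt V) y a = Vt V a) := by
  obtain ⟨m1, m2⟩ := unit_main h
  set σ := (volume : Measure (E (k + 1))).toSphere with hσ
  have e1 : ∫⁻ x : sphere (0 : E (k + 1)) 1, ENNReal.ofReal ((1 + r ^ 2) * dn V x) ∂σ =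
      ENNReal.ofReal ((1 + r ^ 2) * ∫ x : sphere (0 : E (k + 1)) 1, dn V x ∂σ) := by
    rw [← integral_const_mul, ofReal_integral_eq_lintegral_ofReal]
    · exact (dn_int h.smooth).const_mul _
    · exact Filter.Eventually.of_forall fun x => mul_nonneg (by positivity) (dn_nonneg _)
  have e2 : ENNReal.ofReal (Real.sqrt (1 + r ^ 2) ^ (k + 1)) * σ univ =
      ENNReal.ofReal (Real.sqrt (1 + r ^ 2) ^ (k + 1) * σ.real univ) := by
    rw [ENNReal.ofReal_mul (by positivity), ofReal_measureReal]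
  have e3 : 0 ≤ (1 + r ^ 2) * ∫ x : sphere (0 : E (k + 1)) 1, dn V x ∂σ :=
    mul_nonneg (by positivity) (integral_nonneg fun x => dn_nonneg _)
  have e4 : 0 ≤ Real.sqrt (1 + r ^ 2) ^ (k + 1) * σ.real univ := by positivity
  rw [e1, e2] at m1 m2
  refine ⟨(ENNReal.ofReal_le_ofReal_iff e3).mp m1, fun hh => m2 (ENNReal.ofReal_le_ofReal hh)⟩

theorem sqrt_pow (m : ℕ) (r : ℝ) : Real.sqrt (1 + r ^ 2) ^ (2 * m + 1 + 1) = (1 + r ^ 2) * (1 + r ^ 2) ^ m := by
  rw [show 2 * m + 1 + 1 = 2 * (m + 1) by ring, pow_mul, Real.sq_sqrt (by positivity), pow_succ]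
  ring

/-- linear fields -/
def Lin (V : E d → E d) (r : ℝ) : Prop :=
  ∃ J : E d →L[ℝ] E d, (∀ x, (inner ℝ x (J x) : ℝ) = 0) ∧ (∀ x, ‖J x‖ = r * ‖x‖) ∧ ∀ x, ‖x‖ = 1 → V x = J x

theorem lin_of {k : ℕ} {V : E (k + 1) → E (k + 1)} {r : ℝ} (h : UF V r)
    (hl : ∀ a y : E (k + 1), a ≠ 0 → y ≠ 0 → fderiv ℝ (Vt V) y a = Vt V a) : Lin V r := by
  set e : E (k + 1) := EuclideanSpace.single 0 1 with he
  have he0 : e ≠ 0 := by
    intro hh
    have := congrArg norm hh
    rw [he] at this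
    simp at this
  have h1 : ∀ x, fderiv ℝ (Vt V) e x = Vt V x := by
    intro x
    by_cases hx : x = 0
    · rw [hx, map_zero, Vt_zero]
    · exact hl x e hx he0
  refine ⟨fderiv ℝ (Vt V) e, fun x => ?_, fun x => ?_, fun x hx => ?_⟩
  · rw [h1]; exact Vt_tan h x
  · rw [h1]; exact Vt_norm h x
  · rw [h1, Vt_unit hx]

theorem skew {J : E d →L[ℝ] E d} (hs : ∀ x, (inner ℝ x (J x) : ℝ) = 0) (x y : E d) :
    (inner ℝ x (J y) : ℝ) = - inner ℝ (J x) y := by
  have h1 := hs (x + y)
  rw [map_add, inner_add_left, inner_add_right, inner_add_right, hs, hs] at h1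
  rw [real_inner_comm y (J x)]
  linarith

theorem isom {J : E d →L[ℝ] E d} (hn : ∀ x, ‖J x‖ = r * ‖x‖) (x y : E d) :
    (inner ℝ (J x) (J y) : ℝ) = r ^ 2 * inner ℝ x y := by
  have h1 := hn (x + y)
  have h2 : ‖J (x + y)‖ ^ 2 = r ^ 2 * ‖x + y‖ ^ 2 := by rw [h1]; ring
  rw [map_add, norm_add_sq_real, norm_add_sq_real, hn, hn] at h2
  linarith

theorem lin_dn {k : ℕ} {V : E (k + 1) → E (k + 1)} {r : ℝ} (h : UF V r) (hl : Lin V r) {x : E (k + 1)}
    (hx : ‖x‖ = 1) : (1 + r ^ 2) ^ 2 * dn V x ^ 2 = (1 + r ^ 2) ^ (k + 1) := by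
  obtain ⟨J, hJs, hJn, hJ⟩ := hl
  have hVt : Vt V = fun y => J y := by
    funext y
    by_cases hy : y = 0
    · rw [hy, Vt_zero, map_zero]
    · unfold Vt
      rw [hJ _ (nrm hy), map_smul, smul_smul, mul_inv_cancel₀ (norm_ne_zero_iff.mpr hy), one_smul]
  have hder : fderiv ℝ (Vt V) x = J := by
    rw [hVt]; exact J.fderiv
  refine dn_hopf h hx ?_ ?_
  · intro u v
    rw [hder]; exact isom hJn u v
  · have h1 := Vt_deriv h hx (V x)
    rw [hder, h.tan x hx, real_inner_self_eq_norm_sq, h.len x hx, hJ x hx] at h1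
    have h2 : J (J x) = - (r ^ 2 • x) := by
      refine ext_inner_right ℝ fun v => ?_
      have h3 := skew hJs v (J x)
      rw [real_inner_comm v (J (J x)), h3, isom hJn, inner_neg_left, inner_smul_left,
        real_inner_comm v x]
      simp
    rw [h2] at h1
    rw [hJ x hx]
    have h3 : La V x (J x) = -(r ^ 2 • x) - (0:ℝ) • J x + r ^ 2 • x := by rw [h1]; module
    rw [h3]; module

/-- summary on the unit sphere -/
theorem unit_final (m : ℕ) {V : E (2 * m + 1 + 1) → E (2 * m + 1 + 1)} {r : ℝ} (h : UF V r) :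
    (1 + r ^ 2) ^ m * (volume : Measure (E (2 * m + 1 + 1))).toSphere.real univ ≤
      ∫ x : sphere (0 : E (2 * m + 1 + 1)) 1, dn V x ∂(volume : Measure (E (2 * m + 1 + 1))).toSphere ∧
    ((∫ x : sphere (0 : E (2 * m + 1 + 1)) 1, dn V x ∂(volume : Measure (E (2 * m + 1 + 1))).toSphere) =
      (1 + r ^ 2) ^ m * (volume : Measure (E (2 * m + 1 + 1))).toSphere.real univ ↔ Lin V r) := by
  obtain ⟨m1, m2⟩ := real_main h
  rw [sqrt_pow, mul_assoc] at m1 m2
  have hp : 0 < 1 + r ^ 2 := by positivity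
  refine ⟨le_of_mul_le_mul_left m1 hp, fun he => ?_, fun hl => ?_⟩
  · apply lin_of h
    apply m2
    rw [he]
  · have h1 : ∀ x : sphere (0 : E (2 * m + 1 + 1)) 1, dn V x = (1 + r ^ 2) ^ m := by
      intro x
      have h2 := lin_dn h hl (x := (x : E (2 * m + 1 + 1))) (by simp)
      have h3 : (1 + r ^ 2) ^ (2 * m + 1 + 1) = (1 + r ^ 2) ^ 2 * ((1 + r ^ 2) ^ m) ^ 2 := by
        rw [← pow_mul, ← pow_add]; congr 1; ring
      rw [h3] at h2
      have h4 := mul_left_cancel₀ (by positivity) h2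
      have h5 : 0 ≤ (1 + r ^ 2) ^ m := by positivity
      rw [← Real.sqrt_sq (dn_nonneg (V := V) (x : E (2 * m + 1 + 1))), h4, Real.sqrt_sq h5]
    rw [integral_congr_ae (Filter.Eventually.of_forall h1), integral_const, smul_eq_mul, mul_comm]

end Pool.Agent.Helper82.Hf
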