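import Pool.Agent.Helper82.Hf1

set_option autoImplicit false
set_option linter.unusedSectionVars false
set_option linter.deprecated false

namespace Pool.Agent.Helper82.Hf

open MeasureTheory Set Filter Topology Metric

variable {d : ℕ} {F : Type*} [NormedAddCommGroup F] [InnerProductSpace ℝ F] [FiniteDimensional ℝ F]
  [MeasurableSpace F] [BorelSpace F]

/-- the linear map with rows `w i` -/
noncomputable def Aw (w : Fin d → F) : F →L[ℝ] E d :=
  ∑ i, (innerSL ℝ (w i)).smulRight (EuclideanSpace.single i (1:ℝ))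

theorem Aw_apply (w : Fin d → F) (z : F) (i : Fin d) : (Aw w z) i = inner ℝ (w i) z := by
  unfold Aw
  rw [ContinuousLinearMap.sum_apply, WithLp.ofLp_sum, Finset.sum_apply, Finset.sum_eq_single i]
  · simp
  · intro j _ hj
    simp [hj.symm]
  · intro h; exact absurd (Finset.mem_univ i) h

theorem Aw_cont : Continuous (Aw : (Fin d → F) → (F →L[ℝ] E d)) := by
  unfold Aw
  refine continuous_finset_sum _ fun i _ => ?_
  have h1 : Continuous fun w : Fin d → F => innerSL ℝ (w i) :=
    (innerSL ℝ (E := F)).continuous.comp (continuous_apply i)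
  have h2 : Continuous fun c : F →L[ℝ] ℝ => c.smulRight (EuclideanSpace.single i (1:ℝ)) :=
    ((ContinuousLinearMap.smulRightL ℝ F (E d)).flip (EuclideanSpace.single i (1:ℝ))).continuous
  exact h2.comp h1

/-- odd homogeneous map, `C^1` away from the origin, of constant norm on spheres -/
structure OH (Z : E d → F) (R : ℝ) : Prop where
  hR : 0 < R
  smooth : ∀ y, y ≠ 0 → ContDiffAt ℝ 1 Z y
  odd : ∀ y, Z (-y) = -Z y
  hom : ∀ t : ℝ, 0 < t → ∀ y, Z (t • y) = t • Z y
  norm : ∀ y, ‖Z y‖ = R * ‖y‖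

variable {Z : E d → F} {R : ℝ}

theorem OH.zero (h : OH Z R) : Z 0 = 0 := by
  have := h.norm 0
  rw [norm_zero, mul_zero] at this
  exact norm_eq_zero.mp this

theorem OH.ne (h : OH Z R) {y : E d} (hy : y ≠ 0) : Z y ≠ 0 := by
  intro hh
  have := h.norm y
  rw [hh, norm_zero] at this
  have h1 := h.hR
  have h2 : 0 < ‖y‖ := norm_pos_iff.mpr hy
  have := mul_pos h1 h2
  linarith

theorem OH.diffAt (h : OH Z R) {y : E d} (hy : y ≠ 0) : HasFDerivAt Z (fderiv ℝ Z y) y :=
  ((h.smooth y hy).differentiableAt (by norm_num)).hasFDerivAt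

theorem OH.cont (h : OH Z R) : Continuous Z := by
  rw [continuous_iff_continuousAt]
  intro y
  by_cases hy : y = 0
  · rw [hy]
    unfold ContinuousAt
    rw [h.zero, tendsto_zero_iff_norm_tendsto_zero]
    have : (fun y => ‖Z y‖) = fun y => R * ‖y‖ := funext h.norm
    rw [this]
    have hc : Continuous fun y : E d => R * ‖y‖ := by fun_prop
    have := hc.tendsto 0
    simpa using this
  · exact (h.smooth y hy).continuousAt

/-- Euler's relation -/
theorem OH.euler (h : OH Z R) {y : E d} (hy : y ≠ 0) : fderiv ℝ Z y y = Z y := by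
  have h1 : HasDerivAt (fun t : ℝ => Z (t • y)) (fderiv ℝ Z y y) 1 := by
    have h2 : HasDerivAt (fun t : ℝ => t • y) y 1 := by
      simpa using (hasDerivAt_id (1:ℝ)).smul_const y
    have h3 : HasFDerivAt Z (fderiv ℝ Z y) ((1:ℝ) • y) := by rw [one_smul]; exact h.diffAt hy
    exact h3.comp_hasDerivAt (1:ℝ) h2
  have h4 : HasDerivAt (fun t : ℝ => t • Z y) (Z y) 1 := by
    simpa using (hasDerivAt_id (1:ℝ)).smul_const (Z y)
  have h5 : (fun t : ℝ => Z (t • y)) =ᶠ[𝓝 1] fun t : ℝ => t • Z y := by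
    filter_upwards [Ioi_mem_nhds (show (0:ℝ) < 1 by norm_num)] with t ht
    exact h.hom t ht y
  exact (h1.congr_of_eventuallyEq h5.symm).unique h4

/-- the derivative is homogeneous of degree zero -/
theorem OH.deriv_smul (h : OH Z R) {y : E d} (hy : y ≠ 0) {t : ℝ} (ht : 0 < t) :
    fderiv ℝ Z (t • y) = fderiv ℝ Z y := by
  have h0 : t • y ≠ 0 := smul_ne_zero ht.ne' hy
  have h1 : HasFDerivAt (fun x => Z (t • x)) ((fderiv ℝ Z (t • y)).comp (t • ContinuousLinearMap.id ℝ (E d))) y := by
    have h2 : HasFDerivAt (fun x : E d => t • x) (t • ContinuousLinearMap.id ℝ (E d)) y :=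
      (hasFDerivAt_id y).const_smul t
    exact (h.diffAt h0).comp y h2
  have h3 : HasFDerivAt (fun x => Z (t • x)) (t • fderiv ℝ Z y) y := by
    have : (fun x => Z (t • x)) = fun x => t • Z x := funext (h.hom t ht)
    rw [this]
    exact (h.diffAt hy).const_smul t
  have h4 := h1.unique h3
  ext x
  have h5 := congrArg (fun L => L x) h4
  simp only [ContinuousLinearMap.comp_apply, ContinuousLinearMap.smul_apply,
    ContinuousLinearMap.id_apply, map_smul] at h5
  exact smul_right_injective F ht.ne' h5 ▸ rfl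

theorem img_le (h : OH Z R) (w : Fin d → F) {s : Set (E d)} (hs : MeasurableSet s) (h0 : (0 : E d) ∉ s) :
    volume ((fun y => Aw w (Z y)) '' s) ≤
      ∫⁻ y in s, ENNReal.ofReal |((Aw w).comp (fderiv ℝ Z y)).det| := by
  apply addHaar_image_le_lintegral_abs_det_fderiv volume hs
  intro y hy
  have hy0 : y ≠ 0 := fun hh => h0 (hh ▸ hy)
  exact ((Aw w).hasFDerivAt.comp y (h.diffAt hy0)).hasFDerivWithinAt

/-- no zeros -/
def Good (Z : E d → F) (w : Fin d → F) : Prop := ∀ y, y ≠ 0 → Aw w (Z y) ≠ 0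

theorem surj {k : ℕ} {Z : E (k + 1) → F} (h : OH Z R) {w : Fin (k + 1) → F} (hw : Good Z w) (v : E (k + 1)) :
    ∃ y, Aw w (Z y) = v := by
  refine onto (fun y => Aw w (Z y)) ((Aw w).continuous.comp h.cont) ?_ ?_ hw v
  · intro x; rw [h.odd, map_neg]
  · intro t ht x; rw [h.hom t ht, map_smul]

/-- integrand -/
noncomputable def Jf (Z : E d → F) (w : Fin d → F) (y : E d) : ENNReal :=
  {p : (Fin d → F) × E d | ‖Aw p.1 (Z p.2)‖ < 1}.indicator
    (fun p => ENNReal.ofReal |((Aw p.1).comp (fderiv ℝ Z p.2)).det|) (w, y)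

theorem Jf_meas (h : OH Z R) : Measurable (Function.uncurry (Jf Z)) := by
  have h1 : Measurable (fun p : (Fin d → F) × E d =>
      ENNReal.ofReal |((Aw p.1).comp (fderiv ℝ Z p.2)).det|) := by
    apply ENNReal.measurable_ofReal.comp
    apply Measurable.abs
    have h2 : Measurable fun p : (Fin d → F) × E d => (Aw p.1, fderiv ℝ Z p.2) :=
      (Aw_cont.measurable.comp measurable_fst).prodMk ((measurable_fderiv ℝ Z).comp measurable_snd)
    have h3 : Continuous fun q : (F →L[ℝ] E d) × (E d →L[ℝ] F) => (q.1.comp q.2).det :=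
      ContinuousLinearMap.continuous_det.comp (continuous_fst.clm_comp continuous_snd)
    exact h3.measurable.comp h2
  have h4 : MeasurableSet {p : (Fin d → F) × E d | ‖Aw p.1 (Z p.2)‖ < 1} := by
    apply IsOpen.measurableSet
    apply isOpen_lt _ continuous_const
    apply Continuous.norm
    exact (Aw_cont.comp continuous_fst).clm_apply (h.cont.comp continuous_snd)
  exact h1.indicator h4

/-- the basic inequality -/
theorem area_le {k : ℕ} {Z : E (k + 1) → F} (h : OH Z R) {w : Fin (k + 1) → F} (hw : Good Z w) :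
    volume (ball (0 : E (k + 1)) 1) ≤ ∫⁻ y, Jf Z w y := by
  set s : Set (E (k + 1)) := {y | ‖Aw w (Z y)‖ < 1} \ {0} with hs
  have hsm : MeasurableSet s := by
    apply MeasurableSet.diff _ (measurableSet_singleton _)
    apply IsOpen.measurableSet
    exact isOpen_lt ((Aw w).continuous.comp h.cont).norm continuous_const
  have h1 : ball (0 : E (k + 1)) 1 \ {0} ⊆ (fun y => Aw w (Z y)) '' s := by
    rintro v ⟨hv, hv0⟩
    obtain ⟨y, hy⟩ := surj h hw v
    refine ⟨y, ⟨?_, ?_⟩, hy⟩
    · show ‖Aw w (Z y)‖ < 1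
      rw [hy]; simpa using hv
    · intro hy0
      rw [mem_singleton_iff] at hy0
      rw [hy0, h.zero, map_zero] at hy
      exact hv0 hy.symm
  have h2 : volume (ball (0 : E (k + 1)) 1) = volume (ball (0 : E (k + 1)) 1 \ {0}) := by
    rw [measure_sdiff_null (by simp)]
  calc volume (ball (0 : E (k + 1)) 1) = _ := h2
    _ ≤ _ := measure_mono h1
    _ ≤ _ := img_le h w hsm (by simp [hs])
    _ = ∫⁻ y in s, Jf Z w y := by
        refine setLIntegral_congr_fun hsm ?_
        intro y hy
        unfold Jf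
        rw [indicator_of_mem]
        exact hy.1
    _ ≤ _ := setLIntegral_le_lintegral _ _

end Pool.Agent.Helper82.Hf
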