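import Pool.Agent.Helper82.Hf2

set_option autoImplicit false
set_option linter.unusedSectionVars false
set_option linter.deprecated false

namespace Pool.Agent.Helper82.Hf

open MeasureTheory Set Filter Topology Metric

variable {d : ℕ} {F : Type*} [NormedAddCommGroup F] [InnerProductSpace ℝ F] [FiniteDimensional ℝ F]
  [MeasurableSpace F] [BorelSpace F]

/-- pointwise integrand for a linear map `T` and a vector `z` -/
noncomputable def gw (T : E d →L[ℝ] F) (z : F) (w : Fin d → F) : ENNReal :=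
  {w : Fin d → F | ‖Aw w z‖ < 1}.indicator (fun w => ENNReal.ofReal |((Aw w).comp T).det|) w

/-- the average over all `w` in the unit ball -/
noncomputable def Iw (T : E d →L[ℝ] F) (z : F) : ENNReal :=
  ∫⁻ w in ball (0 : Fin d → F) 1, gw T z w

theorem gw_meas (T : E d →L[ℝ] F) (z : F) : Measurable (gw T z) := by
  apply Measurable.indicator
  · apply ENNReal.measurable_ofReal.comp
    apply Measurable.abs
    exact (ContinuousLinearMap.continuous_det.comp (Aw_cont.clm_comp continuous_const)).measurable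
  · exact (isOpen_lt (Aw_cont.clm_apply continuous_const).norm continuous_const).measurableSet

theorem Aw_isom (O : F ≃ₗᵢ[ℝ] F) (w : Fin d → F) (z : F) :
    Aw (fun i => O (w i)) (O z) = Aw w z := by
  ext i
  rw [Aw_apply, Aw_apply, O.inner_map_map]

/-- diagonal action of an isometry on rows -/
noncomputable def piO (d : ℕ) (O : F ≃ₗᵢ[ℝ] F) : (Fin d → F) ≃ᵐ (Fin d → F) :=
  MeasurableEquiv.piCongrRight fun _ => O.toMeasurableEquiv

theorem piO_apply (O : F ≃ₗᵢ[ℝ] F) (w : Fin d → F) : piO d O w = fun i => O (w i) := rfl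

theorem piO_mp (O : F ≃ₗᵢ[ℝ] F) : MeasurePreserving (piO d O) volume volume :=
  volume_preserving_pi (fun _ : Fin d => O.measurePreserving)

theorem piO_ball (O : F ≃ₗᵢ[ℝ] F) : piO d O ⁻¹' (ball (0 : Fin d → F) 1) = ball 0 1 := by
  ext w
  simp only [mem_preimage, mem_ball_zero_iff, piO_apply]
  rw [pi_norm_lt_iff one_pos, pi_norm_lt_iff one_pos]
  simp

theorem Iw_isom (O : F ≃ₗᵢ[ℝ] F) (T : E d →L[ℝ] F) (z : F) :
    Iw ((O : F →L[ℝ] F).comp T) (O z) = Iw T z := by
  unfold Iw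
  rw [← (piO_mp O).setLIntegral_comp_preimage_emb (piO d O).measurableEmbedding, piO_ball]
  congr 1
  funext w
  rw [piO_apply]
  unfold gw
  have h1 : (fun i => O (w i)) ∈ {w : Fin d → F | ‖Aw w (O z)‖ < 1} ↔ w ∈ {w : Fin d → F | ‖Aw w z‖ < 1} := by
    simp only [mem_setOf_eq, Aw_isom]
  have h2 : (Aw (fun i => O (w i))).comp ((O : F →L[ℝ] F).comp T) = (Aw w).comp T := by
    ext v i
    simp only [ContinuousLinearMap.comp_apply]
    exact congrArg (fun q : E d => q i) (Aw_isom O w (T v))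
  by_cases h : w ∈ {w : Fin d → F | ‖Aw w z‖ < 1}
  · rw [indicator_of_mem (h1.mpr h), indicator_of_mem h, h2]
  · rw [indicator_of_notMem (fun hh => h (h1.mp hh)), indicator_of_notMem h]

theorem Iw_comp (T : E d →L[ℝ] F) (S : E d →L[ℝ] E d) (z : F) :
    Iw (T.comp S) z = ENNReal.ofReal |S.det| * Iw T z := by
  unfold Iw
  rw [← lintegral_const_mul _ (gw_meas T z)]
  congr 1
  funext w
  unfold gw
  by_cases h : w ∈ {w : Fin d → F | ‖Aw w z‖ < 1}
  · rw [indicator_of_mem h, indicator_of_mem h, ← ENNReal.ofReal_mul (abs_nonneg _), ← abs_mul]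
    congr 2
    rw [← ContinuousLinearMap.comp_assoc]
    simp only [ContinuousLinearMap.det, ContinuousLinearMap.toLinearMap_comp, LinearMap.det_comp]
    ring
  · rw [indicator_of_notMem h, indicator_of_notMem h, mul_zero]

/-- any two isometric embeddings are related by an isometry of the target -/
theorem exists_isom (U₁ U₂ : E d →ₗᵢ[ℝ] F) : ∃ O : F ≃ₗᵢ[ℝ] F, ∀ x, U₂ x = O (U₁ x) := by
  let L : LinearMap.range U₁.toLinearMap →ₗᵢ[ℝ] F := U₂.comp U₁.equivRange.symm.toLinearIsometry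
  let O := L.extend.toLinearIsometryEquiv rfl
  refine ⟨O, fun x => ?_⟩
  have h1 : L.extend (U₁ x) = L (U₁.equivRange x) := by
    have := L.extend_apply (U₁.equivRange x)
    exact this
  show U₂ x = L.extend (U₁ x)
  rw [h1]
  show U₂ x = U₂ (U₁.equivRange.symm (U₁.equivRange x))
  rw [LinearIsometryEquiv.symm_apply_apply]

/-- any two vectors of equal length are related by an isometry -/
theorem exists_isom_vec {x y : E d} (h : ‖x‖ = ‖y‖) : ∃ O : E d ≃ₗᵢ[ℝ] E d, O x = y :=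
  ⟨_, Submodule.reflection_sub h⟩

theorem Iw_unit {U₁ U₂ : E d →ₗᵢ[ℝ] F} {x y : E d} (h : ‖x‖ = ‖y‖) :
    Iw U₁.toContinuousLinearMap (U₁ x) = Iw U₂.toContinuousLinearMap (U₂ y) := by
  obtain ⟨S, hS⟩ := exists_isom_vec h
  let U₃ : E d →ₗᵢ[ℝ] F := U₂.comp S.toLinearIsometry
  obtain ⟨O, hO⟩ := exists_isom U₁ U₃
  have h1 : U₂ y = O (U₁ x) := by
    rw [← hO, ← hS]; rfl
  have h2 : U₃.toContinuousLinearMap = (O : F →L[ℝ] F).comp U₁.toContinuousLinearMap := by
    ext v; exact hO v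
  have h3 : U₃.toContinuousLinearMap = U₂.toContinuousLinearMap.comp (S : E d →L[ℝ] E d) := by
    ext v; rfl
  rw [h1, ← Iw_isom O, ← h2, h3, Iw_comp]
  have h4 : |(S : E d →L[ℝ] E d).det| = 1 := by
    have := LinearMap.normDet_eq_abs_det (S.toLinearIsometry.toLinearMap)
    rw [LinearIsometry.normDet_eq_one] at this
    rw [this]; rfl
  rw [h4, ENNReal.ofReal_one, one_mul]

/-- decomposition of an injective map -/
theorem exists_decomp (T : E d →L[ℝ] F) (hT : (T : E d →ₗ[ℝ] F).normDet ≠ 0) :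
    ∃ (U : E d →ₗᵢ[ℝ] F) (S : E d →L[ℝ] E d), T = U.toContinuousLinearMap.comp S ∧
      |S.det| = (T : E d →ₗ[ℝ] F).normDet := by
  obtain ⟨b⟩ := ((T : E d →ₗ[ℝ] F).normDet_ne_zero_tfae.out 0 3).mp hT
  let g : E d ≃ₗᵢ[ℝ] (LinearMap.range (T : E d →ₗ[ℝ] F)) := (stdOrthonormalBasis ℝ (E d)).equiv b (Equiv.refl _)
  let U : E d →ₗᵢ[ℝ] F := (LinearMap.range (T : E d →ₗ[ℝ] F)).subtypeₗᵢ.comp g.toLinearIsometry
  let S₀ : E d →ₗ[ℝ] E d := g.symm.toLinearIsometry.toLinearMap ∘ₗ (T : E d →ₗ[ℝ] F).rangeRestrict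
  have h1 : (T : E d →ₗ[ℝ] F) = U.toLinearMap ∘ₗ S₀ := by
    ext v
    simp [U, S₀]
  refine ⟨U, LinearMap.toContinuousLinearMap S₀, ?_, ?_⟩
  · ext v
    exact congrArg (fun q => q v) h1
  · have h2 : |(LinearMap.toContinuousLinearMap S₀).det| = S₀.normDet := by
      rw [LinearMap.normDet_eq_abs_det]; rfl
    rw [h2, h1, LinearMap.normDet_comp S₀ U.toLinearMap]
    have h3 : (U.toLinearMap.domRestrict (LinearMap.range S₀)).normDet = 1 :=
      (U.comp (LinearMap.range S₀).subtypeₗᵢ).normDet_eq_one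
    rw [h3, one_mul]

theorem Iw_eq (U₀ : E d →ₗᵢ[ℝ] F) (T : E d →L[ℝ] F) {x y : E d} (h : ‖y‖ = ‖T x‖) :
    Iw T (T x) = ENNReal.ofReal (T : E d →ₗ[ℝ] F).normDet * Iw U₀.toContinuousLinearMap (U₀ y) := by
  by_cases hT : (T : E d →ₗ[ℝ] F).normDet = 0
  · rw [hT, ENNReal.ofReal_zero, zero_mul]
    unfold Iw
    have : gw T (T x) = 0 := by
      funext w
      unfold gw
      have h1 : ((Aw w).comp T).det = 0 := by
        have h2 := ((T : E d →ₗ[ℝ] F).normDet_eq_zero_iff_ker_ne_bot).mp hT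
        rw [ContinuousLinearMap.det, LinearMap.det_eq_zero_iff_ker_ne_bot]
        intro h3
        apply h2
        rw [eq_bot_iff, ← h3]
        exact LinearMap.ker_le_ker_comp _ _
      by_cases h : w ∈ {w : Fin d → F | ‖Aw w (T x)‖ < 1}
      · rw [indicator_of_mem h, h1]; simp
      · rw [indicator_of_notMem h]; rfl
    rw [this]; simp
  · obtain ⟨U, S, hUS, hS⟩ := exists_decomp T hT
    have h1 : T x = U (S x) := by rw [hUS]; rfl
    rw [← hS]
    have h2 : ‖S x‖ = ‖y‖ := by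
      rw [h, h1, U.norm_map]
    rw [h1]
    conv_lhs => rw [hUS]
    rw [Iw_comp]
    congr 1
    exact Iw_unit h2

end Pool.Agent.Helper82.Hf
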