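import Pool.Agent.Helper82.Hf3

set_option autoImplicit false
set_option linter.unusedSectionVars false
set_option linter.deprecated false

namespace Pool.Agent.Helper82.Hf

open MeasureTheory Set Filter Topology Metric

variable {d : ℕ} {F : Type*} [NormedAddCommGroup F] [InnerProductSpace ℝ F] [FiniteDimensional ℝ F]
  [MeasurableSpace F] [BorelSpace F]

/-- polar coordinates for a product of a homogeneous and a radial function -/
theorem polar {V : Type*} [NormedAddCommGroup V] [NormedSpace ℝ V] [MeasurableSpace V] [BorelSpace V]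
    [FiniteDimensional ℝ V] (μ : Measure V) [μ.IsAddHaarMeasure] [Nontrivial V] (f g : V → ENNReal)
    (hf : Measurable f) (hg : Measurable g) (hf0 : ∀ t : ℝ, 0 < t → ∀ y, y ≠ 0 → f (t • y) = f y)
    (e : V) (he : ‖e‖ = 1) (hg0 : ∀ x y, ‖x‖ = ‖y‖ → g x = g y) :
    ∫⁻ y, f y * g y ∂μ = (∫⁻ x : sphere (0 : V) 1, f x ∂μ.toSphere) *
      ∫⁻ t : Ioi (0 : ℝ), g (t.1 • e) ∂(Measure.volumeIoiPow (Module.finrank ℝ V - 1)) := by
  have h1 : ∫⁻ y, f y * g y ∂μ = ∫⁻ y : ({(0 : V)}ᶜ : Set V), f y * g y ∂(μ.comap (↑)) := by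
    rw [lintegral_subtype_comap (measurableSet_singleton _).compl (fun y => f y * g y),
      restrict_compl_singleton]
  rw [h1]
  have h2 := μ.measurePreserving_homeomorphUnitSphereProd.lintegral_comp_emb
    (Homeomorph.measurableEmbedding _)
    (fun p : sphere (0 : V) 1 × Ioi (0 : ℝ) => f p.1 * g (p.2.1 • e))
  have h3 : ∀ y : ({(0 : V)}ᶜ : Set V), f y * g y =
      (fun p : sphere (0 : V) 1 × Ioi (0 : ℝ) => f p.1 * g (p.2.1 • e)) (homeomorphUnitSphereProd V y) := by
    intro y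
    have hy0 : (y : V) ≠ 0 := y.2
    have hn : 0 < ‖(y : V)‖ := norm_pos_iff.mpr hy0
    simp only [homeomorphUnitSphereProd_apply_fst_coe, homeomorphUnitSphereProd_apply_snd_coe]
    rw [hf0 _ (inv_pos.mpr hn) _ hy0]
    congr 1
    apply hg0
    rw [norm_smul, he, mul_one, Real.norm_eq_abs, abs_norm]
  rw [lintegral_congr h3, h2]
  rw [lintegral_prod_mul (f := fun x : sphere (0 : V) 1 => f x) (g := fun t : Ioi (0 : ℝ) => g (t.1 • e))]
  · exact (hf.comp measurable_subtype_coe).aemeasurable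
  · exact (hg.comp ((measurable_subtype_coe).smul_const e)).aemeasurable

/-- the radial weight -/
noncomputable def hw (U₀ : E d →ₗᵢ[ℝ] F) (y : E d) : ENNReal := Iw U₀.toContinuousLinearMap (U₀ y)

theorem hw_radial (U₀ : E d →ₗᵢ[ℝ] F) {x y : E d} (h : ‖x‖ = ‖y‖) : hw U₀ x = hw U₀ y :=
  Iw_unit h

/-- joint integrand for a fixed isometric embedding -/
theorem gw_joint (U₀ : E d →ₗᵢ[ℝ] F) : Measurable (Function.uncurry fun (w : Fin d → F) (y : E d) =>
    gw U₀.toContinuousLinearMap (U₀ y) w) := by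
  have h1 : Measurable (fun p : (Fin d → F) × E d =>
      ENNReal.ofReal |((Aw p.1).comp U₀.toContinuousLinearMap).det|) := by
    apply ENNReal.measurable_ofReal.comp
    apply Measurable.abs
    exact (ContinuousLinearMap.continuous_det.comp
      ((Aw_cont.comp continuous_fst).clm_comp continuous_const)).measurable
  have h4 : MeasurableSet {p : (Fin d → F) × E d | ‖Aw p.1 (U₀ p.2)‖ < 1} := by
    apply IsOpen.measurableSet
    apply isOpen_lt _ continuous_const
    apply Continuous.norm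
    exact (Aw_cont.comp continuous_fst).clm_apply (U₀.continuous.comp continuous_snd)
  exact h1.indicator h4

theorem hw_meas (U₀ : E d →ₗᵢ[ℝ] F) : Measurable (hw U₀) := by
  unfold hw Iw
  exact (gw_joint U₀).lintegral_prod_left

/-- the average for the identity map -/
theorem hw_int_le (U₀ : E d →ₗᵢ[ℝ] F) :
    ∫⁻ y, hw U₀ y ≤ volume (ball (0 : E d) 1) * volume (ball (0 : Fin d → F) 1) := by
  have h1 : ∫⁻ y, hw U₀ y = ∫⁻ w in ball (0 : Fin d → F) 1, ∫⁻ y, gw U₀.toContinuousLinearMap (U₀ y) w := by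
    unfold hw Iw
    rw [lintegral_lintegral_swap]
    exact ((gw_joint U₀).comp measurable_swap).aemeasurable
  rw [h1]
  calc ∫⁻ w in ball (0 : Fin d → F) 1, ∫⁻ y, gw U₀.toContinuousLinearMap (U₀ y) w
      ≤ ∫⁻ w in ball (0 : Fin d → F) 1, volume (ball (0 : E d) 1) := by
        apply lintegral_mono
        intro w
        show ∫⁻ y, gw U₀.toContinuousLinearMap (U₀ y) w ≤ volume (ball (0 : E d) 1)
        set L : E d →L[ℝ] E d := (Aw w).comp U₀.toContinuousLinearMap with hL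
        have h2 : ∀ y, gw U₀.toContinuousLinearMap (U₀ y) w =
            (L ⁻¹' (ball (0 : E d) 1)).indicator (fun _ => ENNReal.ofReal |L.det|) y := by
          intro y
          unfold gw
          have h3 : w ∈ {w : Fin d → F | ‖Aw w (U₀ y)‖ < 1} ↔ y ∈ L ⁻¹' (ball (0 : E d) 1) := by
            simp only [mem_setOf_eq, mem_preimage, mem_ball_zero_iff]; rfl
          by_cases h : w ∈ {w : Fin d → F | ‖Aw w (U₀ y)‖ < 1}
          · rw [indicator_of_mem (h3.mp h), indicator_of_mem h]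
          · rw [indicator_of_notMem (fun hh => h (h3.mpr hh)), indicator_of_notMem h]
        rw [lintegral_congr h2, lintegral_indicator_const (L.continuous.measurable measurableSet_ball)]
        by_cases hdet : L.det = 0
        · rw [hdet]; simp
        · rw [Measure.addHaar_preimage_continuousLinearMap volume hdet, ← mul_assoc,
            ← ENNReal.ofReal_mul (abs_nonneg _), ← abs_mul]
          have : L.det * (LinearMap.det (L : E d →ₗ[ℝ] E d))⁻¹ = 1 := mul_inv_cancel₀ hdet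
          rw [this]; simp
    _ = _ := by rw [lintegral_const]; simp

/-- average of the areas of the maps `A_w Z` -/
theorem swap_eq {Z : E d → F} {R : ℝ} (h : OH Z R) (U₀ : E d →ₗᵢ[ℝ] F) (hd : 0 < d) :
    ∫⁻ w in ball (0 : Fin d → F) 1, ∫⁻ y, Jf Z w y =
      ∫⁻ y, ENNReal.ofReal (fderiv ℝ Z y : E d →ₗ[ℝ] F).normDet * hw U₀ (R • y) := by
  rw [lintegral_lintegral_swap (Jf_meas h).aemeasurable]
  have : Nonempty (Fin d) := ⟨⟨0, hd⟩⟩
  have hae : ∀ᵐ y : E d, y ≠ 0 := by
    rw [ae_iff]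
    simp
  apply lintegral_congr_ae
  filter_upwards [hae] with y hy
  have h1 : ∫⁻ w in ball (0 : Fin d → F) 1, Jf Z w y = Iw (fderiv ℝ Z y) (fderiv ℝ Z y y) := by
    unfold Iw
    apply lintegral_congr
    intro w
    rw [h.euler hy]
    unfold Jf gw
    by_cases hh : ‖Aw w (Z y)‖ < 1
    · rw [indicator_of_mem, indicator_of_mem]
      · exact hh
      · exact hh
    · rw [indicator_of_notMem, indicator_of_notMem]
      · exact hh
      · exact hh
  rw [h1]
  apply Iw_eq
  rw [h.euler hy, h.norm, norm_smul, Real.norm_eq_abs, abs_of_pos h.hR]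

theorem normDet_eq_sqrt (T : E d →L[ℝ] F) :
    (T : E d →ₗ[ℝ] F).normDet = Real.sqrt (T.adjoint ∘L T).det := by
  have h := T.normDet_sq
  have h2 : ((T : E d →ₗ[ℝ] F).normDet) ^ 2 = (T.adjoint ∘L T).det := by
    simpa using h
  rw [← h2, Real.sqrt_sq (LinearMap.normDet_nonneg _)]

theorem normDet_cont : Continuous fun T : E d →L[ℝ] F => (T : E d →ₗ[ℝ] F).normDet := by
  have : (fun T : E d →L[ℝ] F => (T : E d →ₗ[ℝ] F).normDet) = fun T => Real.sqrt (T.adjoint ∘L T).det :=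
    funext normDet_eq_sqrt
  rw [this]
  apply Real.continuous_sqrt.comp
  apply ContinuousLinearMap.continuous_det.comp
  exact (ContinuousLinearMap.adjoint.continuous).clm_comp continuous_id

/-- the Jacobian -/
noncomputable def Ja (Z : E d → F) (y : E d) : ENNReal :=
  ENNReal.ofReal (fderiv ℝ Z y : E d →ₗ[ℝ] F).normDet

theorem Ja_meas (Z : E d → F) : Measurable (Ja Z) :=
  ENNReal.measurable_ofReal.comp (normDet_cont.measurable.comp (measurable_fderiv ℝ Z))

theorem scale {Z : E d → F} {R : ℝ} (h : OH Z R) (U₀ : E d →ₗᵢ[ℝ] F) (hd : 0 < d) :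
    ∫⁻ y, Ja Z y * hw U₀ (R • y) =
      ENNReal.ofReal (R ^ d)⁻¹ * ∫⁻ y, Ja Z y * hw U₀ y := by
  have : Nonempty (Fin d) := ⟨⟨0, hd⟩⟩
  have hae : ∀ᵐ y : E d, y ≠ 0 := by
    rw [ae_iff]
    simp
  have h1 : ∫⁻ y, Ja Z y * hw U₀ (R • y) = ∫⁻ y, (fun y => Ja Z y * hw U₀ y) (R • y) := by
    apply lintegral_congr_ae
    filter_upwards [hae] with y hy
    show _ = Ja Z (R • y) * hw U₀ (R • y)
    unfold Ja
    rw [h.deriv_smul hy h.hR]
  have hm : Measurable fun y => Ja Z y * hw U₀ y := (Ja_meas Z).mul (hw_meas U₀)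
  rw [h1, ← lintegral_map hm (measurable_const_smul R), Measure.map_addHaar_smul volume h.hR.ne',
    lintegral_smul_measure, finrank_euclideanSpace_fin, abs_of_pos (inv_pos.mpr (pow_pos h.hR d))]
  rfl

/-- conclusion of the averaging argument -/
theorem main {k : ℕ} {Z : E (k + 1) → F} {R : ℝ} (h : OH Z R)
    (hg : ∀ᵐ w : Fin (k + 1) → F, Good Z w) (U₀ : E (k + 1) →ₗᵢ[ℝ] F) :
    ENNReal.ofReal (R ^ (k + 1)) * (volume : Measure (E (k + 1))).toSphere univ ≤
      ∫⁻ x : sphere (0 : E (k + 1)) 1, Ja Z x ∂(volume : Measure (E (k + 1))).toSphere ∧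
    (∫⁻ x : sphere (0 : E (k + 1)) 1, Ja Z x ∂(volume : Measure (E (k + 1))).toSphere ≤
      ENNReal.ofReal (R ^ (k + 1)) * (volume : Measure (E (k + 1))).toSphere univ →
      ∀ᵐ w : Fin (k + 1) → F, w ∈ ball (0 : Fin (k + 1) → F) 1 →
        ∫⁻ y, Jf Z w y = volume (ball (0 : E (k + 1)) 1)) := by
  have : Nonempty (Fin (k + 1)) := ⟨0⟩
  set σ := (volume : Measure (E (k + 1))).toSphere with hσ
  set A := volume (ball (0 : E (k + 1)) 1) with hA
  set m := volume (ball (0 : Fin (k + 1) → F) 1) with hm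
  set J := ∫⁻ x : sphere (0 : E (k + 1)) 1, Ja Z x ∂σ with hJ
  set e : E (k + 1) := EuclideanSpace.single 0 1 with he
  have hen : ‖e‖ = 1 := by rw [he]; simp
  set c := ∫⁻ t : Ioi (0 : ℝ), hw U₀ (t.1 • e) ∂(Measure.volumeIoiPow (Module.finrank ℝ (E (k + 1)) - 1)) with hc
  have hσ0 : σ univ ≠ 0 := by
    rw [hσ, Measure.toSphere_apply_univ]
    apply mul_ne_zero
    · simp
    · exact (measure_ball_pos _ _ one_pos).ne'
  have hσt : σ univ ≠ ⊤ := measure_ne_top _ _
  have hA0 : A ≠ 0 := (measure_ball_pos _ _ one_pos).ne'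
  have hAt : A ≠ ⊤ := measure_ball_lt_top.ne
  have hm0 : m ≠ 0 := (measure_ball_pos _ _ one_pos).ne'
  have hmt : m ≠ ⊤ := measure_ball_lt_top.ne
  -- identity map
  have h1 : ∫⁻ y, hw U₀ y = σ univ * c := by
    have := polar (volume : Measure (E (k + 1))) (fun _ => 1) (hw U₀) measurable_const (hw_meas U₀)
      (fun _ _ _ _ => rfl) e hen (fun x y hxy => hw_radial U₀ hxy)
    rw [lintegral_one] at this
    rw [← this]
    exact lintegral_congr fun y => (one_mul _).symm
  have h2 : σ univ * c ≤ A * m := h1 ▸ hw_int_le U₀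
  -- the map Z
  have h3 : ∫⁻ w in ball (0 : Fin (k + 1) → F) 1, ∫⁻ y, Jf Z w y =
      ENNReal.ofReal (R ^ (k + 1))⁻¹ * (J * c) := by
    have h4 := polar (volume : Measure (E (k + 1))) (Ja Z) (hw U₀) (Ja_meas Z) (hw_meas U₀)
      (fun t ht y hy => by unfold Ja; rw [h.deriv_smul hy ht]) e hen (fun x y hxy => hw_radial U₀ hxy)
    rw [swap_eq h U₀ (Nat.succ_pos k)]
    show ∫⁻ y, Ja Z y * hw U₀ (R • y) = _
    rw [scale h U₀ (Nat.succ_pos k), h4]
  have hgr : ∀ᵐ w ∂(volume.restrict (ball (0 : Fin (k + 1) → F) 1)), A ≤ ∫⁻ y, Jf Z w y := by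
    filter_upwards [ae_restrict_of_ae hg] with w hw
    exact area_le h hw
  have h5 : A * m ≤ ∫⁻ w in ball (0 : Fin (k + 1) → F) 1, ∫⁻ y, Jf Z w y := by
    calc A * m = ∫⁻ w in ball (0 : Fin (k + 1) → F) 1, A := by rw [lintegral_const]; simp [hm]
      _ ≤ _ := lintegral_mono_ae hgr
  have hRd : 0 < R ^ (k + 1) := pow_pos h.hR _
  have hR1 : ENNReal.ofReal (R ^ (k + 1)) * ENNReal.ofReal (R ^ (k + 1))⁻¹ = 1 := by
    rw [← ENNReal.ofReal_mul hRd.le, mul_inv_cancel₀ hRd.ne', ENNReal.ofReal_one]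
  have hct : c ≠ ⊤ := by
    intro hh
    rw [hh, ENNReal.mul_top hσ0, top_le_iff] at h2
    exact ENNReal.mul_ne_top hAt hmt h2
  have hc0 : c ≠ 0 := by
    intro hh
    rw [h3, hh, mul_zero, mul_zero, nonpos_iff_eq_zero, mul_eq_zero] at h5
    rcases h5 with h5 | h5
    · exact hA0 h5
    · exact hm0 h5
  have h6 : ENNReal.ofReal (R ^ (k + 1)) * (A * m) ≤ J * c := by
    calc ENNReal.ofReal (R ^ (k + 1)) * (A * m)
        ≤ ENNReal.ofReal (R ^ (k + 1)) * (ENNReal.ofReal (R ^ (k + 1))⁻¹ * (J * c)) := by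
          rw [← h3]; gcongr
      _ = J * c := by rw [← mul_assoc, hR1, one_mul]
  refine ⟨?_, ?_⟩
  · have h7 : (ENNReal.ofReal (R ^ (k + 1)) * σ univ) * c ≤ J * c := by
      calc (ENNReal.ofReal (R ^ (k + 1)) * σ univ) * c = ENNReal.ofReal (R ^ (k + 1)) * (σ univ * c) := by
            ring
        _ ≤ ENNReal.ofReal (R ^ (k + 1)) * (A * m) := by gcongr
        _ ≤ J * c := h6
    exact (ENNReal.mul_le_mul_iff_left hc0 hct).mp h7
  · intro hle
    have h8 : ∫⁻ w in ball (0 : Fin (k + 1) → F) 1, ∫⁻ y, Jf Z w y ≤ A * m := by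
      rw [h3]
      calc ENNReal.ofReal (R ^ (k + 1))⁻¹ * (J * c)
          ≤ ENNReal.ofReal (R ^ (k + 1))⁻¹ * ((ENNReal.ofReal (R ^ (k + 1)) * σ univ) * c) := by gcongr
        _ = (ENNReal.ofReal (R ^ (k + 1)) * ENNReal.ofReal (R ^ (k + 1))⁻¹) * (σ univ * c) := by ring
        _ = σ univ * c := by rw [hR1, one_mul]
        _ ≤ A * m := h2
    have h9 : ∫⁻ w in ball (0 : Fin (k + 1) → F) 1, A = A * m := by rw [lintegral_const]; simp [hm]
    have hmeas : Measurable fun w : Fin (k + 1) → F => ∫⁻ y, Jf Z w y := (Jf_meas h).lintegral_prod_right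
    have h10 := ae_eq_of_ae_le_of_lintegral_le hgr (by rw [h9]; exact ENNReal.mul_ne_top hAt hmt)
      hmeas.aemeasurable (by rw [h9]; exact h8)
    rw [Filter.EventuallyEq, ae_restrict_iff' measurableSet_ball] at h10
    filter_upwards [h10] with w hw hwb
    exact (hw hwb).symm

end Pool.Agent.Helper82.Hf
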