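import Pool.Agent.Helper82.Hf4

set_option autoImplicit false
set_option linter.unusedSectionVars false
set_option linter.deprecated false

namespace Pool.Agent.Helper82.Hf

open MeasureTheory Set Filter Topology Metric

variable {d : ℕ} {F : Type*} [NormedAddCommGroup F] [InnerProductSpace ℝ F] [FiniteDimensional ℝ F]
  [MeasurableSpace F] [BorelSpace F]

/-- coordinates of the rows along `f` -/
noncomputable def cf (f : F) : (Fin d → F) →L[ℝ] E d :=
  ∑ i, ((innerSL ℝ f).comp (ContinuousLinearMap.proj i)).smulRight (EuclideanSpace.single i (1:ℝ))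

theorem cf_apply (f : F) (w : Fin d → F) (i : Fin d) : (cf f w) i = inner ℝ f (w i) := by
  unfold cf
  rw [ContinuousLinearMap.sum_apply, WithLp.ofLp_sum, Finset.sum_apply, Finset.sum_eq_single i]
  · simp
  · intro j _ hj
    simp [hj.symm]
  · intro h; exact absurd (Finset.mem_univ i) h

/-- remove the component along `f` and correct it so that the rows are orthogonal to `Z x` -/
noncomputable def Gf (Z : E d → F) (f : F) (w : Fin d → F) : Fin d → F := fun i =>
  (w i - (inner ℝ f (w i) : ℝ) • f) -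
    ((inner ℝ (w i - (inner ℝ f (w i) : ℝ) • f) (Z (cf f w)) : ℝ) / inner ℝ f (Z (cf f w))) • f

/-- domain -/
def Df (Z : E d → F) (f : F) : Set (Fin d → F) := {w | cf f w ≠ 0 ∧ inner ℝ f (Z (cf f w)) ≠ (0:ℝ)}

theorem Gf_diff {Z : E d → F} {R : ℝ} (h : OH Z R) (f : F) {w : Fin d → F} (hw : w ∈ Df Z f) :
    DifferentiableAt ℝ (Gf Z f) w := by
  have hZ : DifferentiableAt ℝ (fun w : Fin d → F => Z (cf f w)) w :=
    DifferentiableAt.comp w (h.diffAt hw.1).differentiableAt (cf f).differentiableAt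
  have hpr : ∀ i, DifferentiableAt ℝ (fun w : Fin d → F => w i) w := fun i => by fun_prop
  have hin : ∀ i, DifferentiableAt ℝ (fun w : Fin d → F => (inner ℝ f (w i) : ℝ)) w := fun i =>
    (differentiableAt_const f).inner ℝ (hpr i)
  have hs : ∀ i, DifferentiableAt ℝ (fun w : Fin d → F => w i - (inner ℝ f (w i) : ℝ) • f) w := fun i =>
    (hpr i).sub ((hin i).smul_const f)
  rw [differentiableAt_pi]
  intro i
  refine (hs i).sub (DifferentiableAt.smul_const ?_ f)
  have hden : DifferentiableAt ℝ (fun w : Fin d → F => (inner ℝ f (Z (cf f w)) : ℝ)) w :=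
    (differentiableAt_const f).inner ℝ hZ
  have hnum : DifferentiableAt ℝ (fun w : Fin d → F =>
      (inner ℝ (w i - (inner ℝ f (w i) : ℝ) • f) (Z (cf f w)) : ℝ)) w := (hs i).inner ℝ hZ
  simp only [div_eq_mul_inv]
  exact hnum.mul (hden.inv hw.2)

theorem Gf_ray {Z : E d → F} {R : ℝ} (h : OH Z R) {f : F} (hf : ‖f‖ = 1) (w : Fin d → F)
    {s : ℝ} (hs : -1 < s) : Gf Z f (w + s • (fun i => (inner ℝ f (w i) : ℝ) • f)) = Gf Z f w := by
  have hff : inner ℝ f f = (1:ℝ) := by rw [real_inner_self_eq_norm_sq, hf]; norm_num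
  set v : Fin d → F := fun i => (inner ℝ f (w i) : ℝ) • f with hv
  have h1 : cf f (w + s • v) = (1 + s) • cf f w := by
    ext i
    rw [cf_apply, PiLp.smul_apply, cf_apply]
    simp only [Pi.add_apply, Pi.smul_apply, hv, inner_add_right, inner_smul_right, hff, smul_eq_mul]
    ring
  have h2 : Z (cf f (w + s • v)) = (1 + s) • Z (cf f w) := by
    rw [h1, h.hom _ (by linarith)]
  have h3 : ∀ i, (w + s • v) i - (inner ℝ f ((w + s • v) i) : ℝ) • f = w i - (inner ℝ f (w i) : ℝ) • f := by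
    intro i
    simp only [Pi.add_apply, Pi.smul_apply, hv, inner_add_right, inner_smul_right, hff, smul_eq_mul]
    module
  have h4 : (1 + s) ≠ 0 := by linarith
  funext i
  unfold Gf
  rw [h3, h2]
  congr 2
  rw [inner_smul_right, inner_smul_right, mul_div_mul_left _ _ h4]

theorem Gf_det {Z : E d → F} {R : ℝ} (h : OH Z R) {f : F} (hf : ‖f‖ = 1) {w : Fin d → F}
    (hw : w ∈ Df Z f) : (fderiv ℝ (Gf Z f) w).det = 0 := by
  set v : Fin d → F := fun i => (inner ℝ f (w i) : ℝ) • f with hv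
  have hd := (Gf_diff h f hw).hasFDerivAt
  have h1 : HasDerivAt (fun s : ℝ => Gf Z f (w + s • v)) (fderiv ℝ (Gf Z f) w v) 0 := by
    have h2 : HasDerivAt (fun s : ℝ => w + s • v) v 0 := by
      simpa using ((hasDerivAt_id (0:ℝ)).smul_const v).const_add w
    have h3 : HasFDerivAt (Gf Z f) (fderiv ℝ (Gf Z f) w) (w + (0:ℝ) • v) := by
      rw [zero_smul, add_zero]; exact hd
    exact h3.comp_hasDerivAt (0:ℝ) h2
  have h4 : HasDerivAt (fun _ : ℝ => Gf Z f w) 0 0 := hasDerivAt_const _ _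
  have h5 : (fun s : ℝ => Gf Z f (w + s • v)) =ᶠ[𝓝 0] fun _ => Gf Z f w := by
    filter_upwards [Ioi_mem_nhds (show (-1:ℝ) < 0 by norm_num)] with s hs
    exact Gf_ray h hf w hs
  have h6 : fderiv ℝ (Gf Z f) w v = 0 := (h1.congr_of_eventuallyEq h5.symm).unique h4
  have hv0 : v ≠ 0 := by
    intro hh
    apply hw.1
    ext i
    have := congrFun hh i
    rw [cf_apply]
    simp only [hv, Pi.zero_apply, smul_eq_zero] at this
    rcases this with h | h
    · rw [h]; rfl
    · rw [h, norm_zero] at hf; norm_num at hf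
  rw [ContinuousLinearMap.det, LinearMap.det_eq_zero_iff_ker_ne_bot]
  intro hk
  have : v ∈ LinearMap.ker (fderiv ℝ (Gf Z f) w : (Fin d → F) →ₗ[ℝ] (Fin d → F)) := h6
  rw [hk] at this
  exact hv0 this

theorem Gf_null {Z : E d → F} {R : ℝ} (h : OH Z R) {f : F} (hf : ‖f‖ = 1) :
    (volume : Measure (Fin d → F)) (Gf Z f '' (Df Z f)) = 0 :=
  addHaar_image_eq_zero_of_det_fderivWithin_eq_zero volume
    (fun w hw => (Gf_diff h f hw).hasFDerivAt.hasFDerivWithinAt) (fun _ hw => Gf_det h hf hw)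

theorem bad_sub {Z : E d → F} {R : ℝ} (h : OH Z R) {ι : Type*} [Fintype ι] (b : OrthonormalBasis ι ℝ F) :
    {w : Fin d → F | ¬ Good Z w} ⊆ ⋃ j, Gf Z (b j) '' (Df Z (b j)) := by
  intro w hw
  simp only [Good, mem_setOf_eq, not_forall, not_not] at hw
  obtain ⟨y, hy, hwy⟩ := hw
  have hz : Z y ≠ 0 := h.ne hy
  obtain ⟨j, hj⟩ : ∃ j, inner ℝ (b j) (Z y) ≠ (0:ℝ) := by
    by_contra hcon
    push Not at hcon
    apply hz
    rw [← b.sum_repr' (Z y)]
    exact Finset.sum_eq_zero fun i _ => by rw [hcon i, zero_smul]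
  set f := b j with hf
  have hff : inner ℝ f f = (1:ℝ) := by rw [real_inner_self_eq_norm_sq, b.orthonormal.1 j]; norm_num
  rw [mem_iUnion]
  refine ⟨j, ?_⟩
  have h0 : ∀ i, inner ℝ (w i) (Z y) = (0:ℝ) := by
    intro i
    rw [← Aw_apply, hwy]; rfl
  set w' : Fin d → F := fun i => (w i - (inner ℝ f (w i) : ℝ) • f) + (y i) • f with hw'
  have h1 : ∀ i, inner ℝ f (w' i) = y i := by
    intro i
    simp only [hw', inner_add_right, inner_sub_right, inner_smul_right, hff]
    ring
  have h2 : cf f w' = y := by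
    ext i
    rw [cf_apply, h1]
  refine ⟨w', ⟨?_, ?_⟩, ?_⟩
  · rw [h2]; exact hy
  · rw [h2]; exact hj
  · funext i
    unfold Gf
    rw [h2, h1]
    have h3 : w' i - y i • f = w i - (inner ℝ f (w i) : ℝ) • f := by
      simp only [hw']; module
    rw [h3]
    have h4 : (inner ℝ (w i - (inner ℝ f (w i) : ℝ) • f) (Z y) : ℝ) / inner ℝ f (Z y) = - inner ℝ f (w i) := by
      rw [inner_sub_left, h0, inner_smul_left]
      field_simp
      simp [mul_comm]
    rw [h4]
    module

/-- almost every matrix is good -/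
theorem good_ae {Z : E d → F} {R : ℝ} (h : OH Z R) : ∀ᵐ w : Fin d → F, Good Z w := by
  rw [ae_iff]
  refine measure_mono_null (bad_sub h (stdOrthonormalBasis ℝ F)) ?_
  rw [measure_iUnion_null_iff]
  intro j
  exact Gf_null h ((stdOrthonormalBasis ℝ F).orthonormal.1 j)

end Pool.Agent.Helper82.Hf
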