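import Pool.Agent.Helper82.Hf5

set_option autoImplicit false
set_option linter.unusedSectionVars false
set_option linter.deprecated false
set_option linter.unusedVariables false
set_option linter.unusedSimpArgs false

namespace Pool.Agent.Helper82.Hf

open MeasureTheory Set Filter Topology Metric

variable {d : ℕ} {F : Type*} [NormedAddCommGroup F] [InnerProductSpace ℝ F] [FiniteDimensional ℝ F]
  [MeasurableSpace F] [BorelSpace F]

theorem Aw_add (w w' : Fin d → F) : Aw (w + w') = Aw w + Aw w' := by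
  ext z i
  simp only [ContinuousLinearMap.add_apply, PiLp.add_apply, Aw_apply, Pi.add_apply, inner_add_left]

theorem Aw_smul (t : ℝ) (w : Fin d → F) : Aw (t • w) = t • Aw w := by
  ext z i
  simp only [ContinuousLinearMap.smul_apply, PiLp.smul_apply, Aw_apply, Pi.smul_apply, inner_smul_left]
  simp

/-- `Aw` as a continuous linear map -/
noncomputable def AwL :
    (Fin d → F) →L[ℝ] (F →L[ℝ] E d) where
  toFun := Aw
  map_add' := Aw_add
  map_smul' := Aw_smul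
  cont := Aw_cont

theorem AwL_apply (w : Fin d → F) : AwL w = Aw w := rfl

theorem inj_ae (T : E d →L[ℝ] F) (hT : Function.Injective T) :
    ∀ᵐ w : Fin d → F, ∀ y, y ≠ 0 → Aw w (T y) ≠ 0 := by
  have h0 : (T : E d →ₗ[ℝ] F).normDet ≠ 0 :=
    ((T : E d →ₗ[ℝ] F).normDet_ne_zero_tfae.out 0 4).mpr hT
  obtain ⟨U, S, hUS, hS⟩ := exists_decomp T h0
  have hOH : OH (U : E d → F) 1 := by
    refine ⟨one_pos, fun y _ => ?_, fun y => map_neg U y, fun t _ y => ?_, fun y => ?_⟩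
    · exact (U.contDiff).contDiffAt
    · exact U.map_smul t y
    · rw [U.norm_map, one_mul]
  filter_upwards [good_ae hOH] with w hw y hy
  have h1 : T y = U (S y) := by rw [hUS]; rfl
  rw [h1]
  apply hw
  intro h2
  rw [h2, map_zero] at h1
  exact hy (hT (h1.trans (map_zero T).symm))

/-- projection onto the orthogonal complement of `a` -/
noncomputable def pr (a : F) : F →L[ℝ] F :=
  ContinuousLinearMap.id ℝ F - ((‖a‖ ^ 2)⁻¹ • innerSL ℝ a).smulRight a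

theorem pr_apply (a z : F) : pr a z = z - ((‖a‖ ^ 2)⁻¹ * inner ℝ a z) • a := by
  simp [pr]

theorem pr_self (a : F) : pr a a = 0 := by
  rw [pr_apply]
  by_cases ha : a = 0
  · rw [ha]; simp
  · have : ‖a‖ ≠ 0 := norm_ne_zero_iff.mpr ha
    rw [real_inner_self_eq_norm_sq, inv_mul_cancel₀ (pow_ne_zero 2 this), one_smul, sub_self]

theorem pr_symm (a w z : F) : inner ℝ (pr a w) z = inner ℝ w (pr a z) := by
  rw [pr_apply, pr_apply, inner_sub_left, inner_sub_right, inner_smul_left, inner_smul_right]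
  simp only [conj_trivial]
  rw [real_inner_comm a w]
  ring

theorem Aw_pr (a : F) (w : Fin d → F) (z : F) : Aw (fun i => pr a (w i)) z = Aw w (pr a z) := by
  ext i
  rw [Aw_apply, Aw_apply, pr_symm]

theorem pr_comp_inj (T : E d →L[ℝ] F) (hT : Function.Injective T) {a : F} (ha : ∀ v, T v ≠ a) :
    Function.Injective ((pr a).comp T) := by
  rw [injective_iff_map_eq_zero]
  intro v hv
  rw [ContinuousLinearMap.comp_apply, pr_apply, sub_eq_zero] at hv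
  set c : ℝ := (‖a‖ ^ 2)⁻¹ * inner ℝ a (T v) with hc
  by_cases h : c = 0
  · rw [h, zero_smul] at hv
    exact hT (hv.trans (map_zero T).symm)
  · exfalso
    apply ha (c⁻¹ • v)
    rw [map_smul, hv, smul_smul, inv_mul_cancel₀ h, one_smul]

theorem exists_w0 {T₁ T₂ : E d →L[ℝ] F} (h1 : Function.Injective T₁) (h2 : Function.Injective T₂)
    {z₁ z₂ : F} (hz1 : ∀ v, T₁ v ≠ z₁ - z₂) (hz2 : ∀ v, T₂ v ≠ z₁ - z₂) :
    ∃ w : Fin d → F, Aw w z₁ = Aw w z₂ ∧ (∀ y, y ≠ 0 → Aw w (T₁ y) ≠ 0) ∧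
      (∀ y, y ≠ 0 → Aw w (T₂ y) ≠ 0) ∧ ‖w‖ < 1 ∧ ‖Aw w z₁‖ < 1 := by
  set a := z₁ - z₂ with ha
  obtain ⟨w, hw1, hw2⟩ := ((inj_ae _ (pr_comp_inj T₁ h1 hz1)).and (inj_ae _ (pr_comp_inj T₂ h2 hz2))).exists
  set u : Fin d → F := fun i => pr a (w i) with hu
  set c : ℝ := (1 + ‖u‖ + ‖Aw u z₁‖)⁻¹ with hc
  have hpos : 0 < 1 + ‖u‖ + ‖Aw u z₁‖ := by positivity
  have hc0 : 0 < c := inv_pos.mpr hpos
  refine ⟨c • u, ?_, ?_, ?_, ?_, ?_⟩
  · rw [Aw_smul]
    simp only [ContinuousLinearMap.smul_apply]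
    congr 1
    rw [← sub_eq_zero, ← map_sub, Aw_pr, ← ha, pr_self, map_zero]
  · intro y hy
    rw [Aw_smul, ContinuousLinearMap.smul_apply, Aw_pr]
    exact smul_ne_zero hc0.ne' (hw1 y hy)
  · intro y hy
    rw [Aw_smul, ContinuousLinearMap.smul_apply, Aw_pr]
    exact smul_ne_zero hc0.ne' (hw2 y hy)
  · rw [norm_smul, Real.norm_eq_abs, abs_of_pos hc0, hc, inv_mul_lt_one₀ hpos]
    have := norm_nonneg (Aw u z₁)
    linarith
  · rw [Aw_smul, ContinuousLinearMap.smul_apply, norm_smul, Real.norm_eq_abs, abs_of_pos hc0, hc,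
      inv_mul_lt_one₀ hpos]
    have := norm_nonneg u
    linarith

theorem local_open {Z : E d → F} {R : ℝ} (h : OH Z R) {w₀ : Fin d → F} {y₀ : E d} (hy : y₀ ≠ 0)
    (hinj : ∀ y, y ≠ 0 → Aw w₀ (fderiv ℝ Z y₀ y) ≠ 0) :
    map (fun p : (Fin d → F) × E d => (p.1, Aw p.1 (Z p.2))) (𝓝 (w₀, y₀)) = 𝓝 (w₀, Aw w₀ (Z y₀)) := by
  have hZ : HasStrictFDerivAt Z (fderiv ℝ Z y₀) y₀ := (h.smooth y₀ hy).hasStrictFDerivAt (by norm_num)
  have h1 : HasStrictFDerivAt (fun p : (Fin d → F) × E d => Z p.2)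
      ((fderiv ℝ Z y₀).comp (ContinuousLinearMap.snd ℝ _ _)) (w₀, y₀) :=
    HasStrictFDerivAt.comp (w₀, y₀) hZ hasStrictFDerivAt_snd
  have h2 : HasStrictFDerivAt (fun p : (Fin d → F) × E d => Aw p.1)
      ((AwL (d := d) (F := F)).comp (ContinuousLinearMap.fst ℝ _ _)) (w₀, y₀) :=
    HasStrictFDerivAt.comp (w₀, y₀) (AwL (d := d) (F := F)).hasStrictFDerivAt hasStrictFDerivAt_fst
  have h3 := hasStrictFDerivAt_fst (𝕜 := ℝ) (E := Fin d → F) (F := E d) (p := (w₀, y₀)) |>.prodMk (h2.clm_apply h1)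
  refine h3.map_nhds_eq_of_surj ?_
  rw [LinearMap.range_eq_top]
  rintro ⟨a, b⟩
  -- surjectivity of A_{w₀} Z'
  have hs : Function.Surjective ((Aw w₀).comp (fderiv ℝ Z y₀)) := by
    have hi : Function.Injective ((Aw w₀).comp (fderiv ℝ Z y₀) : E d →ₗ[ℝ] E d) := by
      rw [injective_iff_map_eq_zero]
      intro v hv
      by_contra hne
      exact hinj v hne hv
    exact LinearMap.surjective_of_injective hi
  obtain ⟨v, hv⟩ := hs (b - Aw a (Z y₀))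
  refine ⟨(a, v), ?_⟩
  have hv' : Aw w₀ (fderiv ℝ Z y₀ v) = b - Aw a (Z y₀) := hv
  simp [AwL_apply, hv']

theorem img_le_Jf {Z : E d → F} {R : ℝ} (h : OH Z R) (w : Fin d → F) {s : Set (E d)}
    (hs : MeasurableSet s) (hsub : s ⊆ {y | ‖Aw w (Z y)‖ < 1} \ {0}) :
    volume ((fun y => Aw w (Z y)) '' s) ≤ ∫⁻ y in s, Jf Z w y := by
  refine (img_le h w hs (fun h0 => (hsub h0).2 rfl)).trans_eq ?_
  refine setLIntegral_congr_fun hs ?_
  intro y hy
  unfold Jf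
  rw [indicator_of_mem]
  exact (hsub hy).1

theorem range_dichotomy {k : ℕ} {Z : E (k + 1) → F} {R : ℝ} (h : OH Z R)
    (hinj : ∀ y, y ≠ 0 → Function.Injective (fderiv ℝ Z y))
    (hae : ∀ᵐ w : Fin (k + 1) → F, w ∈ ball (0 : Fin (k + 1) → F) 1 →
        ∫⁻ y, Jf Z w y = volume (ball (0 : E (k + 1)) 1))
    {y₁ y₂ : E (k + 1)} (hy1 : y₁ ≠ 0) (hy2 : y₂ ≠ 0) :
    (∃ v, fderiv ℝ Z y₁ v = Z y₂) ∨ (∃ v, fderiv ℝ Z y₂ v = Z y₁) := by
  by_contra hcon
  push Not at hcon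
  obtain ⟨hc1, hc2⟩ := hcon
  have hne : y₁ ≠ y₂ := by
    intro hh
    rw [← hh] at hc1
    exact hc1 y₁ (h.euler hy1)
  obtain ⟨w₀, hw0, hi1, hi2, hw1, hz1⟩ := exists_w0 (T₁ := fderiv ℝ Z y₁) (T₂ := fderiv ℝ Z y₂)
    (hinj y₁ hy1) (hinj y₂ hy2) (z₁ := Z y₁) (z₂ := Z y₂)
    (by
      intro v hv
      apply hc1 (y₁ - v)
      rw [map_sub, h.euler hy1, hv]; abel)
    (by
      intro v hv
      apply hc2 (y₂ + v)
      rw [map_add, h.euler hy2, hv]; abel)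
  obtain ⟨N₁, N₂, hN1, hN2, hm1, hm2, hdisj⟩ := t2_separation hne
  set v₀ := Aw w₀ (Z y₁) with hv0
  have key : ∀ {y : E (k + 1)} {N : Set (E (k + 1))}, y ≠ 0 → (∀ u, u ≠ 0 → Aw w₀ (fderiv ℝ Z y u) ≠ 0) →
      IsOpen N → y ∈ N → Aw w₀ (Z y) = v₀ →
      {p : (Fin (k + 1) → F) × E (k + 1) | ∃ x ∈ N, Aw p.1 (Z x) = p.2} ∈ 𝓝 (w₀, v₀) := by
    intro y N hy hi hN hyN hyv
    rw [← hyv, ← local_open h hy hi]
    have h1 : (univ : Set (Fin (k + 1) → F)) ×ˢ N ∈ 𝓝 (w₀, y) :=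
      prod_mem_nhds univ_mem (hN.mem_nhds hyN)
    refine mem_of_superset (image_mem_map h1) ?_
    rintro _ ⟨⟨a, b⟩, ⟨_, hb⟩, rfl⟩
    exact ⟨b, hb, rfl⟩
  have k1 := key hy1 hi1 hN1 hm1 rfl
  have k2 := key hy2 hi2 hN2 hm2 hw0.symm
  obtain ⟨W, O, hW, hwW, hO, hvO, hsub⟩ := mem_nhds_prod_iff'.mp (inter_mem k1 k2)
  -- choose a good w
  have hWb : IsOpen (W ∩ ball (0 : Fin (k + 1) → F) 1) := hW.inter isOpen_ball
  have hWne : (W ∩ ball (0 : Fin (k + 1) → F) 1).Nonempty := ⟨w₀, hwW, by simpa using hw1⟩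
  have hfr : ∃ᶠ w in ae (volume : Measure (Fin (k + 1) → F)), w ∈ W ∩ ball (0 : Fin (k + 1) → F) 1 :=
    frequently_ae_mem_iff.mpr (hWb.measure_pos volume hWne).ne'
  obtain ⟨w, ⟨hwW', hwb⟩, hwJ, hwg⟩ := (hfr.and_eventually (hae.and (good_ae h))).exists
  have hJ := hwJ hwb
  set Φ : E (k + 1) → E (k + 1) := fun y => Aw w (Z y) with hΦ
  have hΦc : Continuous Φ := (Aw w).continuous.comp h.cont
  set s : Set (E (k + 1)) := {y | ‖Φ y‖ < 1} \ {0} with hs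
  have hsm : MeasurableSet s := by
    apply MeasurableSet.diff _ (measurableSet_singleton _)
    exact (isOpen_lt hΦc.norm continuous_const).measurableSet
  set P1 : Set (E (k + 1)) := s ∩ (N₁ ∩ Φ ⁻¹' O) with hP1
  have hP1m : MeasurableSet P1 := hsm.inter (hN1.inter (hO.preimage hΦc)).measurableSet
  have hP2m : MeasurableSet (s \ P1) := hsm.diff hP1m
  have i1 : (O ∩ ball 0 1) \ {0} ⊆ Φ '' P1 := by
    rintro v ⟨⟨hvO', hvb⟩, hv⟩
    obtain ⟨y, hyN, hy⟩ := (hsub (show (w, v) ∈ W ×ˢ O from ⟨hwW', hvO'⟩)).1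
    have hy' : Φ y = v := hy
    refine ⟨y, ⟨⟨?_, ?_⟩, hyN, ?_⟩, hy'⟩
    · show ‖Φ y‖ < 1
      rw [hy']; simpa using hvb
    · intro hy0
      rw [mem_singleton_iff] at hy0
      apply hv
      rw [mem_singleton_iff, ← hy', hy0]
      show Aw w (Z 0) = 0
      rw [h.zero, map_zero]
    · show Φ y ∈ O
      rw [hy']; exact hvO'
  have i2 : ball 0 1 \ {0} ⊆ Φ '' (s \ P1) := by
    rintro v ⟨hvb, hv⟩
    have h0 : ∀ y, Φ y = v → y ∈ s := by
      intro y hy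
      refine ⟨?_, ?_⟩
      · show ‖Φ y‖ < 1
        rw [hy]; simpa using hvb
      · intro hy0
        rw [mem_singleton_iff] at hy0
        apply hv
        rw [mem_singleton_iff, ← hy, hy0]
        show Aw w (Z 0) = 0
        rw [h.zero, map_zero]
    by_cases hvO' : v ∈ O
    · obtain ⟨y, hyN, hy⟩ := (hsub (show (w, v) ∈ W ×ˢ O from ⟨hwW', hvO'⟩)).2
      have hy' : Φ y = v := hy
      refine ⟨y, ⟨h0 y hy', ?_⟩, hy'⟩
      rintro ⟨_, hy1, _⟩
      exact Set.disjoint_left.mp hdisj hy1 hyN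
    · obtain ⟨y, hy⟩ := surj h hwg v
      refine ⟨y, ⟨h0 y hy, ?_⟩, hy⟩
      rintro ⟨_, _, hyO⟩
      apply hvO'
      have : Φ y ∈ O := hyO
      rwa [show Φ y = v from hy] at this
  have e1 : volume (O ∩ ball (0 : E (k + 1)) 1) ≤ ∫⁻ y in P1, Jf Z w y := by
    calc volume (O ∩ ball (0 : E (k + 1)) 1) = volume ((O ∩ ball (0 : E (k + 1)) 1) \ {0}) := by
          rw [measure_sdiff_null (by simp)]
      _ ≤ _ := (measure_mono i1).trans (img_le_Jf h w hP1m inter_subset_left)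
  have e2 : volume (ball (0 : E (k + 1)) 1) ≤ ∫⁻ y in s \ P1, Jf Z w y := by
    calc volume (ball (0 : E (k + 1)) 1) = volume (ball (0 : E (k + 1)) 1 \ {0}) := by
          rw [measure_sdiff_null (by simp)]
      _ ≤ _ := (measure_mono i2).trans (img_le_Jf h w hP2m sdiff_subset)
  have e3 : (∫⁻ y in P1, Jf Z w y) + ∫⁻ y in s \ P1, Jf Z w y ≤ ∫⁻ y, Jf Z w y := by
    rw [← lintegral_union hP2m disjoint_sdiff_right]
    exact setLIntegral_le_lintegral _ _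
  have e4 : volume (O ∩ ball (0 : E (k + 1)) 1) + volume (ball (0 : E (k + 1)) 1) ≤
      volume (ball (0 : E (k + 1)) 1) := by
    rw [← hJ]
    exact (add_le_add e1 (hJ ▸ e2)).trans e3
  have e5 : 0 < volume (O ∩ ball (0 : E (k + 1)) 1) := by
    apply (hO.inter isOpen_ball).measure_pos volume
    exact ⟨v₀, hvO, by simpa using hz1⟩
  have e6 : volume (ball (0 : E (k + 1)) 1) ≠ ⊤ := measure_ball_lt_top.ne
  have e7 : volume (ball (0 : E (k + 1)) 1) < volume (O ∩ ball (0 : E (k + 1)) 1) + volume (ball (0 : E (k + 1)) 1) := by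
    exact (ENNReal.lt_add_right e6 e5.ne').trans_eq (add_comm _ _)
  exact absurd e4 (not_le.mpr e7)

end Pool.Agent.Helper82.Hf
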