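import Pool.Agent.Helper82.Hf6

set_option autoImplicit false
set_option linter.unusedSectionVars false
set_option linter.deprecated false
set_option linter.unusedVariables false
set_option linter.unusedSimpArgs false

namespace Pool.Agent.Helper82.Hf

open MeasureTheory Set Filter Topology Metric

/-- Sylvester / Weinstein-Aronszajn identity for linear maps -/
theorem det_syl {V W : Type*} [AddCommGroup V] [Module ℝ V] [FiniteDimensional ℝ V]
    [AddCommGroup W] [Module ℝ W] [FiniteDimensional ℝ W] (A : W →ₗ[ℝ] V) (B : V →ₗ[ℝ] W) :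
    LinearMap.det (LinearMap.id + A ∘ₗ B) = LinearMap.det (LinearMap.id + B ∘ₗ A) := by
  let bV := Module.finBasis ℝ V
  let bW := Module.finBasis ℝ W
  rw [← LinearMap.det_toMatrix bV, ← LinearMap.det_toMatrix bW, map_add, map_add,
    LinearMap.toMatrix_id, LinearMap.toMatrix_id, LinearMap.toMatrix_comp bV bW bV,
    LinearMap.toMatrix_comp bW bV bW, Matrix.det_one_add_mul_comm]

variable {W : Type*} [NormedAddCommGroup W] [InnerProductSpace ℝ W] [FiniteDimensional ℝ W]

/-- the graph map -/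
noncomputable def gr (L : W →L[ℝ] W) : W →L[ℝ] WithLp 2 (W × W) :=
  ((WithLp.prodContinuousLinearEquiv 2 ℝ W W).symm : (W × W) →L[ℝ] WithLp 2 (W × W)).comp
    ((ContinuousLinearMap.id ℝ W).prod L)

theorem gr_apply (L : W →L[ℝ] W) (u : W) : gr L u = WithLp.toLp 2 (u, L u) := rfl

theorem gr_inner (L : W →L[ℝ] W) (u v : W) :
    (inner ℝ (gr L u) (gr L v) : ℝ) = inner ℝ u v + inner ℝ (L u) (L v) := by
  rw [gr_apply, gr_apply, WithLp.prod_inner_apply]

theorem gr_adj (L : W →L[ℝ] W) : (gr L).adjoint ∘L (gr L) = ContinuousLinearMap.id ℝ W + L.adjoint ∘L L := by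
  ext u
  refine ext_inner_right ℝ fun v => ?_
  rw [ContinuousLinearMap.comp_apply, ContinuousLinearMap.adjoint_inner_left, gr_inner,
    ContinuousLinearMap.add_apply, inner_add_left, ContinuousLinearMap.id_apply,
    ContinuousLinearMap.comp_apply, ContinuousLinearMap.adjoint_inner_left]

theorem gr_hasFDerivAt {f : W → W} {f' : W →L[ℝ] W} {y : W} (h : HasFDerivAt f f' y) :
    HasFDerivAt (fun y => WithLp.toLp 2 (y, f y)) (gr f') y :=
  ((WithLp.prodContinuousLinearEquiv 2 ℝ W W).symm.hasFDerivAt).comp y ((hasFDerivAt_id y).prodMk h)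

theorem gr_fderiv {f : W → W} {f' : W →L[ℝ] W} {y : W} (h : HasFDerivAt f f' y) :
    fderiv ℝ (fun y => WithLp.toLp 2 (y, f y)) y = gr f' := (gr_hasFDerivAt h).fderiv

theorem gr_contDiffAt {f : W → W} {y : W} (h : ContDiffAt ℝ 1 f y) :
    ContDiffAt ℝ 1 (fun y => WithLp.toLp 2 (y, f y)) y :=
  ((WithLp.prodContinuousLinearEquiv 2 ℝ W W).symm.contDiff.contDiffAt).comp y (contDiffAt_id.prodMk h)

theorem det_nonneg' (L : W →L[ℝ] W) : 0 ≤ (ContinuousLinearMap.id ℝ W + L.adjoint ∘L L).det := by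
  rw [← gr_adj]
  have h := (gr L).normDet_sq
  have h2 : (((gr L) : W →ₗ[ℝ] WithLp 2 (W × W)).normDet) ^ 2 = ((gr L).adjoint ∘L (gr L)).det := by
    simpa using h
  rw [← h2]
  positivity

/-- determinant of `S + r² x xᵗ + V Vᵗ` -/
theorem det_rank {S : W →L[ℝ] W} (hS : ∀ u v, (inner ℝ (S u) v : ℝ) = inner ℝ u (S v))
    (hpos : ∀ u, ‖u‖ ^ 2 ≤ (inner ℝ (S u) u : ℝ)) {x V : W} (hx : ‖x‖ = 1) (hSx : S x = x)
    (hxV : (inner ℝ x V : ℝ) = 0) {T : W →L[ℝ] W}
    (hT : ∀ u, T u = S u + (‖V‖ ^ 2 * inner ℝ x u) • x + (inner ℝ V u : ℝ) • V) :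
    ∃ b, S b = V ∧ T.det = S.det * ((1 + ‖V‖ ^ 2) * (1 + inner ℝ V b)) ∧ (inner ℝ V b : ℝ) ≤ ‖V‖ ^ 2 ∧
      (S V = V → (inner ℝ V b : ℝ) = ‖V‖ ^ 2) := by
  have hinj : Function.Injective (S : W →ₗ[ℝ] W) := by
    rw [injective_iff_map_eq_zero]
    intro u hu
    have h1 := hpos u
    rw [show S u = 0 from hu, inner_zero_left] at h1
    have : ‖u‖ = 0 := by nlinarith [norm_nonneg u]
    exact norm_eq_zero.mp this
  obtain ⟨b, hb⟩ := LinearMap.surjective_of_injective hinj V
  have hb' : S b = V := hb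
  have hxb : (inner ℝ x b : ℝ) = 0 := by
    rw [← hSx, hS, hb', hxV]
  refine ⟨b, hb', ?_, ?_, ?_⟩
  · have h1 : (T : W →ₗ[ℝ] W) = (S : W →ₗ[ℝ] W) ∘ₗ
        (LinearMap.transvection (innerₛₗ ℝ x) (‖V‖ ^ 2 • x)) ∘ₗ (LinearMap.transvection (innerₛₗ ℝ V) b) := by
      ext u
      simp only [LinearMap.comp_apply, LinearMap.transvection.apply, innerₛₗ_apply_apply,
        ContinuousLinearMap.coe_coe, inner_add_right, inner_smul_right, hxb, mul_zero, add_zero,
        map_add, map_smul, hb', hSx, hT]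
      module
    have hxx : (inner ℝ x x : ℝ) = 1 := by rw [real_inner_self_eq_norm_sq, hx]; norm_num
    show LinearMap.det (T : W →ₗ[ℝ] W) = LinearMap.det (S : W →ₗ[ℝ] W) * _
    rw [h1, LinearMap.det_comp, LinearMap.det_comp, LinearMap.transvection.det,
      LinearMap.transvection.det]
    simp only [innerₛₗ_apply_apply, inner_smul_right, hxx, mul_one]
  · have h1 := hpos b
    rw [hb'] at h1
    have h2 := real_inner_le_norm V b
    have h3 : ‖b‖ ≤ ‖V‖ := by
      by_contra hcon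
      push Not at hcon
      have := norm_nonneg V
      nlinarith
    nlinarith [norm_nonneg V, norm_nonneg b]
  · intro hV
    have : b = V := hinj (show S b = S V by rw [hb', hV])
    rw [this, real_inner_self_eq_norm_sq]

/-- comparison of the two Jacobians -/
theorem det_compare {A L : W →L[ℝ] W} {x V : W} (hx : ‖x‖ = 1) (hxV : (inner ℝ x V : ℝ) = 0)
    (hA : ∀ u, A u = L u + (inner ℝ x u : ℝ) • V - (inner ℝ V u : ℝ) • x)
    (hLx : L x = 0) (hxL : ∀ u, (inner ℝ x (L u) : ℝ) = 0) (hVL : ∀ u, (inner ℝ V (L u) : ℝ) = 0) :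
    (ContinuousLinearMap.id ℝ W + A.adjoint ∘L A).det ≤
      (1 + ‖V‖ ^ 2) ^ 2 * (ContinuousLinearMap.id ℝ W + L.adjoint ∘L L).det ∧
    (L V = 0 → (ContinuousLinearMap.id ℝ W + A.adjoint ∘L A).det =
      (1 + ‖V‖ ^ 2) ^ 2 * (ContinuousLinearMap.id ℝ W + L.adjoint ∘L L).det) := by
  set S : W →L[ℝ] W := ContinuousLinearMap.id ℝ W + L.adjoint ∘L L with hSdef
  have hSi : ∀ u v, (inner ℝ (S u) v : ℝ) = inner ℝ u v + inner ℝ (L u) (L v) := by
    intro u v
    rw [hSdef, ContinuousLinearMap.add_apply, inner_add_left, ContinuousLinearMap.id_apply,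
      ContinuousLinearMap.comp_apply, ContinuousLinearMap.adjoint_inner_left]
  have hSs : ∀ u v, (inner ℝ (S u) v : ℝ) = inner ℝ u (S v) := by
    intro u v
    rw [hSi, real_inner_comm (S v) u, hSi, real_inner_comm v u, real_inner_comm (L v) (L u)]
  have hpos : ∀ u, ‖u‖ ^ 2 ≤ (inner ℝ (S u) u : ℝ) := by
    intro u
    rw [hSi, real_inner_self_eq_norm_sq, real_inner_self_eq_norm_sq]
    nlinarith [norm_nonneg (L u)]
  have hSx : S x = x := by
    rw [hSdef, ContinuousLinearMap.add_apply, ContinuousLinearMap.comp_apply, hLx, map_zero]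
    simp
  have hVx : (inner ℝ V x : ℝ) = 0 := by rw [real_inner_comm]; exact hxV
  have hxx : (inner ℝ x x : ℝ) = 1 := by rw [real_inner_self_eq_norm_sq, hx]; norm_num
  have hLx' : ∀ u, (inner ℝ (L u) x : ℝ) = 0 := fun u => by rw [real_inner_comm]; exact hxL u
  have hLV' : ∀ u, (inner ℝ (L u) V : ℝ) = 0 := fun u => by rw [real_inner_comm]; exact hVL u
  have hT : ∀ u, (ContinuousLinearMap.id ℝ W + A.adjoint ∘L A) u =
      S u + (‖V‖ ^ 2 * inner ℝ x u) • x + (inner ℝ V u : ℝ) • V := by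
    intro u
    refine ext_inner_right ℝ fun v => ?_
    rw [ContinuousLinearMap.add_apply, inner_add_left, ContinuousLinearMap.id_apply,
      ContinuousLinearMap.comp_apply, ContinuousLinearMap.adjoint_inner_left, inner_add_left,
      inner_add_left, hSi, hA, hA]
    simp only [inner_add_left, inner_add_right, inner_sub_left, inner_sub_right, inner_smul_left,
      inner_smul_right, conj_trivial, hxV, hVx, hxx, hxL, hVL, hLx', hLV', real_inner_self_eq_norm_sq]
    ring
  obtain ⟨b, hb, hdet, hle, heq⟩ := det_rank hSs hpos hx hSx hxV hT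
  have hS0 : 0 ≤ S.det := det_nonneg' L
  refine ⟨?_, ?_⟩
  · rw [hdet]
    have h1 : (1 + ‖V‖ ^ 2) * (1 + inner ℝ V b) ≤ (1 + ‖V‖ ^ 2) ^ 2 := by
      have h2 : (1 + ‖V‖ ^ 2) ^ 2 = (1 + ‖V‖ ^ 2) * (1 + ‖V‖ ^ 2) := sq _
      rw [h2]
      apply mul_le_mul_of_nonneg_left _ (by positivity)
      linarith
    calc S.det * ((1 + ‖V‖ ^ 2) * (1 + inner ℝ V b)) ≤ S.det * (1 + ‖V‖ ^ 2) ^ 2 :=
          mul_le_mul_of_nonneg_left h1 hS0
      _ = _ := mul_comm _ _
  · intro hLV
    have hSV : S V = V := by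
      rw [hSdef, ContinuousLinearMap.add_apply, ContinuousLinearMap.comp_apply, hLV, map_zero]
      simp
    rw [hdet, heq hSV]
    ring

/-- intrinsic and ambient determinants agree -/
theorem det_compress (K : Submodule ℝ W) (D : W →L[ℝ] W) :
    (ContinuousLinearMap.id ℝ K + (K.orthogonalProjection ∘L D ∘L K.subtypeL).adjoint ∘L
      (K.orthogonalProjection ∘L D ∘L K.subtypeL)).det =
    (ContinuousLinearMap.id ℝ W + (K.starProjection ∘L D ∘L K.starProjection).adjoint ∘L
      (K.starProjection ∘L D ∘L K.starProjection)).det := by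
  set N : K →L[ℝ] K := K.orthogonalProjection ∘L D ∘L K.subtypeL with hN
  set A : K →ₗ[ℝ] W := K.subtype with hA
  set B : W →ₗ[ℝ] K := ((N.adjoint ∘L N) : K →ₗ[ℝ] K) ∘ₗ (K.orthogonalProjection : W →ₗ[ℝ] K) with hB
  have h1 : ((ContinuousLinearMap.id ℝ K + N.adjoint ∘L N : K →L[ℝ] K) : K →ₗ[ℝ] K) = LinearMap.id + B ∘ₗ A := by
    ext u
    simp [hB, hA]
  have h2 : ((ContinuousLinearMap.id ℝ W + (K.starProjection ∘L D ∘L K.starProjection).adjoint ∘L
      (K.starProjection ∘L D ∘L K.starProjection) : W →L[ℝ] W) : W →ₗ[ℝ] W) = LinearMap.id + A ∘ₗ B := by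
    ext u
    refine ext_inner_right ℝ fun v => ?_
    have e1 : ∀ z : W, (((N (K.orthogonalProjection z) : K)) : W) =
        (K.starProjection ∘L D ∘L K.starProjection) z := fun z => rfl
    have e2 : (inner ℝ ((ContinuousLinearMap.id ℝ W + (K.starProjection ∘L D ∘L K.starProjection).adjoint ∘L
      (K.starProjection ∘L D ∘L K.starProjection)) u) v : ℝ) = inner ℝ u v +
        inner ℝ ((K.starProjection ∘L D ∘L K.starProjection) u) ((K.starProjection ∘L D ∘L K.starProjection) v) := by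
      rw [ContinuousLinearMap.add_apply, inner_add_left, ContinuousLinearMap.id_apply,
        ContinuousLinearMap.comp_apply (ContinuousLinearMap.adjoint _), ContinuousLinearMap.adjoint_inner_left]
    have e3 : (inner ℝ ((N.adjoint (N (K.orthogonalProjection u)) : K) : W) v : ℝ) =
        inner ℝ (N (K.orthogonalProjection u)) (N (K.orthogonalProjection v)) := by
      rw [← ContinuousLinearMap.adjoint_inner_left, Submodule.inner_orthogonalProjection_eq_of_mem_left]
    refine e2.trans ?_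
    show _ = (inner ℝ (u + ((N.adjoint (N (K.orthogonalProjection u)) : K) : W)) v : ℝ)
    rw [inner_add_left, e3, ← e1, ← e1]
    rfl
  show LinearMap.det _ = LinearMap.det _
  rw [h1, h2, det_syl]

end Pool.Agent.Helper82.Hf
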