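import Pool.Agent.Helper82.Hf7

set_option autoImplicit false
set_option linter.unusedSectionVars false
set_option linter.deprecated false
set_option linter.unusedVariables false
set_option linter.unusedSimpArgs false

namespace Pool.Agent.Helper82.Hf

open MeasureTheory Set Filter Topology Metric

variable {d : ℕ}

/-- odd unit-sphere field of constant length -/
structure UF (V : E d → E d) (r : ℝ) : Prop where
  r0 : 0 ≤ r
  smooth : ∀ x, ‖x‖ = 1 → ContDiffAt ℝ 1 V x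
  tan : ∀ x, ‖x‖ = 1 → (inner ℝ x (V x) : ℝ) = 0
  len : ∀ x, ‖x‖ = 1 → ‖V x‖ = r
  odd : ∀ x, ‖x‖ = 1 → V (-x) = -V x

/-- homogeneous extension -/
noncomputable def Vt (V : E d → E d) (y : E d) : E d := ‖y‖ • V (‖y‖⁻¹ • y)

variable {V : E d → E d} {r : ℝ}

theorem nrm {y : E d} (hy : y ≠ 0) : ‖‖y‖⁻¹ • y‖ = 1 := by
  rw [norm_smul, norm_inv, norm_norm, inv_mul_cancel₀ (norm_ne_zero_iff.mpr hy)]

theorem Vt_zero : Vt V 0 = 0 := by unfold Vt; simp

theorem Vt_unit {x : E d} (hx : ‖x‖ = 1) : Vt V x = V x := by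
  unfold Vt; rw [hx]; simp

theorem Vt_hom {t : ℝ} (ht : 0 < t) (y : E d) : Vt V (t • y) = t • Vt V y := by
  unfold Vt
  rw [norm_smul, Real.norm_eq_abs, abs_of_pos ht, mul_inv, smul_smul,
    show t⁻¹ * ‖y‖⁻¹ * t = ‖y‖⁻¹ by field_simp, mul_smul]

theorem Vt_norm (h : UF V r) (y : E d) : ‖Vt V y‖ = r * ‖y‖ := by
  by_cases hy : y = 0
  · rw [hy, Vt_zero]; simp
  · unfold Vt
    rw [norm_smul, norm_norm, h.len _ (nrm hy), mul_comm]

theorem Vt_tan (h : UF V r) (y : E d) : (inner ℝ y (Vt V y) : ℝ) = 0 := by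
  by_cases hy : y = 0
  · rw [hy]; simp
  · have h1 := h.tan _ (nrm hy)
    unfold Vt
    rw [inner_smul_left] at h1
    rw [inner_smul_right]
    have h2 : ‖y‖ ≠ 0 := norm_ne_zero_iff.mpr hy
    have h3 : (‖y‖⁻¹ : ℝ) ≠ 0 := inv_ne_zero h2
    simp only [conj_trivial, mul_eq_zero, h3, false_or] at h1
    rw [h1, mul_zero]

theorem Vt_odd (h : UF V r) (y : E d) : Vt V (-y) = -Vt V y := by
  by_cases hy : y = 0
  · rw [hy, neg_zero, Vt_zero, neg_zero]
  · unfold Vt
    rw [norm_neg, smul_neg, h.odd _ (nrm hy), smul_neg]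

theorem Vt_smooth (h : UF V r) {y : E d} (hy : y ≠ 0) : ContDiffAt ℝ 1 (Vt V) y := by
  unfold Vt
  have h1 : ContDiffAt ℝ 1 (fun y : E d => ‖y‖) y := contDiffAt_norm ℝ hy
  have h2 : ContDiffAt ℝ 1 (fun y : E d => ‖y‖⁻¹ • y) y :=
    (h1.inv (norm_ne_zero_iff.mpr hy)).smul contDiffAt_id
  exact h1.smul (ContDiffAt.comp y (h.smooth _ (nrm hy)) h2)

/-- the map `y ↦ (y, Vt y)` -/
noncomputable def Zt (V : E d → E d) (y : E d) : WithLp 2 (E d × E d) := WithLp.toLp 2 (y, Vt V y)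

theorem Zt_OH (h : UF V r) : OH (Zt V) (Real.sqrt (1 + r ^ 2)) where
  hR := Real.sqrt_pos.mpr (by positivity)
  smooth := by
    intro y hy
    exact gr_contDiffAt (Vt_smooth h hy)
  odd := by
    intro y
    unfold Zt
    rw [Vt_odd h]; rfl
  hom := by
    intro t ht y
    unfold Zt
    rw [Vt_hom ht]; rfl
  norm := by
    intro y
    unfold Zt
    rw [WithLp.prod_norm_eq_of_L2]
    show Real.sqrt (‖y‖ ^ 2 + ‖Vt V y‖ ^ 2) = _
    rw [Vt_norm h, show ‖y‖ ^ 2 + (r * ‖y‖) ^ 2 = (1 + r ^ 2) * ‖y‖ ^ 2 by ring,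
      Real.sqrt_mul (by positivity), Real.sqrt_sq (norm_nonneg _)]

theorem Zt_fderiv (h : UF V r) {y : E d} (hy : y ≠ 0) : fderiv ℝ (Zt V) y = gr (fderiv ℝ (Vt V) y) := by
  have h1 : HasFDerivAt (Vt V) (fderiv ℝ (Vt V) y) y :=
    ((Vt_smooth h hy).differentiableAt (by norm_num)).hasFDerivAt
  exact gr_fderiv h1

/-- ambient version of the covariant derivative -/
noncomputable def La (V : E d → E d) (x : E d) : E d →L[ℝ] E d :=
  (ℝ ∙ x)ᗮ.starProjection ∘L (fderiv ℝ V x) ∘L (ℝ ∙ x)ᗮ.starProjection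

theorem star_apply {x : E d} (hx : ‖x‖ = 1) (u : E d) :
    (ℝ ∙ x)ᗮ.starProjection u = u - (inner ℝ x u : ℝ) • x := by
  rw [Submodule.starProjection_orthogonal_val, Submodule.starProjection_unit_singleton ℝ hx]

theorem Vt_deriv (h : UF V r) {x : E d} (hx : ‖x‖ = 1) (u : E d) :
    fderiv ℝ (Vt V) x u = La V x u + (inner ℝ x u : ℝ) • V x - (inner ℝ (V x) u : ℝ) • x := by
  have hx0 : x ≠ 0 := by
    intro hh; rw [hh, norm_zero] at hx; norm_num at hx
  have hxx : (inner ℝ x x : ℝ) = 1 := by rw [real_inner_self_eq_norm_sq, hx]; norm_num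
  have hVd : HasFDerivAt V (fderiv ℝ V x) x := ((h.smooth x hx).differentiableAt (by norm_num)).hasFDerivAt
  have hVtd : HasFDerivAt (Vt V) (fderiv ℝ (Vt V) x) x :=
    ((Vt_smooth h hx0).differentiableAt (by norm_num)).hasFDerivAt
  -- derivative of the norm
  have hN : HasFDerivAt (fun y : E d => ‖y‖) (innerSL ℝ x) x := by
    have h1 : HasFDerivAt (fun y : E d => ‖y‖ ^ 2) (2 • innerSL ℝ x) x := by
      exact (hasStrictFDerivAt_norm_sq x).hasFDerivAt
    have h2 : HasFDerivAt (fun y : E d => Real.sqrt (‖y‖ ^ 2)) ((1 / (2 * Real.sqrt (‖x‖ ^ 2))) • (2 • innerSL ℝ x)) x :=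
      h1.sqrt (by rw [hx]; norm_num)
    have h3 : (fun y : E d => Real.sqrt (‖y‖ ^ 2)) = fun y : E d => ‖y‖ := by
      funext y; exact Real.sqrt_sq (norm_nonneg _)
    rw [h3] at h2
    refine h2.congr_fderiv ?_
    rw [hx]
    ext v
    simp
  have hI : HasFDerivAt (fun y : E d => ‖y‖⁻¹) (-(innerSL ℝ x)) x := by
    have h1 := (hasDerivAt_inv (x := ‖x‖) (by rw [hx]; norm_num)).comp_hasFDerivAt x hN
    refine h1.congr_fderiv ?_
    rw [hx]; ext v; simp
  have hU : HasFDerivAt (fun y : E d => ‖y‖⁻¹ • y) (ContinuousLinearMap.id ℝ (E d) - (innerSL ℝ x).smulRight x) x := by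
    have h1 := hI.smul (hasFDerivAt_id x)
    refine h1.congr_fderiv ?_
    ext v
    simp [hx]
    ring
  have hVU : HasFDerivAt (fun y : E d => V (‖y‖⁻¹ • y))
      ((fderiv ℝ V x).comp (ContinuousLinearMap.id ℝ (E d) - (innerSL ℝ x).smulRight x)) x := by
    have h1 : HasFDerivAt V (fderiv ℝ V x) (‖x‖⁻¹ • x) := by rw [hx]; simpa using hVd
    exact HasFDerivAt.comp (g := V) x h1 hU
  have hall := hN.smul hVU
  have e1 := hVtd.unique hall
  have e2 : fderiv ℝ (Vt V) x u = (fderiv ℝ V x) (u - (inner ℝ x u : ℝ) • x) + (inner ℝ x u : ℝ) • V x := by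
    rw [e1]
    simp [hx]
  -- tangency
  have t1 : HasFDerivAt (fun y : E d => (inner ℝ y (Vt V y) : ℝ))
      ((fderivInnerCLM ℝ (x, Vt V x)).comp ((ContinuousLinearMap.id ℝ (E d)).prod (fderiv ℝ (Vt V) x))) x :=
    (hasFDerivAt_id x).inner ℝ hVtd
  have t2 : (fun y : E d => (inner ℝ y (Vt V y) : ℝ)) = fun _ => 0 := funext (Vt_tan h)
  rw [t2] at t1
  have t3 := t1.unique (hasFDerivAt_const (0:ℝ) x)
  have t4 : (inner ℝ x (fderiv ℝ (Vt V) x u) : ℝ) + inner ℝ u (V x) = 0 := by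
    have := congrArg (fun L => L u) t3
    simpa [fderivInnerCLM_apply, Vt_unit hx] using this
  have e3 : La V x u = fderiv ℝ V x (u - (inner ℝ x u : ℝ) • x) -
      (inner ℝ x (fderiv ℝ V x (u - (inner ℝ x u : ℝ) • x)) : ℝ) • x := by
    unfold La
    rw [ContinuousLinearMap.comp_apply, ContinuousLinearMap.comp_apply, star_apply hx, star_apply hx]
  rw [e2, inner_add_right, inner_smul_right, h.tan x hx, mul_zero, add_zero] at t4
  have t5 : (inner ℝ x (fderiv ℝ V x (u - (inner ℝ x u : ℝ) • x)) : ℝ) = - inner ℝ (V x) u := by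
    rw [real_inner_comm (V x) u] at t4
    linarith
  rw [e2, e3, t5]
  module

theorem La_x {x : E d} (hx : ‖x‖ = 1) : La V x x = 0 := by
  unfold La
  have h1 : (ℝ ∙ x)ᗮ.starProjection x = 0 := by
    rw [star_apply hx, real_inner_self_eq_norm_sq, hx]; simp
  rw [ContinuousLinearMap.comp_apply, ContinuousLinearMap.comp_apply, h1, map_zero, map_zero]

theorem x_La {x : E d} (hx : ‖x‖ = 1) (u : E d) : (inner ℝ x (La V x u) : ℝ) = 0 := by
  unfold La
  rw [ContinuousLinearMap.comp_apply, star_apply hx, inner_sub_right, inner_smul_right,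
    real_inner_self_eq_norm_sq, hx]
  ring

theorem V_La (h : UF V r) {x : E d} (hx : ‖x‖ = 1) (u : E d) : (inner ℝ (V x) (La V x u) : ℝ) = 0 := by
  have hx0 : x ≠ 0 := by
    intro hh; rw [hh, norm_zero] at hx; norm_num at hx
  have hVtd : HasFDerivAt (Vt V) (fderiv ℝ (Vt V) x) x :=
    ((Vt_smooth h hx0).differentiableAt (by norm_num)).hasFDerivAt
  have t1 : HasFDerivAt (fun y : E d => (inner ℝ (Vt V y) (Vt V y) : ℝ))
      ((fderivInnerCLM ℝ (Vt V x, Vt V x)).comp ((fderiv ℝ (Vt V) x).prod (fderiv ℝ (Vt V) x))) x :=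
    hVtd.inner ℝ hVtd
  have t2 : HasFDerivAt (fun y : E d => r ^ 2 * (inner ℝ y y : ℝ))
      (r ^ 2 • (fderivInnerCLM ℝ (x, x)).comp ((ContinuousLinearMap.id ℝ (E d)).prod (ContinuousLinearMap.id ℝ (E d)))) x :=
    ((hasFDerivAt_id x).inner ℝ (hasFDerivAt_id x)).const_mul (r ^ 2)
  have t3 : (fun y : E d => (inner ℝ (Vt V y) (Vt V y) : ℝ)) = fun y : E d => r ^ 2 * (inner ℝ y y : ℝ) := by
    funext y
    rw [real_inner_self_eq_norm_sq, real_inner_self_eq_norm_sq, Vt_norm h]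
    ring
  rw [t3] at t1
  have t4 := congrArg (fun L => L u) (t1.unique t2)
  simp only [ContinuousLinearMap.comp_apply, ContinuousLinearMap.prod_apply, fderivInnerCLM_apply,
    ContinuousLinearMap.smul_apply, ContinuousLinearMap.id_apply, smul_eq_mul, Vt_unit hx] at t4
  have hxV : (inner ℝ (V x) x : ℝ) = 0 := by rw [real_inner_comm]; exact h.tan x hx
  rw [Vt_deriv h hx] at t4
  simp only [inner_add_right, inner_sub_right, inner_smul_right, inner_add_left, inner_sub_left, inner_smul_left,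
    conj_trivial, real_inner_self_eq_norm_sq, h.len x hx, hxV, h.tan x hx] at t4
  rw [real_inner_comm (V x) (La V x u), real_inner_comm x u] at t4
  linarith

end Pool.Agent.Helper82.Hf
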