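import Pool.Agent.Helper82.Hf8

set_option autoImplicit false
set_option linter.unusedSectionVars false
set_option linter.deprecated false
set_option linter.unusedVariables false
set_option linter.unusedSimpArgs false

namespace Pool.Agent.Helper82.Hf

open MeasureTheory Set Filter Topology Metric

/-- the isometric embedding `x ↦ (x, 0)` -/
noncomputable def U0 (W : Type*) [NormedAddCommGroup W] [InnerProductSpace ℝ W] :
    W →ₗᵢ[ℝ] WithLp 2 (W × W) where
  toFun x := WithLp.toLp 2 (x, 0)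
  map_add' x y := by
    show WithLp.toLp 2 (x + y, (0:W)) = WithLp.toLp 2 (x, (0:W)) + WithLp.toLp 2 (y, (0:W))
    rw [← WithLp.toLp_add, Prod.mk_add_mk, add_zero]
  map_smul' t x := by
    show WithLp.toLp 2 (t • x, (0:W)) = t • WithLp.toLp 2 (x, (0:W))
    rw [← WithLp.toLp_smul, Prod.smul_mk, smul_zero]
  norm_map' x := by
    show ‖(WithLp.toLp 2 (x, (0:W)))‖ = ‖x‖
    rw [WithLp.prod_norm_eq_of_L2]
    simp

variable {d : ℕ} {V : E d → E d} {r : ℝ}

/-- density -/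
noncomputable def dn (V : E d → E d) (x : E d) : ℝ :=
  Real.sqrt (ContinuousLinearMap.id ℝ (E d) + (La V x).adjoint ∘L La V x).det

theorem dn_nonneg (x : E d) : 0 ≤ dn V x := Real.sqrt_nonneg _

theorem Ja_le (h : UF V r) {x : E d} (hx : ‖x‖ = 1) :
    Ja (Zt V) x ≤ ENNReal.ofReal ((1 + r ^ 2) * dn V x) := by
  have hx0 : x ≠ 0 := by
    intro hh; rw [hh, norm_zero] at hx; norm_num at hx
  unfold Ja
  apply ENNReal.ofReal_le_ofReal
  rw [normDet_eq_sqrt, Zt_fderiv h hx0, gr_adj]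
  have h1 := (det_compare (A := fderiv ℝ (Vt V) x) (L := La V x) hx (h.tan x hx) (Vt_deriv h hx)
    (La_x hx) (x_La hx) (V_La h hx)).1
  rw [h.len x hx] at h1
  calc Real.sqrt _ ≤ Real.sqrt ((1 + r ^ 2) ^ 2 * (ContinuousLinearMap.id ℝ (E d) + (La V x).adjoint ∘L La V x).det) :=
        Real.sqrt_le_sqrt h1
    _ = _ := by
        rw [Real.sqrt_mul (by positivity), Real.sqrt_sq (by positivity)]
        rfl

theorem dn_hopf (h : UF V r) {x : E d} (hx : ‖x‖ = 1)
    (hA : ∀ u v, (inner ℝ (fderiv ℝ (Vt V) x u) (fderiv ℝ (Vt V) x v) : ℝ) = r ^ 2 * inner ℝ u v)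
    (hV : La V x (V x) = 0) : (1 + r ^ 2) ^ 2 * dn V x ^ 2 = (1 + r ^ 2) ^ d := by
  have h1 := (det_compare (A := fderiv ℝ (Vt V) x) (L := La V x) hx (h.tan x hx) (Vt_deriv h hx)
    (La_x hx) (x_La hx) (V_La h hx)).2 hV
  rw [h.len x hx] at h1
  unfold dn
  rw [Real.sq_sqrt (det_nonneg' _), ← h1]
  have h2 : ContinuousLinearMap.id ℝ (E d) + (fderiv ℝ (Vt V) x).adjoint ∘L (fderiv ℝ (Vt V) x) =
      (1 + r ^ 2) • ContinuousLinearMap.id ℝ (E d) := by
    refine ContinuousLinearMap.ext fun u => ?_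
    refine ext_inner_right ℝ fun v => ?_
    rw [ContinuousLinearMap.add_apply, inner_add_left, ContinuousLinearMap.id_apply,
      ContinuousLinearMap.comp_apply, ContinuousLinearMap.adjoint_inner_left, hA,
      ContinuousLinearMap.smul_apply, inner_smul_left, ContinuousLinearMap.id_apply]
    simp only [conj_trivial]
    ring
  rw [h2]
  show LinearMap.det ((1 + r ^ 2) • (LinearMap.id : E d →ₗ[ℝ] E d)) = _
  rw [LinearMap.det_smul, LinearMap.det_id, finrank_euclideanSpace_fin, mul_one]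

/-- if the derivative condition holds for all pairs then the extension is linear -/
theorem lin_of_dich (h : UF V r)
    (hd : ∀ y₁ y₂, y₁ ≠ 0 → y₂ ≠ 0 → (fderiv ℝ (Vt V) y₁ y₂ = Vt V y₂ ∨ fderiv ℝ (Vt V) y₂ y₁ = Vt V y₁))
    {a y : E d} (ha : a ≠ 0) (hy : y ≠ 0) : fderiv ℝ (Vt V) y a = Vt V a := by
  by_contra hne
  -- Euler
  have heul : fderiv ℝ (Vt V) a a = Vt V a := by
    have h1 := (Zt_OH h).euler ha
    rw [Zt_fderiv h ha, gr_apply] at h1
    exact congrArg (fun z : WithLp 2 (E d × E d) => z.snd) h1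
  have hcont : ContinuousAt (fun y => fderiv ℝ (Vt V) y a) y := by
    have h1 : ContinuousAt (fderiv ℝ (Vt V)) y := (Vt_smooth h hy).continuousAt_fderiv (by norm_num)
    exact h1.clm_apply continuousAt_const
  have hev : ∀ᶠ z in 𝓝 y, fderiv ℝ (Vt V) z a ≠ Vt V a ∧ z ≠ 0 :=
    (hcont.eventually_ne hne).and (eventually_ne_nhds hy)
  have hev2 : ∀ᶠ z in 𝓝 y, Vt V z = fderiv ℝ (Vt V) a z := by
    filter_upwards [hev] with z hz
    rcases hd a z ha hz.2 with h1 | h1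
    · exact h1.symm
    · exact absurd h1 hz.1
  have h3 : fderiv ℝ (Vt V) y = fderiv ℝ (Vt V) a := by
    have h4 : HasFDerivAt (fun z => fderiv ℝ (Vt V) a z) (fderiv ℝ (Vt V) a) y :=
      (fderiv ℝ (Vt V) a).hasFDerivAt
    have h5 : Vt V =ᶠ[𝓝 y] fun z => fderiv ℝ (Vt V) a z := hev2
    exact (h4.congr_of_eventuallyEq h5).fderiv
  apply hne
  rw [h3, heul]

theorem unit_main {k : ℕ} {V : E (k + 1) → E (k + 1)} {r : ℝ} (h : UF V r) :
    ENNReal.ofReal (Real.sqrt (1 + r ^ 2) ^ (k + 1)) * (volume : Measure (E (k + 1))).toSphere univ ≤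
      ∫⁻ x : sphere (0 : E (k + 1)) 1, ENNReal.ofReal ((1 + r ^ 2) * dn V x)
        ∂(volume : Measure (E (k + 1))).toSphere ∧
    (∫⁻ x : sphere (0 : E (k + 1)) 1, ENNReal.ofReal ((1 + r ^ 2) * dn V x)
        ∂(volume : Measure (E (k + 1))).toSphere ≤
      ENNReal.ofReal (Real.sqrt (1 + r ^ 2) ^ (k + 1)) * (volume : Measure (E (k + 1))).toSphere univ →
      ∀ a y : E (k + 1), a ≠ 0 → y ≠ 0 → fderiv ℝ (Vt V) y a = Vt V a) := by
  have hOH := Zt_OH h
  have hgood := good_ae hOH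
  obtain ⟨m1, m2⟩ := main hOH hgood (U0 (E (k + 1)))
  have hle : ∫⁻ x : sphere (0 : E (k + 1)) 1, Ja (Zt V) x ∂(volume : Measure (E (k + 1))).toSphere ≤
      ∫⁻ x : sphere (0 : E (k + 1)) 1, ENNReal.ofReal ((1 + r ^ 2) * dn V x)
        ∂(volume : Measure (E (k + 1))).toSphere := by
    apply lintegral_mono
    intro x
    exact Ja_le h (by simp)
  refine ⟨m1.trans hle, fun hh => ?_⟩
  have hae := m2 (hle.trans hh)
  intro a y ha hy
  refine lin_of_dich h ?_ ha hy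
  intro y₁ y₂ hy1 hy2
  have hinj : ∀ y, y ≠ 0 → Function.Injective (fderiv ℝ (Zt V) y) := by
    intro y hy
    rw [Zt_fderiv h hy]
    intro u v huv
    rw [gr_apply, gr_apply] at huv
    exact congrArg (fun z : WithLp 2 (E (k + 1) × E (k + 1)) => z.fst) huv
  have key : ∀ {y₁ y₂ : E (k + 1)}, y₁ ≠ 0 → (∃ v, fderiv ℝ (Zt V) y₁ v = Zt V y₂) →
      fderiv ℝ (Vt V) y₁ y₂ = Vt V y₂ := by
    rintro y₁ y₂ hy1 ⟨v, hv⟩
    rw [Zt_fderiv h hy1, gr_apply] at hv
    have h1 : v = y₂ := congrArg (fun z : WithLp 2 (E (k + 1) × E (k + 1)) => z.fst) hv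
    have h2 : fderiv ℝ (Vt V) y₁ v = Vt V y₂ :=
      congrArg (fun z : WithLp 2 (E (k + 1) × E (k + 1)) => z.snd) hv
    rwa [h1] at h2
  rcases range_dichotomy hOH hinj hae hy1 hy2 with h1 | h1
  · exact Or.inl (key hy1 h1)
  · exact Or.inr (key hy2 h1)

end Pool.Agent.Helper82.Hf
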