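import Mathlib

set_option autoImplicit false
set_option linter.unusedSectionVars false
set_option linter.unusedVariables false
set_option linter.unusedSimpArgs false

namespace Pool.Agent.Helper82.Rig

open MeasureTheory Set Filter Topology Metric

variable {E F : Type} [NormedAddCommGroup E] [InnerProductSpace ℝ E] [FiniteDimensional ℝ E]
  [NormedAddCommGroup F] [InnerProductSpace ℝ F] [FiniteDimensional ℝ F]

/-- decomposition of an injective map -/
theorem exists_decomp (T : E →L[ℝ] F) (hT : Function.Injective T) :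
    ∃ (U : E →ₗᵢ[ℝ] F) (S : E →L[ℝ] E), T = U.toContinuousLinearMap.comp S ∧
      |S.det| = (T : E →ₗ[ℝ] F).normDet ∧ Function.Bijective S := by
  obtain ⟨b⟩ := ((T : E →ₗ[ℝ] F).normDet_ne_zero_tfae.out 4 3).mp hT
  let g : E ≃ₗᵢ[ℝ] (LinearMap.range (T : E →ₗ[ℝ] F)) := (stdOrthonormalBasis ℝ E).equiv b (Equiv.refl _)
  let U : E →ₗᵢ[ℝ] F := (LinearMap.range (T : E →ₗ[ℝ] F)).subtypeₗᵢ.comp g.toLinearIsometry
  let S₀ : E →ₗ[ℝ] E := g.symm.toLinearIsometry.toLinearMap ∘ₗ (T : E →ₗ[ℝ] F).rangeRestrict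
  have h1 : (T : E →ₗ[ℝ] F) = U.toLinearMap ∘ₗ S₀ := by
    ext v
    simp [U, S₀]
  have hT1 : T = U.toContinuousLinearMap.comp (LinearMap.toContinuousLinearMap S₀) := by
    ext v
    exact congrArg (fun q => q v) h1
  refine ⟨U, LinearMap.toContinuousLinearMap S₀, hT1, ?_, ?_⟩
  · have h2 : |(LinearMap.toContinuousLinearMap S₀).det| = S₀.normDet := by
      rw [LinearMap.normDet_eq_abs_det]; rfl
    rw [h2, h1, LinearMap.normDet_comp S₀ U.toLinearMap]
    have h3 : (U.toLinearMap.domRestrict (LinearMap.range S₀)).normDet = 1 :=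
      (U.comp (LinearMap.range S₀).subtypeₗᵢ).normDet_eq_one
    rw [h3, one_mul]
  · have hi : Function.Injective S₀ := by
      intro u v huv
      apply hT
      rw [hT1]
      exact congrArg U huv
    exact ⟨hi, LinearMap.surjective_of_injective hi⟩

theorem det_le_exp (T : E →ₗ[ℝ] E) (hT : T.IsSymmetric) (hpos : ∀ x, 0 ≤ (inner ℝ (T x) x : ℝ)) :
    LinearMap.det T ≤ Real.exp (LinearMap.trace ℝ E T - Module.finrank ℝ E) := by
  rw [hT.det_eq_prod_eigenvalues rfl, hT.trace_eq_sum_eigenvalues rfl]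
  have h1 : ∀ i, 0 ≤ hT.eigenvalues rfl i := by
    intro i
    have h2 := hpos (hT.eigenvectorBasis rfl i)
    rw [hT.apply_eigenvectorBasis] at h2
    simpa [inner_smul_left, real_inner_self_eq_norm_sq] using h2
  calc ∏ i, (hT.eigenvalues rfl i) ≤ ∏ i : Fin (Module.finrank ℝ E), Real.exp (hT.eigenvalues rfl i - 1) := by
        apply Finset.prod_le_prod (fun i _ => h1 i)
        intro i _
        have := Real.add_one_le_exp (hT.eigenvalues rfl i - 1)
        linarith
    _ = _ := by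
        rw [← Real.exp_sum, Finset.sum_sub_distrib]
        simp

/-- the norm determinant is controlled by the Hilbert-Schmidt norm -/
theorem normDet_le_exp (T : E →L[ℝ] F) {ι : Type*} [Fintype ι] (e : OrthonormalBasis ι ℝ E) :
    (T : E →ₗ[ℝ] F).normDet ≤ Real.exp (1 / 2 * ∑ i, (‖T (e i)‖ ^ 2 - 1)) := by
  have h1 := T.normDet_sq
  have h2 : ((T : E →ₗ[ℝ] F).normDet) ^ 2 = (T.adjoint ∘L T).det := by simpa using h1
  set G : E →ₗ[ℝ] E := ((T.adjoint ∘L T : E →L[ℝ] E) : E →ₗ[ℝ] E) with hG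
  have hGi : ∀ x y, (inner ℝ (G x) y : ℝ) = inner ℝ (T x) (T y) := by
    intro x y
    show (inner ℝ (T.adjoint (T x)) y : ℝ) = _
    rw [ContinuousLinearMap.adjoint_inner_left]
  have hs : G.IsSymmetric := by
    intro x y
    rw [hGi, real_inner_comm (G y) x, hGi, real_inner_comm]
  have h3 := det_le_exp G hs (fun x => by rw [hGi]; exact real_inner_self_nonneg)
  have h4 : LinearMap.trace ℝ E G = ∑ i, ‖T (e i)‖ ^ 2 := by
    rw [LinearMap.trace_eq_sum_inner G e]
    refine Finset.sum_congr rfl fun i _ => ?_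
    rw [real_inner_comm, hGi, real_inner_self_eq_norm_sq]
  have h5 : (T.adjoint ∘L T).det = LinearMap.det G := rfl
  have h6 : (Module.finrank ℝ E : ℝ) = ∑ i : ι, (1 : ℝ) := by
    rw [Module.finrank_eq_card_basis e.toBasis]; simp
  rw [h4, h6, ← Finset.sum_sub_distrib, ← h5, ← h2] at h3
  have h7 : (Real.exp (1 / 2 * ∑ i, (‖T (e i)‖ ^ 2 - 1))) ^ 2 = Real.exp (∑ i, (‖T (e i)‖ ^ 2 - 1)) := by
    rw [← Real.exp_nat_mul]
    congr 1
    push_cast
    ring
  rw [← h7] at h3
  exact (pow_le_pow_iff_left₀ (LinearMap.normDet_nonneg _) (Real.exp_pos _).le two_ne_zero).mp h3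

/-- projection on the range -/
noncomputable def Pr (D : E →L[ℝ] F) : F →L[ℝ] F := (LinearMap.range (D : E →ₗ[ℝ] F)).starProjection

theorem Pr_self (D : E →L[ℝ] F) (v : E) : Pr D (D v) = D v :=
  Submodule.starProjection_eq_self_iff.mpr ⟨v, rfl⟩

theorem Pr_inner (D : E →L[ℝ] F) (a b : F) : (inner ℝ (Pr D a) b : ℝ) = inner ℝ a (Pr D b) :=
  Submodule.inner_starProjection_left_eq_right _ a b

theorem Pr_norm (D : E →L[ℝ] F) (b : F) : (inner ℝ (Pr D b) b : ℝ) = ‖Pr D b‖ ^ 2 := by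
  rw [← real_inner_self_eq_norm_sq, Pr_inner, Pr_inner]
  congr 1
  have : Pr D (Pr D b) = Pr D b := by
    unfold Pr
    exact Submodule.starProjection_eq_self_iff.mpr (Submodule.starProjection_apply_mem _ b)
  rw [this]

theorem Pr_le (D : E →L[ℝ] F) (b : F) : ‖Pr D b‖ ≤ ‖b‖ :=
  Submodule.norm_starProjection_apply_le _ b

theorem Pr_mem (D : E →L[ℝ] F) {b : F} (h : ‖b‖ ≤ ‖Pr D b‖) : ∃ v, D v = b := by
  have h1 : ‖b - Pr D b‖ ^ 2 = 0 := by
    have h2 : ‖b - Pr D b‖ ^ 2 = ‖b‖ ^ 2 - ‖Pr D b‖ ^ 2 := by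
      rw [norm_sub_sq_real, real_inner_comm, Pr_norm]; ring
    have h3 := Pr_le D b
    have h4 : ‖b‖ = ‖Pr D b‖ := le_antisymm h h3
    rw [h2, h4, sub_self]
  have h5 : b = Pr D b := by
    have : ‖b - Pr D b‖ = 0 := by
      exact pow_eq_zero_iff (two_ne_zero) |>.mp h1
    exact sub_eq_zero.mp (norm_eq_zero.mp this)
  have h6 : Pr D b ∈ LinearMap.range (D : E →ₗ[ℝ] F) := Submodule.starProjection_apply_mem _ b
  rw [← h5] at h6
  exact h6

theorem Pr_eq_sum {ι : Type*} [Fintype ι] (e : OrthonormalBasis ι ℝ E) (U : E →ₗᵢ[ℝ] F) (S : E →L[ℝ] E)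
    (hS : Function.Surjective S) (b : F) :
    Pr (U.toContinuousLinearMap.comp S) b = ∑ i, (inner ℝ b (U (e i)) : ℝ) • U (e i) := by
  unfold Pr
  apply Submodule.eq_starProjection_of_mem_orthogonal
  · refine Submodule.sum_mem _ fun i _ => Submodule.smul_mem _ _ ?_
    obtain ⟨v, hv⟩ := hS (e i)
    exact ⟨v, by show U (S v) = _; rw [hv]⟩
  · rw [Submodule.mem_orthogonal]
    rintro _ ⟨v, rfl⟩
    show (inner ℝ (U (S v)) _ : ℝ) = 0
    rw [inner_sub_right, inner_sum]
    simp only [inner_smul_right, U.inner_map_map]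
    rw [sub_eq_zero]
    have h1 : S v = ∑ i, (inner ℝ (e i) (S v) : ℝ) • e i := (e.sum_repr' (S v)).symm
    conv_lhs => rw [h1, map_sum, sum_inner]
    refine Finset.sum_congr rfl fun i _ => ?_
    rw [map_smul, inner_smul_left, real_inner_comm b (U (e i)), real_inner_comm (e i) (S v)]
    simp only [conj_trivial]
    ring

/-- first order expansion of the norm determinant -/
theorem normDet_var (D : E →L[ℝ] F) (hD : Function.Injective D) {J : Type*} (s : Finset J) (m : J → F →L[ℝ] ℝ)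
    (b : J → F) (τ : ℝ) {C : ℝ} (hC : ‖∑ j ∈ s, (m j).smulRight (b j)‖ ≤ C) :
    ((D + τ • ((∑ j ∈ s, (m j).smulRight (b j)).comp D) : E →L[ℝ] F) : E →ₗ[ℝ] F).normDet ≤
      (D : E →ₗ[ℝ] F).normDet * Real.exp (τ * ∑ j ∈ s, m j (Pr D (b j)) +
        1 / 2 * (Module.finrank ℝ E) * (τ * C) ^ 2) := by
  obtain ⟨U, S, hUS, hS, hSb⟩ := exists_decomp D hD
  set M : F →L[ℝ] F := ∑ j ∈ s, (m j).smulRight (b j) with hM
  set e := stdOrthonormalBasis ℝ E with he
  have h1 : (D + τ • (M.comp D) : E →L[ℝ] F) =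
      ((U.toContinuousLinearMap + τ • (M.comp U.toContinuousLinearMap)) : E →L[ℝ] F).comp S := by
    rw [hUS]
    ext v
    simp
  have h2 : ((D + τ • (M.comp D) : E →L[ℝ] F) : E →ₗ[ℝ] F).normDet =
      ((U.toContinuousLinearMap + τ • (M.comp U.toContinuousLinearMap) : E →L[ℝ] F) : E →ₗ[ℝ] F).normDet *
        (D : E →ₗ[ℝ] F).normDet := by
    rw [h1, ← hS]
    have h3 := LinearMap.normDet_comp_of_finrank_eq (S : E →ₗ[ℝ] E)
      ((U.toContinuousLinearMap + τ • (M.comp U.toContinuousLinearMap) : E →L[ℝ] F) : E →ₗ[ℝ] F) rfl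
    rw [LinearMap.normDet_eq_abs_det] at h3
    exact h3
  rw [h2, mul_comm]
  apply mul_le_mul_of_nonneg_left _ (LinearMap.normDet_nonneg _)
  refine (normDet_le_exp _ e).trans ?_
  apply Real.exp_le_exp.mpr
  have h4 : ∀ i, ‖(U.toContinuousLinearMap + τ • (M.comp U.toContinuousLinearMap) : E →L[ℝ] F) (e i)‖ ^ 2 - 1 ≤
      2 * τ * (inner ℝ (M (U (e i))) (U (e i)) : ℝ) + (τ * C) ^ 2 := by
    intro i
    have h5 : (U.toContinuousLinearMap + τ • (M.comp U.toContinuousLinearMap) : E →L[ℝ] F) (e i) =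
        U (e i) + τ • M (U (e i)) := by simp
    have h6 : ‖U (e i)‖ = 1 := by rw [U.norm_map]; exact e.orthonormal.1 i
    rw [h5, norm_add_sq_real, h6, inner_smul_right, real_inner_comm, norm_smul, mul_pow]
    have h7 : ‖M (U (e i))‖ ≤ C := by
      have := M.le_opNorm (U (e i))
      rw [h6, mul_one] at this
      exact this.trans hC
    have h8 : ‖τ‖ ^ 2 * ‖M (U (e i))‖ ^ 2 ≤ (τ * C) ^ 2 := by
      rw [mul_pow, Real.norm_eq_abs, sq_abs]
      gcongr
    linarith
  have h9 : ∑ j ∈ s, m j (Pr D (b j)) = ∑ i, (inner ℝ (M (U (e i))) (U (e i)) : ℝ) := by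
    have h10 : ∀ j, m j (Pr D (b j)) = ∑ i, (inner ℝ (b j) (U (e i)) : ℝ) * m j (U (e i)) := by
      intro j
      rw [hUS, Pr_eq_sum e U S hSb.2, map_sum]
      refine Finset.sum_congr rfl fun i _ => ?_
      rw [map_smul, smul_eq_mul]
    rw [Finset.sum_congr rfl fun j _ => h10 j, Finset.sum_comm]
    refine Finset.sum_congr rfl fun i _ => ?_
    rw [hM, _root_.sum_apply, sum_inner]
    refine Finset.sum_congr rfl fun j _ => ?_
    rw [ContinuousLinearMap.smulRight_apply, inner_smul_left]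
    simp only [conj_trivial]
    ring
  calc 1 / 2 * ∑ i, (‖(U.toContinuousLinearMap + τ • (M.comp U.toContinuousLinearMap) : E →L[ℝ] F) (e i)‖ ^ 2 - 1)
      ≤ 1 / 2 * ∑ i, (2 * τ * (inner ℝ (M (U (e i))) (U (e i)) : ℝ) + (τ * C) ^ 2) := by
        gcongr with i
        exact h4 i
    _ = τ * ∑ j ∈ s, m j (Pr D (b j)) + 1 / 2 * (Module.finrank ℝ E) * (τ * C) ^ 2 := by
        rw [h9, Finset.sum_add_distrib, ← Finset.mul_sum]
        simp
        ring

/-- formula for the projection -/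
theorem Pr_formula (D : E →L[ℝ] F) (hD : Function.Injective D) :
    Pr D = D ∘L (Ring.inverse (D.adjoint ∘L D)) ∘L D.adjoint := by
  have hu : IsUnit (D.adjoint ∘L D : E →L[ℝ] E) := by
    have hi : Function.Injective (D.adjoint ∘L D : E →L[ℝ] E) := by
      rw [injective_iff_map_eq_zero]
      intro v hv
      have h1 : (inner ℝ (D.adjoint (D v)) v : ℝ) = 0 := by
        rw [show D.adjoint (D v) = 0 from hv, inner_zero_left]
      rw [ContinuousLinearMap.adjoint_inner_left, real_inner_self_eq_norm_sq] at h1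
      have h2 : D v = 0 := by
        rw [← norm_eq_zero]
        exact pow_eq_zero_iff (two_ne_zero) |>.mp h1
      exact hD (h2.trans (map_zero D).symm)
    rw [ContinuousLinearMap.isUnit_iff_bijective]
    exact ⟨hi, LinearMap.surjective_of_injective (f := ((D.adjoint ∘L D : E →L[ℝ] E) : E →ₗ[ℝ] E)) hi⟩
  refine ContinuousLinearMap.ext fun b => ?_
  unfold Pr
  show _ = D (Ring.inverse (D.adjoint ∘L D) (D.adjoint b))
  apply Submodule.eq_starProjection_of_mem_orthogonal
  · exact ⟨_, rfl⟩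
  · rw [Submodule.mem_orthogonal]
    rintro _ ⟨v, rfl⟩
    show (inner ℝ (D v) _ : ℝ) = 0
    rw [← ContinuousLinearMap.adjoint_inner_right, map_sub]
    have h3 : (D.adjoint ∘L D * Ring.inverse (D.adjoint ∘L D) : E →L[ℝ] E) = 1 := Ring.mul_inverse_cancel _ hu
    have h4 : D.adjoint (D (Ring.inverse (D.adjoint ∘L D) (D.adjoint b))) = D.adjoint b :=
      congrArg (fun q : E →L[ℝ] E => q (D.adjoint b)) h3
    rw [h4, sub_self, inner_zero_right]

theorem Pr_continuousAt {X : Type*} [TopologicalSpace X] {f : X → E →L[ℝ] F} {x : X}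
    (hf : ContinuousAt f x) (hi : ∀ᶠ y in 𝓝 x, Function.Injective (f y)) :
    ContinuousAt (fun y => Pr (f y)) x := by
  have h1 : (fun y => Pr (f y)) =ᶠ[𝓝 x] fun y => f y ∘L (Ring.inverse ((f y).adjoint ∘L (f y))) ∘L (f y).adjoint := by
    filter_upwards [hi] with y hy
    exact Pr_formula _ hy
  refine ContinuousAt.congr ?_ h1.symm
  have hx : Function.Injective (f x) := hi.self_of_nhds
  have hadj : ContinuousAt (fun y => (f y).adjoint) x :=
    (ContinuousLinearMap.adjoint.continuous.continuousAt).comp hf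
  have hc : ContinuousAt (fun y => ((f y).adjoint ∘L (f y) : E →L[ℝ] E)) x := hadj.clm_comp hf
  have hu : IsUnit ((f x).adjoint ∘L (f x) : E →L[ℝ] E) := by
    have hi : Function.Injective ((f x).adjoint ∘L (f x) : E →L[ℝ] E) := by
      rw [injective_iff_map_eq_zero]
      intro v hv
      have h1 : (inner ℝ ((f x).adjoint (f x v)) v : ℝ) = 0 := by
        rw [show (f x).adjoint (f x v) = 0 from hv, inner_zero_left]
      rw [ContinuousLinearMap.adjoint_inner_left, real_inner_self_eq_norm_sq] at h1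
      have h2 : f x v = 0 := by
        rw [← norm_eq_zero]
        exact pow_eq_zero_iff (two_ne_zero) |>.mp h1
      exact hx (h2.trans (map_zero (f x)).symm)
    rw [ContinuousLinearMap.isUnit_iff_bijective]
    exact ⟨hi, LinearMap.surjective_of_injective (f := (((f x).adjoint ∘L (f x) : E →L[ℝ] E) : E →ₗ[ℝ] E)) hi⟩
  have hinv : ContinuousAt (fun y => Ring.inverse ((f y).adjoint ∘L (f y) : E →L[ℝ] E)) x := by
    have h2 := NormedRing.inverse_continuousAt hu.unit
    exact ContinuousAt.comp (g := Ring.inverse) (by rw [hu.unit_spec] at h2; exact h2) hc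
  exact hf.clm_comp (hinv.clm_comp hadj)

end Pool.Agent.Helper82.Rig
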