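import Pool.Agent.Helper82.Rig1

set_option autoImplicit false
set_option linter.unusedSectionVars false
set_option linter.unusedVariables false
set_option linter.unusedSimpArgs false

namespace Pool.Agent.Helper82.Rig

open MeasureTheory Set Filter Topology Metric

/-- the Gaussian moment integrals -/
noncomputable def gk (k : ℕ) (v : ℝ) : ℝ := ∫ s in Ioi (0 : ℝ), s ^ k * Real.exp (-s ^ 2 + 2 * s * v)

theorem bound_int (k : ℕ) (c : ℝ) :
    IntegrableOn (fun s : ℝ => s ^ k * (c * Real.exp (-(1 / 2) * s ^ 2))) (Ioi 0) := by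
  have h := integrableOn_rpow_mul_exp_neg_mul_sq (b := 1 / 2) (by norm_num) (s := (k : ℝ))
    (by have : (0 : ℝ) ≤ k := Nat.cast_nonneg k; linarith)
  have h2 := h.const_mul c
  refine h2.congr ?_
  filter_upwards with s
  rw [Real.rpow_natCast]
  ring

theorem exp_bound {V v : ℝ} (hv : |v| ≤ V) (s : ℝ) :
    Real.exp (-s ^ 2 + 2 * s * v) ≤ Real.exp (2 * V ^ 2) * Real.exp (-(1 / 2) * s ^ 2) := by
  rw [← Real.exp_add]
  apply Real.exp_le_exp.mpr
  have h1 : v ^ 2 ≤ V ^ 2 := by
    rw [← sq_abs v]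
    exact pow_le_pow_left₀ (abs_nonneg v) hv 2
  nlinarith [sq_nonneg (s - 2 * v)]

theorem gk_integrable (k : ℕ) (v : ℝ) :
    IntegrableOn (fun s : ℝ => s ^ k * Real.exp (-s ^ 2 + 2 * s * v)) (Ioi 0) := by
  refine Integrable.mono' (bound_int k (Real.exp (2 * |v| ^ 2))) ?_ ?_
  · apply Continuous.aestronglyMeasurable
    fun_prop
  · rw [ae_restrict_iff' measurableSet_Ioi]
    filter_upwards with s hs
    have hs' : (0 : ℝ) < s := hs
    rw [Real.norm_eq_abs, abs_of_nonneg (by positivity)]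
    have := exp_bound (le_refl |v|) s
    gcongr

theorem gk_pos (k : ℕ) (v : ℝ) : 0 < gk k v := by
  unfold gk
  rw [setIntegral_pos_iff_support_of_nonneg_ae]
  · have h1 : (Function.support fun s : ℝ => s ^ k * Real.exp (-s ^ 2 + 2 * s * v)) ∩ Ioi 0 = Ioi 0 := by
      ext s
      simp only [mem_inter_iff, Function.mem_support, mem_Ioi, and_iff_right_iff_imp]
      intro hs
      have := Real.exp_pos (-s ^ 2 + 2 * s * v)
      positivity
    rw [h1]; simp
  · rw [EventuallyLE, ae_restrict_iff' measurableSet_Ioi]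
    filter_upwards with s hs
    have hs' : (0 : ℝ) < s := hs
    have := Real.exp_pos (-s ^ 2 + 2 * s * v)
    show 0 ≤ _
    positivity
  · exact gk_integrable k v

theorem gk_hasDerivAt (k : ℕ) (v : ℝ) : HasDerivAt (gk k) (2 * gk (k + 1) v) v := by
  have h := hasDerivAt_integral_of_dominated_loc_of_deriv_le (μ := volume.restrict (Ioi (0 : ℝ)))
    (F := fun v s => s ^ k * Real.exp (-s ^ 2 + 2 * s * v))
    (F' := fun v s => 2 * (s ^ (k + 1) * Real.exp (-s ^ 2 + 2 * s * v))) (x₀ := v)
    (s := Metric.ball v 1)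
    (bound := fun s => 2 * (s ^ (k + 1) * (Real.exp (2 * (|v| + 1) ^ 2) * Real.exp (-(1 / 2) * s ^ 2))))
    (Metric.ball_mem_nhds v one_pos)
    (Filter.Eventually.of_forall fun v => by
      apply Continuous.aestronglyMeasurable
      fun_prop)
    (gk_integrable k v)
    (by
      apply Continuous.aestronglyMeasurable
      fun_prop)
    (by
      rw [ae_restrict_iff' measurableSet_Ioi]
      filter_upwards with s hs x hx
      have hs' : (0 : ℝ) < s := hs
      rw [Real.norm_eq_abs, abs_of_nonneg (by positivity)]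
      have hx' : |x| ≤ |v| + 1 := by
        have h1 : |x - v| < 1 := by simpa [Real.dist_eq] using hx
        have h2 := abs_sub_abs_le_abs_sub x v
        linarith
      have := exp_bound hx' s
      gcongr)
    ((bound_int (k + 1) _).const_mul 2)
    (by
      filter_upwards with s x hx
      have h1 : HasDerivAt (fun x : ℝ => -s ^ 2 + 2 * s * x) (2 * s) x := by
        have := ((hasDerivAt_id x).const_mul (2 * s)).const_add (-s ^ 2)
        simpa using this
      have h2 := (h1.exp).const_mul (s ^ k)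
      refine h2.congr_deriv ?_
      ring)
  have h3 := h.2
  rw [integral_const_mul] at h3
  exact h3

theorem gk_continuous (k : ℕ) : Continuous (gk k) :=
  continuous_iff_continuousAt.mpr fun v => (gk_hasDerivAt k v).continuousAt

theorem gk_contDiff (k : ℕ) : ContDiff ℝ 1 (gk k) := by
  rw [contDiff_one_iff_deriv]
  refine ⟨fun v => (gk_hasDerivAt k v).differentiableAt, ?_⟩
  have : deriv (gk k) = fun v => 2 * gk (k + 1) v := funext fun v => (gk_hasDerivAt k v).deriv
  rw [this]
  exact (gk_continuous (k + 1)).const_mul 2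

theorem gk_parts (k : ℕ) (v : ℝ) :
    ((k : ℝ) + 1) * gk k v = 2 * gk (k + 2) v - 2 * v * gk (k + 1) v := by
  have hd : ∀ s : ℝ, HasDerivAt (fun s => s ^ (k + 1) * Real.exp (-s ^ 2 + 2 * s * v))
      (((k : ℝ) + 1) * (s ^ k * Real.exp (-s ^ 2 + 2 * s * v)) -
        2 * (s ^ (k + 2) * Real.exp (-s ^ 2 + 2 * s * v)) +
        2 * v * (s ^ (k + 1) * Real.exp (-s ^ 2 + 2 * s * v))) s := by
    intro s
    have h1 : HasDerivAt (fun s : ℝ => -s ^ 2 + 2 * s * v) (-(2 * s) + 2 * v) s := by
      have a1 : HasDerivAt (fun s : ℝ => s ^ 2) (2 * s) s := by simpa using hasDerivAt_pow 2 s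
      have a2 : HasDerivAt (fun s : ℝ => 2 * s * v) (2 * v) s := by
        have := ((hasDerivAt_id s).const_mul 2).mul_const v
        simpa using this
      exact a1.neg.add a2
    have h2 : HasDerivAt (fun s : ℝ => s ^ (k + 1)) (((k : ℝ) + 1) * s ^ k) s := by
      have := hasDerivAt_pow (k + 1) s
      simpa using this
    refine (h2.mul h1.exp).congr_deriv ?_
    ring
  have i0 := gk_integrable k v
  have i1 := gk_integrable (k + 1) v
  have i2 := gk_integrable (k + 2) v
  have hint : IntegrableOn (fun s : ℝ => ((k : ℝ) + 1) * (s ^ k * Real.exp (-s ^ 2 + 2 * s * v)) -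
        2 * (s ^ (k + 2) * Real.exp (-s ^ 2 + 2 * s * v)) +
        2 * v * (s ^ (k + 1) * Real.exp (-s ^ 2 + 2 * s * v))) (Ioi 0) :=
    ((i0.const_mul _).sub (i2.const_mul _)).add (i1.const_mul _)
  have hlim : Tendsto (fun s => s ^ (k + 1) * Real.exp (-s ^ 2 + 2 * s * v)) atTop (𝓝 0) := by
    have h1 := (rpow_mul_exp_neg_mul_sq_isLittleO_exp_neg (b := 1 / 2) (by norm_num) ((k + 1 : ℕ) : ℝ))
    have h2 : Tendsto (fun x : ℝ => Real.exp (-(1 / 2) * x)) atTop (𝓝 0) := by
      apply Real.tendsto_exp_atBot.comp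
      apply Tendsto.const_mul_atTop_of_neg (by norm_num) tendsto_id
    have h3 := h1.trans_tendsto h2
    have h4 := h3.const_mul (Real.exp (2 * |v| ^ 2))
    rw [mul_zero] at h4
    refine squeeze_zero' ?_ ?_ h4
    · filter_upwards [eventually_ge_atTop 0] with s hs
      positivity
    · filter_upwards [eventually_ge_atTop 0] with s hs
      rw [Real.rpow_natCast]
      have := exp_bound (le_refl |v|) s
      calc s ^ (k + 1) * Real.exp (-s ^ 2 + 2 * s * v) ≤
          s ^ (k + 1) * (Real.exp (2 * |v| ^ 2) * Real.exp (-(1 / 2) * s ^ 2)) := by gcongr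
        _ = _ := by ring
  have hfin := integral_Ioi_of_hasDerivAt_of_tendsto' (a := (0 : ℝ)) (fun x _ => hd x) hint hlim
  have h5 : (0 : ℝ) ^ (k + 1) = 0 := by simp
  rw [h5, zero_mul, sub_zero] at hfin
  rw [integral_add, integral_sub, integral_const_mul, integral_const_mul, integral_const_mul] at hfin
  · unfold gk
    linarith
  · exact i0.const_mul _
  · exact i2.const_mul _
  · exact (i0.const_mul _).sub (i2.const_mul _)
  · exact i1.const_mul _

/-- scaling -/
theorem gk_scale (k : ℕ) {R : ℝ} (hR : 0 < R) (v : ℝ) :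
    ∫ s in Ioi (0 : ℝ), s ^ k * Real.exp (-(s * R) ^ 2 + 2 * (s * R) * v) = gk k v / R ^ (k + 1) := by
  have h := integral_comp_mul_right_Ioi (fun s : ℝ => s ^ k * Real.exp (-s ^ 2 + 2 * s * v)) 0 hR
  rw [zero_mul, smul_eq_mul] at h
  have h1 : ∀ s : ℝ, s ^ k * Real.exp (-(s * R) ^ 2 + 2 * (s * R) * v) =
      (R ^ k)⁻¹ * ((s * R) ^ k * Real.exp (-(s * R) ^ 2 + 2 * (s * R) * v)) := by
    intro s
    rw [mul_pow s R k]
    field_simp
  simp_rw [h1]
  rw [integral_const_mul, h]
  unfold gk
  rw [pow_succ]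
  field_simp

theorem gk_scale_int (k : ℕ) {R : ℝ} (hR : 0 < R) (v : ℝ) :
    IntegrableOn (fun s : ℝ => s ^ k * Real.exp (-(s * R) ^ 2 + 2 * (s * R) * v)) (Ioi 0) := by
  by_contra h
  have h1 := gk_scale k hR v
  rw [integral_undef h] at h1
  have h2 := gk_pos k v
  have h3 : 0 < gk k v / R ^ (k + 1) := by positivity
  linarith

end Pool.Agent.Helper82.Rig
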