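import Pool.Agent.Helper82.Rig2

set_option autoImplicit false
set_option linter.unusedSectionVars false
set_option linter.unusedVariables false
set_option linter.unusedSimpArgs false

namespace Pool.Agent.Helper82.Rig

open MeasureTheory Set Filter Topology Metric

/-- polar coordinates -/
theorem polar {V : Type*} [NormedAddCommGroup V] [NormedSpace ℝ V] [MeasurableSpace V] [BorelSpace V]
    [FiniteDimensional ℝ V] (μ : Measure V) [μ.IsAddHaarMeasure] [Nontrivial V] (f : V → ENNReal)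
    (hf : Measurable f) :
    ∫⁻ y, f y ∂μ = ∫⁻ x : sphere (0 : V) 1, (∫⁻ t in Ioi (0 : ℝ),
      ENNReal.ofReal (t ^ (Module.finrank ℝ V - 1)) * f (t • (x : V))) ∂μ.toSphere := by
  have h1 : ∫⁻ y, f y ∂μ = ∫⁻ y : ({(0 : V)}ᶜ : Set V), f y ∂(μ.comap (↑)) := by
    rw [lintegral_subtype_comap (measurableSet_singleton _).compl f, restrict_compl_singleton]
  have h2 := μ.measurePreserving_homeomorphUnitSphereProd.lintegral_comp_emb
    (Homeomorph.measurableEmbedding _)
    (fun p : sphere (0 : V) 1 × Ioi (0 : ℝ) => f (p.2.1 • (p.1 : V)))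
  have h3 : ∀ y : ({(0 : V)}ᶜ : Set V), f y =
      (fun p : sphere (0 : V) 1 × Ioi (0 : ℝ) => f (p.2.1 • (p.1 : V))) (homeomorphUnitSphereProd V y) := by
    intro y
    have hy0 : (y : V) ≠ 0 := y.2
    simp only [homeomorphUnitSphereProd_apply_fst_coe, homeomorphUnitSphereProd_apply_snd_coe]
    rw [smul_smul, mul_inv_cancel₀ (norm_ne_zero_iff.mpr hy0), one_smul]
  have hm : Measurable fun p : sphere (0 : V) 1 × Ioi (0 : ℝ) => f (p.2.1 • (p.1 : V)) := by
    apply hf.comp
    exact (measurable_subtype_coe.comp measurable_snd).smul (measurable_subtype_coe.comp measurable_fst)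
  rw [h1, lintegral_congr h3, h2, lintegral_prod _ hm.aemeasurable]
  refine lintegral_congr fun x => ?_
  show ∫⁻ t : Ioi (0 : ℝ), f (t.1 • (x : V)) ∂(Measure.volumeIoiPow (Module.finrank ℝ V - 1)) = _
  have hm1 : Measurable fun t : Ioi (0 : ℝ) => ENNReal.ofReal (t.1 ^ (Module.finrank ℝ V - 1)) :=
    (measurable_subtype_coe.pow_const _).ennreal_ofReal
  have hm2 : Measurable fun t : Ioi (0 : ℝ) => f (t.1 • (x : V)) :=
    hf.comp (measurable_subtype_coe.smul_const _)
  unfold Measure.volumeIoiPow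
  rw [lintegral_withDensity_eq_lintegral_mul _ hm1 hm2]
  exact lintegral_subtype_comap measurableSet_Ioi
    (fun t : ℝ => ENNReal.ofReal (t ^ (Module.finrank ℝ V - 1)) * f (t • (x : V)))

variable {E F : Type} [NormedAddCommGroup E] [InnerProductSpace ℝ E] [FiniteDimensional ℝ E]
  [MeasurableSpace E] [BorelSpace E]
  [NormedAddCommGroup F] [InnerProductSpace ℝ F] [FiniteDimensional ℝ F]

/-- positively homogeneous maps, `C¹` and nonzero off the origin -/
structure HM (Z : E → F) : Prop where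
  hom : ∀ t : ℝ, 0 < t → ∀ x, Z (t • x) = t • Z x
  ne : ∀ x, x ≠ 0 → Z x ≠ 0
  diff : ∀ x, x ≠ 0 → ContDiffAt ℝ 1 Z x

variable {Z : E → F}

theorem HM.hd (h : HM Z) {y : E} (hy : y ≠ 0) : HasFDerivAt Z (fderiv ℝ Z y) y :=
  ((h.diff y hy).differentiableAt (by norm_num)).hasFDerivAt

theorem HM.euler (h : HM Z) {y : E} (hy : y ≠ 0) : fderiv ℝ Z y y = Z y := by
  have h1 : HasDerivAt (fun t : ℝ => Z (t • y)) (fderiv ℝ Z y y) 1 := by
    have h2 : HasDerivAt (fun t : ℝ => t • y) y 1 := by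
      simpa using (hasDerivAt_id (1:ℝ)).smul_const y
    have h3 : HasFDerivAt Z (fderiv ℝ Z y) ((1:ℝ) • y) := by rw [one_smul]; exact h.hd hy
    exact h3.comp_hasDerivAt (1:ℝ) h2
  have h4 : HasDerivAt (fun t : ℝ => t • Z y) (Z y) 1 := by
    simpa using (hasDerivAt_id (1:ℝ)).smul_const (Z y)
  have h5 : (fun t : ℝ => Z (t • y)) =ᶠ[𝓝 1] fun t : ℝ => t • Z y := by
    filter_upwards [Ioi_mem_nhds (show (0:ℝ) < 1 by norm_num)] with t ht
    exact h.hom t ht y
  exact (h1.congr_of_eventuallyEq h5.symm).unique h4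

theorem HM.deriv_smul (h : HM Z) {y : E} (hy : y ≠ 0) {t : ℝ} (ht : 0 < t) :
    fderiv ℝ Z (t • y) = fderiv ℝ Z y := by
  have h0 : t • y ≠ 0 := smul_ne_zero ht.ne' hy
  have h1 : HasFDerivAt (fun x => Z (t • x)) ((fderiv ℝ Z (t • y)).comp (t • ContinuousLinearMap.id ℝ E)) y := by
    have h2 : HasFDerivAt (fun x : E => t • x) (t • ContinuousLinearMap.id ℝ E) y :=
      (hasFDerivAt_id y).const_smul t
    exact (h.hd h0).comp y h2
  have h3 : HasFDerivAt (fun x => Z (t • x)) (t • fderiv ℝ Z y) y := by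
    have : (fun x => Z (t • x)) = fun x => t • Z x := funext (h.hom t ht)
    rw [this]
    exact (h.hd hy).const_smul t
  have h4 := h1.unique h3
  ext x
  have h5 := congrArg (fun L => L x) h4
  simp only [ContinuousLinearMap.comp_apply, _root_.smul_apply, ContinuousLinearMap.id_apply,
    map_smul] at h5
  exact smul_right_injective F ht.ne' h5

theorem HM.zero (h : HM Z) : Z 0 = 0 := by
  have h1 := h.hom 2 two_pos 0
  rw [smul_zero, two_smul] at h1
  exact (left_eq_add.mp h1)

theorem HM.meas (h : HM Z) [MeasurableSpace F] [BorelSpace F] : Measurable Z :=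
  measurable_of_continuousOn_compl_singleton 0 fun x hx => (h.diff x hx).continuousAt.continuousWithinAt

/-- the Jacobian -/
noncomputable def Ja (Z : E → F) (y : E) : ℝ := (fderiv ℝ Z y : E →ₗ[ℝ] F).normDet

theorem Ja_nonneg (y : E) : 0 ≤ Ja Z y := LinearMap.normDet_nonneg _

theorem normDet_eq_sqrt (T : E →L[ℝ] F) :
    (T : E →ₗ[ℝ] F).normDet = Real.sqrt (T.adjoint ∘L T).det := by
  have h := T.normDet_sq
  have h2 : ((T : E →ₗ[ℝ] F).normDet) ^ 2 = (T.adjoint ∘L T).det := by
    simpa using h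
  rw [← h2, Real.sqrt_sq (LinearMap.normDet_nonneg _)]

theorem normDet_cont : Continuous fun T : E →L[ℝ] F => (T : E →ₗ[ℝ] F).normDet := by
  have : (fun T : E →L[ℝ] F => (T : E →ₗ[ℝ] F).normDet) = fun T => Real.sqrt (T.adjoint ∘L T).det :=
    funext normDet_eq_sqrt
  rw [this]
  apply Real.continuous_sqrt.comp
  apply ContinuousLinearMap.continuous_det.comp
  exact (ContinuousLinearMap.adjoint.continuous).clm_comp continuous_id

theorem Ja_meas (Z : E → F) : Measurable (Ja Z) :=
  normDet_cont.measurable.comp (measurable_fderiv ℝ Z)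

theorem HM.Ja_cont (h : HM Z) {y : E} (hy : y ≠ 0) : ContinuousAt (Ja Z) y :=
  normDet_cont.continuousAt.comp ((h.diff y hy).continuousAt_fderiv (by norm_num))

theorem HM.Ja_smul (h : HM Z) {y : E} (hy : y ≠ 0) {t : ℝ} (ht : 0 < t) : Ja Z (t • y) = Ja Z y := by
  unfold Ja; rw [h.deriv_smul hy ht]

/-- the density of the cone on the sphere -/
noncomputable def wt (Z : E → F) (x : E) : ℝ := Ja Z x / ‖Z x‖ ^ (Module.finrank ℝ E)

theorem wt_nonneg (x : E) : 0 ≤ wt Z x := div_nonneg (Ja_nonneg x) (by positivity)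

theorem HM.wt_cont (h : HM Z) {y : E} (hy : y ≠ 0) : ContinuousAt (wt Z) y :=
  (h.Ja_cont hy).div₀ (((h.diff y hy).continuousAt.norm).pow _) (pow_ne_zero _ (norm_ne_zero_iff.mpr (h.ne y hy)))

/-- the cosine of the angle between `z` and `c`, times the norm of `c` -/
noncomputable def cs (z c : F) : ℝ := (inner ℝ z c : ℝ) / ‖z‖

theorem cs_cont {z : F} (hz : z ≠ 0) (c : F) : ContinuousAt (fun z => cs z c) z :=
  (Continuous.continuousAt (by fun_prop)).div₀ continuous_norm.continuousAt (norm_ne_zero_iff.mpr hz)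

/-- Gaussian area of a shifted cone -/
theorem HM.gauss (h : HM Z) [MeasurableSpace F] [BorelSpace F] [Nontrivial E] (c : F) :
    ∫⁻ y, ENNReal.ofReal (Real.exp (-‖Z y - c‖ ^ 2)) * ENNReal.ofReal (Ja Z y) =
      ∫⁻ x : sphere (0 : E) 1, ENNReal.ofReal (wt Z x *
        (Real.exp (-‖c‖ ^ 2) * gk (Module.finrank ℝ E - 1) (cs (Z x) c)))
        ∂(volume : Measure E).toSphere := by
  have hm : Measurable fun y => ENNReal.ofReal (Real.exp (-‖Z y - c‖ ^ 2)) * ENNReal.ofReal (Ja Z y) := by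
    have h1 : Measurable fun y => Real.exp (-‖Z y - c‖ ^ 2) :=
      Real.measurable_exp.comp (((h.meas.sub_const c).norm.pow_const 2).neg)
    exact h1.ennreal_ofReal.mul (Ja_meas Z).ennreal_ofReal
  rw [polar volume _ hm]
  refine lintegral_congr fun x => ?_
  have hx0 : (x : E) ≠ 0 := by
    intro hh
    have : ‖(x : E)‖ = 1 := by simp
    rw [hh, norm_zero] at this
    norm_num at this
  set z := Z x with hz
  have hz0 : z ≠ 0 := h.ne _ hx0
  have hR : 0 < ‖z‖ := norm_pos_iff.mpr hz0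
  set n := Module.finrank ℝ E - 1 with hn
  have hn1 : n + 1 = Module.finrank ℝ E := by
    have : 0 < Module.finrank ℝ E := Module.finrank_pos
    omega
  set C : ℝ := Real.exp (-‖c‖ ^ 2) * Ja Z x with hC
  have hC0 : 0 ≤ C := mul_nonneg (Real.exp_pos _).le (Ja_nonneg _)
  have e1 : ∀ t : ℝ, t ∈ Ioi (0 : ℝ) → ENNReal.ofReal (t ^ n) *
      (ENNReal.ofReal (Real.exp (-‖Z (t • (x : E)) - c‖ ^ 2)) * ENNReal.ofReal (Ja Z (t • (x : E)))) =
      ENNReal.ofReal (C * (t ^ n * Real.exp (-(t * ‖z‖) ^ 2 + 2 * (t * ‖z‖) * cs z c))) := by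
    intro t ht
    have ht' : (0 : ℝ) < t := ht
    rw [h.hom t ht', h.Ja_smul hx0 ht', ← ENNReal.ofReal_mul (by positivity), ← ENNReal.ofReal_mul (by positivity)]
    congr 1
    have e2 : Real.exp (-‖t • z - c‖ ^ 2) = Real.exp (-‖c‖ ^ 2) *
        Real.exp (-(t * ‖z‖) ^ 2 + 2 * (t * ‖z‖) * cs z c) := by
      rw [← Real.exp_add]
      congr 1
      have e3 : t * ‖z‖ * cs z c = t * (inner ℝ z c : ℝ) := by
        unfold cs; field_simp
      rw [norm_sub_sq_real, norm_smul, inner_smul_left, Real.norm_eq_abs, abs_of_pos ht', mul_assoc 2, e3]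
      simp only [conj_trivial]
      ring
    rw [e2, hC]
    ring
  rw [setLIntegral_congr_fun measurableSet_Ioi e1]
  have hint := (gk_scale_int n hR (cs z c)).const_mul C
  rw [← ofReal_integral_eq_lintegral_ofReal hint, integral_const_mul, gk_scale n hR, hn1]
  · congr 1
    rw [hC]
    unfold wt
    rw [← hz]
    ring
  · rw [EventuallyLE, ae_restrict_iff' measurableSet_Ioi]
    filter_upwards with t ht
    have ht' : (0 : ℝ) < t := ht
    show 0 ≤ C * _
    have := Real.exp_pos (-(t * ‖z‖) ^ 2 + 2 * (t * ‖z‖) * cs z c)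
    positivity

/-- real version of the previous formula -/
theorem HM.gauss' (h : HM Z) [MeasurableSpace F] [BorelSpace F] [Nontrivial E] (c : F) :
    ∫⁻ y, ENNReal.ofReal (Real.exp (-‖Z y - c‖ ^ 2)) * ENNReal.ofReal (Ja Z y) =
      ENNReal.ofReal (∫ x : sphere (0 : E) 1, wt Z x *
        (Real.exp (-‖c‖ ^ 2) * gk (Module.finrank ℝ E - 1) (cs (Z x) c))
        ∂(volume : Measure E).toSphere) := by
  rw [h.gauss c, ofReal_integral_eq_lintegral_ofReal]
  · apply Continuous.integrable_of_hasCompactSupport _ (HasCompactSupport.of_compactSpace _)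
    rw [continuous_iff_continuousAt]
    intro x
    have hx0 : (x : E) ≠ 0 := by
      intro hh
      have : ‖(x : E)‖ = 1 := by simp
      rw [hh, norm_zero] at this
      norm_num at this
    have h1 : ContinuousAt (fun x : E => wt Z x * (Real.exp (-‖c‖ ^ 2) * gk (Module.finrank ℝ E - 1) (cs (Z x) c))) x := by
      refine (h.wt_cont hx0).mul (continuousAt_const.mul ?_)
      exact (gk_continuous _).continuousAt.comp
        (ContinuousAt.comp (g := fun z => cs z c) (cs_cont (h.ne _ hx0) c) (h.diff _ hx0).continuousAt)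
    exact ContinuousAt.comp (g := fun x : E => wt Z x * (Real.exp (-‖c‖ ^ 2) * gk (Module.finrank ℝ E - 1) (cs (Z x) c)))
      h1 continuousAt_subtype_val
  · filter_upwards with x
    have := gk_pos (Module.finrank ℝ E - 1) (cs (Z x) c)
    have := wt_nonneg (Z := Z) (x : E)
    show 0 ≤ wt Z x * _
    positivity

end Pool.Agent.Helper82.Rig
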