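import Pool.Agent.Helper82.Rig3

set_option autoImplicit false
set_option linter.unusedSectionVars false
set_option linter.unusedVariables false
set_option linter.unusedSimpArgs false

namespace Pool.Agent.Helper82.Rig

open MeasureTheory Set Filter Topology Metric

variable {E F : Type} [NormedAddCommGroup E] [InnerProductSpace ℝ E] [FiniteDimensional ℝ E]
  [MeasurableSpace E] [BorelSpace E]
  [NormedAddCommGroup F] [InnerProductSpace ℝ F] [FiniteDimensional ℝ F]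

theorem sphere_ne (x : sphere (0 : E) 1) : (x : E) ≠ 0 := by
  intro hh
  have : ‖(x : E)‖ = 1 := by simp
  rw [hh, norm_zero] at this
  norm_num at this

/-- continuity on the sphere -/
theorem cont_sphere {Y : Type*} [TopologicalSpace Y] {f : E → Y} (hf : ∀ x, x ≠ 0 → ContinuousAt f x) :
    Continuous fun x : sphere (0 : E) 1 => f x := by
  rw [continuous_iff_continuousAt]
  intro x
  exact ContinuousAt.comp (g := f) (hf _ (sphere_ne x)) continuousAt_subtype_val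

theorem int_sphere {f : E → ℝ} (hf : ∀ x, x ≠ 0 → ContinuousAt f x) :
    Integrable (fun x : sphere (0 : E) 1 => f x) (volume : Measure E).toSphere :=
  (cont_sphere hf).integrable_of_hasCompactSupport (HasCompactSupport.of_compactSpace _)

theorem nrm {V : Type*} [NormedAddCommGroup V] [NormedSpace ℝ V] {y : V} (hy : y ≠ 0) : ‖‖y‖⁻¹ • y‖ = 1 := by
  rw [norm_smul, norm_inv, norm_norm, inv_mul_cancel₀ (norm_ne_zero_iff.mpr hy)]

/-- bounded on the sphere -/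
theorem bdd_sphere {V W : Type*} [NormedAddCommGroup V] [NormedSpace ℝ V] [FiniteDimensional ℝ V]
    [NormedAddCommGroup W] {f : V → W} (hf : ∀ x, x ≠ 0 → ContinuousAt f x) :
    ∃ C : ℝ, 0 ≤ C ∧ ∀ x, ‖x‖ = 1 → ‖f x‖ ≤ C := by
  have hc : IsCompact (sphere (0 : V) 1) := isCompact_sphere 0 1
  have hcont : ContinuousOn f (sphere (0 : V) 1) := by
    intro x hx
    refine (hf x ?_).continuousWithinAt
    intro hh
    rw [hh] at hx
    simp at hx
  obtain ⟨C, hC⟩ := hc.exists_bound_of_continuousOn hcont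
  exact ⟨max C 0, le_max_right _ _, fun x hx => (hC x (by simpa using hx)).trans (le_max_left _ _)⟩

variable {Z : E → F}

theorem HM.cont (h : HM Z) : Continuous Z := by
  rw [continuous_iff_continuousAt]
  intro x
  by_cases hx : x = 0
  · obtain ⟨C, hC0, hC⟩ := bdd_sphere (f := Z) fun x hx => (h.diff x hx).continuousAt
    have hb : ∀ y, ‖Z y‖ ≤ C * ‖y‖ := by
      intro y
      by_cases hy : y = 0
      · rw [hy, h.zero]; simp
      · have h1 : Z y = ‖y‖ • Z (‖y‖⁻¹ • y) := by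
          rw [← h.hom _ (norm_pos_iff.mpr hy), smul_smul, mul_inv_cancel₀ (norm_ne_zero_iff.mpr hy), one_smul]
        rw [h1, norm_smul, norm_norm, mul_comm]
        exact mul_le_mul_of_nonneg_right (hC _ (nrm hy)) (norm_nonneg _)
    rw [hx]
    unfold ContinuousAt
    rw [h.zero]
    apply squeeze_zero_norm hb
    have : Tendsto (fun y : E => C * ‖y‖) (𝓝 0) (𝓝 (C * ‖(0 : E)‖)) :=
      (continuous_const.mul continuous_norm).continuousAt
    simpa using this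
  · exact (h.diff x hx).continuousAt

/-- the area inequality for equivariant maps -/
def AreaBound (g : E ≃ₗᵢ[ℝ] E) (h : F ≃ₗᵢ[ℝ] F) : Prop :=
  ∀ Z : E → F, HM Z → Continuous Z → (∀ x, Z (g x) = h (Z x)) →
    ∫⁻ x : E, ENNReal.ofReal (Real.exp (-‖x‖ ^ 2)) ≤
      ∫⁻ x : E, ENNReal.ofReal (Real.exp (-‖Z x‖ ^ 2)) * ENNReal.ofReal (Ja Z x)

theorem cs_zero (z : F) : cs z 0 = 0 := by unfold cs; simp

theorem HM.area (h : HM Z) [Nontrivial E] :
    ∫⁻ x : E, ENNReal.ofReal (Real.exp (-‖Z x‖ ^ 2)) * ENNReal.ofReal (Ja Z x) =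
      ENNReal.ofReal (gk (Module.finrank ℝ E - 1) 0 * ∫ x : sphere (0 : E) 1, wt Z x ∂(volume : Measure E).toSphere) := by
  let _ : MeasurableSpace F := borel F
  have _ : BorelSpace F := ⟨rfl⟩
  have h1 := h.gauss' 0
  simp only [sub_zero, norm_zero, cs_zero] at h1
  rw [h1, integral_mul_const]
  congr 1
  have : Real.exp (-(0:ℝ) ^ 2) = 1 := by simp
  rw [this, one_mul, mul_comm]

theorem HM_id : HM (fun x : E => x) where
  hom _ _ _ := rfl
  ne _ hx := hx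
  diff _ _ := contDiffAt_id

theorem gauss_id [Nontrivial E] : ∫⁻ x : E, ENNReal.ofReal (Real.exp (-‖x‖ ^ 2)) =
    ENNReal.ofReal (gk (Module.finrank ℝ E - 1) 0 * (volume : Measure E).toSphere.real univ) := by
  have h := (HM_id (E := E)).area
  have hJ : ∀ x : E, Ja (fun x : E => x) x = 1 := by
    intro x
    unfold Ja
    rw [fderiv_fun_id]
    exact LinearMap.normDet_id
  simp only [hJ, ENNReal.ofReal_one, mul_one] at h
  rw [h]
  congr 2
  have : ∀ x : sphere (0 : E) 1, wt (fun x : E => x) (x : E) = 1 := by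
    intro x
    unfold wt
    rw [hJ]
    have : ‖(x : E)‖ = 1 := by simp
    rw [this]; simp
  rw [integral_congr_ae (Filter.Eventually.of_forall this)]
  simp

/-- area inequality on the sphere -/
theorem AreaBound.sphere [Nontrivial E] {g : E ≃ₗᵢ[ℝ] E} {h : F ≃ₗᵢ[ℝ] F} (hA : AreaBound g h)
    (hZ : HM Z) (he : ∀ x, Z (g x) = h (Z x)) :
    (volume : Measure E).toSphere.real univ ≤ ∫ x : Metric.sphere (0 : E) 1, wt Z x ∂(volume : Measure E).toSphere := by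
  have h1 := hA Z hZ hZ.cont he
  rw [gauss_id, hZ.area] at h1
  have h2 : 0 ≤ ∫ x : Metric.sphere (0 : E) 1, wt Z x ∂(volume : Measure E).toSphere :=
    integral_nonneg fun x => wt_nonneg _
  have h3 := gk_pos (Module.finrank ℝ E - 1) 0
  rw [ENNReal.ofReal_le_ofReal_iff (by positivity)] at h1
  exact le_of_mul_le_mul_left h1 h3

theorem inv_le_exp {y : ℝ} (hy : |y| ≤ 1 / 2) : (1 + y)⁻¹ ≤ Real.exp (-y + 2 * y ^ 2) := by
  have h0 : 1 / 2 ≤ 1 + y := by
    have := neg_abs_le y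
    linarith
  have h1 : (1 + y)⁻¹ = -y + y ^ 2 * (1 + y)⁻¹ + 1 := by
    have : (1 + y) ≠ 0 := by linarith
    field_simp
    ring
  have h2 : (1 + y)⁻¹ ≤ 2 := by
    rw [inv_le_comm₀ (by linarith) (by norm_num)]
    linarith
  rw [h1]
  refine (Real.add_one_le_exp _).trans (Real.exp_le_exp.mpr ?_)
  nlinarith [sq_nonneg y]

/-- pointwise estimate of the density of the perturbed cone -/
theorem wt_var (hZ : HM Z) {x : E} (hx : x ≠ 0) (hD : Function.Injective (fderiv ℝ Z x)) {J : Type*} (s : Finset J)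
    (φ : J → F → ℝ) (hφ : ∀ j, DifferentiableAt ℝ (φ j) (Z x)) (b : J → F) {K : ℝ} (hK0 : 0 ≤ K)
    (hK1 : ‖∑ j ∈ s, (fderiv ℝ (φ j) (Z x)).smulRight (b j)‖ ≤ K)
    (hK2 : ‖∑ j ∈ s, φ j (Z x) • b j‖ ≤ K * ‖Z x‖) {τ : ℝ} (hτ : 0 ≤ τ) (hτK : τ * K ≤ 1 / 2) :
    wt (fun y => Z y + τ • ∑ j ∈ s, φ j (Z y) • b j) x ≤ wt Z x *
      Real.exp (τ * (∑ j ∈ s, fderiv ℝ (φ j) (Z x) (Pr (fderiv ℝ Z x) (b j)) -
        Module.finrank ℝ E * ((inner ℝ (Z x) (∑ j ∈ s, φ j (Z x) • b j) : ℝ) / ‖Z x‖ ^ 2)) +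
        3 * (Module.finrank ℝ E) * (τ * K) ^ 2) := by
  set d := Module.finrank ℝ E with hd
  set z := Z x with hz
  set D := fderiv ℝ Z x with hDdef
  set X : F := ∑ j ∈ s, φ j z • b j with hX
  set a : ℝ := (inner ℝ z X : ℝ) / ‖z‖ ^ 2 with ha
  have hz0 : z ≠ 0 := hZ.ne x hx
  have hzp : 0 < ‖z‖ := norm_pos_iff.mpr hz0
  -- derivative
  have hder : HasFDerivAt (fun y => Z y + τ • ∑ j ∈ s, φ j (Z y) • b j)
      (D + τ • ((∑ j ∈ s, (fderiv ℝ (φ j) z).smulRight (b j)).comp D)) x := by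
    refine (hZ.hd hx).add ?_
    have h1 : HasFDerivAt (fun w : F => ∑ j ∈ s, φ j w • b j) (∑ j ∈ s, (fderiv ℝ (φ j) z).smulRight (b j)) z := by
      apply HasFDerivAt.fun_sum
      intro j _
      exact (hφ j).hasFDerivAt.smul_const (b j)
    exact (HasFDerivAt.comp (g := fun w : F => ∑ j ∈ s, φ j w • b j) x h1 (hZ.hd hx)).const_smul τ
  have hJ : Ja (fun y => Z y + τ • ∑ j ∈ s, φ j (Z y) • b j) x ≤ Ja Z x *
      Real.exp (τ * ∑ j ∈ s, fderiv ℝ (φ j) z (Pr D (b j)) + 1 / 2 * d * (τ * K) ^ 2) := by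
    unfold Ja
    rw [hder.fderiv]
    exact normDet_var D hD s _ b τ hK1
  -- norm
  have ha' : |a| ≤ K := by
    rw [ha, abs_div, abs_of_pos (pow_pos hzp 2), div_le_iff₀ (pow_pos hzp 2)]
    calc |(inner ℝ z X : ℝ)| ≤ ‖z‖ * ‖X‖ := abs_real_inner_le_norm z X
      _ ≤ ‖z‖ * (K * ‖z‖) := by gcongr
      _ = K * ‖z‖ ^ 2 := by ring
  have hτa : |τ * a| ≤ 1 / 2 := by
    rw [abs_mul, abs_of_nonneg hτ]
    exact (mul_le_mul_of_nonneg_left ha' hτ).trans hτK
  have h1a : 0 < 1 + τ * a := by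
    have := neg_abs_le (τ * a)
    linarith
  have hn1 : ‖z‖ * (1 + τ * a) ≤ ‖z + τ • X‖ := by
    have h2 : (inner ℝ z (z + τ • X) : ℝ) = ‖z‖ ^ 2 * (1 + τ * a) := by
      rw [inner_add_right, inner_smul_right, real_inner_self_eq_norm_sq, ha]
      field_simp
    have h3 := real_inner_le_norm z (z + τ • X)
    rw [h2] at h3
    have h4 : ‖z‖ * (‖z‖ * (1 + τ * a)) ≤ ‖z‖ * ‖z + τ • X‖ := by
      calc _ = ‖z‖ ^ 2 * (1 + τ * a) := by ring
        _ ≤ _ := h3
    exact le_of_mul_le_mul_left h4 hzp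
  have hpow : (‖z + τ • X‖ ^ d)⁻¹ ≤ (‖z‖ ^ d)⁻¹ * Real.exp (-(τ * (d * a)) + 2 * d * (τ * K) ^ 2) := by
    have h5 : (‖z‖ * (1 + τ * a)) ^ d ≤ ‖z + τ • X‖ ^ d :=
      pow_le_pow_left₀ (by positivity) hn1 d
    have h6 : (‖z + τ • X‖ ^ d)⁻¹ ≤ ((‖z‖ * (1 + τ * a)) ^ d)⁻¹ := by
      apply inv_anti₀ (by positivity) h5
    refine h6.trans ?_
    rw [mul_pow, mul_inv, ← inv_pow (1 + τ * a)]
    apply mul_le_mul_of_nonneg_left _ (by positivity)
    calc (1 + τ * a)⁻¹ ^ d ≤ (Real.exp (-(τ * a) + 2 * (τ * a) ^ 2)) ^ d := by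
          apply pow_le_pow_left₀ (by positivity)
          exact inv_le_exp hτa
      _ = Real.exp (d * (-(τ * a) + 2 * (τ * a) ^ 2)) := by rw [← Real.exp_nat_mul]
      _ ≤ _ := by
          apply Real.exp_le_exp.mpr
          have h7 : (τ * a) ^ 2 ≤ (τ * K) ^ 2 := by
            rw [← sq_abs (τ * a), abs_mul, abs_of_nonneg hτ]
            have : 0 ≤ |a| := abs_nonneg a
            gcongr
          have h8 : (0 : ℝ) ≤ d := Nat.cast_nonneg d
          nlinarith [mul_le_mul_of_nonneg_left h7 h8]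
  -- combine
  unfold wt
  show Ja (fun y => Z y + τ • ∑ j ∈ s, φ j (Z y) • b j) x / ‖z + τ • X‖ ^ d ≤ _
  rw [div_eq_mul_inv, div_eq_mul_inv]
  calc Ja (fun y => Z y + τ • ∑ j ∈ s, φ j (Z y) • b j) x * (‖z + τ • X‖ ^ d)⁻¹ ≤
      (Ja Z x * Real.exp (τ * ∑ j ∈ s, fderiv ℝ (φ j) z (Pr D (b j)) + 1 / 2 * d * (τ * K) ^ 2)) *
        ((‖z‖ ^ d)⁻¹ * Real.exp (-(τ * (d * a)) + 2 * d * (τ * K) ^ 2)) := by
        apply mul_le_mul hJ hpow (by positivity)
        exact mul_nonneg (Ja_nonneg _) (Real.exp_pos _).le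
    _ = (Ja Z x * (‖z‖ ^ d)⁻¹) * (Real.exp (τ * ∑ j ∈ s, fderiv ℝ (φ j) z (Pr D (b j)) + 1 / 2 * d * (τ * K) ^ 2) *
        Real.exp (-(τ * (d * a)) + 2 * d * (τ * K) ^ 2)) := by ring
    _ ≤ _ := by
        rw [← Real.exp_add]
        apply mul_le_mul_of_nonneg_left _ (mul_nonneg (Ja_nonneg _) (by positivity))
        apply Real.exp_le_exp.mpr
        have h8 : (0 : ℝ) ≤ d := Nat.cast_nonneg d
        have h9 : 0 ≤ (d : ℝ) * (τ * K) ^ 2 := by positivity
        nlinarith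

end Pool.Agent.Helper82.Rig
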