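import Pool.Agent.Helper82.Rig4

set_option autoImplicit false
set_option linter.unusedSectionVars false
set_option linter.unusedVariables false
set_option linter.unusedSimpArgs false

namespace Pool.Agent.Helper82.Rig

open MeasureTheory Set Filter Topology Metric

variable {E F : Type} [NormedAddCommGroup E] [InnerProductSpace ℝ E] [FiniteDimensional ℝ E]
  [MeasurableSpace E] [BorelSpace E]
  [NormedAddCommGroup F] [InnerProductSpace ℝ F] [FiniteDimensional ℝ F]

variable {Z : E → F}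

/-- the integrand of the first variation -/
noncomputable def fv (Z : E → F) {J : Type*} (s : Finset J) (φ : J → F → ℝ) (b : J → F) (x : E) : ℝ :=
  ∑ j ∈ s, fderiv ℝ (φ j) (Z x) (Pr (fderiv ℝ Z x) (b j)) -
    Module.finrank ℝ E * ((inner ℝ (Z x) (∑ j ∈ s, φ j (Z x) • b j) : ℝ) / ‖Z x‖ ^ 2)

theorem fderiv_hom {φ : F → ℝ} (h1 : ∀ z, z ≠ 0 → ContDiffAt ℝ 1 φ z)
    (h2 : ∀ t : ℝ, 0 < t → ∀ z, φ (t • z) = t * φ z) {z : F} (hz : z ≠ 0) {t : ℝ} (ht : 0 < t) :
    fderiv ℝ φ (t • z) = fderiv ℝ φ z := by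
  have h0 : t • z ≠ 0 := smul_ne_zero ht.ne' hz
  have hd : ∀ z, z ≠ 0 → HasFDerivAt φ (fderiv ℝ φ z) z := fun z hz =>
    ((h1 z hz).differentiableAt (by norm_num)).hasFDerivAt
  have e1 : HasFDerivAt (fun x => φ (t • x)) ((fderiv ℝ φ (t • z)).comp (t • ContinuousLinearMap.id ℝ F)) z := by
    have e2 : HasFDerivAt (fun x : F => t • x) (t • ContinuousLinearMap.id ℝ F) z :=
      (hasFDerivAt_id z).const_smul t
    exact (hd _ h0).comp z e2
  have e3 : HasFDerivAt (fun x => φ (t • x)) (t • fderiv ℝ φ z) z := by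
    have : (fun x => φ (t • x)) = fun x => t • φ x := funext fun x => h2 t ht x
    rw [this]
    exact (hd z hz).const_smul t
  have e4 := e1.unique e3
  ext x
  have e5 := congrArg (fun L => L x) e4
  simp only [ContinuousLinearMap.comp_apply, _root_.smul_apply, ContinuousLinearMap.id_apply,
    map_smul] at e5
  exact smul_right_injective ℝ ht.ne' e5

theorem fv_cont (hZ : HM Z) (hinj : ∀ x, x ≠ 0 → Function.Injective (fderiv ℝ Z x)) {J : Type*} (s : Finset J)
    (φ : J → F → ℝ) (hφ1 : ∀ j, ∀ z, z ≠ 0 → ContDiffAt ℝ 1 (φ j) z) (b : J → F) {x : E} (hx : x ≠ 0) :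
    ContinuousAt (fv Z s φ b) x := by
  have hzc : ContinuousAt Z x := (hZ.diff x hx).continuousAt
  have hD : ContinuousAt (fderiv ℝ Z) x := (hZ.diff x hx).continuousAt_fderiv (by norm_num)
  have hP : ContinuousAt (fun y => Pr (fderiv ℝ Z y)) x := by
    apply Pr_continuousAt hD
    filter_upwards [isOpen_ne.mem_nhds hx] with y hy
    exact hinj y hy
  have hz0 : Z x ≠ 0 := hZ.ne x hx
  unfold fv
  refine ContinuousAt.sub ?_ (continuousAt_const.mul ?_)
  · refine tendsto_finsetSum _ fun j _ => ?_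
    have h1 : ContinuousAt (fun y => fderiv ℝ (φ j) (Z y)) x :=
      ContinuousAt.comp (g := fderiv ℝ (φ j)) ((hφ1 j _ hz0).continuousAt_fderiv (by norm_num)) hzc
    exact h1.clm_apply (hP.clm_apply continuousAt_const)
  · refine ContinuousAt.div₀ (ContinuousAt.inner hzc ?_) (hzc.norm.pow 2) (pow_ne_zero 2 (norm_ne_zero_iff.mpr hz0))
    refine tendsto_finsetSum _ fun j _ => ?_
    exact (ContinuousAt.comp (g := φ j) (hφ1 j _ hz0).continuousAt hzc).smul continuousAt_const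

/-- the first variation inequality at a minimiser -/
theorem first_var [Nontrivial E] {g : E ≃ₗᵢ[ℝ] E} {h : F ≃ₗᵢ[ℝ] F} (hA : AreaBound g h)
    (hZ : HM Z) (he : ∀ x, Z (g x) = h (Z x)) (hinj : ∀ x, x ≠ 0 → Function.Injective (fderiv ℝ Z x))
    (heq : ∫ x : sphere (0 : E) 1, wt Z x ∂(volume : Measure E).toSphere ≤ (volume : Measure E).toSphere.real univ)
    {J : Type*} (s : Finset J) (φ : J → F → ℝ) (hφ1 : ∀ j, ∀ z, z ≠ 0 → ContDiffAt ℝ 1 (φ j) z)
    (hφ2 : ∀ j, ∀ t : ℝ, 0 < t → ∀ z, φ j (t • z) = t * φ j z) (b : J → F)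
    (hequi : ∀ z, ∑ j ∈ s, φ j (h z) • b j = h (∑ j ∈ s, φ j z • b j)) :
    0 ≤ ∫ x : sphere (0 : E) 1, wt Z x * fv Z s φ b x ∂(volume : Measure E).toSphere := by
  set σ := (volume : Measure E).toSphere with hσ
  -- bounds
  obtain ⟨K1, hK10, hK1⟩ := bdd_sphere (V := F) (f := fun z => ∑ j ∈ s, (fderiv ℝ (φ j) z).smulRight (b j)) (by
    intro z hz
    refine tendsto_finsetSum _ fun j _ => ?_
    have h1 : ContinuousAt (fderiv ℝ (φ j)) z := (hφ1 j z hz).continuousAt_fderiv (by norm_num)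
    have h5 : Continuous fun p : (F →L[ℝ] ℝ) => p.smulRight (b j) := by
      exact ((ContinuousLinearMap.smulRightL ℝ F F).flip (b j)).continuous
    exact h5.continuousAt.comp h1)
  obtain ⟨K2, hK20, hK2⟩ := bdd_sphere (V := F) (f := fun z => ∑ j ∈ s, φ j z • b j) (by
    intro z hz
    refine tendsto_finsetSum _ fun j _ => ?_
    exact (hφ1 j z hz).continuousAt.smul continuousAt_const)
  obtain ⟨B, hB0, hB⟩ := bdd_sphere (V := E) (f := fv Z s φ b) (fun x hx => fv_cont hZ hinj s φ hφ1 b hx)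
  set K := max K1 K2 with hK
  have hK0 : 0 ≤ K := hK10.trans (le_max_left _ _)
  have hb1 : ∀ z : F, z ≠ 0 → ‖∑ j ∈ s, (fderiv ℝ (φ j) z).smulRight (b j)‖ ≤ K := by
    intro z hz
    have h1 := hK1 _ (nrm hz)
    have h2 : ∀ j, fderiv ℝ (φ j) (‖z‖⁻¹ • z) = fderiv ℝ (φ j) z := fun j =>
      fderiv_hom (hφ1 j) (hφ2 j) hz (inv_pos.mpr (norm_pos_iff.mpr hz))
    simp only [h2] at h1
    exact h1.trans (le_max_left _ _)
  have hb2 : ∀ z : F, z ≠ 0 → ‖∑ j ∈ s, φ j z • b j‖ ≤ K * ‖z‖ := by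
    intro z hz
    have h1 := hK2 _ (nrm hz)
    have hp : 0 < ‖z‖ := norm_pos_iff.mpr hz
    have h2 : ∀ j, φ j (‖z‖⁻¹ • z) = ‖z‖⁻¹ * φ j z := fun j => hφ2 j _ (inv_pos.mpr hp) z
    simp only [h2, mul_smul] at h1
    rw [← Finset.smul_sum, norm_smul, norm_inv, norm_norm, inv_mul_le_iff₀ hp] at h1
    rw [mul_comm]
    exact h1.trans (mul_le_mul_of_nonneg_left (le_max_right _ _) hp.le)
  set d : ℝ := (Module.finrank ℝ E : ℝ) with hd
  have hd0 : 0 ≤ d := Nat.cast_nonneg _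
  set c : ℝ := 3 * d * K ^ 2 with hc
  have hc0 : 0 ≤ c := by positivity
  set C : ℝ := c + (B + c) ^ 2 with hC
  set I0 := ∫ x : sphere (0 : E) 1, wt Z x ∂σ with hI0
  set I1 := ∫ x : sphere (0 : E) 1, wt Z x * fv Z s φ b x ∂σ with hI1
  have hw : ∀ x, x ≠ 0 → ContinuousAt (wt Z) x := fun x hx => hZ.wt_cont hx
  have hf : ∀ x, x ≠ 0 → ContinuousAt (fv Z s φ b) x := fun x hx => fv_cont hZ hinj s φ hφ1 b hx
  have key : ∀ τ : ℝ, 0 < τ → τ ≤ 1 → τ * K ≤ 1 / 2 → τ * (B + c) ≤ 1 → 0 ≤ I1 + τ * (C * I0) := by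
    intro τ hτ hτ1 hτK hτB
    set Zt : E → F := fun y => Z y + τ • ∑ j ∈ s, φ j (Z y) • b j with hZt
    have hZtHM : HM Zt := by
      refine ⟨?_, ?_, ?_⟩
      · intro t ht x
        simp only [hZt]
        rw [hZ.hom t ht, smul_add]
        congr 1
        rw [smul_comm t τ, Finset.smul_sum (r := t)]
        congr 1
        refine Finset.sum_congr rfl fun j _ => ?_
        rw [hφ2 j t ht, mul_smul]
      · intro x hx h0
        have hz := hZ.ne x hx
        have h1 := hb2 _ hz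
        have h2 : Z x = -(τ • ∑ j ∈ s, φ j (Z x) • b j) := eq_neg_of_add_eq_zero_left h0
        have h3 : ‖Z x‖ = τ * ‖∑ j ∈ s, φ j (Z x) • b j‖ := by
          conv_lhs => rw [h2, norm_neg, norm_smul, Real.norm_eq_abs, abs_of_pos hτ]
        have hp : 0 < ‖Z x‖ := norm_pos_iff.mpr hz
        have h4 : ‖Z x‖ ≤ (τ * K) * ‖Z x‖ := by
          calc ‖Z x‖ = τ * ‖∑ j ∈ s, φ j (Z x) • b j‖ := h3
            _ ≤ τ * (K * ‖Z x‖) := by gcongr
            _ = _ := by ring
        nlinarith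
      · intro x hx
        refine (hZ.diff x hx).add (ContDiffAt.const_smul τ ?_)
        refine ContDiffAt.sum fun j _ => ?_
        exact (ContDiffAt.comp (g := φ j) x (hφ1 j _ (hZ.ne x hx)) (hZ.diff x hx)).smul contDiffAt_const
    have hZte : ∀ x, Zt (g x) = h (Zt x) := by
      intro x
      simp only [hZt]
      rw [he, hequi, map_add, map_smul]
    have h1 := hA.sphere hZtHM hZte
    have h2 : ∀ x : sphere (0 : E) 1, wt Zt x ≤ wt Z x * (1 + τ * fv Z s φ b x + τ ^ 2 * C) := by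
      intro x
      have hx0 := sphere_ne x
      have h3 := wt_var hZ hx0 (hinj _ hx0) s φ (fun j => (hφ1 j _ (hZ.ne _ hx0)).differentiableAt (by norm_num)) b hK0
        (hb1 _ (hZ.ne _ hx0)) (hb2 _ (hZ.ne _ hx0)) hτ.le hτK
      refine h3.trans (mul_le_mul_of_nonneg_left ?_ (wt_nonneg _))
      have h4 : τ * (∑ j ∈ s, fderiv ℝ (φ j) (Z x) (Pr (fderiv ℝ Z x) (b j)) -
        Module.finrank ℝ E * ((inner ℝ (Z x) (∑ j ∈ s, φ j (Z x) • b j) : ℝ) / ‖Z x‖ ^ 2)) +
        3 * (Module.finrank ℝ E) * (τ * K) ^ 2 = τ * (fv Z s φ b x + τ * c) := by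
        unfold fv
        rw [hc, hd]
        ring
      rw [h4]
      have hfB : |fv Z s φ b x| ≤ B := by
        have := hB x (by simp)
        rwa [Real.norm_eq_abs] at this
      have h5 : |fv Z s φ b x + τ * c| ≤ B + c := by
        calc |fv Z s φ b x + τ * c| ≤ |fv Z s φ b x| + |τ * c| := abs_add_le _ _
          _ ≤ B + c := by
            rw [abs_of_nonneg (mul_nonneg hτ.le hc0)]
            have : τ * c ≤ c := by nlinarith
            linarith
      have h6 : |τ * (fv Z s φ b x + τ * c)| ≤ 1 := by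
        rw [abs_mul, abs_of_pos hτ]
        exact (mul_le_mul_of_nonneg_left h5 hτ.le).trans hτB
      have h7 := Real.abs_exp_sub_one_sub_id_le h6
      have h8 := (abs_le.mp h7).2
      have h9 : (τ * (fv Z s φ b x + τ * c)) ^ 2 ≤ τ ^ 2 * (B + c) ^ 2 := by
        rw [mul_pow]
        apply mul_le_mul_of_nonneg_left _ (sq_nonneg τ)
        rw [← sq_abs]
        exact pow_le_pow_left₀ (abs_nonneg _) h5 2
      rw [hC]
      nlinarith
    have h3 : ∫ x : sphere (0 : E) 1, wt Zt x ∂σ ≤ ∫ x : sphere (0 : E) 1, wt Z x * (1 + τ * fv Z s φ b x + τ ^ 2 * C) ∂σ := by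
      apply integral_mono
      · exact int_sphere fun x hx => hZtHM.wt_cont hx
      · refine int_sphere (f := fun x => wt Z x * (1 + τ * fv Z s φ b x + τ ^ 2 * C)) fun x hx => ?_
        exact (hw x hx).mul ((continuousAt_const.add (continuousAt_const.mul (hf x hx))).add continuousAt_const)
      · exact h2
    have h4 : ∫ x : sphere (0 : E) 1, wt Z x * (1 + τ * fv Z s φ b x + τ ^ 2 * C) ∂σ = (1 + τ ^ 2 * C) * I0 + τ * I1 := by
      have h5 : ∀ x : sphere (0 : E) 1, wt Z x * (1 + τ * fv Z s φ b x + τ ^ 2 * C) =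
          (1 + τ ^ 2 * C) * wt Z x + τ * (wt Z x * fv Z s φ b x) := by
        intro x; ring
      simp_rw [h5]
      rw [integral_add, integral_const_mul, integral_const_mul]
      · exact (int_sphere hw).const_mul _
      · exact (int_sphere (f := fun x => wt Z x * fv Z s φ b x) fun x hx => (hw x hx).mul (hf x hx)).const_mul _
    rw [h4] at h3
    have h6 : 0 ≤ τ * (I1 + τ * (C * I0)) := by
      nlinarith
    exact nonneg_of_mul_nonneg_right h6 hτ
  -- limit
  have hlim : Tendsto (fun τ : ℝ => I1 + τ * (C * I0)) (𝓝[>] 0) (𝓝 (I1 + 0 * (C * I0))) := by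
    apply Tendsto.mono_left _ nhdsWithin_le_nhds
    exact (continuous_const.add (continuous_id.mul continuous_const)).tendsto 0
  rw [zero_mul, add_zero] at hlim
  refine ge_of_tendsto hlim ?_
  have e1 : ∀ᶠ τ : ℝ in 𝓝[>] 0, τ * K ≤ 1 / 2 := by
    have : Tendsto (fun τ : ℝ => τ * K) (𝓝[>] 0) (𝓝 (0 * K)) :=
      ((continuous_id.mul continuous_const).tendsto 0).mono_left nhdsWithin_le_nhds
    rw [zero_mul] at this
    exact (this.eventually_lt_const (by norm_num)).mono fun _ h => le_of_lt h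
  have e2 : ∀ᶠ τ : ℝ in 𝓝[>] 0, τ * (B + c) ≤ 1 := by
    have : Tendsto (fun τ : ℝ => τ * (B + c)) (𝓝[>] 0) (𝓝 (0 * (B + c))) :=
      ((continuous_id.mul continuous_const).tendsto 0).mono_left nhdsWithin_le_nhds
    rw [zero_mul] at this
    exact (this.eventually_lt_const (by norm_num)).mono fun _ h => le_of_lt h
  have e3 : ∀ᶠ τ : ℝ in 𝓝[>] 0, τ ≤ 1 := by
    have : Tendsto (fun τ : ℝ => τ) (𝓝[>] 0) (𝓝 0) := tendsto_id.mono_left nhdsWithin_le_nhds
    exact (this.eventually_lt_const (by norm_num)).mono fun _ h => le_of_lt h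
  filter_upwards [e1, e2, e3, self_mem_nhdsWithin] with τ h1 h2 h3 h4
  exact key τ h4 h3 h1 h2

end Pool.Agent.Helper82.Rig
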