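import Pool.Agent.Helper82.Rig5

set_option autoImplicit false
set_option linter.unusedSectionVars false
set_option linter.unusedVariables false
set_option linter.unusedSimpArgs false

namespace Pool.Agent.Helper82.Rig

open MeasureTheory Set Filter Topology Metric

variable {E F : Type} [NormedAddCommGroup E] [InnerProductSpace ℝ E] [FiniteDimensional ℝ E]
  [MeasurableSpace E] [BorelSpace E]
  [NormedAddCommGroup F] [InnerProductSpace ℝ F] [FiniteDimensional ℝ F]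

variable {Z : E → F}

/-- the coefficient of the test field -/
noncomputable def ph (k : ℕ) (c z : F) : ℝ := ‖z‖ * gk k (cs z c)

theorem cs_smul {t : ℝ} (ht : 0 < t) (z c : F) : cs (t • z) c = cs z c := by
  unfold cs
  rw [inner_smul_left, norm_smul, Real.norm_eq_abs, abs_of_pos ht]
  simp only [conj_trivial]
  rw [mul_div_mul_left _ _ ht.ne']

theorem cs_isom (h : F ≃ₗᵢ[ℝ] F) (z c : F) : cs (h z) (h c) = cs z c := by
  unfold cs
  rw [h.inner_map_map, h.norm_map]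

theorem ph_isom (h : F ≃ₗᵢ[ℝ] F) (k : ℕ) (c z : F) : ph k (h c) (h z) = ph k c z := by
  unfold ph
  rw [cs_isom, h.norm_map]

theorem ph_smul (k : ℕ) (c : F) {t : ℝ} (ht : 0 < t) (z : F) : ph k c (t • z) = t * ph k c z := by
  unfold ph
  rw [cs_smul ht, norm_smul, Real.norm_eq_abs, abs_of_pos ht]
  ring

theorem norm_hasFDerivAt {z : F} (hz : z ≠ 0) :
    HasFDerivAt (fun z : F => ‖z‖) (‖z‖⁻¹ • innerSL ℝ z) z := by
  have h1 : HasFDerivAt (fun y : F => ‖y‖ ^ 2) (2 • innerSL ℝ z) z :=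
    (hasStrictFDerivAt_norm_sq z).hasFDerivAt
  have hp : 0 < ‖z‖ := norm_pos_iff.mpr hz
  have h2 : HasFDerivAt (fun y : F => Real.sqrt (‖y‖ ^ 2)) ((1 / (2 * Real.sqrt (‖z‖ ^ 2))) • (2 • innerSL ℝ z)) z :=
    h1.sqrt (by positivity)
  have h3 : (fun y : F => Real.sqrt (‖y‖ ^ 2)) = fun y : F => ‖y‖ := by
    funext y; exact Real.sqrt_sq (norm_nonneg _)
  rw [h3] at h2
  refine h2.congr_fderiv ?_
  rw [Real.sqrt_sq hp.le]
  ext v
  simp
  field_simp

theorem cs_hasFDerivAt {z : F} (hz : z ≠ 0) (c : F) :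
    HasFDerivAt (fun z : F => cs z c) (‖z‖⁻¹ • innerSL ℝ c - (cs z c / ‖z‖ ^ 2) • innerSL ℝ z) z := by
  have hp : 0 < ‖z‖ := norm_pos_iff.mpr hz
  have h1 : HasFDerivAt (fun z : F => (inner ℝ z c : ℝ)) (innerSL ℝ c) z := by
    have h2 : (fun z : F => (inner ℝ z c : ℝ)) = fun z => innerSL ℝ c z := by
      funext z; rw [innerSL_apply_apply, real_inner_comm]
    rw [h2]
    exact (innerSL ℝ c).hasFDerivAt
  have h3 := h1.mul ((hasDerivAt_inv hp.ne').comp_hasFDerivAt z (norm_hasFDerivAt hz))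
  have h4 : (fun z : F => cs z c) = fun z : F => (inner ℝ z c : ℝ) * (‖z‖)⁻¹ := by
    funext z; unfold cs; rw [div_eq_mul_inv]
  rw [h4]
  refine HasFDerivAt.congr_fderiv h3 ?_
  ext v
  simp [cs]
  field_simp
  ring

theorem ph_contDiffAt (k : ℕ) (c : F) {z : F} (hz : z ≠ 0) : ContDiffAt ℝ 1 (ph k c) z := by
  have h1 : ContDiffAt ℝ 1 (fun z : F => ‖z‖) z := contDiffAt_norm ℝ hz
  have h2 : ContDiffAt ℝ 1 (fun z : F => cs z c) z := by
    unfold cs
    exact (contDiffAt_id.inner ℝ contDiffAt_const).div h1 (norm_ne_zero_iff.mpr hz)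
  exact h1.mul (ContDiffAt.comp (g := gk k) z (gk_contDiff k).contDiffAt h2)

theorem ph_fderiv (k : ℕ) (c : F) {z : F} (hz : z ≠ 0) (w : F) :
    fderiv ℝ (ph k c) z w = gk k (cs z c) * ((inner ℝ z w : ℝ) / ‖z‖) +
      2 * gk (k + 1) (cs z c) * ((inner ℝ c w : ℝ) - cs z c * ((inner ℝ z w : ℝ) / ‖z‖)) := by
  have hp : 0 < ‖z‖ := norm_pos_iff.mpr hz
  have h0 : HasFDerivAt (fun z : F => gk k (cs z c)) _ z :=
    HasDerivAt.comp_hasFDerivAt (h₂ := gk k) z (gk_hasDerivAt k (cs z c)) (cs_hasFDerivAt hz c)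
  have h1 : HasFDerivAt (ph k c) _ z := (norm_hasFDerivAt hz).mul h0
  rw [h1.fderiv]
  simp
  field_simp
  ring

/-- the first variation integrand of the test field -/
theorem fv_ph (hZ : HM Z) {k : ℕ} (hk : Module.finrank ℝ E = k + 2) {J : Type*} (s : Finset J) (c : J → F)
    {x : E} (hx : x ≠ 0) :
    fv Z s (fun j => ph k (c j)) c x = ∑ j ∈ s, 2 * (gk (k + 1) (cs (Z x) (c j)) * ‖Pr (fderiv ℝ Z x) (c j)‖ ^ 2 -
      cs (Z x) (c j) * gk (k + 2) (cs (Z x) (c j))) := by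
  have hz : Z x ≠ 0 := hZ.ne x hx
  have hp : 0 < ‖Z x‖ := norm_pos_iff.mpr hz
  unfold fv
  rw [inner_sum, Finset.sum_div, Finset.mul_sum, ← Finset.sum_sub_distrib]
  refine Finset.sum_congr rfl fun j _ => ?_
  set z := Z x with hzdef
  set D := fderiv ℝ Z x with hD
  set u := cs z (c j) with hu
  have h1 : (inner ℝ z (Pr D (c j)) : ℝ) = inner ℝ z (c j) := by
    rw [← Pr_inner]
    congr 1
    have h2 := hZ.euler hx
    rw [hzdef, ← h2]
    exact Pr_self _ _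
  have h3 : (inner ℝ z (c j) : ℝ) = u * ‖z‖ := by
    rw [hu]; unfold cs; field_simp
  have h4 : (inner ℝ (c j) (Pr D (c j)) : ℝ) = ‖Pr D (c j)‖ ^ 2 := by
    rw [real_inner_comm, Pr_norm]
  have h5 := gk_parts k u
  rw [ph_fderiv k (c j) hz, h1, h4, inner_smul_right, h3]
  have h6 : ph k (c j) z = ‖z‖ * gk k u := rfl
  simp only [h6, hk, ← hu]
  have h7 : ‖z‖ * gk k u * (u * ‖z‖) / ‖z‖ ^ 2 = u * gk k u := by field_simp
  have h8 : u * ‖z‖ / ‖z‖ = u := by field_simp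
  rw [h7, h8]
  push_cast
  linear_combination (-u) * h5

end Pool.Agent.Helper82.Rig
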