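import Pool.Agent.Helper82.Rig6

set_option autoImplicit false
set_option linter.unusedSectionVars false
set_option linter.unusedVariables false
set_option linter.unusedSimpArgs false

namespace Pool.Agent.Helper82.Rig

open MeasureTheory Set Filter Topology Metric

variable {E F : Type} [NormedAddCommGroup E] [InnerProductSpace ℝ E] [FiniteDimensional ℝ E]
  [MeasurableSpace E] [BorelSpace E]
  [NormedAddCommGroup F] [InnerProductSpace ℝ F] [FiniteDimensional ℝ F]

variable {Z : E → F}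

theorem cs_smul_right (z c : F) (t : ℝ) : cs z (t • c) = t * cs z c := by
  unfold cs
  rw [inner_smul_right, mul_div_assoc]

/-- the Gaussian area centred at `t b` -/
noncomputable def GA (Z : E → F) (k : ℕ) (b : F) (t : ℝ) : ℝ :=
  ∫ x : sphere (0 : E) 1, wt Z x * (Real.exp (-‖t • b‖ ^ 2) * gk k (cs (Z x) (t • b)))
    ∂(volume : Measure E).toSphere

/-- its derivative -/
noncomputable def GA' (Z : E → F) (k : ℕ) (b : F) (t : ℝ) : ℝ :=
  ∫ x : sphere (0 : E) 1, wt Z x * (Real.exp (-‖t • b‖ ^ 2) * (2 * gk (k + 1) (cs (Z x) (t • b)) * cs (Z x) b -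
    2 * t * ‖b‖ ^ 2 * gk k (cs (Z x) (t • b)))) ∂(volume : Measure E).toSphere

theorem cs_cont' (hZ : HM Z) (c : F) {x : E} (hx : x ≠ 0) : ContinuousAt (fun x => cs (Z x) c) x :=
  ContinuousAt.comp (g := fun z => cs z c) (cs_cont (hZ.ne _ hx) c) (hZ.diff _ hx).continuousAt

theorem GA_hasDerivAt (hZ : HM Z) (k : ℕ) (b : F) (t₀ : ℝ) : HasDerivAt (GA Z k b) (GA' Z k b t₀) t₀ := by
  have hwc := cont_sphere (E := E) (f := wt Z) fun x hx => hZ.wt_cont hx
  have hcc := cont_sphere (E := E) (f := fun x => cs (Z x) b) fun x hx => cs_cont' hZ b hx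
  have hn : ∀ t : ℝ, ‖t • b‖ ^ 2 = t ^ 2 * ‖b‖ ^ 2 := by
    intro t; rw [norm_smul, mul_pow, Real.norm_eq_abs, sq_abs]
  -- joint continuity of the derivative
  have hjc : Continuous fun p : ℝ × sphere (0 : E) 1 => wt Z p.2 * (Real.exp (-(p.1 ^ 2 * ‖b‖ ^ 2)) *
      (2 * gk (k + 1) (p.1 * cs (Z p.2) b) * cs (Z p.2) b - 2 * p.1 * ‖b‖ ^ 2 * gk k (p.1 * cs (Z p.2) b))) := by
    have c1 : Continuous fun p : ℝ × sphere (0 : E) 1 => wt Z p.2 := hwc.comp continuous_snd
    have c2 : Continuous fun p : ℝ × sphere (0 : E) 1 => cs (Z p.2) b := hcc.comp continuous_snd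
    have c3 : Continuous fun p : ℝ × sphere (0 : E) 1 => gk (k + 1) (p.1 * cs (Z p.2) b) :=
      (gk_continuous _).comp (continuous_fst.mul c2)
    have c4 : Continuous fun p : ℝ × sphere (0 : E) 1 => gk k (p.1 * cs (Z p.2) b) :=
      (gk_continuous _).comp (continuous_fst.mul c2)
    have c5 : Continuous fun p : ℝ × sphere (0 : E) 1 => Real.exp (-(p.1 ^ 2 * ‖b‖ ^ 2)) := by fun_prop
    exact c1.mul (c5.mul (((continuous_const.mul c3).mul c2).sub
      (((continuous_const.mul continuous_fst).mul continuous_const).mul c4)))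
  obtain ⟨C, hC⟩ := ((isCompact_closedBall t₀ 1).prod (isCompact_univ (X := sphere (0 : E) 1))).exists_bound_of_continuousOn
    hjc.continuousOn
  have hcont : ∀ t : ℝ, Continuous fun x : sphere (0 : E) 1 => wt Z x * (Real.exp (-(t ^ 2 * ‖b‖ ^ 2)) * gk k (t * cs (Z x) b)) := by
    intro t
    exact hwc.mul (continuous_const.mul ((gk_continuous _).comp (continuous_const.mul hcc)))
  have h := hasDerivAt_integral_of_dominated_loc_of_deriv_le (μ := (volume : Measure E).toSphere)
    (F := fun (t : ℝ) (x : sphere (0 : E) 1) => wt Z x * (Real.exp (-(t ^ 2 * ‖b‖ ^ 2)) * gk k (t * cs (Z x) b)))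
    (F' := fun (t : ℝ) (x : sphere (0 : E) 1) => wt Z x * (Real.exp (-(t ^ 2 * ‖b‖ ^ 2)) *
      (2 * gk (k + 1) (t * cs (Z x) b) * cs (Z x) b - 2 * t * ‖b‖ ^ 2 * gk k (t * cs (Z x) b))))
    (x₀ := t₀) (s := Metric.ball t₀ 1) (bound := fun _ => C) (Metric.ball_mem_nhds t₀ one_pos)
    (Filter.Eventually.of_forall fun t => (hcont t).aestronglyMeasurable)
    ((hcont t₀).integrable_of_hasCompactSupport (HasCompactSupport.of_compactSpace _))
    ((hjc.comp (continuous_const.prodMk continuous_id)).aestronglyMeasurable)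
    (by
      filter_upwards with x t ht
      exact hC (t, x) ⟨Metric.ball_subset_closedBall ht, mem_univ _⟩)
    (integrable_const C)
    (by
      filter_upwards with x t ht
      have h1 : HasDerivAt (fun t : ℝ => -(t ^ 2 * ‖b‖ ^ 2)) (-(2 * t * ‖b‖ ^ 2)) t := by
        have a1 : HasDerivAt (fun t : ℝ => t ^ 2) (2 * t) t := by simpa using hasDerivAt_pow 2 t
        exact (a1.mul_const (‖b‖ ^ 2)).neg
      have h2 : HasDerivAt (fun t : ℝ => gk k (t * cs (Z x) b)) (2 * gk (k + 1) (t * cs (Z x) b) * cs (Z x) b) t := by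
        have a2 : HasDerivAt (fun t : ℝ => t * cs (Z x) b) (cs (Z x) b) t := by
          simpa using (hasDerivAt_id t).mul_const (cs (Z x) b)
        exact HasDerivAt.comp (h₂ := gk k) t (gk_hasDerivAt k _) a2
      refine ((h1.exp.mul h2).const_mul (wt Z x)).congr_deriv ?_
      ring)
  have h2 := h.2
  have e1 : GA Z k b = fun t => ∫ x : sphere (0 : E) 1, wt Z x * (Real.exp (-(t ^ 2 * ‖b‖ ^ 2)) * gk k (t * cs (Z x) b))
      ∂(volume : Measure E).toSphere := by
    funext t
    unfold GA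
    simp only [hn, cs_smul_right]
  have e2 : GA' Z k b t₀ = ∫ x : sphere (0 : E) 1, wt Z x * (Real.exp (-(t₀ ^ 2 * ‖b‖ ^ 2)) *
      (2 * gk (k + 1) (t₀ * cs (Z x) b) * cs (Z x) b - 2 * t₀ * ‖b‖ ^ 2 * gk k (t₀ * cs (Z x) b)))
      ∂(volume : Measure E).toSphere := by
    unfold GA'
    simp only [hn, cs_smul_right]
  rw [e1, e2]
  exact h2

/-- the sum of the Gaussian areas decreases strictly if some base point is not in some tangent space -/
theorem strict [Nontrivial E] {g : E ≃ₗᵢ[ℝ] E} {h : F ≃ₗᵢ[ℝ] F} (hA : AreaBound g h)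
    (hZ : HM Z) (he : ∀ x, Z (g x) = h (Z x)) (hinj : ∀ x, x ≠ 0 → Function.Injective (fderiv ℝ Z x))
    (heq : ∫ x : sphere (0 : E) 1, wt Z x ∂(volume : Measure E).toSphere ≤ (volume : Measure E).toSphere.real univ)
    {k : ℕ} (hk : Module.finrank ℝ E = k + 2) {J : Type*} (s : Finset J) (b : J → F) {β : ℝ}
    (hβ : ∀ j ∈ s, ‖b j‖ = β)
    (hequi : ∀ t : ℝ, 0 < t → ∀ z, ∑ j ∈ s, ph k (t • b j) (h z) • (t • b j) = h (∑ j ∈ s, ph k (t • b j) z • (t • b j)))
    {x₁ : E} (hx₁ : ‖x₁‖ = 1) {j₀ : J} (hj₀ : j₀ ∈ s) (hlt : ‖Pr (fderiv ℝ Z x₁) (b j₀)‖ < ‖b j₀‖) :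
    StrictAntiOn (fun t => ∑ j ∈ s, GA Z (k + 1) (b j) t) (Ici 0) := by
  have hder : ∀ t, HasDerivAt (fun t => ∑ j ∈ s, GA Z (k + 1) (b j) t) (∑ j ∈ s, GA' Z (k + 1) (b j) t) t := by
    intro t
    apply HasDerivAt.fun_sum
    intro j _
    exact GA_hasDerivAt hZ (k + 1) (b j) t
  apply strictAntiOn_of_deriv_neg (convex_Ici 0)
  · exact fun t _ => (hder t).continuousAt.continuousWithinAt
  · intro t ht
    rw [interior_Ici] at ht
    have ht' : (0 : ℝ) < t := ht
    rw [(hder t).deriv]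
    set σ := (volume : Measure E).toSphere with hσ
    -- the first variation
    have hfv := first_var hA hZ he hinj heq s (fun j => ph k (t • b j))
      (fun j z hz => ph_contDiffAt k _ hz) (fun j r hr z => ph_smul k _ hr z) (fun j => t • b j) (hequi t ht')
    -- continuity facts
    have hw : ∀ x, x ≠ 0 → ContinuousAt (wt Z) x := fun x hx => hZ.wt_cont hx
    have hg : ∀ (l : ℕ) (c : F) (x : E), x ≠ 0 → ContinuousAt (fun x => gk l (cs (Z x) c)) x := fun l c x hx =>
      ContinuousAt.comp (g := gk l) (gk_continuous l).continuousAt (cs_cont' hZ c hx)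
    have hPc : ∀ x : E, x ≠ 0 → ContinuousAt (fun y => Pr (fderiv ℝ Z y)) x := by
      intro x hx
      apply Pr_continuousAt ((hZ.diff x hx).continuousAt_fderiv (by norm_num))
      filter_upwards [isOpen_ne.mem_nhds hx] with y hy
      exact hinj y hy
    -- the defect
    set Q : E → ℝ := fun x => wt Z x * ∑ j ∈ s, gk (k + 1) (cs (Z x) (t • b j)) * (‖b j‖ ^ 2 - ‖Pr (fderiv ℝ Z x) (b j)‖ ^ 2)
      with hQ
    have hQc : ∀ x, x ≠ 0 → ContinuousAt Q x := by
      intro x hx
      refine (hw x hx).mul (tendsto_finsetSum _ fun j _ => ?_)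
      exact (hg _ _ x hx).mul (continuousAt_const.sub ((((hPc x hx).clm_apply continuousAt_const).norm).pow 2))
    have hQ0 : ∀ (x : E), 0 ≤ Q x := by
      intro x
      refine mul_nonneg (wt_nonneg _) (Finset.sum_nonneg fun j _ => mul_nonneg (gk_pos _ _).le ?_)
      have := Pr_le (fderiv ℝ Z x) (b j)
      have h1 := norm_nonneg (Pr (fderiv ℝ Z x) (b j))
      nlinarith
    have hx₁0 : x₁ ≠ 0 := by
      intro hh; rw [hh, norm_zero] at hx₁; norm_num at hx₁
    have hQ1 : 0 < Q x₁ := by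
      refine mul_pos ?_ ?_
      · unfold wt
        have hz := hZ.ne x₁ hx₁0
        have hJ : 0 < Ja Z x₁ := by
          have h2 : (fderiv ℝ Z x₁ : E →ₗ[ℝ] F).normDet ≠ 0 :=
            ((fderiv ℝ Z x₁ : E →ₗ[ℝ] F).normDet_ne_zero_tfae.out 0 4).mpr (hinj x₁ hx₁0)
          exact lt_of_le_of_ne (Ja_nonneg _) (Ne.symm h2)
        have : 0 < ‖Z x₁‖ := norm_pos_iff.mpr hz
        positivity
      · apply Finset.sum_pos' (fun j _ => ?_) ⟨j₀, hj₀, ?_⟩
        · refine mul_pos (gk_pos _ _) ?_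
          have h1 := norm_nonneg (Pr (fderiv ℝ Z x₁) (b j₀))
          nlinarith
        · refine mul_nonneg (gk_pos _ _).le ?_
          have := Pr_le (fderiv ℝ Z x₁) (b j)
          have h1 := norm_nonneg (Pr (fderiv ℝ Z x₁) (b j))
          nlinarith
    have hQint : 0 < ∫ x : sphere (0 : E) 1, Q x ∂σ := by
      refine Continuous.integral_pos_of_hasCompactSupport_nonneg_nonzero (f := fun x : sphere (0 : E) 1 => Q x)
        (x := ⟨x₁, by simpa using hx₁⟩) (cont_sphere hQc) (HasCompactSupport.of_compactSpace _) (fun x => hQ0 x) hQ1.ne'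
    -- identity
    have hid : t * ∑ j ∈ s, GA' Z (k + 1) (b j) t = -(Real.exp (-(t ^ 2 * β ^ 2)) *
        (∫ x : sphere (0 : E) 1, wt Z x * fv Z s (fun j => ph k (t • b j)) (fun j => t • b j) x ∂σ +
          2 * t ^ 2 * ∫ x : sphere (0 : E) 1, Q x ∂σ)) := by
      have i1 : ∀ j ∈ s, Integrable (fun x : sphere (0 : E) 1 => wt Z x * (Real.exp (-‖t • b j‖ ^ 2) *
          (2 * gk (k + 1 + 1) (cs (Z x) (t • b j)) * cs (Z x) (b j) -
            2 * t * ‖b j‖ ^ 2 * gk (k + 1) (cs (Z x) (t • b j))))) σ := by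
        intro j _
        refine int_sphere (f := fun x => wt Z x * (Real.exp (-‖t • b j‖ ^ 2) *
          (2 * gk (k + 1 + 1) (cs (Z x) (t • b j)) * cs (Z x) (b j) -
            2 * t * ‖b j‖ ^ 2 * gk (k + 1) (cs (Z x) (t • b j))))) fun x hx => ?_
        exact (hw x hx).mul (continuousAt_const.mul (((continuousAt_const.mul (hg _ _ x hx)).mul (cs_cont' hZ _ hx)).sub
          (continuousAt_const.mul (hg _ _ x hx))))
      unfold GA'
      rw [← integral_finsetSum _ i1, ← integral_const_mul, ← integral_const_mul (2 * t ^ 2), ← integral_add,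
        ← integral_const_mul, ← integral_neg]
      · refine integral_congr_ae (Filter.Eventually.of_forall fun x => ?_)
        have hx0 := sphere_ne x
        have hfx := fv_ph hZ hk s (fun j => t • b j) hx0
        simp only [hfx, hQ, Finset.mul_sum]
        rw [← Finset.sum_add_distrib, Finset.mul_sum, ← Finset.sum_neg_distrib]
        refine Finset.sum_congr rfl fun j hj => ?_
        have e1 : ‖t • b j‖ ^ 2 = t ^ 2 * β ^ 2 := by
          rw [norm_smul, mul_pow, Real.norm_eq_abs, sq_abs, hβ j hj]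
        have e2 : ‖Pr (fderiv ℝ Z x) (t • b j)‖ ^ 2 = t ^ 2 * ‖Pr (fderiv ℝ Z x) (b j)‖ ^ 2 := by
          rw [map_smul, norm_smul, mul_pow, Real.norm_eq_abs, sq_abs]
        rw [e1, e2, cs_smul_right]
        ring
      · exact int_sphere (f := fun x => wt Z x * fv Z s (fun j => ph k (t • b j)) (fun j => t • b j) x) fun x hx =>
          (hw x hx).mul (fv_cont hZ hinj s _ (fun j z hz => ph_contDiffAt k _ hz) _ hx)
      · exact (int_sphere hQc).const_mul _
    have hneg : t * ∑ j ∈ s, GA' Z (k + 1) (b j) t < 0 := by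
      rw [hid, neg_lt_zero]
      have := Real.exp_pos (-(t ^ 2 * β ^ 2))
      positivity
    by_contra hcon
    push Not at hcon
    have := mul_nonneg ht'.le hcon
    linarith

end Pool.Agent.Helper82.Rig
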