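import Mathlib

set_option autoImplicit false

namespace Pool.Agent.Helper82

noncomputable section

/-- one step of the recursion along an orbit -/
def stp (x : ℝ × ℝ × ℝ × ℝ) : ℝ × ℝ × ℝ × ℝ :=
  (x.1 + x.2.1,
   Real.sqrt (32 * (1 + (x.1 + x.2.1) ^ 2) - x.2.1 ^ 2),
   1 + (32 * (x.1 + x.2.1) - x.2.1 * (1 - 1 / x.2.2.1)) /
      Real.sqrt (32 * (1 + (x.1 + x.2.1) ^ 2) - x.2.1 ^ 2),
   32 - ((32 * (x.1 + x.2.1) - x.2.1 * (1 - 1 / x.2.2.1)) /
      Real.sqrt (32 * (1 + (x.1 + x.2.1) ^ 2) - x.2.1 ^ 2)) ^ 2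
      - (1 - 1 / x.2.2.1) ^ 2 - x.2.2.2 / x.2.2.1 ^ 3)

/-- the orbit quadruples -/
def X : ℕ → ℝ → ℝ × ℝ × ℝ × ℝ
  | 0, u => ((2 * u - 8) / (u + 2), (u ^ 2 + 8) / (u + 2), (u + 2) ^ 2 / 12,
      (u ^ 2 + 8) * (u + 2) ^ 2 / 72)
  | n + 1, u => stp (X n u)

def S (n : ℕ) (u : ℝ) : ℝ := (X n u).1
def D (n : ℕ) (u : ℝ) : ℝ := (X n u).2.1
def P (n : ℕ) (u : ℝ) : ℝ := (X n u).2.2.1
def G (n : ℕ) (u : ℝ) : ℝ := (X n u).2.2.2

theorem S_zero (u : ℝ) : S 0 u = (2 * u - 8) / (u + 2) := rfl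
theorem D_zero (u : ℝ) : D 0 u = (u ^ 2 + 8) / (u + 2) := rfl
theorem P_zero (u : ℝ) : P 0 u = (u + 2) ^ 2 / 12 := rfl
theorem G_zero (u : ℝ) : G 0 u = (u ^ 2 + 8) * (u + 2) ^ 2 / 72 := rfl
theorem S_succ (n : ℕ) (u : ℝ) : S (n + 1) u = S n u + D n u := rfl
theorem D_succ (n : ℕ) (u : ℝ) :
    D (n + 1) u = Real.sqrt (32 * (1 + (S (n + 1) u) ^ 2) - (D n u) ^ 2) := rfl
theorem P_succ (n : ℕ) (u : ℝ) :
    P (n + 1) u = 1 + (32 * S (n + 1) u - D n u * (1 - 1 / P n u)) / D (n + 1) u := rfl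
theorem G_succ' (n : ℕ) (u : ℝ) :
    G (n + 1) u = 32 - ((32 * S (n + 1) u - D n u * (1 - 1 / P n u)) / D (n + 1) u) ^ 2
      - (1 - 1 / P n u) ^ 2 - G n u / P n u ^ 3 := rfl
theorem G_succ (n : ℕ) (u : ℝ) :
    G (n + 1) u = 32 - (P (n + 1) u - 1) ^ 2 - (1 - 1 / P n u) ^ 2 - G n u / P n u ^ 3 := by
  rw [G_succ', P_succ]; ring

/-- derivative of `S n` -/
def sg : ℕ → ℝ → ℝ
  | 0, u => 12 / (u + 2) ^ 2
  | n + 1, u => P n u * sg n u

theorem hasDeriv (u : ℝ) (hu : 0 ≤ u) (n : ℕ)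
    (hD : ∀ j ≤ n, 0 < D j u) (hP : ∀ j ≤ n, 0 < P j u) :
    HasDerivAt (S n) (sg n u) u ∧ HasDerivAt (D n) ((P n u - 1) * sg n u) u ∧
      HasDerivAt (P n) (G n u / D n u * sg n u) u := by
  induction n with
  | zero =>
    have h2 : u + 2 ≠ 0 := by positivity
    have hid : HasDerivAt (fun x : ℝ => x + 2) 1 u := by
      simpa using (hasDerivAt_id u).add_const (2:ℝ)
    refine ⟨?_, ?_, ?_⟩
    · have h : HasDerivAt (fun x : ℝ => (2 * x - 8) / (x + 2))
        ((2 * (u + 2) - (2 * u - 8) * 1) / (u + 2) ^ 2) u := by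
        have h1 : HasDerivAt (fun x : ℝ => 2 * x - 8) 2 u := by
          simpa using ((hasDerivAt_id u).const_mul (2:ℝ)).sub_const (8:ℝ)
        exact h1.div hid h2
      have e : sg 0 u = ((2 * (u + 2) - (2 * u - 8) * 1) / (u + 2) ^ 2) := by
        simp only [sg]; congr 1; ring
      rw [e]; exact h
    · have h : HasDerivAt (fun x : ℝ => (x ^ 2 + 8) / (x + 2))
        ((2 * u * (u + 2) - (u ^ 2 + 8) * 1) / (u + 2) ^ 2) u := by
        have h1 : HasDerivAt (fun x : ℝ => x ^ 2 + 8) (2 * u) u := by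
          simpa using ((hasDerivAt_pow 2 u)).add_const (8:ℝ)
        exact h1.div hid h2
      have e : (P 0 u - 1) * sg 0 u = ((2 * u * (u + 2) - (u ^ 2 + 8) * 1) / (u + 2) ^ 2) := by
        simp only [sg, P_zero]; field_simp; ring
      rw [e]; exact h
    · have h : HasDerivAt (fun x : ℝ => (x + 2) ^ 2 / 12) (2 * (u + 2) / 12) u := by
        have h1 := (hid.pow 2).div_const (12:ℝ)
        simpa using h1
      have e : G 0 u / D 0 u * sg 0 u = (2 * (u + 2) / 12) := by
        simp only [sg, G_zero, D_zero]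
        have : u ^ 2 + 8 ≠ 0 := by positivity
        field_simp
        ring
      rw [e]; exact h
  | succ n ih =>
    obtain ⟨iS, iD, iP⟩ := ih (fun j hj => hD j (by omega)) (fun j hj => hP j (by omega))
    have hDn := hD n (by omega)
    have hPn := hP n (by omega)
    have hD1 := hD (n + 1) le_rfl
    have hrad : 32 * (1 + (S (n + 1) u) ^ 2) - (D n u) ^ 2 ≠ 0 := by
      intro h0
      have := D_succ n u
      rw [h0] at this
      simp at this
      linarith
    have jS : HasDerivAt (S (n + 1)) (sg (n + 1) u) u := by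
      have h1 := iS.add iD
      have e : sg (n + 1) u = sg n u + (P n u - 1) * sg n u := by simp only [sg]; ring
      rw [e]; exact h1
    have jD : HasDerivAt (D (n + 1)) ((P (n + 1) u - 1) * sg (n + 1) u) u := by
      have h1 : HasDerivAt (fun x => 32 * (1 + (S (n + 1) x) ^ 2) - (D n x) ^ 2)
          (32 * (2 * S (n + 1) u * sg (n + 1) u) - 2 * D n u * ((P n u - 1) * sg n u)) u := by
        have a := ((jS.pow 2).const_add (1:ℝ)).const_mul (32:ℝ)
        have b := iD.pow 2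
        have c := a.sub b
        refine HasDerivAt.congr_deriv c ?_
        simp
      have h2 := h1.sqrt hrad
      have e : (P (n + 1) u - 1) * sg (n + 1) u
          = (32 * (2 * S (n + 1) u * sg (n + 1) u) - 2 * D n u * ((P n u - 1) * sg n u)) /
            (2 * Real.sqrt (32 * (1 + (S (n + 1) u) ^ 2) - (D n u) ^ 2)) := by
        rw [← D_succ, P_succ]
        simp only [sg]
        field_simp
        ring
      rw [e]; exact h2
    refine ⟨jS, jD, ?_⟩
    have h1 : HasDerivAt (fun x => 1 + (32 * S (n + 1) x - D n x * (1 - 1 / P n x)) / D (n + 1) x)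
        (((32 * sg (n + 1) u - ((P n u - 1) * sg n u * (1 - 1 / P n u) + D n u *
          (G n u / D n u * sg n u / P n u ^ 2))) * D (n + 1) u -
          (32 * S (n + 1) u - D n u * (1 - 1 / P n u)) * ((P (n + 1) u - 1) * sg (n + 1) u))
          / D (n + 1) u ^ 2) u := by
      have a : HasDerivAt (fun x => 1 - 1 / P n x) (G n u / D n u * sg n u / P n u ^ 2) u := by
        have b := (iP.inv hPn.ne').const_sub (1:ℝ)
        have e : -(-(G n u / D n u * sg n u) / P n u ^ 2) = G n u / D n u * sg n u / P n u ^ 2 := by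
          ring
        rw [e] at b
        refine b.congr_of_eventuallyEq ?_
        filter_upwards with x
        simp
      have b := (jS.const_mul (32:ℝ)).sub (iD.mul a)
      have c := (b.div jD hD1.ne').const_add (1:ℝ)
      exact c
    have e : G (n + 1) u / D (n + 1) u * sg (n + 1) u =
        (((32 * sg (n + 1) u - ((P n u - 1) * sg n u * (1 - 1 / P n u) + D n u *
          (G n u / D n u * sg n u / P n u ^ 2))) * D (n + 1) u -
          (32 * S (n + 1) u - D n u * (1 - 1 / P n u)) * ((P (n + 1) u - 1) * sg (n + 1) u))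
          / D (n + 1) u ^ 2) := by
      rw [G_succ', P_succ]
      simp only [sg]
      field_simp
      ring
    rw [e]; exact h1

end

end Pool.Agent.Helper82
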